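import Mathlib

/-!
PG, M10, real analysis: a Cesaro argument.
-/

set_option autoImplicit false

open Filter Topology Finset

namespace HexPGC

/-- the increments of `x ^ (3/4)` -/
noncomputable def dd (i : ℕ) : ℝ := ((i : ℝ) + 1) ^ (3 / 4 : ℝ) - (i : ℝ) ^ (3 / 4 : ℝ)

theorem dd_bounds {i : ℕ} (hi : 1 ≤ i) :
    3 / 4 * ((i : ℝ) + 1) ^ (-(1 / 4) : ℝ) ≤ dd i ∧ dd i ≤ 3 / 4 * (i : ℝ) ^ (-(1 / 4) : ℝ) := by
  have hi0 : (0 : ℝ) < i := by exact_mod_cast hi
  obtain ⟨ξ, ⟨h1, h2⟩, h3⟩ := exists_hasDerivAt_eq_slope (fun x : ℝ => x ^ (3 / 4 : ℝ))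
    (fun x : ℝ => 3 / 4 * x ^ (3 / 4 - 1 : ℝ)) (show (i : ℝ) < i + 1 by linarith)
    (ContinuousOn.rpow_const continuousOn_id fun x _ => Or.inr (by norm_num))
    (fun x hx => Real.hasDerivAt_rpow_const (Or.inl (hi0.trans hx.1).ne'))
  have e : dd i = 3 / 4 * ξ ^ (3 / 4 - 1 : ℝ) := by
    rw [h3]
    unfold dd
    rw [add_sub_cancel_left, div_one]
  have hξ : 0 < ξ := hi0.trans h1
  rw [e, show (3 / 4 - 1 : ℝ) = -(1 / 4) by norm_num]
  constructor
  · have := Real.rpow_le_rpow_of_nonpos hξ h2.le (show (-(1 / 4) : ℝ) ≤ 0 by norm_num)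
    linarith
  · have := Real.rpow_le_rpow_of_nonpos hi0 h1.le (show (-(1 / 4) : ℝ) ≤ 0 by norm_num)
    linarith

theorem ratio_one (a : ℝ) : Tendsto (fun n : ℕ => (((n : ℝ) + 1) / n) ^ a) atTop (𝓝 1) := by
  have h : Tendsto (fun n : ℕ => ((n : ℝ) + 1) / n) atTop (𝓝 1) := by
    have := (tendsto_const_div_atTop_nhds_zero_nat (1 : ℝ)).const_add 1
    rw [add_zero] at this
    refine this.congr' ?_
    filter_upwards [eventually_gt_atTop 0] with n hn
    have hn' : (n : ℝ) ≠ 0 := by exact_mod_cast hn.ne'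
    field_simp
  have h2 := h.rpow_const (p := a) (Or.inl one_ne_zero)
  rwa [Real.one_rpow] at h2

/-- the increments, sharp -/
theorem dd_lim : Tendsto (fun n : ℕ => dd n * (n : ℝ) ^ (1 / 4 : ℝ)) atTop (𝓝 (3 / 4)) := by
  have h1 : Tendsto (fun n : ℕ => 3 / 4 * (((n : ℝ) + 1) / n) ^ (-(1 / 4) : ℝ)) atTop (𝓝 (3 / 4)) := by
    have := (ratio_one (-(1 / 4))).const_mul (3 / 4 : ℝ)
    rwa [mul_one] at this
  refine tendsto_of_tendsto_of_tendsto_of_le_of_le' h1 tendsto_const_nhds ?_ ?_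
  · filter_upwards [eventually_ge_atTop 1] with n hn
    have hn0 : (0 : ℝ) < n := by exact_mod_cast hn
    have h2 := (dd_bounds hn).1
    have e : (((n : ℝ) + 1) / n) ^ (-(1 / 4) : ℝ) = ((n : ℝ) + 1) ^ (-(1 / 4) : ℝ) * (n : ℝ) ^ (1 / 4 : ℝ) := by
      rw [Real.div_rpow (by linarith) hn0.le, Real.rpow_neg hn0.le, div_inv_eq_mul]
    rw [e, ← mul_assoc]
    exact mul_le_mul_of_nonneg_right h2 (Real.rpow_nonneg hn0.le _)
  · filter_upwards [eventually_ge_atTop 1] with n hn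
    have hn0 : (0 : ℝ) < n := by exact_mod_cast hn
    have h2 := (dd_bounds hn).2
    have h3 := mul_le_mul_of_nonneg_right h2 (Real.rpow_nonneg hn0.le (1 / 4))
    have e : (n : ℝ) ^ (-(1 / 4) : ℝ) * (n : ℝ) ^ (1 / 4 : ℝ) = 1 := by
      rw [← Real.rpow_add hn0]
      norm_num
    rw [mul_assoc, e, mul_one] at h3
    exact h3

theorem sum_dd (n : ℕ) : ∑ i ∈ range n, dd i = (n : ℝ) ^ (3 / 4 : ℝ) := by
  have h := Finset.sum_range_sub (fun i : ℕ => (i : ℝ) ^ (3 / 4 : ℝ)) n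
  rw [Nat.cast_zero, Real.zero_rpow (by norm_num), sub_zero] at h
  rw [← h]
  refine Finset.sum_congr rfl fun i _ => ?_
  unfold dd
  push_cast
  rfl

theorem dd_nonneg (i : ℕ) : 0 ≤ dd i := by
  unfold dd
  have := Real.rpow_le_rpow (show (0 : ℝ) ≤ i by positivity) (show (i : ℝ) ≤ i + 1 by linarith)
    (show (0 : ℝ) ≤ 3 / 4 by norm_num)
  linarith

theorem pow_atTop : Tendsto (fun n : ℕ => (n : ℝ) ^ (3 / 4 : ℝ)) atTop atTop :=
  (tendsto_rpow_atTop (by norm_num)).comp tendsto_natCast_atTop_atTop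

/-- sums of a sequence like `β n ^ (-1/4)` -/
theorem sum_lim {f : ℕ → ℝ} {β : ℝ} (h : Tendsto (fun n : ℕ => f n * (n : ℝ) ^ (1 / 4 : ℝ)) atTop (𝓝 β)) :
    Tendsto (fun n : ℕ => (∑ i ∈ range n, f i) / (n : ℝ) ^ (3 / 4 : ℝ)) atTop (𝓝 (4 / 3 * β)) := by
  have h1 : (fun n => f n - 4 / 3 * β * dd n) =o[atTop] dd := by
    have hpos : ∀ᶠ n : ℕ in atTop, dd n ≠ 0 := by
      filter_upwards [eventually_ge_atTop 1] with n hn
      have hn0 : (0 : ℝ) < n := by exact_mod_cast hn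
      have := (dd_bounds hn).1
      have h3 : 0 < 3 / 4 * ((n : ℝ) + 1) ^ (-(1 / 4) : ℝ) := by positivity
      linarith
    rw [Asymptotics.isLittleO_iff_tendsto' (hpos.mono fun n hn h0 => absurd h0 hn)]
    have h2 := (h.div dd_lim (by norm_num)).sub_const (4 / 3 * β)
    have e : β / (3 / 4) - 4 / 3 * β = 0 := by ring
    rw [e] at h2
    refine h2.congr' ?_
    filter_upwards [hpos, eventually_ge_atTop 1] with n hd hn
    have hn0 : (0 : ℝ) < n := by exact_mod_cast hn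
    have hq : (n : ℝ) ^ (1 / 4 : ℝ) ≠ 0 := (Real.rpow_pos_of_pos hn0 _).ne'
    simp only [Pi.div_apply]
    field_simp
  have h2 := h1.sum_range dd_nonneg (by
    refine pow_atTop.congr fun n => ?_
    exact (sum_dd n).symm)
  simp only [sum_dd, Finset.sum_sub_distrib, ← Finset.mul_sum] at h2
  have h3 := h2.tendsto_div_nhds_zero.add_const (4 / 3 * β)
  rw [zero_add] at h3
  refine h3.congr' ?_
  filter_upwards [eventually_ge_atTop 1] with n hn
  have hn0 : (0 : ℝ) < n := by exact_mod_cast hn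
  have hq : (n : ℝ) ^ (3 / 4 : ℝ) ≠ 0 := (Real.rpow_pos_of_pos hn0 _).ne'
  field_simp
  ring

/-- a shift of the index -/
theorem shift_lim {f : ℕ → ℝ} {a β : ℝ} (h : Tendsto (fun n : ℕ => f n * (n : ℝ) ^ a) atTop (𝓝 β)) :
    Tendsto (fun n : ℕ => f (n + 1) * (n : ℝ) ^ a) atTop (𝓝 β) := by
  have h1 := (h.comp (tendsto_add_atTop_nat 1)).mul (ratio_one (-a))
  rw [mul_one] at h1
  refine h1.congr' ?_
  filter_upwards [eventually_ge_atTop 1] with n hn
  have hn0 : (0 : ℝ) < n := by exact_mod_cast hn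
  simp only [Function.comp_apply]
  push_cast
  rw [Real.div_rpow (by linarith) hn0.le, Real.rpow_neg hn0.le, Real.rpow_neg (by linarith)]
  have h2 : ((n : ℝ) + 1) ^ a ≠ 0 := (Real.rpow_pos_of_pos (by linarith) _).ne'
  have h3 : (n : ℝ) ^ a ≠ 0 := (Real.rpow_pos_of_pos hn0 _).ne'
  field_simp

/-- **the Cesaro argument** -/
theorem core {K B c : ℕ → ℝ} {b κ a : ℝ} (ha : 0 < a) (hb : 0 < b) (hκ : 0 < κ)
    (hK : ∀ T, 1 ≤ T → K T ≤ K (T + 1)) (hc : ∀ T, 1 ≤ T → c (T + 1) ≤ c T) (hc0 : ∀ T, 1 ≤ T → 0 ≤ c T)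
    (hid : ∀ T, 1 ≤ T → B T + B (T + 1) = a * (K (T + 1) - K T) * c T)
    (hB : Tendsto (fun n : ℕ => B n * (n : ℝ) ^ (1 / 4 : ℝ)) atTop (𝓝 b))
    (hKl : Tendsto (fun n : ℕ => K n / (n : ℝ) ^ (3 / 4 : ℝ)) atTop (𝓝 κ)) :
    Tendsto c atTop (𝓝 (8 * b / (3 * a * κ))) ∧
      Tendsto (fun n : ℕ => (K (n + 1) - K n) * (n : ℝ) ^ (1 / 4 : ℝ)) atTop (𝓝 (3 / 4 * κ)) := by
  -- shifted sequences
  set c' : ℕ → ℝ := fun i => c (i + 1) with hc'
  set x : ℕ → ℝ := fun i => K (i + 1 + 1) - K (i + 1) with hx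
  have hx0 : ∀ i, 0 ≤ x i := fun i => sub_nonneg.2 (hK (i + 1) (by omega))
  have hanti : Antitone c' := antitone_nat_of_succ_le fun i => hc (i + 1) (by omega)
  have hbdd : BddBelow (Set.range c') := ⟨0, by rintro _ ⟨i, rfl⟩; exact hc0 (i + 1) (by omega)⟩
  obtain ⟨γ, hγ⟩ : ∃ γ, Tendsto c' atTop (𝓝 γ) := ⟨_, tendsto_atTop_ciInf hanti hbdd⟩
  have hsum : ∀ n, ∑ i ∈ range n, x i = K (n + 1) - K 1 := fun n =>
    Finset.sum_range_sub (fun i => K (i + 1)) n
  have hKl' : Tendsto (fun n : ℕ => (∑ i ∈ range n, x i) / (n : ℝ) ^ (3 / 4 : ℝ)) atTop (𝓝 κ) := by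
    have h1 : Tendsto (fun n : ℕ => K n * (n : ℝ) ^ (-(3 / 4) : ℝ)) atTop (𝓝 κ) := by
      refine hKl.congr fun n => ?_
      rw [Real.rpow_neg (by positivity), div_eq_mul_inv]
    have h2 := (shift_lim h1).sub (pow_atTop.const_div_atTop (K 1))
    rw [sub_zero] at h2
    refine h2.congr fun n => ?_
    rw [hsum, Real.rpow_neg (by positivity)]
    ring
  have hS : Tendsto (fun n : ℕ => ∑ i ∈ range n, x i) atTop atTop := by
    have h1 := hKl'.pos_mul_atTop hκ pow_atTop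
    refine h1.congr' ?_
    filter_upwards [eventually_ge_atTop 1] with n hn
    have hn0 : (0 : ℝ) < n := by exact_mod_cast hn
    exact div_mul_cancel₀ _ (Real.rpow_pos_of_pos hn0 _).ne'
  -- the Cesaro mean
  have h1 : (fun n => x n * (c' n - γ)) =o[atTop] x := by
    have h2 : Tendsto (fun n => c' n - γ) atTop (𝓝 0) := by
      have := hγ.sub_const γ
      rwa [sub_self] at this
    have h3 : (fun n => c' n - γ) =o[atTop] (fun _ => (1 : ℝ)) := (Asymptotics.isLittleO_one_iff ℝ).2 h2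
    have h4 := (Asymptotics.isBigO_refl x atTop).mul_isLittleO h3
    simpa using h4
  have h2 := h1.sum_range hx0 hS
  have h3 := h2.tendsto_div_nhds_zero
  have h4 := h3.mul hKl'
  rw [zero_mul] at h4
  have h5 : Tendsto (fun n : ℕ => (∑ i ∈ range n, x i * c' i) / (n : ℝ) ^ (3 / 4 : ℝ)) atTop (𝓝 (γ * κ)) := by
    have h6 := h4.add (hKl'.const_mul γ)
    rw [zero_add] at h6
    refine h6.congr' ?_
    filter_upwards [hS.eventually_gt_atTop 0] with n hn
    have e : ∑ i ∈ range n, x i * (c' i - γ) = ∑ i ∈ range n, x i * c' i - γ * ∑ i ∈ range n, x i := by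
      rw [Finset.mul_sum, ← Finset.sum_sub_distrib]
      exact Finset.sum_congr rfl fun i _ => by ring
    rw [e]
    have hne : ∑ i ∈ range n, x i ≠ 0 := hn.ne'
    rw [div_mul_div_cancel₀ hne]
    ring
  -- the other side
  have h6 : Tendsto (fun n : ℕ => (B (n + 1) + B (n + 1 + 1)) * (n : ℝ) ^ (1 / 4 : ℝ)) atTop (𝓝 (b + b)) := by
    have h7 := shift_lim hB
    have h8 := shift_lim h7
    refine (h7.add h8).congr fun n => ?_
    ring
  have h7 := sum_lim h6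
  have h8 : Tendsto (fun n : ℕ => a * ((∑ i ∈ range n, x i * c' i) / (n : ℝ) ^ (3 / 4 : ℝ))) atTop
      (𝓝 (a * (γ * κ))) := h5.const_mul a
  have h9 : a * (γ * κ) = 4 / 3 * (b + b) := by
    refine tendsto_nhds_unique h8 (h7.congr fun n => ?_)
    rw [← mul_div_assoc, Finset.mul_sum]
    congr 1
    refine Finset.sum_congr rfl fun i _ => ?_
    have := hid (i + 1) (by omega)
    rw [this]
    simp only [hx, hc']
    ring
  have hγe : γ = 8 * b / (3 * a * κ) := by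
    rw [eq_div_iff (by positivity)]
    linarith
  have hγ0 : 0 < γ := by
    rw [hγe]
    positivity
  have hcl : Tendsto c atTop (𝓝 γ) := (tendsto_add_atTop_iff_nat 1).1 hγ
  refine ⟨hγe ▸ hcl, ?_⟩
  have h10 : Tendsto (fun n : ℕ => (B n + B (n + 1)) * (n : ℝ) ^ (1 / 4 : ℝ)) atTop (𝓝 (b + b)) := by
    refine (hB.add (shift_lim hB)).congr fun n => ?_
    ring
  have h11 := (h10.div hcl hγ0.ne').div_const a
  have e : (b + b) / γ / a = 3 / 4 * κ := by
    rw [hγe]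
    field_simp
    ring
  rw [e] at h11
  refine h11.congr' ?_
  filter_upwards [eventually_ge_atTop 1, hcl.eventually_ne hγ0.ne'] with n hn hcn
  simp only [Pi.div_apply]
  rw [hid n hn]
  field_simp

end HexPGC
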