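import Pool.Agent.HexPG.Defs
import Pool.Agent.HexPG.Cesaro
import Pool.Agent.EXK.Final

/-!
PG, M10: the total weight of the polygons and the increments of K.
-/

set_option autoImplicit false

namespace HexObs

namespace PG

open SP Finset ENNReal Filter Topology

/-- the limit of K -/
noncomputable def kap : ℝ :=
  2 ^ (5 / 4 : ℝ) * 3 ^ (-(3 / 8) : ℝ) * (Real.sqrt 2 - 1) * Real.Gamma (3 / 4) / Real.sqrt Real.pi

lemma st_subset (T : ℕ) : St (T + 1) ⊆ St (T + 2) := by
  intro v hv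
  rw [XB.mem_St''] at hv ⊢
  refine ⟨hv.1, hv.2.1, ?_⟩
  push_cast at hv ⊢
  linarith [hv.2.2]

lemma WW_mono (T : ℕ) : WW T ≤ WW (T + 1) := by
  unfold WW
  apply gf_mono
  rintro u ⟨h1, h2⟩
  refine ⟨⟨fun i hi hl => ?_, h1.inj⟩, h2⟩
  exact ⟨st_subset T (h1.mem i hi hl).1, (h1.mem i hi hl).2⟩

lemma kt_sub {T : ℕ} (hT : 1 ≤ T) :
    (XX T).toReal = xc * (Real.sqrt 2 + 1) * ((KT (T + 1)).toReal - (KT T).toReal) := by
  have hx := xc_pos
  have h2 : Real.sqrt 2 ^ 2 = 2 := Real.sq_sqrt (by norm_num)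
  have hs1 : 1 < Real.sqrt 2 := by
    rw [Real.lt_sqrt (by norm_num)]
    norm_num
  have hX : XX T = ENNReal.ofReal xc * ∑' z : ℤ, xT T z := le_antisymm (XX_le T) (xc_sum_le T)
  have hK := congrArg ENNReal.toReal (K_eq hT)
  have hKT : KT T ≠ ∞ := (two (T := T) hT).1
  have hKT' : KT (T + 1) ≠ ∞ := (two (T := T + 1) (by omega)).1
  have hsum : ∑' z : ℤ, xT T z ≠ ∞ := by
    intro h
    have := XX_ne_top T
    rw [hX, h] at this
    exact this (ENNReal.mul_top (by simpa using hx))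
  rw [ENNReal.toReal_add hKT (ENNReal.mul_ne_top ENNReal.ofReal_ne_top hsum), ENNReal.toReal_mul,
    ENNReal.toReal_ofReal (by linarith)] at hK
  rw [hX, ENNReal.toReal_mul, ENNReal.toReal_ofReal hx.le, hK]
  linear_combination (-(xc * (∑' z : ℤ, xT T z).toReal)) * h2

section

variable (hW : ∀ T, WW T ≠ ∞)
  (h : ∀ T, 1 ≤ T → (BT T).toReal + (BT (T + 1)).toReal =
      (XX T).toReal * (3 + Real.sqrt 2 - 2 * sn 1 * (WW T).toReal))
include hW h

lemma both : Tendsto (fun T => 3 + Real.sqrt 2 - 2 * sn 1 * (WW T).toReal) atTop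
      (𝓝 (8 * EXG.bB / (3 * (xc * (Real.sqrt 2 + 1)) * kap))) ∧
    Tendsto (fun T : ℕ => ((KT (T + 1)).toReal - (KT T).toReal) * (T : ℝ) ^ (1 / 4 : ℝ)) atTop
      (𝓝 (3 / 4 * kap)) := by
  have hx := xc_pos
  have hs1 : 1 < Real.sqrt 2 := by
    rw [Real.lt_sqrt (by norm_num)]
    norm_num
  have hsn : 0 < sn 1 := by
    unfold sn
    exact Real.sin_pos_of_pos_of_lt_pi (by positivity) (by linarith [Real.pi_pos])
  have hκ : 0 < kap := by
    unfold kap
    have : 0 < Real.Gamma (3 / 4) := Real.Gamma_pos_of_pos (by norm_num)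
    have h1 : 0 < Real.sqrt 2 - 1 := by linarith
    positivity
  have hXpos : ∀ T, 1 ≤ T → 0 < (XX T).toReal := by
    intro T hT
    refine ENNReal.toReal_pos ?_ (XX_ne_top T)
    intro h0
    have h1 := le_XX hT
    rw [h0, nonpos_iff_eq_zero, mul_eq_zero] at h1
    rcases h1 with h1 | h1
    · rw [ENNReal.ofReal_eq_zero] at h1
      have : 0 < Real.sqrt 2 * xc ^ 2 := by positivity
      linarith
    · have h2 := bT_pos hT
      unfold bT at h2
      rw [h1] at h2
      simp at h2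
  have hK0 : ∀ T, 1 ≤ T → (KT T).toReal ≤ (KT (T + 1)).toReal := by
    intro T hT
    have h1 := kt_sub hT
    have h2 := hXpos T hT
    rw [h1] at h2
    have h3 : 0 < xc * (Real.sqrt 2 + 1) := by positivity
    have := (mul_pos_iff_of_pos_left h3).1 h2
    linarith
  refine HexPGC.core (K := fun T => (KT T).toReal) (B := fun T => (BT T).toReal)
    (c := fun T => 3 + Real.sqrt 2 - 2 * sn 1 * (WW T).toReal) (a := xc * (Real.sqrt 2 + 1))
    (by positivity) EXG.bB_pos hκ hK0 ?_ ?_ ?_ EXK.bT_asym ?_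
  · intro T _
    have := ENNReal.toReal_mono (hW (T + 1)) (WW_mono T)
    have := mul_le_mul_of_nonneg_left this (show 0 ≤ 2 * sn 1 by linarith)
    show 3 + Real.sqrt 2 - 2 * sn 1 * (WW (T + 1)).toReal ≤ 3 + Real.sqrt 2 - 2 * sn 1 * (WW T).toReal
    linarith
  · intro T hT
    have h1 := h T hT
    have h2 := hXpos T hT
    have h3 : 0 ≤ (BT T).toReal + (BT (T + 1)).toReal := add_nonneg ENNReal.toReal_nonneg ENNReal.toReal_nonneg
    rw [h1] at h3
    exact nonneg_of_mul_nonneg_right h3 h2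
  · intro T hT
    show (BT T).toReal + (BT (T + 1)).toReal = _
    rw [h T hT, kt_sub hT]
  · refine EXK.K_asym.congr' ?_
    filter_upwards [eventually_ge_atTop 1] with T hT
    rw [EXK.KR_eq hT]

/-- the total weight of the polygons -/
theorem s_lim : Tendsto (fun T => xc * (WW T).toReal) atTop
    (𝓝 (1 + 3 / Real.sqrt 2 - 16 / (3 * Real.sqrt 3))) := by
  have h1 := (both hW h).1
  have hx := xc_pos
  have h2 : Real.sqrt 2 ^ 2 = 2 := Real.sq_sqrt (by norm_num)
  have h3 : Real.sqrt 3 ^ 2 = 3 := Real.sq_sqrt (by norm_num)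
  have hs1 : 1 < Real.sqrt 2 := by
    rw [Real.lt_sqrt (by norm_num)]
    norm_num
  have h30 : 0 < Real.sqrt 3 := by positivity
  have hsn : 0 < sn 1 := by
    unfold sn
    exact Real.sin_pos_of_pos_of_lt_pi (by positivity) (by linarith [Real.pi_pos])
  have hc : 0 < Real.cos (Real.pi / 8) := EXK.c1_pos
  have hsn1 : sn 1 = Real.sin (Real.pi / 8) := by
    unfold sn
    rw [one_mul]
  have hxc : xc = 1 / (2 * Real.cos (Real.pi / 8)) := by
    unfold xc
    rfl
  have hsc : 2 * Real.sin (Real.pi / 8) * Real.cos (Real.pi / 8) = Real.sqrt 2 / 2 := by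
    rw [← Real.sin_two_mul, show 2 * (Real.pi / 8) = Real.pi / 4 by ring, Real.sin_pi_div_four]
  have hcc : Real.cos (Real.pi / 8) ^ 2 = (2 + Real.sqrt 2) / 4 := by
    rw [Real.cos_sq, show 2 * (Real.pi / 8) = Real.pi / 4 by ring, Real.cos_pi_div_four]
    ring
  -- the limit of c
  have hconst : 8 * EXG.bB / (3 * (xc * (Real.sqrt 2 + 1)) * kap) = 16 * Real.sqrt 2 / (3 * Real.sqrt 3) := by
    have e1 : kap = EXG.bB * (Real.sqrt 3 / (4 * Real.sin (3 * Real.pi / 8))) := EXK.const_eq.symm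
    have hb := EXG.bB_pos
    rw [e1, EXK.s3_eq, hxc]
    generalize Real.cos (Real.pi / 8) = c at hc hcc
    generalize EXG.bB = b at hb
    have h6 : c ^ 2 * 4 = 2 + Real.sqrt 2 := by linarith
    have h7 : 0 < Real.sqrt 2 + 1 := by linarith
    rw [div_eq_div_iff (by positivity) (by positivity)]
    field_simp
    have e8 : 64 * c ^ 2 = 16 * (2 + Real.sqrt 2) := by linarith
    nlinarith [e8, h2, h3]
  rw [hconst] at h1
  have h4 := (h1.const_sub (3 + Real.sqrt 2)).mul_const (xc / (2 * sn 1))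
  have e : (3 + Real.sqrt 2 - 16 * Real.sqrt 2 / (3 * Real.sqrt 3)) * (xc / (2 * sn 1)) =
      1 + 3 / Real.sqrt 2 - 16 / (3 * Real.sqrt 3) := by
    have e5 : xc / (2 * sn 1) = 1 / Real.sqrt 2 := by
      have h9 : 2 * Real.cos (Real.pi / 8) * (2 * Real.sin (Real.pi / 8)) = Real.sqrt 2 := by
        linear_combination 2 * hsc
      rw [hsn1, hxc, div_div, h9]
    rw [e5]
    field_simp
    ring
  rw [e] at h4
  refine h4.congr fun T => ?_
  field_simp
  ring

/-- the increments of K -/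
theorem kd_lim : Tendsto (fun T : ℕ => ((KT (T + 1)).toReal - (KT T).toReal) * (T : ℝ) ^ (1 / 4 : ℝ)) atTop
    (𝓝 (3 / 4 * kap)) := (both hW h).2

end

end PG

end HexObs
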