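import Pool.Agent.HexPG.SumT
import Pool.Agent.HexTP.StripL

/-!
PG, M9: the polygons as lists of sites of the brick wall.
-/

set_option autoImplicit false

namespace HexObs

namespace PG

open SP ENNReal

/-- polygons in cyclic order: the last site is the rightmost one of the lowest row, (1, 1). -/
def PolyL (T : ℕ) (L : List (ℤ × ℤ)) : Prop :=
  L.IsChain CC.Edge ∧ L.Nodup ∧ (∀ p ∈ L, 1 ≤ p.2 ∧ p.2 ≤ T) ∧ L.head? = some (0, 1) ∧
    L.getLast? = some (1, 1) ∧ 3 ≤ L.length ∧ ∀ p ∈ L, p.2 = 1 → p.1 ≤ 1

lemma wa_data {T : ℕ} {u : List Bool} (h : u ∈ WA (St (T + 1))) :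
    Saw (St (T + 1)) oo up u ∧ 2 ≤ u.length ∧ vx oo up u 1 = ue 0 ∧ tip oo up u = le 1 ∧
      dx up u u.length = -up ∧ ∀ i, 1 < i → i ≤ u.length → vx oo up u i ∉ OO := by
  obtain ⟨h1, h2, h3, h4⟩ := h
  rw [Set.sdiff_empty] at h1
  have h5 := adm_vx h2
  have hp : (SP.pre 0).length = 1 := by
    unfold SP.pre
    rw [if_pos rfl]
    rfl
  have h6 : 1 ≤ u.length := by
    have h7 := h2.pre.length_le
    rwa [hp] at h7
  rw [ft0] at h1 h3 h5
  refine ⟨h1, ?_, h5.1, h3, h4, ?_⟩
  · by_contra hcon
    have h7 : u.length = 1 := by omega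
    have h8 : tip oo up u = le 0 := by
      unfold tip
      rw [h7]
      exact h5.2.1
    rw [h3] at h8
    exact absurd h8 (by decide)
  · intro i hi hl
    have h9 := h2.out i (by rw [hp]; exact hi) hl
    rwa [ft0] at h9

lemma ph_row {v : Pt} (h : CC.lv v % 3 ≠ 1) (h1 : (CC.ph v).2 = 1) (h2 : v ∉ OO) : (CC.ph v).1 ≤ 1 := by
  unfold CC.ph at h1 ⊢
  unfold CC.lv at h
  simp only at h1 h ⊢
  by_contra hcon
  push Not at hcon
  apply h2
  unfold OO lv nn
  show v.1 + 2 * v.2 ≤ 3 ∧ -1 ≤ v.1 - v.2
  omega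

lemma le_one_mem (T : ℕ) : le 1 ∈ St (T + 1) := by
  have hT : (0 : ℤ) ≤ T := Int.natCast_nonneg T
  exact i7_mem_St (Or.inl (i7_cl_le 1)) (by rw [i7_lv_le]; norm_num) (by rw [i7_lv_le]; linarith)

lemma le_one_OO : le 1 ∈ OO := by
  unfold OO le lv nn
  decide

lemma poly_f {T : ℕ} {u : List Bool} (h : u ∈ WA (St (T + 1))) : PolyL (T + 1) (CC.toL oo (u ++ [true])) := by
  obtain ⟨hs, hn, hv1, htip, hdx, hout⟩ := wa_data h
  have h0 : CC.lv oo = 0 := CC.lv_oo
  have hlen : (u ++ [true]).length = u.length + 1 := by simp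
  have hL := CC.toL_length oo (u ++ [true])
  have hv : ∀ i, i ≤ u.length + 1 → vx oo up (u ++ [true]) i = vx oo up u i := fun i hi => vx_append hi
  have hvt : vx oo up u (u.length + 1) = le 1 := htip
  have hne : ∀ i, 1 ≤ i → i ≤ u.length → vx oo up u i ≠ le 1 := by
    intro i h1 h2 h3
    rcases lt_or_eq_of_le h1 with h4 | h4
    · exact hout i h4 h2 (h3 ▸ le_one_OO)
    · rw [← h4, hv1] at h3
      exact absurd h3 (by decide)
  have hinj : ∀ i k, 1 ≤ i → i < k → k ≤ u.length + 1 → vx oo up (u ++ [true]) i ≠ vx oo up (u ++ [true]) k := by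
    intro i k h1 h2 h3
    rw [hv i (by omega), hv k h3]
    rcases lt_or_eq_of_le h3 with h4 | h4
    · exact hs.inj i k h2 (by omega)
    · rw [h4, hvt]
      exact hne i h1 (by omega)
  have hmem : ∀ i, 1 ≤ i → i ≤ u.length + 1 → vx oo up (u ++ [true]) i ∈ St (T + 1) := by
    intro i h1 h2
    rw [hv i h2]
    rcases lt_or_eq_of_le h2 with h4 | h4
    · exact hs.mem i h1 (by omega)
    · rw [h4, hvt]
      exact le_one_mem T
  refine ⟨?_, ?_, ?_, ?_, ?_, ?_, ?_⟩
  · rw [List.isChain_iff_getElem]
    intro i hi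
    rw [CC.toL_getElem, CC.toL_getElem]
    exact CC.edge_vx h0 _ (i + 1)
  · rw [List.nodup_iff_injective_getElem]
    intro i j hij
    simp only at hij
    rw [CC.toL_getElem, CC.toL_getElem] at hij
    have h1 := CC.ph_inj (CC.lv_vx_ne h0 _ _) (CC.lv_vx_ne h0 _ _) hij
    have hi := i.2
    have hj := j.2
    rcases lt_trichotomy i.1 j.1 with h | h | h
    · exact absurd h1 (hinj _ _ (by omega) (by omega) (by omega))
    · exact Fin.ext h
    · exact absurd h1.symm (hinj _ _ (by omega) (by omega) (by omega))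
  · intro q hq
    rw [CC.mem_toL] at hq
    obtain ⟨p, ⟨i, h1, h2, rfl⟩, rfl⟩ := hq
    have h3 := hmem i h1 (by omega)
    rw [← CC.ps_ph (CC.lv_vx_ne h0 _ i), CC.ps_mem_St] at h3
    exact h3
  · rw [List.head?_eq_getElem?, List.getElem?_eq_getElem (by omega), CC.toL_getElem, hv _ (by omega), hv1]
    rfl
  · rw [List.getLast?_eq_getElem?, hL, List.getElem?_eq_getElem (by omega), CC.toL_getElem]
    have h1 : (u ++ [true]).length - 1 + 1 = u.length + 1 := by omega
    rw [h1, hv _ le_rfl, hvt]
    rfl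
  · omega
  · intro q hq hq1
    rw [CC.mem_toL] at hq
    obtain ⟨p, ⟨i, h1, h2, rfl⟩, rfl⟩ := hq
    rw [hv i (by omega)] at hq1 ⊢
    rcases lt_or_eq_of_le (show i ≤ u.length + 1 by omega) with h4 | h4
    · rcases lt_or_eq_of_le h1 with h5 | h5
      · exact ph_row (CC.lv_vx_ne h0 _ i) hq1 (hout i h5 (by omega))
      · rw [← h5, hv1]
        decide
    · rw [h4, hvt]
      decide

lemma poly_inj {u v : List Bool} (h : CC.toL oo (u ++ [true]) = CC.toL oo (v ++ [true])) : u = v := by
  have h0 : CC.lv oo = 0 := CC.lv_oo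
  have hlu : (u ++ [true]).length = u.length + 1 := by simp
  have hlv : (v ++ [true]).length = v.length + 1 := by simp
  have hl : u.length = v.length := by
    have h1 := CC.toL_length oo (u ++ [true])
    have h2 := CC.toL_length oo (v ++ [true])
    rw [h] at h1
    omega
  have hvx : ∀ i, i ≤ u.length + 1 → vx oo up u i = vx oo up v i := by
    intro i hi
    rcases Nat.eq_zero_or_pos i with rfl | hpos
    · rfl
    · have h1 : (CC.toL oo (u ++ [true]))[i - 1]'(by rw [CC.toL_length]; omega) =
          (CC.toL oo (v ++ [true]))[i - 1]'(by rw [CC.toL_length]; omega) := by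
        congr 1
      rw [CC.toL_getElem, CC.toL_getElem] at h1
      have e : i - 1 + 1 = i := by omega
      rw [e] at h1
      have h2 := CC.ph_inj (CC.lv_vx_ne h0 _ _) (CC.lv_vx_ne h0 _ _) h1
      rwa [vx_append hi, vx_append (by omega)] at h2
  have hd : ∀ i, i ≤ u.length → dx up u i = dx up v i := by
    intro i hi
    have h1 := hvx (i + 1) (by omega)
    rw [vx_succ, vx_succ, hvx i (by omega)] at h1
    exact add_left_cancel h1
  apply tf_ext hl
  intro i hi
  have h1 := hd (i + 1) (by omega)
  rw [dx_succ, dx_succ, hd i (by omega)] at h1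
  exact CC.turn_bool_inj (dx_mem HexW.up_mem v i) h1

lemma poly_surj {T : ℕ} {L : List (ℤ × ℤ)} (hL : PolyL (T + 1) L) :
    ∃ u ∈ WA (St (T + 1)), CC.toL oo (u ++ [true]) = L := by
  obtain ⟨hch, hnd, hrow, hhead, hlast, hlen, hx⟩ := hL
  have h0 : CC.lv oo = 0 := CC.lv_oo
  have hne : L ≠ [] := by
    intro h
    rw [h] at hlen
    simp at hlen
  have hg0 : L[0]'(by omega) = (0, 1) := by
    rw [List.head?_eq_getElem?, List.getElem?_eq_getElem (by omega)] at hhead
    exact Option.some.inj hhead
  have hgl : L[L.length - 1]'(by omega) = (1, 1) := by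
    rw [List.getLast?_eq_getElem?, List.getElem?_eq_getElem (by omega)] at hlast
    exact Option.some.inj hlast
  have hninj : ∀ i j (hi : i < L.length) (hj : j < L.length), L[i] = L[j] → i = j := by
    intro i j hi hj h
    exact (List.Nodup.getElem_inj_iff hnd).1 h
  -- the arc
  have hA : TP.ArcL (2 * ((1 : ℕ) : ℤ)) (L ++ [(2, 1)]) := by
    refine ⟨?_, ?_, ?_, ?_, ?_⟩
    · rw [List.isChain_append]
      refine ⟨hch, List.isChain_singleton _, ?_⟩
      intro a ha b hb
      rw [hlast] at ha
      have ha' := Option.mem_some_iff.1 ha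
      have hb' : (2, 1) = b := Option.mem_some_iff.1 hb
      rw [← ha', ← hb']
      left
      rfl
    · rw [List.nodup_append]
      refine ⟨hnd, List.nodup_singleton _, ?_⟩
      intro a ha b hb hab
      rw [List.mem_singleton] at hb
      rw [hab, hb] at ha
      have := hx _ ha rfl
      norm_num at this
    · intro p hp
      rw [List.mem_append, List.mem_singleton] at hp
      rcases hp with hp | hp
      · exact (hrow p hp).1
      · rw [hp]
    · rw [List.head?_append, hhead]
      rfl
    · rw [List.getLast?_append]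
      rfl
  obtain ⟨hArc, htL⟩ := TP.aW_spec le_rfl hA
  set t := TP.aW (2 * ((1 : ℕ) : ℤ)) (L ++ [(2, 1)]) with ht
  have hsaw := (TP.arc_data hArc).1
  have htlen : t.length = L.length + 1 := by
    rw [← CC.toL_length oo t, htL]
    simp
  set u := t.take (L.length - 1) with hu
  have hul : u.length = L.length - 1 := by
    rw [hu, List.length_take]
    omega
  have htu : t = u ++ t.drop (L.length - 1) := (List.take_append_drop _ _).symm
  have hvu : ∀ i, i ≤ u.length + 1 → vx oo up u i = vx oo up t i := by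
    intro i hi
    rw [htu, vx_append hi]
  have hvL : ∀ i (h1 : 1 ≤ i) (h2 : i ≤ L.length), vx oo up u i = CC.ps (L[i - 1]'(by omega)) := by
    intro i h1 h2
    rw [hvu i (by omega)]
    have h3 : (CC.toL oo t)[i - 1]'(by rw [CC.toL_length]; omega) = L[i - 1]'(by omega) := by
      have : (CC.toL oo t)[i - 1]'(by rw [CC.toL_length]; omega) = (L ++ [(2, 1)])[i - 1]'(by simp; omega) := by
        congr 1
      rw [this, List.getElem_append_left]
    rw [CC.toL_getElem] at h3
    have e : i - 1 + 1 = i := by omega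
    rw [e] at h3
    rw [← h3, CC.ps_ph (CC.lv_vx_ne h0 t i)]
  have hv1 : vx oo up u 1 = ue 0 := rfl
  have htip : tip oo up u = le 1 := by
    unfold tip
    rw [hvL _ (by omega) (by omega)]
    have e : u.length + 1 - 1 = L.length - 1 := by omega
    simp only [e]
    rw [hgl]
    rfl
  refine ⟨u, ⟨⟨?_, ?_⟩, ⟨?_, ?_⟩, ?_, ?_⟩, ?_⟩
  · intro i h1 h2
    rw [Set.sdiff_empty, ft0, hvL i h1 (by omega), CC.ps_mem_St]
    exact hrow _ (List.getElem_mem _)
  · intro i k h1 h2
    rw [ft0, hvu i (by omega), hvu k (by omega)]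
    exact hsaw.inj i k h1 (by omega)
  · -- the first letter
    have h2 := hvL 2 (by omega) (by omega)
    have hu2 : u ≠ [] := by
      intro h
      rw [h] at hul
      simp at hul
      omega
    obtain ⟨b, r, hbr⟩ := List.exists_cons_of_ne_nil hu2
    have hb : b = true := by
      by_contra hb
      have hb' : b = false := by
        cases b
        · rfl
        · exact absurd rfl hb
      have h3 : vx oo up u 2 = le 1 := by
        rw [hbr, hb']
        rfl
      rw [h3] at h2
      have h4 : CC.ps (L[2 - 1]'(by omega)) = CC.ps (1, 1) := by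
        rw [← h2]
        rfl
      have h5 := CC.ps_inj h4
      have h6 := hninj _ _ _ _ (h5.trans hgl.symm)
      omega
    unfold SP.pre
    rw [if_pos rfl, hbr, hb]
    exact ⟨r, rfl⟩
  · intro i h1 h2
    have hp : (SP.pre 0).length = 1 := by
      unfold SP.pre
      rw [if_pos rfl]
      rfl
    rw [hp] at h1
    rw [ft0, hvL i (by omega) (by omega)]
    rintro ⟨h3, h4⟩
    have hr := (hrow _ (List.getElem_mem (show i - 1 < L.length by omega))).1
    have hx1 := hx _ (List.getElem_mem (show i - 1 < L.length by omega))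
    have n0 : L[i - 1]'(by omega) ≠ (0, 1) := by
      intro h5
      have h6 := hninj _ _ _ _ (h5.trans hg0.symm)
      omega
    have n1 : L[i - 1]'(by omega) ≠ (1, 1) := by
      intro h5
      have h6 := hninj _ _ _ _ (h5.trans hgl.symm)
      omega
    obtain ⟨q, hqd⟩ : ∃ q, L[i - 1]'(by omega) = q := ⟨_, rfl⟩
    rw [hqd] at h3 h4 hr hx1 n0 n1
    obtain ⟨a, b⟩ := q
    unfold CC.ps lv at h3
    unfold CC.ps nn at h4
    simp only at h3 h4 hr hx1
    have hb1 : b = 1 := by
      split_ifs at h3 with h5 <;> omega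
    subst hb1
    have ha := hx1 rfl
    have ha0 : a ≠ 0 := fun h => n0 (by rw [h])
    have ha1 : a ≠ 1 := fun h => n1 (by rw [h])
    split_ifs at h3 h4 with h5 <;> omega
  · rw [ft0]
    exact htip
  · -- the last step
    have h1 : tip oo up u = vx oo up u u.length + dx up u u.length := rfl
    rw [htip, hvL u.length (by omega) (by omega)] at h1
    have hE : CC.Edge (L[u.length - 1]'(by omega)) (L[L.length - 1]'(by omega)) := by
      have h2 := List.isChain_iff_getElem.1 hch (u.length - 1) (by omega)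
      have e : u.length - 1 + 1 = L.length - 1 := by omega
      simp only [e] at h2
      exact h2
    rw [hgl] at hE
    have hx1 := hx _ (List.getElem_mem (show u.length - 1 < L.length by omega))
    have n0 : L[u.length - 1]'(by omega) ≠ (0, 1) := by
      intro h5
      have h6 := hninj _ _ _ _ (h5.trans hg0.symm)
      omega
    obtain ⟨q, hqd⟩ : ∃ q, L[u.length - 1]'(by omega) = q := ⟨_, rfl⟩
    rw [hqd] at h1 hE hx1 n0
    obtain ⟨a, b⟩ := q
    have hq : (a, b) = ((1, 2) : ℤ × ℤ) := by
      rcases hE with h | h | ⟨h, h2⟩ | ⟨h, h2⟩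
      · simp only [Prod.mk.injEq] at h
        exfalso
        apply n0
        rw [Prod.mk.injEq]
        omega
      · simp only [Prod.mk.injEq] at h
        exfalso
        have := hx1 (by omega)
        simp only at this
        omega
      · simp only [Prod.mk.injEq] at h
        simp only at h2
        rw [Int.even_iff] at h2
        omega
      · simp only [Prod.mk.injEq] at h
        rw [Prod.mk.injEq]
        omega
    rw [hq] at h1
    have h2 : dx up u u.length = le 1 - CC.ps (1, 2) := by
      rw [h1]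
      abel
    rw [h2]
    decide
  · apply List.ext_getElem
    · rw [CC.toL_length]
      simp
      omega
    · intro i h1 h2
      rw [CC.toL_getElem, vx_append (by omega), hvL (i + 1) (by omega) (by omega)]
      simp only [Nat.add_sub_cancel]
      exact CC.ph_ps _

theorem S_eq (T : ℕ) : ∑' L : {L // PolyL (T + 1) L}, CC.wt L = ENNReal.ofReal xc * WW T := by
  let f : WA (St (T + 1)) → {L // PolyL (T + 1) L} := fun u => ⟨CC.toL oo (u.1 ++ [true]), poly_f u.2⟩
  have hf : Function.Bijective f := by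
    constructor
    · intro u v h
      exact Subtype.ext (poly_inj (congrArg Subtype.val h))
    · rintro ⟨L, hL⟩
      obtain ⟨u, hu, h⟩ := poly_surj hL
      exact ⟨⟨u, hu⟩, Subtype.ext h⟩
  unfold WW gf
  rw [← ENNReal.tsum_mul_left, ← (Equiv.ofBijective f hf).tsum_eq]
  apply tsum_congr
  intro u
  show CC.wt (CC.toL oo (u.1 ++ [true])) = ENNReal.ofReal xc * wE u.1
  rw [CC.wt_toL, wE_append, mul_comm]
  congr 1
  unfold wE
  simp

end PG

end HexObs
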