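import Pool.Agent.HexPG.Star
import Pool.Agent.HexPG.Limit
import Pool.Agent.HexPG.PolyM
import Pool.Agent.HexTP.StripL

/-!
PG: the statement in elementary terms.
-/

set_option autoImplicit false

namespace HexPolygon

open ENNReal Filter Topology

/-- Nearest neighbours of the honeycomb lattice in brick wall coordinates: the sites are `ℤ × ℤ`,
`(x, y)` is joined to `(x + 1, y)`, and to `(x, y + 1)` if `x + y` is even. -/
def Edge (p q : ℤ × ℤ) : Prop :=
  q = (p.1 + 1, p.2) ∨ p = (q.1 + 1, q.2) ∨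
    (q = (p.1, p.2 + 1) ∧ Even (p.1 + p.2)) ∨ (p = (q.1, q.2 + 1) ∧ Even (q.1 + q.2))

/-- The critical point. -/
noncomputable def x : ℝ := (Real.sqrt (2 + Real.sqrt 2))⁻¹

/-- The critical weight `x ^ n` of a walk or polygon with `n` sites. -/
noncomputable def wt (L : List (ℤ × ℤ)) : ℝ≥0∞ := ENNReal.ofReal (x ^ L.length)

/-- `L` lists, in cyclic order, the sites of a self-avoiding polygon in the rows `y ≥ 1`; the last
one is the rightmost site of the lowest row of the polygon, `(1, 1)`, the first one `(0, 1)`. -/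
def Polygon (L : List (ℤ × ℤ)) : Prop :=
  L.IsChain Edge ∧ L.Nodup ∧ 3 ≤ L.length ∧ L.head? = some (0, 1) ∧ L.getLast? = some (1, 1) ∧
    (∀ p ∈ L, 1 ≤ p.2) ∧ ∀ p ∈ L, p.2 = 1 → p.1 ≤ 1

/-- Weight of the polygons that lie in `T` rows, up to translations. -/
noncomputable def S (T : ℕ) : ℝ≥0∞ := ∑' L : {L // Polygon L ∧ ∀ p ∈ L, p.2 ≤ T}, wt L

/-- Weight of all the polygons, up to translations. -/
noncomputable def Sall : ℝ≥0∞ := ∑' L : {L // Polygon L}, wt L

/-- `L` lists the sites of a self-avoiding walk in the rows `1, ..., T` that starts at `(0, 1)` and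
ends at a site `(b, T)` that is joined to `(b, T + 1)`. -/
def Crossing (T : ℕ) (b : ℤ) (L : List (ℤ × ℤ)) : Prop :=
  L.IsChain Edge ∧ L.Nodup ∧ (∀ p ∈ L, 1 ≤ p.2 ∧ p.2 ≤ T) ∧ L.head? = some (0, 1) ∧
    L.getLast? = some (b, (T : ℤ)) ∧ Even (b + T)

/-- Weight of the crossings of `T` rows from `(0, 1)`. -/
noncomputable def B (T : ℕ) : ℝ≥0∞ := ∑' b : ℤ, ∑' L : {L // Crossing T b L}, wt L

/-- `L` lists the sites of a self-avoiding walk in the rows `1, ..., T` from `(0, 1)` to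
`(2 * d, 1)`. -/
def Arc (T d : ℕ) (L : List (ℤ × ℤ)) : Prop :=
  L.IsChain Edge ∧ L.Nodup ∧ (∀ p ∈ L, 1 ≤ p.2 ∧ p.2 ≤ T) ∧ L.head? = some (0, 1) ∧
    L.getLast? = some (2 * (d : ℤ), 1)

/-- The sum over `d` of `d` times the weight of the arcs from `(0, 1)` to `(2 * d, 1)`. -/
noncomputable def K (T : ℕ) : ℝ≥0∞ := ∑' d : ℕ, (d : ℝ≥0∞) * ∑' L : {L // Arc T d L}, wt L

/-! ### comparison -/

lemma tsum_iff {α : Type*} {P Q : α → Prop} (h : ∀ a, P a ↔ Q a) (f : α → ℝ≥0∞) :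
    ∑' a : {a // P a}, f a = ∑' a : {a // Q a}, f a := by
  have : P = Q := by
    funext a
    exact propext (h a)
  rw [this]

lemma S_succ (T : ℕ) : S (T + 1) = ENNReal.ofReal HexObs.xc * HexObs.PG.WW T := by
  rw [← HexObs.PG.S_eq]
  refine tsum_iff (fun L => ?_) wt
  constructor
  · rintro ⟨⟨h1, h2, h3, h4, h5, h6, h7⟩, h8⟩
    exact ⟨h1, h2, fun p hp => ⟨h6 p hp, h8 p hp⟩, h4, h5, h3, h7⟩
  · rintro ⟨h1, h2, h3, h4, h5, h6, h7⟩
    exact ⟨⟨h1, h2, h6, h4, h5, fun p hp => (h3 p hp).1, h7⟩, fun p hp => (h3 p hp).2⟩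

lemma tsum_union {α : Type*} {P : ℕ → α → Prop} {Q : α → Prop} (hm : ∀ n m a, n ≤ m → P n a → P m a)
    (hQ : ∀ a, Q a ↔ ∃ n, P n a) (f : α → ℝ≥0∞) :
    Tendsto (fun n => ∑' a : {a // P n a}, f a) atTop (𝓝 (∑' a : {a // Q a}, f a)) := by
  have e1 : ∀ R : α → Prop, ∑' a : {a // R a}, f a = ∑' a, ({a | R a} : Set α).indicator f a :=
    fun R => tsum_subtype {a | R a} f
  have hmono : Monotone (fun n => ({a | P n a} : Set α).indicator f) := by
    intro n m hnm a
    exact Set.indicator_le_indicator_of_subset (fun b hb => hm n m b hnm hb) (fun _ => zero_le) a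
  have e2 : ∑' a : {a // Q a}, f a = ⨆ n, ∑' a : {a // P n a}, f a := by
    simp_rw [e1]
    rw [← HexW.tsum_iSup_mono _ hmono]
    apply tsum_congr
    intro a
    by_cases ha : Q a
    · obtain ⟨n, hn⟩ := (hQ a).1 ha
      apply le_antisymm
      · refine le_trans (le_of_eq ?_) (le_iSup _ n)
        rw [Set.indicator_of_mem (show a ∈ {a | Q a} from ha), Set.indicator_of_mem (show a ∈ {a | P n a} from hn)]
      · apply iSup_le
        intro m
        exact Set.indicator_le_indicator_of_subset (fun b hb => (hQ b).2 ⟨m, hb⟩) (fun _ => zero_le) a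
    · rw [Set.indicator_of_notMem (show a ∉ {a | Q a} from ha)]
      symm
      rw [ENNReal.iSup_eq_zero]
      intro m
      exact Set.indicator_of_notMem (fun hm' => ha ((hQ a).2 ⟨m, hm'⟩)) _
  rw [e2]
  apply tendsto_atTop_iSup
  intro n m hnm
  simp only [e1]
  exact ENNReal.tsum_le_tsum (fun a => hmono hnm a)

lemma S_tendsto : Tendsto S atTop (𝓝 Sall) := by
  refine tsum_union (P := fun (T : ℕ) L => Polygon L ∧ ∀ p ∈ L, p.2 ≤ (T : ℤ)) ?_ ?_ wt
  · rintro n m L hnm ⟨h1, h2⟩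
    refine ⟨h1, fun p hp => (h2 p hp).trans ?_⟩
    exact_mod_cast hnm
  · intro L
    constructor
    · intro h
      have key : ∀ L : List (ℤ × ℤ), ∃ n : ℕ, ∀ p ∈ L, p.2 ≤ (n : ℤ) := by
        intro L
        induction L with
        | nil => exact ⟨0, fun p hp => absurd hp (List.not_mem_nil)⟩
        | cons q L ih =>
          obtain ⟨n, hn⟩ := ih
          refine ⟨max n q.2.toNat, fun p hp => ?_⟩
          rcases List.mem_cons.1 hp with h | h
          · rw [h]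
            push_cast
            omega
          · have := hn p h
            push_cast
            omega
      obtain ⟨n, hn⟩ := key L
      exact ⟨n, h, hn⟩
    · rintro ⟨n, h, _⟩
      exact h

lemma B_eq {T : ℕ} (hT : 1 ≤ T) : B T = HexObs.BT T := HexObs.CC.B_eq hT

lemma K_eq (T : ℕ) : K T = HexObs.SP.KT T := by
  unfold K HexObs.SP.KT
  rw [tsum_eq_zero_add' ENNReal.summable, Nat.cast_zero, zero_mul, zero_add]
  apply tsum_congr
  intro k
  rw [← HexObs.TP.GS_eq (by omega : 1 ≤ k + 1)]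
  push_cast
  congr 1
  refine tsum_iff (fun L => ?_) wt
  constructor
  · rintro ⟨h1, h2, h3, h4, h5⟩
    exact ⟨⟨h1, h2, fun p hp => (h3 p hp).1, h4, h5⟩, fun p hp => (h3 p hp).2⟩
  · rintro ⟨⟨h1, h2, h3, h4, h5⟩, h6⟩
    exact ⟨h1, h2, fun p hp => ⟨h3 p hp, h6 p hp⟩, h4, h5⟩

lemma x_eq : x = HexObs.xc := by
  have h1 : Real.sqrt (2 + Real.sqrt 2) = 2 * Real.cos (Real.pi / 8) := by
    rw [Real.cos_pi_div_eight]
    ring
  unfold x HexObs.xc
  rw [h1, one_div]

theorem S_ne_top (T : ℕ) : S (T + 1) ≠ ∞ := by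
  rw [S_succ]
  exact ENNReal.mul_ne_top ENNReal.ofReal_ne_top (HexObs.PG.WW_ne_top T)

/-- the exact identity. -/
theorem star {T : ℕ} (hT : 1 ≤ T) : (B T).toReal + (B (T + 1)).toReal =
    (Real.sqrt 2 + 1) * ((K (T + 1)).toReal - (K T).toReal) *
      (x + x⁻¹ - 2 * Real.sin (Real.pi / 8) * (S (T + 1)).toReal) := by
  have h := HexObs.PG.star hT
  have hx := HexObs.xc_pos
  have hc := HexObs.PG.xc_s3
  have hq := HexObs.PG.s3_sq
  have hxi : HexObs.xc⁻¹ = 2 * HexObs.SP.sn 3 := by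
    field_simp
    linarith
  have h1 : HexObs.SP.sn 1 = Real.sin (Real.pi / 8) := by
    unfold HexObs.SP.sn
    rw [one_mul]
  rw [B_eq hT, B_eq (by omega), h, HexObs.PG.kt_sub hT, K_eq, K_eq, x_eq, S_succ, ENNReal.toReal_mul,
    ENNReal.toReal_ofReal hx.le, hxi, ← h1]
  generalize ((HexObs.SP.KT (T + 1)).toReal - (HexObs.SP.KT T).toReal) = D
  generalize (HexObs.PG.WW T).toReal = W
  have e : HexObs.xc * (3 + Real.sqrt 2 - 2 * HexObs.SP.sn 1 * W) =
      HexObs.xc + 2 * HexObs.SP.sn 3 - 2 * HexObs.SP.sn 1 * (HexObs.xc * W) := by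
    have e2 : HexObs.xc * (2 + Real.sqrt 2) = 2 * HexObs.SP.sn 3 := by
      have : HexObs.xc * (2 + Real.sqrt 2) = HexObs.xc * (2 * HexObs.SP.sn 3) * (2 * HexObs.SP.sn 3) := by
        linear_combination (-4 * HexObs.xc) * hq
      rw [this, hc, one_mul]
    linear_combination e2
  linear_combination (Real.sqrt 2 + 1) * D * e

theorem total : Sall = ENNReal.ofReal (1 + 3 / Real.sqrt 2 - 16 / (3 * Real.sqrt 3)) := by
  have h1 := S_tendsto.comp (tendsto_add_atTop_nat 1)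
  have h2 := HexObs.PG.s_lim HexObs.PG.WW_ne_top (fun T hT => HexObs.PG.star hT)
  have h3 := ENNReal.tendsto_ofReal h2
  refine tendsto_nhds_unique h1 (h3.congr (fun T => ?_))
  show ENNReal.ofReal (HexObs.xc * (HexObs.PG.WW T).toReal) = S (T + 1)
  rw [S_succ, ENNReal.ofReal_mul HexObs.xc_pos.le, ENNReal.ofReal_toReal (HexObs.PG.WW_ne_top T)]

theorem result_of :
    Sall = ENNReal.ofReal (1 + 3 / Real.sqrt 2 - 16 / (3 * Real.sqrt 3)) ∧
    ∀ T : ℕ, 1 ≤ T → B T ≠ ∞ ∧ K T ≠ ∞ ∧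
      (B T).toReal + (B (T + 1)).toReal =
        (Real.sqrt 2 + 1) * ((K (T + 1)).toReal - (K T).toReal) *
          (x + x⁻¹ - 2 * Real.sin (Real.pi / 8) * (S (T + 1)).toReal) := by
  refine ⟨total, fun T hT => ⟨?_, ?_, star hT⟩⟩
  · rw [B_eq hT]
    exact HexObs.PG.BT_ne_top hT
  · rw [K_eq]
    exact (HexObs.SP.two hT).1

end HexPolygon
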