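import Pool.Agent.HexStep.KUp
import Pool.Agent.HexStep.SwapA
import Pool.Agent.HexStep.LimA

/-!
PG: the exact identity for polygons. Step domain Om T (rows 2..T+1 and the left part of the first row) of HexStep;
words from the foot 0 (prefix [true]) start at the slanted edge, words from the foot 1 (prefix [true, false]) start at the
vertical edge above le 1; tops tq T t.
-/

set_option autoImplicit false

namespace HexObs

namespace PG

open SP Complex Finset ENNReal

/-- admissible bridges from the foot k to the top number t. -/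
def BrT (T : ℕ) (Ω : Set Pt) (k t : ℤ) : Set (List Bool) := {s | s ∈ BrA Ω ∅ k ∧ tip (ft k) up s = tq T t}

/-- sum over the admissible bridges from the foot k to the top t. -/
noncomputable def ovT (T : ℕ) (Ω : Set Pt) (k t : ℤ) (F : Set Pt → ℝ≥0∞) : ℝ≥0∞ :=
  ∑' s : List Bool, (BrT T Ω k t).indicator (fun s => wE s * F (vis (ft k) up s)) s

/-- explorers from the foot 0 that leave the domain downwards. -/
def DnA (Ω Y : Set Pt) : Set (List Bool) := {u | u ∈ Dn Ω Y (ft 0) up ∧ Adm 0 u}

/-- arcs from the slanted edge to the vertical edge above le 1. -/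
def WA (Ω : Set Pt) : Set (List Bool) := Ld Ω ∅ 0 1

/-- top arcs from t to b that avoid Y. -/
def TA (T : ℕ) (Ω Y : Set Pt) (t b : ℤ) : Set (List Bool) :=
  {u | Saw (Ω \ (OO ∪ Y)) (tq T t) (-up) u ∧ tip (tq T t) (-up) u = tq T b ∧ dx (-up) u u.length = up}

/-- top arcs to the right. -/
def TR (T : ℕ) (Ω Y : Set Pt) (t : ℤ) : Set (List Bool) := {u | ∃ b, t < b ∧ u ∈ TA T Ω Y t b}

/-- top arcs to the left. -/
def TL (T : ℕ) (Ω Y : Set Pt) (t : ℤ) : Set (List Bool) := {u | ∃ b, b < t ∧ u ∈ TA T Ω Y t b}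

/-- walks from the top t that stop on Y. -/
def HT (T : ℕ) (Ω Y : Set Pt) (t : ℤ) : Set (List Bool) :=
  {u | Saw (Ω \ (OO ∪ Y)) (tq T t) (-up) u ∧ tip (tq T t) (-up) u ∈ Y}

/-- lateral exits from the top t. -/
def LT (T : ℕ) (Ω : Set Pt) (t : ℤ) : Set (List Bool) :=
  {u | Saw Ω (tq T t) (-up) u ∧ tip (tq T t) (-up) u ∉ Ω ∧ dx (-up) u u.length ≠ up ∧ dx (-up) u u.length ≠ -up}

/-- walks from the vertical edge. -/
noncomputable def ZZ (T : ℕ) : ℝ≥0∞ := gf (BrA (St (T + 1)) ∅ 1)

/-- walker from the slanted edge, explorer from the vertical edge that lands on the right. -/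
noncomputable def RR (T : ℕ) : ℝ≥0∞ := overA (St (T + 1)) 0 (fun Y => gf (LdR (St (T + 1)) Y 1)) ∅

/-- walker from the vertical edge, explorer from the slanted edge that goes down on the left. -/
noncomputable def LL (T : ℕ) : ℝ≥0∞ := overA (St (T + 1)) 1 (fun Y => gf (DnA (St (T + 1)) Y)) ∅

/-- the arcs from the slanted edge to the vertical edge. -/
noncomputable def WW (T : ℕ) : ℝ≥0∞ := gf (WA (St (T + 1)))

/-- single walks to the top t. -/
noncomputable def ZT (T : ℕ) (k t : ℤ) : ℝ≥0∞ := gf (BrT T (St (T + 1)) k t)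

/-- pairs, the walker goes to the top t. -/
noncomputable def PT (T : ℕ) (t : ℤ) : ℝ≥0∞ := ovT T (St (T + 1)) 0 t (fun Y => gf (BrA (St (T + 1)) Y 1))

/-- walker to the top t, explorer lands on the right. -/
noncomputable def RT (T : ℕ) (t : ℤ) : ℝ≥0∞ := ovT T (St (T + 1)) 0 t (fun Y => gf (LdR (St (T + 1)) Y 1))

/-- arc from the slanted edge to the vertical edge and a disjoint top arc from t to b. -/
noncomputable def DT (T : ℕ) (t b : ℤ) : ℝ≥0∞ :=
  ∑' w : List Bool, (WA (St (T + 1))).indicator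
    (fun w => wE w * gf (TA T (St (T + 1)) (vis (ft 0) up w) t b)) w

end PG

end HexObs
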