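import Pool.Agent.HexPG.Defs

/-!
PG, M3: the junction bijection. A walker from the foot 0 to the top t and an explorer from the foot 1 that stops on the
walker correspond to an arc from the foot 0 to le 1 and a walk from the top t that stops on the arc.
-/

set_option autoImplicit false

namespace HexObs

namespace PG

open SP Complex Finset ENNReal

/-- the map from (walker, explorer) to (arc, top walk). -/
private noncomputable def jf (a : List Bool × List Bool) : List Bool × List Bool :=
  (a.1.take (pos (ft 0) up a.1 (tip (ft 1) up a.2) - 1) ++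
      ([!(tf a.1 (pos (ft 0) up a.1 (tip (ft 1) up a.2) - 1))] ++ rev (a.2.drop 2)),
    rev (a.1.drop (pos (ft 0) up a.1 (tip (ft 1) up a.2))))

/-- the map from (arc, top walk) to (walker, explorer). -/
private noncomputable def jg (T : ℕ) (t : ℤ) (a : List Bool × List Bool) : List Bool × List Bool :=
  (a.1.take (pos (ft 0) up a.1 (tip (tq T t) (-up) a.2) - 1) ++
      ([!(tf a.1 (pos (ft 0) up a.1 (tip (tq T t) (-up) a.2) - 1))] ++ rev a.2),
    true :: false :: rev (a.1.drop (pos (ft 0) up a.1 (tip (tq T t) (-up) a.2))))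

private lemma j_pieces {Ω : Set Pt} {q d0 x : Pt} {r m : List Bool} {c : Bool}
    (hs : Saw Ω q d0 (r ++ ([c] ++ m))) (ht : x = tip q d0 r) :
    pos q d0 (r ++ ([c] ++ m)) x = r.length + 1 ∧ tf (r ++ ([c] ++ m)) r.length = c ∧
      (r ++ ([c] ++ m)).drop (r.length + 1) = m := by
  refine ⟨?_, ?_, ?_⟩
  · apply pos_unique hs (by omega)
    · simp only [List.length_append, List.length_singleton]
      omega
    · rw [vx_append le_rfl, ht]
      rfl
  · have := tf_append_right (t := r) (s := [c] ++ m) 0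
    rw [add_zero] at this
    rw [this]
    rfl
  · rw [← List.append_assoc]
    have : r.length + 1 = (r ++ [c]).length := by simp
    rw [this, List.drop_left]

private lemma jf_eq {Ω : Set Pt} {r m u : List Bool} {c : Bool} (hs : Saw Ω (ft 0) up (r ++ ([c] ++ m)))
    (ht : tip (ft 1) up (true :: false :: u) = tip (ft 0) up r) :
    jf (r ++ ([c] ++ m), true :: false :: u) = (r ++ ([!c] ++ rev u), rev m) := by
  obtain ⟨h1, h2, h3⟩ := j_pieces hs ht
  unfold jf
  simp only [h1, Nat.add_sub_cancel]
  rw [h2, h3, List.take_left]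
  rfl

private lemma jg_eq {Ω : Set Pt} {T : ℕ} {t : ℤ} {r m u : List Bool} {c : Bool}
    (hs : Saw Ω (ft 0) up (r ++ ([c] ++ m))) (ht : tip (tq T t) (-up) u = tip (ft 0) up r) :
    jg T t (r ++ ([c] ++ m), u) = (r ++ ([!c] ++ rev u), true :: false :: rev m) := by
  obtain ⟨h1, h2, h3⟩ := j_pieces hs ht
  unfold jg
  simp only [h1, Nat.add_sub_cancel]
  rw [h2, h3, List.take_left]

private lemma rev_app (a b : List Bool) : rev (a ++ b) = rev b ++ rev a := by
  unfold rev
  rw [List.map_append, List.reverse_append]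

private lemma j_vx2 (u : List Bool) (i : ℕ) :
    vx (ft 1) up (true :: false :: u) (2 + i) = vx (le 1) up u i := by
  unfold vx
  rw [vs_shift]
  have h1 : vs (ft 1) up (tf (true :: false :: u)) 2 = le 1 := by
    rw [ft_eq]
    show (((2 * 1, -1) : Pt) + up) + turn true up = le 1
    decide
  have h2 : ds up (tf (true :: false :: u)) 2 = up := by
    show turn false (turn true up) = up
    rfl
  rw [h1, h2]
  congr 1
  funext k'
  exact tf_append_right (t := [true, false]) (s := u) k'

private lemma j_dx2 (u : List Bool) (i : ℕ) : dx up (true :: false :: u) (2 + i) = dx up u i := by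
  unfold dx
  rw [ds_shift]
  have h2 : ds up (tf (true :: false :: u)) 2 = up := by
    show turn false (turn true up) = up
    rfl
  rw [h2]
  congr 1
  funext k'
  exact tf_append_right (t := [true, false]) (s := u) k'

private lemma ft_out {T n : ℕ} (k : ℤ) {v : Pt} (hv : v ∈ tz T n) : ft k ≠ v := by
  rintro rfl
  have h := (mem_tz.1 hv).1
  rw [mem_St', ft_eq] at h
  have := h.2.1
  simp only [lv] at this
  omega

private lemma tq_out' {T n : ℕ} (t : ℤ) {v : Pt} (hv : v ∈ tz T n) : tq T t ≠ v := by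
  rintro rfl
  have h := (mem_tz.1 hv).1
  rw [mem_St'] at h
  have := h.2.2
  unfold tq at this
  simp only [lv] at this
  push_cast at this
  omega

private lemma ft01 : ip (ft 0 - ft 1) up = 0 ∧ ip (ft 1 - ft 0) up = 0 ∧ cl (ft 0) = cl (ft 1) ∧
    cross up (ft 1 - ft 0) < 0 ∧ ft 1 ≠ ft 0 := by
  rw [ft_eq, ft_eq]
  decide

/-- the prefix of length one. -/
private lemma pre0 {r s : List Bool} (h : Adm 0 (r ++ s)) (hr : 1 ≤ r.length) : [true] <+: r := by
  have h1 : SP.pre 0 = [true] := rfl
  have h2 := h.pre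
  rw [h1] at h2
  exact List.prefix_of_prefix_length_le h2 (List.prefix_append _ _) hr

private lemma pre0_len : (SP.pre 0).length = 1 := rfl

private lemma pre1_len : (SP.pre 1).length = 2 := rfl

/-- forward. -/
private lemma fwd {T n : ℕ} {t : ℤ} (hn : 1 < n) {r m u1 : List Bool} {c : Bool}
    (hs : r ++ ([c] ++ m) ∈ BrT T (tz T n : Set Pt) 0 t)
    (hu : true :: false :: u1 ∈ hitA (tz T n) ∅ (vis (ft 0) up (r ++ ([c] ++ m))) 1)
    (ht : tip (ft 1) up (true :: false :: u1) = tip (ft 0) up r) :
    r ++ ([!c] ++ rev u1) ∈ WA (tz T n : Set Pt) ∧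
    rev m ∈ HT T (tz T n : Set Pt) (vis (ft 0) up (r ++ ([!c] ++ rev u1))) t ∧
    tip (tq T t) (-up) (rev m) = tip (ft 0) up r ∧
    wind (rev m) = wind (true :: false :: u1) - 1 := by
  have hg0 : GoodDom (tz T n) (ft 0) up := tz_good (by rw [abs_zero]; exact_mod_cast (by omega : 0 < n))
  have hg1 : GoodDom (tz T n) (ft 1) up := tz_good (by rw [abs_one]; exact_mod_cast hn)
  obtain ⟨f1, f2, f3, f4, f5⟩ := ft01
  obtain ⟨⟨hs1, hs2⟩, hs3⟩ := hs
  rw [mem_hitA] at hu
  obtain ⟨hu1, hu2, hu3, hu4⟩ := hu
  obtain ⟨hd1, hd2, hbr, hr⟩ := swap_geo hg1.dir (fun v hv => hg1.half v hv) f1 f5 f3.symm hs1 hu1 ht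
  have w1 := br_wind hg0 hs1
  have w2 := br_wind hg1 hbr
  have w3 := swap_wind hg0 hg1 f2 f3 f4 hbr hr ht.symm
  rw [wind_append, wind_cons] at w1 w2
  have hc : c = true := by
    by_contra hc
    have hc' : c = false := by simpa using hc
    rw [hc'] at w1 w2
    simp only [sgn, Bool.not_false, if_true, Bool.false_eq_true, if_false] at w1 w2
    omega
  have hwind : wind (rev m) = wind (true :: false :: u1) - 1 := by
    rw [wind_rev]
    rw [hc] at w2
    simp only [sgn, Bool.not_true, Bool.false_eq_true, if_false] at w2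
    omega
  set s := r ++ ([c] ++ m) with hsdef
  set u := true :: false :: u1 with hudef
  set w := r ++ ([!c] ++ rev u1) with hwdef
  have hslen : s.length = r.length + 1 + m.length := by
    rw [hsdef]
    simp only [List.length_append, List.length_singleton]
    omega
  have hulen : u.length = u1.length + 2 := by
    rw [hudef]
    rfl
  have hwlen : w.length = r.length + 1 + u1.length := by
    rw [hwdef]
    simp only [List.length_append, List.length_singleton, rev_length]
    omega
  have hsaw : Saw ((tz T n : Set Pt) \ ∅) (ft 0) up s := hs1.1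
  -- vertices of r
  have er : ∀ i, i ≤ r.length + 1 → vx (ft 0) up w i = vx (ft 0) up s i := by
    intro i hi
    rw [hwdef, hsdef, vx_append hi, vx_append hi]
  have hv : vx (ft 0) up s (r.length + 1) = tip (ft 0) up r := by
    rw [hsdef, vx_append le_rfl]
    rfl
  have hdir : turn (!c) (dx up r r.length) = -(dx up u u.length) := by
    have h1 : dx up r r.length = -turn c (dx up u u.length) := by rw [hd2, neg_neg]
    rw [h1, turn_neg, turn_turn]
  -- vertices of u
  have hrevu : rev u = rev u1 ++ [true, false] := by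
    have : u = [true, false] ++ u1 := rfl
    rw [this, rev_app]
    rfl
  have eu : ∀ k, k ≤ u1.length + 1 → vx (ft 0) up w (r.length + 1 + k) = vx (ft 1) up u (u1.length + 3 - k) := by
    intro k hk
    rw [hwdef, (vx_split (ft 0) up r (!c) (rev u1) k).1, hdir, ← ht]
    have h1 := vx_rev (ft 1) up u k (by omega)
    have e : u.length + 1 - k = u1.length + 3 - k := by omega
    rw [e] at h1
    rw [← h1, hrevu]
    exact (vx_append (by rw [rev_length]; exact hk)).symm
  have eud : ∀ k, k ≤ u1.length → dx up w (r.length + 1 + k) = -(dx up u (u1.length + 2 - k)) := by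
    intro k hk
    rw [hwdef, (vx_split (ft 0) up r (!c) (rev u1) k).2, hdir]
    have h1 := dx_rev up u k (by omega)
    have e : u.length - k = u1.length + 2 - k := by omega
    rw [e] at h1
    rw [← h1, hrevu]
    exact (dx_append (by rw [rev_length]; exact hk)).symm
  -- vertices of the reversed m
  have hrevs : rev s = rev m ++ ([!c] ++ rev r) := by
    rw [hsdef, rev_app, rev_app, List.append_assoc]
    rfl
  have em : ∀ k, k ≤ m.length + 1 → vx (tq T t) (-up) (rev m) k = vx (ft 0) up s (s.length + 1 - k) := by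
    intro k hk
    have h1 := vx_rev (ft 0) up s k (by omega)
    rw [hs3, hs1.2.2, hrevs] at h1
    rw [← h1]
    exact (vx_append (by rw [rev_length]; exact hk)).symm
  -- r is not empty
  have hr1 : 1 ≤ r.length := by
    rcases Nat.eq_zero_or_pos r.length with h | h
    · exfalso
      apply hu4
      rw [ht, ← hv, h]
      rw [(adm_vx hs2).1]
      exact ue_mem_OO.2 le_rfl
    · exact h
  have hvs : ∀ i, 1 ≤ i → i ≤ s.length → vx (ft 0) up s i ∈ (tz T n : Set Pt) := fun i h1 h2 => (hsaw.mem i h1 h2).1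
  have hus : ∀ i, 1 ≤ i → i ≤ u.length → vx (ft 1) up u i ∈ (tz T n : Set Pt) ∧ vx (ft 1) up u i ∉ vis (ft 0) up s := by
    intro i h1 h2
    have := hu1.mem i h1 h2
    exact ⟨this.1, fun h => this.2 (Or.inr h)⟩
  have hso : ∀ i, 2 ≤ i → i ≤ s.length → vx (ft 0) up s i ∉ OO := by
    intro i h1 h2
    exact hs2.out i (by rw [pre0_len]; omega) h2
  have huo : ∀ i, 3 ≤ i → i ≤ u.length → vx (ft 1) up u i ∉ OO := by
    intro i h1 h2
    exact hu2.out i (by rw [pre1_len]; omega) h2
  have hmemw : ∀ i, 1 ≤ i → i ≤ w.length → vx (ft 0) up w i ∈ (tz T n : Set Pt) := by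
    intro i h1 h2
    rcases Nat.lt_or_ge (r.length + 1) i with h | h
    · obtain ⟨k, rfl⟩ := Nat.exists_eq_add_of_le h.le
      rw [eu k (by omega)]
      exact (hus _ (by omega) (by omega)).1
    · rw [er i h]
      exact hvs i h1 (by omega)
  refine ⟨⟨⟨?_, ?_⟩, ⟨?_, ?_⟩, ?_, ?_⟩, ⟨⟨?_, ?_⟩, ?_⟩, ?_, hwind⟩
  · intro i h1 h2
    exact ⟨hmemw i h1 h2, Set.notMem_empty _⟩
  · intro i j hij hj
    rcases Nat.lt_or_ge (r.length + 1) j with h | h
    · obtain ⟨k, rfl⟩ := Nat.exists_eq_add_of_le h.le
      rcases Nat.lt_or_ge (r.length + 1) i with h' | h'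
      · obtain ⟨k', rfl⟩ := Nat.exists_eq_add_of_le h'.le
        rw [eu k (by omega), eu k' (by omega)]
        exact (hu1.inj _ _ (by omega) (by omega)).symm
      · rcases Nat.eq_zero_or_pos i with h0 | h0
        · rw [h0]
          exact ft_out 0 (hmemw _ (by omega) hj)
        · rw [er i h', eu k (by omega)]
          intro he
          exact (hus (u1.length + 3 - k) (by omega) (by omega)).2 ⟨i, h0, by omega, he⟩
    · rw [er i (by omega), er j h]
      exact hsaw.inj i j hij (by omega)
  · exact (pre0 hs2 hr1).trans (List.prefix_append _ _)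
  · intro i h1 h2
    rw [pre0_len] at h1
    rcases Nat.lt_or_ge (r.length + 1) i with h | h
    · obtain ⟨k, rfl⟩ := Nat.exists_eq_add_of_le h.le
      rw [eu k (by omega)]
      exact huo _ (by omega) (by omega)
    · rw [er i h]
      exact hso i (by omega) (by omega)
  · unfold tip
    have e : w.length + 1 = r.length + 1 + (u1.length + 1) := by omega
    rw [e, eu _ le_rfl]
    have e2 : u1.length + 3 - (u1.length + 1) = 2 := by omega
    rw [e2]
    exact (adm_vx hu2).2.1
  · rw [hwlen, eud _ le_rfl]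
    have e2 : u1.length + 2 - u1.length = 2 := by omega
    rw [e2]
    have := j_dx2 u1 0
    rw [add_zero] at this
    rw [hudef, this]
    rfl
  · intro k h1 h2
    rw [rev_length] at h2
    rw [em k (by omega)]
    refine ⟨hvs _ (by omega) (by omega), ?_⟩
    rintro (h | ⟨i, hi1, hi2, hi3⟩)
    · exact hso _ (by omega) (by omega) h
    · rcases Nat.lt_or_ge (r.length + 1) i with h | h
      · obtain ⟨k', rfl⟩ := Nat.exists_eq_add_of_le h.le
        rw [eu k' (by omega)] at hi3
        exact (hus (u1.length + 3 - k') (by omega) (by omega)).2 ⟨s.length + 1 - k, by omega, by omega, hi3.symm⟩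
      · rw [er i h] at hi3
        exact hsaw.inj i (s.length + 1 - k) (by omega) (by omega) hi3
  · intro i j hij hj
    rw [rev_length] at hj
    rw [em i (by omega), em j (by omega)]
    rcases Nat.eq_zero_or_pos i with h0 | h0
    · rw [h0]
      have e : vx (ft 0) up s (s.length + 1 - 0) = tq T t := hs3
      rw [e]
      exact tq_out' t (hvs _ (by omega) (by omega))
    · exact (hsaw.inj _ _ (by omega) (by omega)).symm
  · refine ⟨r.length + 1, by omega, by omega, ?_⟩
    rw [er _ le_rfl]
    unfold tip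
    rw [rev_length, em _ le_rfl]
    congr 1
    omega
  · unfold tip
    rw [rev_length, em _ le_rfl]
    have e : s.length + 1 - (m.length + 1) = r.length + 1 := by omega
    rw [e]
    exact hv

private lemma cl_facts (T : ℕ) (t : ℤ) : cl (ft 0) = 0 ∧ cl up = -1 ∧ cl (-up : Pt) = 1 ∧ cl (tq T t) = -1 := by
  refine ⟨by rw [ft_eq]; decide, by decide, by decide, ?_⟩
  unfold cl tq
  have h3 : (3 : ZMod 3) = 0 := by decide
  push_cast
  linear_combination ((t : ZMod 3) - T - 1) * h3

/-- backward. -/
private lemma bwd {T n : ℕ} {t : ℤ} (hn : 1 < n) {r m v : List Bool} {b : Bool}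
    (hw : r ++ ([b] ++ m) ∈ WA (tz T n : Set Pt))
    (hv : v ∈ HT T (tz T n : Set Pt) (vis (ft 0) up (r ++ ([b] ++ m))) t)
    (ht : tip (tq T t) (-up) v = tip (ft 0) up r) :
    r ++ ([!b] ++ rev v) ∈ BrT T (tz T n : Set Pt) 0 t ∧
    true :: false :: rev m ∈ hitA (tz T n) ∅ (vis (ft 0) up (r ++ ([!b] ++ rev v))) 1 ∧
    tip (ft 1) up (true :: false :: rev m) = tip (ft 0) up r := by
  obtain ⟨hw1, hw2, hw3, hw4⟩ := hw
  obtain ⟨hv1, hv2⟩ := hv
  set w := r ++ ([b] ++ m) with hwdef
  set s := r ++ ([!b] ++ rev v) with hsdef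
  set u := true :: false :: rev m with hudef
  have hwlen : w.length = r.length + 1 + m.length := by
    rw [hwdef]
    simp only [List.length_append, List.length_singleton]
    omega
  have hslen : s.length = r.length + 1 + v.length := by
    rw [hsdef]
    simp only [List.length_append, List.length_singleton, rev_length]
    omega
  have hulen : u.length = m.length + 2 := by
    rw [hudef]
    simp only [List.length_cons, rev_length]
  have hws : ∀ i, 1 ≤ i → i ≤ w.length → vx (ft 0) up w i ∈ (tz T n : Set Pt) := fun i h1 h2 => (hw1.mem i h1 h2).1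
  have hwo : ∀ i, 2 ≤ i → i ≤ w.length → vx (ft 0) up w i ∉ OO := by
    intro i h1 h2
    exact hw2.out i (by rw [pre0_len]; omega) h2
  have hvs : ∀ i, 1 ≤ i → i ≤ v.length → vx (tq T t) (-up) v i ∈ (tz T n : Set Pt) ∧ vx (tq T t) (-up) v i ∉ OO ∧
      vx (tq T t) (-up) v i ∉ vis (ft 0) up w := by
    intro i h1 h2
    have := hv1.mem i h1 h2
    exact ⟨this.1, fun h => this.2 (Or.inl h), fun h => this.2 (Or.inr h)⟩
  have er : ∀ i, i ≤ r.length + 1 → vx (ft 0) up s i = vx (ft 0) up w i := by
    intro i hi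
    rw [hwdef, hsdef, vx_append hi, vx_append hi]
  have er' : ∀ i, i ≤ r.length + 1 → vx (ft 0) up w i = vx (ft 0) up r i := by
    intro i hi
    rw [hwdef, vx_append hi]
  have htipr : tip (ft 0) up r = vx (ft 0) up w (r.length + 1) := (er' _ le_rfl).symm
  have eS : tip (ft 0) up r = vx (ft 0) up r r.length + dx up r r.length := vx_succ _ _ _ _
  have eV : tip (tq T t) (-up) v = vx (tq T t) (-up) v v.length + dx (-up) v v.length := vx_succ _ _ _ _
  have hdv : dx (-up) v v.length ∈ dirs := dx_mem (by decide) v _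
  have hdr : dx up r r.length ∈ dirs := dx_mem upd r _
  have hv0 : vx (tq T t) (-up) v 0 = tq T t := rfl
  have hlvq : lv (tq T t) = 3 * T + 5 := by
    unfold lv tq
    push_cast
    ring
  -- r is not empty
  have hr1 : 1 ≤ r.length := by
    rcases Nat.eq_zero_or_pos r.length with h | h
    · exfalso
      have h1 : tip (tq T t) (-up) v = ue 0 := by
        rw [ht, htipr, h]
        exact (adm_vx hw2).1
      rcases Nat.eq_zero_or_pos v.length with h2 | h2
      · rw [eV, h2, hv0] at h1
        have h3 := congrArg lv h1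
        rw [lv_ue] at h3
        have h4 : dx (-up) v 0 = -up := rfl
        rw [h4] at h3
        have h5 : lv (tq T t + -up) = 3 * T + 3 := by
          unfold lv tq up
          simp only [Prod.fst_add, Prod.snd_add, Prod.fst_neg, Prod.snd_neg]
          ring
        rw [h5] at h3
        omega
      · obtain ⟨a1, a2, a3⟩ := hvs v.length h2 le_rfl
        have a4 : vx (tq T t) (-up) v v.length ∈ St (T + 1) := (mem_tz.1 (Finset.mem_coe.1 a1)).1
        rcases nbr_ue a4 _ hdv (eV.symm.trans h1) with h3 | h3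
        · apply a3
          rw [h3]
          have h4 : 2 ≤ w.length := by
            by_contra hcon
            have h5 : 1 ≤ w.length := by
              have := hw2.pre.length_le
              rw [pre0_len] at this
              exact this
            have h6 : w.length = 1 := by omega
            have h7 : tip (ft 0) up w = vx (ft 0) up w 2 := by
              unfold tip
              rw [h6]
            rw [h7, (adm_vx hw2).2.1] at hw3
            have := congrArg Prod.fst hw3
            simp only [le] at this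
            omega
          exact ⟨2, by omega, h4, (adm_vx hw2).2.1⟩
        · apply a2
          rw [h3]
          exact le_mem_OO.2 (by omega)
    · exact h
  -- the directions at the junction
  have hcl : cl (dx (-up) v v.length) = cl (dx up r r.length) := by
    obtain ⟨c1, c2, c3, c4⟩ := cl_facts T t
    have h1 := cl_vx (ft 0) up r (r.length + 1)
    have h2 := cl_vx (tq T t) (-up) v (v.length + 1)
    have h3 : vx (ft 0) up r (r.length + 1) = vx (tq T t) (-up) v (v.length + 1) := ht.symm
    rw [h3, h2, c1, c2, c3, c4] at h1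
    rw [cl_dx, cl_dx, c2, c3]
    rcases Nat.even_or_odd r.length with a | a
    · have a' : ¬ Even (r.length + 1) := by
        rw [Nat.even_add_one, not_not]
        exact a
      rw [if_neg a'] at h1
      have b' : Even (v.length + 1) := by
        by_contra hb
        rw [if_neg hb] at h1
        revert h1
        decide
      have b1 : ¬ Even v.length := by
        rw [Nat.even_add_one] at b'
        exact b'
      rw [if_neg b1, if_pos a]
    · have a1 : ¬ Even r.length := Nat.not_even_iff_odd.2 a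
      have a' : Even (r.length + 1) := by
        rw [Nat.even_add_one]
        exact a1
      rw [if_pos a'] at h1
      have b' : ¬ Even (v.length + 1) := by
        intro hb
        rw [if_pos hb] at h1
        revert h1
        decide
      have b1 : Even v.length := by
        rw [Nat.even_add_one, not_not] at b'
        exact b'
      rw [if_pos b1, if_neg a1, neg_neg]
  have hne1 : dx (-up) v v.length ≠ dx up r r.length := by
    intro he
    have h1 : vx (tq T t) (-up) v v.length = vx (ft 0) up r r.length := by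
      have := ht
      rw [eV, eS, he] at this
      exact add_right_cancel this
    rw [← er' _ (by omega)] at h1
    rcases Nat.eq_zero_or_pos v.length with h2 | h2
    · rw [h2, hv0] at h1
      exact tq_out' t (hws r.length hr1 (by omega)) h1
    · exact (hvs v.length h2 le_rfl).2.2 ⟨r.length, hr1, by omega, h1.symm⟩
  have hne2 : dx (-up) v v.length ≠ -turn b (dx up r r.length) := by
    intro he
    have h1 : vx (tq T t) (-up) v v.length = vx (ft 0) up w (r.length + 2) := by
      have e1 : vx (ft 0) up w (r.length + 2) = vx (ft 0) up w (r.length + 1) + dx up w (r.length + 1) :=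
        vx_succ _ _ _ _
      have e2 : dx up w (r.length + 1) = turn b (dx up r r.length) := by
        have := (vx_split (ft 0) up r b m 0).2
        rw [add_zero] at this
        rw [hwdef, this]
        rfl
      rw [e1, e2, ← htipr, ← ht, eV, he]
      abel
    rcases Nat.eq_zero_or_pos v.length with h2 | h2
    · rw [h2, hv0] at h1
      rcases Nat.lt_or_ge w.length (r.length + 2) with h3 | h3
      · have h4 : vx (ft 0) up w (r.length + 2) = le 1 := by
          have e : r.length + 2 = w.length + 1 := by omega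
          rw [e]
          exact hw3
        rw [h4] at h1
        have := congrArg lv h1
        rw [hlvq, lv_le] at this
        omega
      · exact tq_out' t (hws (r.length + 2) (by omega) h3) h1
    · rcases Nat.lt_or_ge w.length (r.length + 2) with h3 | h3
      · have h4 : vx (ft 0) up w (r.length + 2) = le 1 := by
          have e : r.length + 2 = w.length + 1 := by omega
          rw [e]
          exact hw3
        apply (hvs v.length h2 le_rfl).2.1
        rw [h1, h4]
        exact le_mem_OO.2 le_rfl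
      · exact (hvs v.length h2 le_rfl).2.2 ⟨r.length + 2, by omega, h3, h1.symm⟩
  obtain ⟨hd1, hd2⟩ := swap_dirs _ hdr _ hdv b hcl hne1 hne2
  have hdir : turn (!b) (dx up r r.length) = -(dx (-up) v v.length) := by
    have h1 : dx up r r.length = -turn b (dx (-up) v v.length) := by rw [hd2, neg_neg]
    rw [h1, turn_neg, turn_turn]
  -- the vertices of the top walk
  have ev : ∀ k, k ≤ v.length + 1 → vx (ft 0) up s (r.length + 1 + k) = vx (tq T t) (-up) v (v.length + 1 - k) := by
    intro k hk
    rw [hsdef, (vx_split (ft 0) up r (!b) (rev v) k).1, hdir, ← ht]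
    exact vx_rev (tq T t) (-up) v k hk
  have evd : ∀ k, k ≤ v.length → dx up s (r.length + 1 + k) = -(dx (-up) v (v.length - k)) := by
    intro k hk
    rw [hsdef, (vx_split (ft 0) up r (!b) (rev v) k).2, hdir]
    exact dx_rev (-up) v k hk
  -- the vertices of the explorer
  have hrevw : rev w = rev m ++ ([!b] ++ rev r) := by
    rw [hwdef, rev_app, rev_app, List.append_assoc]
    rfl
  have em : ∀ k, k ≤ m.length + 1 → vx (ft 1) up u (2 + k) = vx (ft 0) up w (w.length + 1 - k) := by
    intro k hk
    have h1 := vx_rev (ft 0) up w k (by omega)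
    rw [hw3, hw4, neg_neg, hrevw] at h1
    rw [← h1, hudef, j_vx2]
    exact (vx_append (by rw [rev_length]; exact hk)).symm
  have hu1 : vx (ft 1) up u 1 = ue 1 := by
    rw [hudef, ft_eq]
    show ((2 * 1, -1) : Pt) + up = ue 1
    decide
  have hu2 : vx (ft 1) up u 2 = le 1 := j_vx2 (rev m) 0
  have htips : tip (ft 0) up s = tq T t := by
    unfold tip
    have e : s.length + 1 = r.length + 1 + (v.length + 1) := by omega
    rw [e, ev _ le_rfl, Nat.sub_self]
    rfl
  have htz : ue 1 ∈ (tz T n : Set Pt) ∧ le 1 ∈ (tz T n : Set Pt) := by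
    rw [Finset.mem_coe, Finset.mem_coe, mem_tz, mem_tz, mem_St', mem_St', lv_ue, lv_le]
    unfold ue le
    simp only
    push_cast
    refine ⟨⟨⟨by norm_num, by norm_num, by omega⟩, by omega, by omega⟩, ⟨by norm_num, by norm_num, by omega⟩, by omega,
      by omega⟩
  have hmems : ∀ i, 1 ≤ i → i ≤ s.length → vx (ft 0) up s i ∈ (tz T n : Set Pt) := by
    intro i h1 h2
    rcases Nat.lt_or_ge (r.length + 1) i with h | h
    · obtain ⟨k, rfl⟩ := Nat.exists_eq_add_of_le h.le
      rw [ev k (by omega)]
      exact (hvs _ (by omega) (by omega)).1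
    · rw [er i h]
      exact hws i h1 (by omega)
  have houts : ∀ i, 2 ≤ i → i ≤ s.length → vx (ft 0) up s i ∉ OO := by
    intro i h1 h2
    rcases Nat.lt_or_ge (r.length + 1) i with h | h
    · obtain ⟨k, rfl⟩ := Nat.exists_eq_add_of_le h.le
      rw [ev k (by omega)]
      exact (hvs _ (by omega) (by omega)).2.1
    · rw [er i h]
      exact hwo i h1 (by omega)
  have hadm : Adm 0 s := by
    refine ⟨(pre0 hw2 hr1).trans (List.prefix_append _ _), ?_⟩
    intro i h1 h2
    rw [pre0_len] at h1
    exact houts i (by omega) h2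
  have hs1 : vx (ft 0) up s 1 = ue 0 := (adm_vx hadm).1
  have htipu : tip (ft 1) up u = tip (ft 0) up r := by
    unfold tip
    have e : u.length + 1 = 2 + (m.length + 1) := by omega
    rw [e, em _ le_rfl]
    have e2 : w.length + 1 - (m.length + 1) = r.length + 1 := by omega
    rw [e2, er' _ le_rfl]
  refine ⟨⟨⟨⟨⟨?_, ?_⟩, ?_, ?_⟩, hadm⟩, htips⟩, ?_, htipu⟩
  · intro i h1 h2
    exact ⟨hmems i h1 h2, Set.notMem_empty _⟩
  · intro i j hij hj
    rcases Nat.lt_or_ge (r.length + 1) j with h | h
    · obtain ⟨k, rfl⟩ := Nat.exists_eq_add_of_le h.le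
      rcases Nat.lt_or_ge (r.length + 1) i with h' | h'
      · obtain ⟨k', rfl⟩ := Nat.exists_eq_add_of_le h'.le
        rw [ev k (by omega), ev k' (by omega)]
        exact (hv1.inj _ _ (by omega) (by omega)).symm
      · rcases Nat.eq_zero_or_pos i with h0 | h0
        · rw [h0]
          exact ft_out 0 (hmems _ (by omega) hj)
        · rw [er i h', ev k (by omega)]
          intro he
          exact (hvs (v.length + 1 - k) (by omega) (by omega)).2.2 ⟨i, h0, by omega, he⟩
    · rw [er i (by omega), er j h]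
      exact hw1.inj i j hij (by omega)
  · rw [htips]
    intro h
    exact tq_out' t h rfl
  · rw [hslen, evd _ le_rfl, Nat.sub_self]
    show -(-up) = up
    rw [neg_neg]
  · rw [mem_hitA]
    have hwv : ∀ k, 1 ≤ k → k ≤ m.length → vx (ft 0) up w (w.length + 1 - k) ∉ vis (ft 0) up s := by
      rintro k h1 h2 ⟨i, hi1, hi2, hi3⟩
      rcases Nat.lt_or_ge (r.length + 1) i with h | h
      · obtain ⟨k', rfl⟩ := Nat.exists_eq_add_of_le h.le
        rw [ev k' (by omega)] at hi3
        exact (hvs (v.length + 1 - k') (by omega) (by omega)).2.2 ⟨w.length + 1 - k, by omega, by omega, hi3.symm⟩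
      · rw [er i h] at hi3
        exact hw1.inj i (w.length + 1 - k) (by omega) (by omega) hi3
    have hOs : ∀ p : Pt, p ∈ OO → p ≠ ue 0 → p ∉ vis (ft 0) up s := by
      rintro p hp hp0 h
      rcases adm_OO hadm h hp with h1 | ⟨h1, _⟩
      · exact hp0 h1
      · exact h1 rfl
    have hO1 : ue 1 ∈ OO := ue_mem_OO.2 (by omega)
    have hO2 : le 1 ∈ OO := le_mem_OO.2 le_rfl
    have hne3 : ue 1 ≠ ue 0 := by decide
    have hne4 : le 1 ≠ ue 0 := by decide
    have hne5 : ue 1 ≠ le 1 := by decide
    refine ⟨⟨?_, ?_⟩, ⟨?_, ?_⟩, ?_, ?_⟩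
    · intro i h1 h2
      rw [Set.empty_union]
      rcases Nat.lt_or_ge 2 i with h | h
      · obtain ⟨k, rfl⟩ := Nat.exists_eq_add_of_le h.le
        rw [em k (by omega)]
        exact ⟨hws _ (by omega) (by omega), hwv k (by omega) (by omega)⟩
      · rcases (by omega : i = 1 ∨ i = 2) with h3 | h3
        · rw [h3, hu1]
          exact ⟨htz.1, hOs _ hO1 hne3⟩
        · rw [h3, hu2]
          exact ⟨htz.2, hOs _ hO2 hne4⟩
    · intro i j hij hj
      rcases Nat.lt_or_ge 2 j with h | h
      · obtain ⟨k, rfl⟩ := Nat.exists_eq_add_of_le h.le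
        have hwk := hws (w.length + 1 - k) (by omega) (by omega)
        have hwk' := hwo (w.length + 1 - k) (by omega) (by omega)
        rw [em k (by omega)]
        rcases Nat.lt_or_ge 2 i with h' | h'
        · obtain ⟨k', rfl⟩ := Nat.exists_eq_add_of_le h'.le
          rw [em k' (by omega)]
          exact (hw1.inj _ _ (by omega) (by omega)).symm
        · rcases (by omega : i = 0 ∨ i = 1 ∨ i = 2) with h3 | h3 | h3
          · rw [h3]
            exact ft_out 1 hwk
          · rw [h3, hu1]
            intro he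
            exact hwk' (he ▸ hO1)
          · rw [h3, hu2]
            intro he
            exact hwk' (he ▸ hO2)
      · rcases (by omega : (i = 0 ∧ j = 1) ∨ (i = 0 ∧ j = 2) ∨ (i = 1 ∧ j = 2)) with ⟨h3, h4⟩ | ⟨h3, h4⟩ | ⟨h3, h4⟩
        · rw [h3, h4, hu1]
          exact ft_out 1 htz.1
        · rw [h3, h4, hu2]
          exact ft_out 1 htz.2
        · rw [h3, h4, hu1, hu2]
          exact hne5
    · exact ⟨rev m, rfl⟩
    · intro i h1 h2
      rw [pre1_len] at h1
      obtain ⟨k, rfl⟩ := Nat.exists_eq_add_of_le h1.le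
      rw [em k (by omega)]
      exact hwo _ (by omega) (by omega)
    · refine ⟨r.length + 1, by omega, by omega, ?_⟩
      rw [htipu, er _ le_rfl, htipr]
    · rw [htipu, htipr]
      exact hwo _ (by omega) (by omega)

private lemma ex_pieces {q d0 x : Pt} {s : List Bool} (ht : x ∈ vis q d0 s) :
    ∃ r c m, s = r ++ ([c] ++ m) ∧ x = tip q d0 r := by
  obtain ⟨i, hi, hil, hv⟩ := ht
  have h1 := take_split (t := s) (i := i - 1) (by omega)
  refine ⟨s.take (i - 1), tf s (i - 1), s.drop (i - 1 + 1), h1, ?_⟩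
  have h2 : (s.take (i - 1)).length = i - 1 := by
    rw [List.length_take]
    omega
  have h3 : vx q d0 s i = vx q d0 (s.take (i - 1)) i := by
    conv_lhs => rw [h1]
    exact vx_append (by omega)
  rw [← hv, h3]
  show _ = vx q d0 (s.take (i - 1)) ((s.take (i - 1)).length + 1)
  congr 1
  omega

private lemma mem_brT {Ω : Finset Pt} {T : ℕ} {k t : ℤ} {s : List Bool} :
    s ∈ fam Ω (ft k) up (BrT T (Ω : Set Pt) k t) ↔ s ∈ BrT T (Ω : Set Pt) k t := by
  rw [mem_fam]
  exact ⟨fun h => h.2, fun h => ⟨saw_arr h.1.1.1, h⟩⟩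

private lemma mem_wa {Ω : Finset Pt} {w : List Bool} :
    w ∈ fam Ω (ft 0) up (WA (Ω : Set Pt)) ↔ w ∈ WA (Ω : Set Pt) := by
  rw [mem_fam]
  exact ⟨fun h => h.2, fun h => ⟨saw_arr h.1, h⟩⟩

private lemma mem_ht {Ω : Finset Pt} {Y : Set Pt} {T : ℕ} {t : ℤ} {u : List Bool} :
    u ∈ fam Ω (tq T t) (-up) (HT T (Ω : Set Pt) Y t) ↔ u ∈ HT T (Ω : Set Pt) Y t := by
  rw [mem_fam]
  exact ⟨fun h => h.2, fun h => ⟨saw_arr h.1, h⟩⟩

private lemma ex_u {Ω : Finset Pt} {X Y : Set Pt} {u : List Bool} (h : u ∈ hitA Ω X Y 1) :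
    ∃ u1, u = true :: false :: u1 := by
  rw [mem_hitA] at h
  obtain ⟨u1, h1⟩ := h.2.1.pre
  exact ⟨u1, h1.symm⟩

/-- the junction bijection. -/
theorem junc {T n : ℕ} (hT : 1 ≤ T) {t : ℤ} (hn : |t| + T + 4 < n) (F : ℤ → ℝ) :
    ∑ s ∈ fam (tz T n) (ft 0) up (BrT T (tz T n : Set Pt) 0 t),
      ∑ u ∈ hitA (tz T n) ∅ (vis (ft 0) up s) 1, xc ^ (s.length + u.length) * F (wind u - 1) =
    xc ^ 2 * ∑ w ∈ fam (tz T n) (ft 0) up (WA (tz T n : Set Pt)),
      ∑ u ∈ fam (tz T n) (tq T t) (-up) (HT T (tz T n : Set Pt) (vis (ft 0) up w) t),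
        xc ^ (w.length + u.length) * F (wind u) := by
  have _ := hT
  have hn1 : 1 < n := by
    have := abs_nonneg t
    omega
  rw [Finset.sum_sigma', Finset.sum_sigma', Finset.mul_sum]
  refine Finset.sum_bij' (fun a _ => ⟨(jf (a.1, a.2)).1, (jf (a.1, a.2)).2⟩)
    (fun a _ => ⟨(jg T t (a.1, a.2)).1, (jg T t (a.1, a.2)).2⟩) ?_ ?_ ?_ ?_ ?_
  · rintro ⟨s, u⟩ ha
    rw [Finset.mem_sigma] at ha
    simp only at ha
    rw [mem_brT] at ha
    obtain ⟨hs, hu⟩ := ha
    obtain ⟨u1, rfl⟩ := ex_u hu
    obtain ⟨r, c, m, rfl, ht⟩ := ex_pieces (mem_hitA.1 hu).2.2.1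
    obtain ⟨h1, h2, _, _⟩ := fwd hn1 hs hu ht
    rw [Finset.mem_sigma]
    simp only [jf_eq hs.1.1.1 ht]
    rw [mem_wa, mem_ht]
    exact ⟨h1, h2⟩
  · rintro ⟨w, v⟩ ha
    rw [Finset.mem_sigma] at ha
    simp only at ha
    rw [mem_wa, mem_ht] at ha
    obtain ⟨hw, hv⟩ := ha
    obtain ⟨r, b, m, rfl, ht⟩ := ex_pieces hv.2
    obtain ⟨h1, h2, _⟩ := bwd hn1 hw hv ht
    rw [Finset.mem_sigma]
    simp only [jg_eq hw.1 ht]
    rw [mem_brT]
    exact ⟨h1, h2⟩
  · rintro ⟨s, u⟩ ha
    rw [Finset.mem_sigma] at ha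
    simp only at ha
    rw [mem_brT] at ha
    obtain ⟨hs, hu⟩ := ha
    obtain ⟨u1, rfl⟩ := ex_u hu
    obtain ⟨r, c, m, rfl, ht⟩ := ex_pieces (mem_hitA.1 hu).2.2.1
    obtain ⟨h1, _, h3, _⟩ := fwd hn1 hs hu ht
    simp only [jf_eq hs.1.1.1 ht, jg_eq h1.1 h3, Bool.not_not, rev_rev]
  · rintro ⟨w, v⟩ ha
    rw [Finset.mem_sigma] at ha
    simp only at ha
    rw [mem_wa, mem_ht] at ha
    obtain ⟨hw, hv⟩ := ha
    obtain ⟨r, b, m, rfl, ht⟩ := ex_pieces hv.2
    obtain ⟨h1, _, h3⟩ := bwd hn1 hw hv ht
    simp only [jg_eq hw.1 ht, jf_eq h1.1.1.1 h3, Bool.not_not, rev_rev]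
  · rintro ⟨s, u⟩ ha
    rw [Finset.mem_sigma] at ha
    simp only at ha
    rw [mem_brT] at ha
    obtain ⟨hs, hu⟩ := ha
    obtain ⟨u1, rfl⟩ := ex_u hu
    obtain ⟨r, c, m, rfl, ht⟩ := ex_pieces (mem_hitA.1 hu).2.2.1
    obtain ⟨_, _, _, h4⟩ := fwd hn1 hs hu ht
    simp only [jf_eq hs.1.1.1 ht]
    rw [h4, ← mul_assoc, ← pow_add]
    congr 2
    simp only [List.length_append, List.length_cons, rev_length]
    omega

end PG

end HexObs
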