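import Pool.Agent.HexPG.Defs
import Pool.Agent.HexTube.Two

/-!
PG, M2: the explorer from the top t around an arc of WA.
-/

set_option autoImplicit false

namespace HexObs

namespace PG

open SP Complex Finset ENNReal Filter Topology

/-- the trapezoid is a good domain seen from the top number t. -/
private lemma te_good {T n : ℕ} (hT : 1 ≤ T) {t : ℤ} (hn : |t| + T + 1 < n) :
    GoodDom (tz T n) (tq T t) (-up) := by
  obtain ⟨ht1, ht2⟩ := abs_lt.1 (show |t| < (n : ℤ) - T - 1 by linarith)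
  have e0 : ∀ v : Pt, ip (tq T t - v) up = 3 * T + 5 - lv v := by
    intro v
    unfold ip tq up lv
    simp only [Prod.fst_sub, Prod.snd_sub]
    ring
  have e1 : ∀ v : Pt, ip (oo - v) (-up) = lv v := by
    intro v
    unfold ip oo up lv
    simp only [Prod.fst_sub, Prod.snd_sub, Prod.fst_neg, Prod.snd_neg]
    ring
  have e2 : ∀ v : Pt, ip (((-n, 2 * n) : Pt) - v) (-1, 1) = 3 * n - (v.2 - v.1) := by
    intro v
    unfold ip
    simp only [Prod.fst_sub, Prod.snd_sub]
    ring
  have e3 : ∀ v : Pt, ip (((n, n) : Pt) - v) (1, 0) = 3 * n - (2 * v.1 + v.2) := by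
    intro v
    unfold ip
    simp only [Prod.fst_sub, Prod.snd_sub]
    ring
  have c0 : cl (tq T t) = 2 := by
    have h := (ImTop.cl_cast (tq T t) 2).2 (by rw [ImTop.lv_tq]; omega)
    rw [h]
    norm_num
  have c1 : cl (-up) = 1 := by decide
  apply polygon_good ImTop.dtop
    {s | s = (tq T t, up) ∨ s = (oo, -up) ∨ s = (((-n, 2 * n) : Pt), ((-1, 1) : Pt)) ∨ s = (((n, n) : Pt), ((1, 0) : Pt))}
  · intro s hs
    have hcl : ∀ v : Pt, lv v % 3 = 0 → cl v = cl (tq T t) + cl (-up) := by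
      intro v hv
      rw [(ImTop.cl_cast v 0).2 (by omega), c0, c1]
      decide
    have d1 : up ∈ dirs := by decide
    have d3 : ((-1, 1) : Pt) ∈ dirs := by decide
    have d4 : ((1, 0) : Pt) ∈ dirs := by decide
    have f1 : cl up = -cl (-up) := by decide
    have f3 : cl ((-1, 1) : Pt) = cl (-up) := by decide
    have f4 : cl ((1, 0) : Pt) = cl (-up) := by decide
    rcases hs with rfl | rfl | rfl | rfl
    · exact ⟨d1, Or.inl ⟨rfl, f1⟩⟩
    · exact ⟨ImTop.dtop, Or.inr ⟨hcl _ (by decide), rfl⟩⟩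
    · refine ⟨d3, Or.inr ⟨hcl _ ?_, f3⟩⟩
      unfold lv
      simp only
      omega
    · refine ⟨d4, Or.inr ⟨hcl _ ?_, f4⟩⟩
      unfold lv
      simp only
      omega
  · left
    rw [neg_neg]
  · intro v
    rw [mem_tz, mem_St', ImTop.hex_top]
    constructor
    · rintro ⟨⟨h1, h2, h3⟩, h4, h5⟩
      refine ⟨h1, ?_⟩
      rintro s (rfl | rfl | rfl | rfl)
      · rw [e0]
        push_cast at h3
        linarith
      · rw [e1]
        exact h2
      · rw [e2]
        linarith
      · rw [e3]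
        linarith
    · rintro ⟨h1, h2⟩
      have a0 := h2 (tq T t, up) (Or.inl rfl)
      have a1 := h2 (oo, -up) (Or.inr (Or.inl rfl))
      have a2 := h2 (((-n, 2 * n) : Pt), ((-1, 1) : Pt)) (Or.inr (Or.inr (Or.inl rfl)))
      have a3 := h2 (((n, n) : Pt), ((1, 0) : Pt)) (Or.inr (Or.inr (Or.inr rfl)))
      simp only [] at a0 a1 a2 a3
      rw [e0] at a0
      rw [e1] at a1
      rw [e2] at a2
      rw [e3] at a3
      refine ⟨⟨h1, a1, ?_⟩, by linarith, by linarith⟩
      push_cast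
      linarith
  · rw [mem_tz, mem_St']
    unfold lv tq up
    simp only [Prod.fst_add, Prod.snd_add, Prod.fst_neg, Prod.snd_neg]
    push_cast
    refine ⟨⟨?_, ?_, ?_⟩, ?_, ?_⟩
    · omega
    · linarith
    · linarith
    · linarith
    · linarith

private lemma te_lv {T n : ℕ} {v : Pt} (h : v ∈ tz T n) : lv v % 3 ≠ 1 ∧ 0 < lv v ∧ lv v < 3 * T + 5 := by
  rw [mem_tz, mem_St'] at h
  obtain ⟨⟨h1, h2, h3⟩, _⟩ := h
  push_cast at h3
  exact ⟨h1, h2, by linarith⟩

private lemma te_dirs {d : Pt} (hd : d ∈ dirs) : d = -up ∨ d = (1, -1) ∨ d = (-1, 0) ∨ d = (1, 0) ∨ d = (-1, 1) ∨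
    d = up := by
  revert d
  decide

/-- sites of OO are not visited. -/
private lemma te_vis {T n : ℕ} {t : ℤ} {Y : Set Pt} {u : List Bool}
    (h : IsArr (slit (tz T n) (OO ∪ Y)) (tq T t) (-up) u) {p : Pt} (hp : p ∈ OO) :
    ∀ i, i ≤ u.length → vx (tq T t) (-up) u i ≠ p := by
  intro i hi he
  rcases Nat.eq_zero_or_pos i with h0 | h0
  · rw [h0] at he
    have he' : tq T t = p := he
    have h1 := ImTop.lv_tq T t
    rw [he'] at h1
    have h2 : lv p ≤ 3 := hp.1
    omega
  · have h1 := (mem_slit.1 (h.mem i h0 hi)).2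
    rw [he] at h1
    exact h1 (Or.inl hp)

/-- a walk that comes down on OO has winding 0. -/
private lemma te_down {T n : ℕ} {t : ℤ} (hG : GoodDom (tz T n) (tq T t) (-up)) {Y : Set Pt} {u : List Bool}
    (h : IsArr (slit (tz T n) (OO ∪ Y)) (tq T t) (-up) u) (hin : tip (tq T t) (-up) u ∈ tz T n)
    (hO : tip (tq T t) (-up) u ∈ OO) (hd : dx (-up) u u.length = -up) (h3 : lv (tip (tq T t) (-up) u) = 3) :
    wind u = 0 := by
  have harr : IsArr (tz T n) (tq T t) (-up) u :=
    ⟨fun i h1 h2 => (mem_slit.1 (h.mem i h1 h2)).1, h.inj⟩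
  have e1 : turn true (dx (-up) u u.length) = (1, -1) := by
    rw [hd]
    decide
  have hA1 : IsArr (tz T n) (tq T t) (-up) (u ++ [true]) := by
    rw [isArr_append_one]
    exact ⟨harr, hin, te_vis h hO⟩
  have etip : tip (tq T t) (-up) (u ++ [true]) = tip (tq T t) (-up) u + (1, -1) := by
    rw [tip_append_one, e1]
  have edx : dx (-up) (u ++ [true]) (u ++ [true]).length = (1, -1) := by
    rw [dx_append_one, e1]
  by_cases hin2 : tip (tq T t) (-up) (u ++ [true]) ∈ tz T n
  · have hex : u ++ [true] ++ [false] ∈ exits (tz T n) (tq T t) (-up) := by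
      rw [mem_exits, isArr_append_one]
      refine ⟨⟨hA1, hin2, ?_⟩, ?_⟩
      · have hO2 : tip (tq T t) (-up) (u ++ [true]) ∈ OO := by
          rw [etip]
          obtain ⟨o1, o2⟩ := hO
          refine ⟨?_, ?_⟩
          · unfold lv at h3 ⊢
            simp only [Prod.fst_add, Prod.snd_add]
            omega
          · unfold nn at o2 ⊢
            simp only [Prod.fst_add, Prod.snd_add]
            omega
        intro i hi
        have hl2 : (u ++ [true]).length = u.length + 1 := by simp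
        rw [hl2] at hi
        rcases Nat.lt_or_ge u.length i with h5 | h5
        · have h6 : i = u.length + 1 := by omega
          rw [h6, vx_append le_rfl, etip]
          intro h7
          have h8 : tip (tq T t) (-up) u = tip (tq T t) (-up) u + (1, -1) := h7
          have h9 := congrArg Prod.fst h8
          simp only [Prod.fst_add] at h9
          omega
        · rw [vx_append (by omega)]
          exact te_vis h hO2 i h5
      · rw [tip_append_one, edx, etip]
        intro h4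
        have h4 := (te_lv h4).2.1
        have e2 : turn false ((1, -1) : Pt) = (0, -1) := by decide
        rw [e2] at h4
        unfold lv at h4 h3
        simp only [Prod.fst_add, Prod.snd_add] at h4 h3
        omega
    have hdl : dx (-up) (u ++ [true] ++ [false]) (u ++ [true] ++ [false]).length = -up := by
      rw [dx_append_one, edx]
      decide
    have hw := hG.wind hex
    rw [hdl] at hw
    have hw0 : wind (u ++ [true] ++ [false]) = 0 := by
      rcases hw with h | h | h | h | h | h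
      · exact h.2
      · exact absurd h.1 (by decide)
      · exact absurd h.1 (by decide)
      · exact absurd h.1 (by decide)
      · exact absurd h.1 (by decide)
      · exact absurd h.1 (by decide)
    rw [wind_append, wind_append] at hw0
    have w1 : wind [false] = -1 := by decide
    have w2 : wind [true] = 1 := by decide
    omega
  · have hex : u ++ [true] ∈ exits (tz T n) (tq T t) (-up) := by
      rw [mem_exits]
      exact ⟨hA1, hin2⟩
    have hw := hG.wind hex
    rw [edx] at hw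
    have hw0 : wind (u ++ [true]) = 1 := by
      rcases hw with h | h | h | h | h | h
      · exact absurd h.1 (by decide)
      · exact h.2
      · exact absurd h.1 (by decide)
      · exact absurd h.1 (by decide)
      · exact absurd h.1 (by decide)
      · exact absurd h.1 (by decide)
    rw [wind_append] at hw0
    have w2 : wind [true] = 1 := by decide
    omega

private lemma te_tq_out (T n : ℕ) (b : ℤ) : tq T b ∉ tz T n := by
  intro h
  have h1 := (te_lv h).2.2
  rw [ImTop.lv_tq] at h1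
  exact lt_irrefl _ h1

/-- the arcs of WA visit ue 0. -/
private lemma te_WA {T n : ℕ} {w : List Bool} (hw : w ∈ WA (tz T n : Set Pt)) :
    vis (ft 0) up w ⊆ (tz T n : Set Pt) ∧ ue 0 ∈ vis (ft 0) up w := by
  obtain ⟨h1, h2, h3, h4⟩ := hw
  refine ⟨?_, ?_⟩
  · rintro p ⟨i, hi, hil, rfl⟩
    exact (h1.mem i hi hil).1
  · have h6 : 1 ≤ w.length := by
      have h7 := h2.pre.length_le
      unfold SP.pre at h7
      rw [if_pos rfl] at h7
      exact h7
    exact ⟨1, le_rfl, h6, (adm_vx h2).1⟩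

/-- THE EXITS. -/
private lemma te_cases {T n : ℕ} (hT : 1 ≤ T) {t : ℤ} (hG : GoodDom (tz T n) (tq T t) (-up)) {Y : Set Pt}
    (h0 : ue 0 ∈ Y) {u : List Bool} (hu : u ∈ exits (slit (tz T n) (OO ∪ Y)) (tq T t) (-up)) :
    u ∈ HT T (tz T n : Set Pt) Y t ∨
    (tip (tq T t) (-up) u ∉ Y ∧ dx (-up) u u.length = -up ∧ wind u = 0) ∨
    (u ∈ TR T (tz T n : Set Pt) Y t ∧ wind u = 3) ∨
    (u ∈ TL T (tz T n : Set Pt) Y t ∧ wind u = -3) ∨
    (tip (tq T t) (-up) u ∉ Y ∧ dx (-up) u u.length ≠ up ∧ u ∈ LT T (tz T n : Set Pt) t) := by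
  obtain ⟨h, hout⟩ := mem_exits.1 hu
  have harr : IsArr (tz T n) (tq T t) (-up) u :=
    ⟨fun i h1 h2 => (mem_slit.1 (h.mem i h1 h2)).1, h.inj⟩
  by_cases hYt : tip (tq T t) (-up) u ∈ Y
  · exact Or.inl ⟨saw_slit.2 h, hYt⟩
  right
  by_cases htz : tip (tq T t) (-up) u ∈ tz T n
  · left
    have hO : tip (tq T t) (-up) u ∈ OO := by
      by_contra hcon
      apply hout
      rw [mem_slit]
      exact ⟨htz, fun h => h.elim hcon hYt⟩
    have hlen : 1 ≤ u.length := by
      by_contra hcon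
      have hz : u = [] := List.length_eq_zero_iff.1 (by omega)
      rw [hz] at hO
      have h1 : lv (tq T t + -up) ≤ 3 := hO.1
      have h2 := ImTop.lv_tq T t
      unfold lv at h1 h2
      simp only [up, Prod.fst_add, Prod.snd_add, Prod.fst_neg, Prod.snd_neg] at h1 h2
      omega
    have hl := mem_slit.1 (h.mem _ hlen le_rfl)
    have hlv := te_lv hl.1
    have htv := te_lv htz
    have hd := dx_mem ImTop.dtop u u.length
    have htip := tip_eq (v0 := tq T t) (d0 := -up) u
    have hO' := hO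
    rw [htip] at htv hO'
    rcases ImTop.step_OO hd hlv.1 hlv.2.1 (fun h => hl.2 (Or.inl h)) htv.1 htv.2.1 hO' with ⟨h1, h2⟩ | ⟨h1, h2⟩
    · exfalso
      apply hYt
      rw [htip, h1]
      exact h0
    · rw [← htip] at h2
      exact ⟨hYt, h1, te_down hG h htz hO h1 h2⟩
  · have hex : u ∈ exits (tz T n) (tq T t) (-up) := mem_exits.2 ⟨harr, htz⟩
    have hs : Saw ((tz T n : Set Pt) \ (OO ∪ Y)) (tq T t) (-up) u := saw_slit.2 h
    by_cases hd0 : dx (-up) u u.length = -up
    · left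
      refine ⟨hYt, hd0, ?_⟩
      have hw := hG.wind hex
      rw [hd0] at hw
      rcases hw with h | h | h | h | h | h
      · exact h.2
      · exact absurd h.1 (by decide)
      · exact absurd h.1 (by decide)
      · exact absurd h.1 (by decide)
      · exact absurd h.1 (by decide)
      · exact absurd h.1 (by decide)
    right
    by_cases hdu : dx (-up) u u.length = up
    · have hdu' : dx (-up) u u.length = - -up := by rw [hdu, neg_neg]
      have hlev := hG.bottom_level hex hdu'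
      rw [ImTop.ip_top] at hlev
      obtain ⟨b, hb⟩ := ImTop.top_eq (T := T) (p := tip (tq T t) (-up) u) (by linarith)
      rcases hG.bottom hex hdu' with ⟨h3, h4⟩ | ⟨h3, h4⟩
      · rw [hb, ImTop.cross_top] at h3
        exact Or.inl ⟨⟨b, by linarith, hs, hb, hdu⟩, h4⟩
      · rw [hb, ImTop.cross_top] at h3
        exact Or.inr (Or.inl ⟨⟨b, by linarith, hs, hb, hdu⟩, h4⟩)
    · right
      right
      exact ⟨hYt, hdu, saw_coe.2 harr, htz, hdu, hd0⟩

/-- sums over a family of exits. -/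
private lemma te_fam {T n : ℕ} {t : ℤ} {Y : Set Pt} {F : Set (List Bool)} [DecidablePred (fun u => u ∈ F)]
    (hF : ∀ u ∈ F, Saw ((tz T n : Set Pt) \ (OO ∪ Y)) (tq T t) (-up) u ∧
      tip (tq T t) (-up) u ∉ slit (tz T n) (OO ∪ Y)) (g : List Bool → ℝ) :
    ∑ u ∈ fam (tz T n) (tq T t) (-up) F, g u =
      ∑ u ∈ exits (slit (tz T n) (OO ∪ Y)) (tq T t) (-up), (if u ∈ F then g u else 0) := by
  rw [← Finset.sum_filter]
  apply Finset.sum_congr _ (fun _ _ => rfl)
  ext u
  rw [mem_fam, Finset.mem_filter, mem_exits]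
  constructor
  · rintro ⟨_, h2⟩
    exact ⟨⟨saw_slit.1 (hF u h2).1, (hF u h2).2⟩, h2⟩
  · rintro ⟨⟨h1, _⟩, h3⟩
    exact ⟨saw_arr (saw_slit.2 h1), h3⟩

/-- the contour identity from the top t around the arc w. -/
theorem top_fin {T n : ℕ} (hT : 1 ≤ T) {t : ℤ} (hn : |t| + T + 4 < n) {w : List Bool}
    (hw : w ∈ WA (tz T n : Set Pt)) :
    |∑ u ∈ fam (tz T n) (tq T t) (-up) (HT T (tz T n : Set Pt) (vis (ft 0) up w) t), xc ^ u.length * sn (wind u) +
      sn 3 * gr (tz T n) (tq T t) (-up) (TR T (tz T n : Set Pt) (vis (ft 0) up w) t) -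
      sn 3 * gr (tz T n) (tq T t) (-up) (TL T (tz T n : Set Pt) (vis (ft 0) up w) t)| ≤
      gr (tz T n) (tq T t) (-up) (LT T (tz T n : Set Pt) t) := by
  classical
  obtain ⟨hY, hue⟩ := te_WA hw
  have hG := te_good (t := t) (n := n) hT (by linarith)
  set Y := vis (ft 0) up w with hYdef
  have hhalf : ∀ v ∈ slit (tz T n) (OO ∪ Y), 0 < ip (v - tq T t) (-up) := fun v hv => hG.half v (mem_slit.1 hv).1
  have hid := identity_im (slit (tz T n) (OO ∪ Y)) ImTop.dtop hhalf
  have outq : ∀ b, tq T b ∉ slit (tz T n) (OO ∪ Y) := fun b h => te_tq_out T n b (mem_slit.1 h).1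
  have f1 : ∀ u ∈ HT T (tz T n : Set Pt) Y t, Saw ((tz T n : Set Pt) \ (OO ∪ Y)) (tq T t) (-up) u ∧
      tip (tq T t) (-up) u ∉ slit (tz T n) (OO ∪ Y) :=
    fun u h => ⟨h.1, fun h1 => (mem_slit.1 h1).2 (Or.inr h.2)⟩
  have f2 : ∀ u ∈ TR T (tz T n : Set Pt) Y t, Saw ((tz T n : Set Pt) \ (OO ∪ Y)) (tq T t) (-up) u ∧
      tip (tq T t) (-up) u ∉ slit (tz T n) (OO ∪ Y) := by
    rintro u ⟨b, _, h1, h2, _⟩
    refine ⟨h1, ?_⟩
    rw [h2]
    exact outq b
  have f3 : ∀ u ∈ TL T (tz T n : Set Pt) Y t, Saw ((tz T n : Set Pt) \ (OO ∪ Y)) (tq T t) (-up) u ∧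
      tip (tq T t) (-up) u ∉ slit (tz T n) (OO ∪ Y) := by
    rintro u ⟨b, _, h1, h2, _⟩
    refine ⟨h1, ?_⟩
    rw [h2]
    exact outq b
  have g4 : ∑ u ∈ exits (slit (tz T n) (OO ∪ Y)) (tq T t) (-up),
      (if u ∈ LT T (tz T n : Set Pt) t then xc ^ u.length else 0) ≤
      gr (tz T n) (tq T t) (-up) (LT T (tz T n : Set Pt) t) := by
    rw [← Finset.sum_filter]
    unfold gr
    apply Finset.sum_le_sum_of_subset_of_nonneg
    · intro u hu
      rw [Finset.mem_filter, mem_exits] at hu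
      rw [mem_fam]
      exact ⟨saw_arr (saw_slit.2 hu.1.1), hu.2⟩
    · intro u _ _
      exact pow_nonneg xc_pos.le _
  refine le_trans ?_ g4
  unfold gr
  rw [te_fam f1, te_fam f2, te_fam f3, Finset.mul_sum, Finset.mul_sum, ← Finset.sum_add_distrib,
    ← Finset.sum_sub_distrib]
  have e : ∀ z : ℝ, |z| = |z - ∑ u ∈ exits (slit (tz T n) (OO ∪ Y)) (tq T t) (-up),
      Real.sin (wind u * (Real.pi / 8)) * xc ^ u.length| := by
    intro z
    rw [hid, sub_zero]
  rw [e, ← Finset.sum_sub_distrib]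
  refine (Finset.abs_sum_le_sum_abs _ _).trans (Finset.sum_le_sum ?_)
  intro u hu
  have hx := pow_nonneg xc_pos.le u.length
  obtain ⟨n1, n2, n3, n4, n5⟩ := ImTop.up_ne
  have h0 : 0 ≤ (if u ∈ LT T (tz T n : Set Pt) t then xc ^ u.length else 0) := by
    split_ifs
    · exact hx
    · exact le_rfl
  have tY : ∀ b, tip (tq T t) (-up) u = tq T b → tip (tq T t) (-up) u ∉ Y := by
    intro b hb h1
    rw [hb] at h1
    exact te_tq_out T n b (hY h1)
  have tR : u ∈ TR T (tz T n : Set Pt) Y t → tip (tq T t) (-up) u ∉ Y ∧ dx (-up) u u.length = up := by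
    rintro ⟨b, _, _, h2, h3⟩
    exact ⟨tY b h2, h3⟩
  have tL : u ∈ TL T (tz T n : Set Pt) Y t → tip (tq T t) (-up) u ∉ Y ∧ dx (-up) u u.length = up := by
    rintro ⟨b, _, _, h2, h3⟩
    exact ⟨tY b h2, h3⟩
  have tRL : u ∈ TR T (tz T n : Set Pt) Y t → u ∉ TL T (tz T n : Set Pt) Y t := by
    rintro ⟨b, hb, _, h2, _⟩ ⟨c, hc, _, h3, _⟩
    have := ImTop.tq_inj (h2.symm.trans h3)
    omega
  rcases te_cases hT hG hue hu with h | ⟨h1, h2, h3⟩ | ⟨h1, h2⟩ | ⟨h1, h2⟩ | ⟨h1, h2, h3⟩
  · have a1 : u ∉ TR T (tz T n : Set Pt) Y t := fun h1 => (tR h1).1 h.2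
    have a2 : u ∉ TL T (tz T n : Set Pt) Y t := fun h1 => (tL h1).1 h.2
    rw [if_pos h, if_neg a1, if_neg a2]
    have e1 : xc ^ u.length * sn (wind u) + sn 3 * 0 - sn 3 * 0 -
        Real.sin (wind u * (Real.pi / 8)) * xc ^ u.length = 0 := by
      unfold sn
      ring
    rw [e1, abs_zero]
    exact h0
  · have a0 : u ∉ HT T (tz T n : Set Pt) Y t := fun h => h1 h.2
    have a1 : u ∉ TR T (tz T n : Set Pt) Y t := fun h => n1 ((tR h).2.symm.trans h2)
    have a2 : u ∉ TL T (tz T n : Set Pt) Y t := fun h => n1 ((tL h).2.symm.trans h2)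
    rw [if_neg a0, if_neg a1, if_neg a2, h3]
    have e1 : (0 : ℝ) + sn 3 * 0 - sn 3 * 0 - Real.sin (((0 : ℤ) : ℝ) * (Real.pi / 8)) * xc ^ u.length = 0 := by
      rw [Int.cast_zero, zero_mul, Real.sin_zero]
      ring
    rw [e1, abs_zero]
    exact h0
  · have a0 : u ∉ HT T (tz T n : Set Pt) Y t := fun h => (tR h1).1 h.2
    have a2 : u ∉ TL T (tz T n : Set Pt) Y t := tRL h1
    rw [if_neg a0, if_pos h1, if_neg a2, h2]
    have e1 : (0 : ℝ) + sn 3 * xc ^ u.length - sn 3 * 0 -
        Real.sin (((3 : ℤ) : ℝ) * (Real.pi / 8)) * xc ^ u.length = 0 := by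
      unfold sn
      push_cast
      ring
    rw [e1, abs_zero]
    exact h0
  · have a0 : u ∉ HT T (tz T n : Set Pt) Y t := fun h => (tL h1).1 h.2
    have a1 : u ∉ TR T (tz T n : Set Pt) Y t := fun h => tRL h h1
    rw [if_neg a0, if_neg a1, if_pos h1, h2]
    have e1 : (0 : ℝ) + sn 3 * 0 - sn 3 * xc ^ u.length -
        Real.sin (((-3 : ℤ) : ℝ) * (Real.pi / 8)) * xc ^ u.length = 0 := by
      unfold sn
      push_cast
      rw [neg_mul, Real.sin_neg]
      ring
    rw [e1, abs_zero]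
    exact h0
  · have a0 : u ∉ HT T (tz T n : Set Pt) Y t := fun h => h1 h.2
    have a1 : u ∉ TR T (tz T n : Set Pt) Y t := fun h => h2 (tR h).2
    have a2 : u ∉ TL T (tz T n : Set Pt) Y t := fun h => h2 (tL h).2
    rw [if_neg a0, if_neg a1, if_neg a2, if_pos h3]
    have e1 : (0 : ℝ) + sn 3 * 0 - sn 3 * 0 - Real.sin (wind u * (Real.pi / 8)) * xc ^ u.length =
        -(Real.sin (wind u * (Real.pi / 8)) * xc ^ u.length) := by ring
    rw [e1, abs_neg, abs_mul, abs_of_nonneg hx]
    have e2 := Real.abs_sin_le_one (wind u * (Real.pi / 8))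
    calc |Real.sin (wind u * (Real.pi / 8))| * xc ^ u.length ≤ 1 * xc ^ u.length :=
          mul_le_mul_of_nonneg_right e2 hx
      _ = xc ^ u.length := one_mul _

/-! the lateral exits -/

private lemma te_coe (T n : ℕ) : ((tz T n : Finset Pt) : Set Pt) = trap oo up (T + 1) n := by
  unfold tz
  rw [trapF_coe]

private lemma te_sub {T L m : ℕ} {t : ℤ} (hm : (L : ℤ) + T + |t| + 3 ≤ m) {v : Pt}
    (hv : v ∈ trap (tq T t) (-up) (T + 1) L) : v ∈ St (T + 1) ∧ v.2 - v.1 < 3 * m - 3 ∧ 2 * v.1 + v.2 < 3 * m - 3 := by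
  have h1 := trap_sub _ _ _ _ hv
  rw [ImTop.strip_top] at h1
  obtain ⟨_, h2, h3⟩ := hv
  have h4 := mem_St'.1 h1
  obtain ⟨_, h5, h6⟩ := h4
  have a1 := neg_abs_le t
  have a2 := le_abs_self t
  have hL : (0 : ℤ) ≤ L := Int.natCast_nonneg L
  have hTT : (0 : ℤ) ≤ T := Int.natCast_nonneg T
  refine ⟨h1, ?_, ?_⟩
  · unfold lv at h5 h6
    unfold ip rotL up tq at h2
    unfold ip rotR up tq at h3
    simp only [Prod.fst_sub, Prod.snd_sub, Prod.fst_neg, Prod.snd_neg] at h2 h3
    push_cast at h6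
    linarith
  · unfold lv at h5 h6
    unfold ip rotL up tq at h2
    unfold ip rotR up tq at h3
    simp only [Prod.fst_sub, Prod.snd_sub, Prod.fst_neg, Prod.snd_neg] at h2 h3
    push_cast at h6
    linarith

private lemma te_nb {m : ℕ} {q d : Pt} (hd : d ∈ dirs) (h1 : q.2 - q.1 < 3 * m - 3) (h2 : 2 * q.1 + q.2 < 3 * m - 3) :
    (q + d).2 - (q + d).1 < 3 * m ∧ 2 * (q + d).1 + (q + d).2 < 3 * m := by
  simp only [Prod.fst_add, Prod.snd_add]
  rcases te_dirs hd with h | h | h | h | h | h <;> rw [h] <;> simp only [up, Prod.fst_neg, Prod.snd_neg] <;>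
    constructor <;> linarith

/-- the lateral exits of the big domain against the lateral exits of a domain that narrows downwards. -/
private lemma te_ineq {T L m : ℕ} (hT : 1 ≤ T) (hL : 1 ≤ L) {t : ℤ} (hm : (L : ℤ) + T + |t| + 3 ≤ m) :
    Real.cos (Real.pi / 4) * gr (tz T m) (tq T t) (-up) (LT T (tz T m : Set Pt) t) ≤
      gr (trapF (v0 := tq T t) ImTop.dtop (T + 1) L) (tq T t) (-up)
        (HexW.Lat (trapF (v0 := tq T t) ImTop.dtop (T + 1) L : Set Pt) ∅ true (tq T t) (-up)) +
      gr (trapF (v0 := tq T t) ImTop.dtop (T + 1) L) (tq T t) (-up)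
        (HexW.Lat (trapF (v0 := tq T t) ImTop.dtop (T + 1) L : Set Pt) ∅ false (tq T t) (-up)) := by
  classical
  have hTT : (1 : ℤ) ≤ T := by exact_mod_cast hT
  have hLL : (1 : ℤ) ≤ L := by exact_mod_cast hL
  have hG : GoodDom (tz T m) (tq T t) (-up) := te_good hT (by linarith)
  have hG' := ImTop.good T t hL
  set Ω' := trapF (v0 := tq T t) ImTop.dtop (T + 1) L with hΩ'
  have hsub : ∀ v ∈ Ω', v ∈ tz T m := by
    intro v hv
    obtain ⟨h1, h2, h3⟩ := te_sub hm (ImTop.mem_tr.1 hv)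
    exact mem_tz.2 ⟨h1, by linarith, by linarith⟩
  have htwo := Tube.two_dom ImTop.dtop hG.half hG'.half 0
  -- lower bound
  have low : Real.cos (Real.pi / 4) * gr (tz T m) (tq T t) (-up) (LT T (tz T m : Set Pt) t) ≤
      ∑ u ∈ exits (tz T m) (tq T t) (-up) \ exits Ω' (tq T t) (-up), Tube.fb 0 u := by
    have hs : fam (tz T m) (tq T t) (-up) (LT T (tz T m : Set Pt) t) ⊆
        exits (tz T m) (tq T t) (-up) \ exits Ω' (tq T t) (-up) := by
      intro u hu
      obtain ⟨h1, h2, h3, h4, h5⟩ := mem_fam.1 hu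
      rw [Finset.mem_sdiff]
      refine ⟨mem_exits.2 ⟨h1, h3⟩, ?_⟩
      intro h6
      obtain ⟨h7, h8⟩ := mem_exits.1 h6
      have hs : Saw (trap (tq T t) (-up) (T + 1) L) (tq T t) (-up) u := by
        rw [← trapF_coe (v0 := tq T t) ImTop.dtop]
        exact saw_coe.2 h7
      rcases trap_exit ImTop.dtop (by omega) hL hs (fun h => h8 (ImTop.mem_tr.2 h)) with
        ⟨h9, _⟩ | ⟨h9, _⟩ | ⟨b, _, _, h9, _⟩
      · exact h4 (by rw [h9, neg_neg])
      · exact h5 h9
      · apply h3
        rw [ImTop.strip_top] at h9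
        have hlen : 1 ≤ u.length := by
          by_contra hcon
          have hz : u = [] := List.length_eq_zero_iff.1 (by omega)
          apply h5
          rw [hz]
          rfl
        obtain ⟨g1, g2, g3⟩ := te_sub hm (hs.mem _ hlen le_rfl)
        have hd := dx_mem ImTop.dtop u u.length
        have htip := tip_eq (v0 := tq T t) (d0 := -up) u
        apply Finset.mem_coe.2
        rw [mem_tz]
        obtain ⟨k1, k2⟩ := te_nb hd g2 g3
        refine ⟨h9, ?_, ?_⟩
        · rw [htip]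
          exact k1
        · rw [htip]
          exact k2
    unfold gr
    rw [Finset.mul_sum]
    refine le_trans (Finset.sum_le_sum ?_) (Finset.sum_le_sum_of_subset_of_nonneg hs ?_)
    · intro u hu
      obtain ⟨h1, h2, h3, h4, h5⟩ := mem_fam.1 hu
      have hx := pow_nonneg xc_pos.le u.length
      unfold Tube.fb
      apply mul_le_mul_of_nonneg_right _ hx
      rw [add_zero]
      have hw := hG.wind (mem_exits.2 ⟨h1, h3⟩)
      have key : ∀ w : ℤ, |w| ≤ 2 → Real.cos (Real.pi / 4) ≤ Real.cos ((w : ℝ) * (Real.pi / 8)) := by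
        intro w hw
        rw [← Real.cos_abs ((w : ℝ) * (Real.pi / 8)), abs_mul, abs_of_nonneg (show 0 ≤ Real.pi / 8 by positivity)]
        have hw' : |(w : ℝ)| ≤ 2 := by exact_mod_cast hw
        have h0 : 0 ≤ |(w : ℝ)| := abs_nonneg _
        have hp := Real.pi_pos
        apply Real.cos_le_cos_of_nonneg_of_le_pi
        · positivity
        · linarith
        · nlinarith
      rcases hw with h | h | h | h | h | h
      · exact absurd h.1 h5
      · rw [h.2]
        exact key 1 (by norm_num)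
      · rw [h.2]
        exact key (-1) (by norm_num)
      · rw [h.2]
        exact key 2 (by norm_num)
      · rw [h.2]
        exact key (-2) (by norm_num)
      · exact absurd (by rw [h.1, neg_neg]) h4
    · intro u hu _
      apply Tube.fb_nonneg (by rw [abs_zero]; positivity)
      rw [Finset.mem_sdiff] at hu
      rcases hG.wind_cases hu.1 with h | h | h | h | h | h | h <;> rw [h] <;> norm_num
  -- upper bound
  have upp : ∑ u ∈ exits Ω' (tq T t) (-up) \ exits (tz T m) (tq T t) (-up), Tube.fb 0 u ≤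
      gr Ω' (tq T t) (-up) (HexW.Lat (Ω' : Set Pt) ∅ true (tq T t) (-up)) +
      gr Ω' (tq T t) (-up) (HexW.Lat (Ω' : Set Pt) ∅ false (tq T t) (-up)) := by
    have hs : exits Ω' (tq T t) (-up) \ exits (tz T m) (tq T t) (-up) ⊆
        fam Ω' (tq T t) (-up) (HexW.Lat (Ω' : Set Pt) ∅ true (tq T t) (-up)) ∪
        fam Ω' (tq T t) (-up) (HexW.Lat (Ω' : Set Pt) ∅ false (tq T t) (-up)) := by
      intro u hu
      rw [Finset.mem_sdiff] at hu
      obtain ⟨h6, h7⟩ := hu
      obtain ⟨h1, h2⟩ := mem_exits.1 h6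
      have hs : Saw (trap (tq T t) (-up) (T + 1) L) (tq T t) (-up) u := by
        rw [← trapF_coe (v0 := tq T t) ImTop.dtop]
        exact saw_coe.2 h1
      have harr : IsArr (tz T m) (tq T t) (-up) u := ⟨fun i h3 h4 => hsub _ (h1.mem i h3 h4), h1.inj⟩
      have hin : tip (tq T t) (-up) u ∈ tz T m := by
        by_contra hcon
        exact h7 (mem_exits.2 ⟨harr, hcon⟩)
      have hlv := te_lv hin
      have hlat : ∃ b : Bool, dx (-up) u u.length = turn b (-up) := by
        rcases trap_exit ImTop.dtop (by omega) hL hs (fun h => h2 (ImTop.mem_tr.2 h)) with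
          ⟨_, h9⟩ | ⟨_, h9⟩ | ⟨b, h9, _⟩
        · exfalso
          rw [ImTop.ip_top] at h9
          linarith [hlv.2.2]
        · exfalso
          rw [ImTop.ip_top] at h9
          push_cast at h9
          linarith [hlv.2.1]
        · exact ⟨b, h9⟩
      obtain ⟨b, hb⟩ := hlat
      rw [Finset.mem_union, mem_fam, mem_fam]
      have hsaw : Saw ((Ω' : Set Pt) \ ∅) (tq T t) (-up) u := by
        rw [Set.sdiff_empty]
        exact saw_coe.2 h1
      cases b
      · exact Or.inr ⟨h1, hsaw, h2, hb⟩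
      · exact Or.inl ⟨h1, hsaw, h2, hb⟩
    have hdis : Disjoint (fam Ω' (tq T t) (-up) (HexW.Lat (Ω' : Set Pt) ∅ true (tq T t) (-up)))
        (fam Ω' (tq T t) (-up) (HexW.Lat (Ω' : Set Pt) ∅ false (tq T t) (-up))) := by
      rw [Finset.disjoint_left]
      intro u h1 h2
      have h3 := (mem_fam.1 h1).2.2.2
      have h4 := (mem_fam.1 h2).2.2.2
      rw [h3] at h4
      exact absurd h4 (by decide)
    unfold gr
    rw [← Finset.sum_union hdis]
    refine le_trans (Finset.sum_le_sum ?_) (Finset.sum_le_sum_of_subset_of_nonneg hs ?_)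
    · intro u _
      have hx := pow_nonneg xc_pos.le u.length
      unfold Tube.fb
      have := Real.cos_le_one (wind u * (Real.pi / 8) + 0)
      calc Real.cos (wind u * (Real.pi / 8) + 0) * xc ^ u.length ≤ 1 * xc ^ u.length :=
            mul_le_mul_of_nonneg_right this hx
        _ = xc ^ u.length := one_mul _
    · intro u _ _
      exact pow_nonneg xc_pos.le _
  linarith

theorem lt_tendsto {T N : ℕ} (hT : 1 ≤ T) {t : ℤ} (hN : |t| + T + 4 < N) :
    Tendsto (fun n => gf (LT T (trap oo up (T + 1) (n + N)) t)) atTop (𝓝 0) := by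
  obtain ⟨M, hM⟩ : ∃ M : ℕ, (N : ℤ) = M + T + |t| + 3 := ⟨((N : ℤ) - T - |t| - 3).toNat, by
    rw [Int.toNat_of_nonneg (by linarith)]
    ring⟩
  have hM1 : 1 < M := by
    have : (1 : ℤ) < M := by linarith
    exact_mod_cast this
  have l1 : ∀ b, Tendsto (fun n : ℕ => gf (HexW.Lat (trap (tq T t) (-up) (T + 1) (n + M)) ∅ b (tq T t) (-up)))
      atTop (𝓝 0) := by
    intro b
    have h := HexW.lat_tendsto (v0 := tq T t) ImTop.dtop (T := T + 1) (N := M) (by omega) (k := 0)
      (by rw [abs_zero]; exact_mod_cast (by omega : 0 < M)) b ∅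
    simp only [ImTop.foot0] at h
    exact h
  have l2 := ENNReal.Tendsto.const_mul ((l1 true).add (l1 false))
    (Or.inr (ENNReal.ofReal_ne_top (r := Real.sqrt 2)))
  rw [add_zero, mul_zero] at l2
  refine tendsto_of_tendsto_of_tendsto_of_le_of_le tendsto_const_nhds l2 (fun _ => zero_le) ?_
  intro n
  have hL : 1 ≤ n + M := by omega
  have hm : ((n + M : ℕ) : ℤ) + T + |t| + 3 ≤ ((n + N : ℕ) : ℤ) := by
    push_cast
    linarith
  have h := te_ineq hT hL hm
  have i1 : InArr (tz T (n + N)) (tq T t) (-up) (LT T (tz T (n + N) : Set Pt) t) := fun u hu => saw_coe.1 hu.1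
  have i2 : ∀ b, InArr (trapF (v0 := tq T t) ImTop.dtop (T + 1) (n + M)) (tq T t) (-up)
      (HexW.Lat (trapF (v0 := tq T t) ImTop.dtop (T + 1) (n + M) : Set Pt) ∅ b (tq T t) (-up)) := by
    intro b u hu
    exact saw_arr hu.1
  have e1 := gf_fam i1
  have e2 := gf_fam (i2 true)
  have e3 := gf_fam (i2 false)
  rw [te_coe] at e1
  rw [trapF_coe] at e2 e3
  show gf (LT T (trap oo up (T + 1) (n + N)) t) ≤ ENNReal.ofReal (Real.sqrt 2) *
    (gf (HexW.Lat (trap (tq T t) (-up) (T + 1) (n + M)) ∅ true (tq T t) (-up)) +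
      gf (HexW.Lat (trap (tq T t) (-up) (T + 1) (n + M)) ∅ false (tq T t) (-up)))
  rw [e1, e2, e3, ← ENNReal.ofReal_add (gr_nonneg _ _ _ _) (gr_nonneg _ _ _ _),
    ← ENNReal.ofReal_mul (Real.sqrt_nonneg 2)]
  apply ENNReal.ofReal_le_ofReal
  rw [te_coe, trapF_coe] at h
  rw [Real.cos_pi_div_four] at h
  have hq : Real.sqrt 2 * (Real.sqrt 2 / 2) = 1 := by
    have := Real.mul_self_sqrt (show (0 : ℝ) ≤ 2 by norm_num)
    linarith
  have h2 := mul_le_mul_of_nonneg_left h (Real.sqrt_nonneg 2)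
  rw [← mul_assoc, hq, one_mul] at h2
  exact h2

end PG

end HexObs
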