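import Pool.Agent.HexPG.Pair2
import Pool.Agent.HexPG.TopExp
import Pool.Agent.HexPG.Junc

/-!
PG, M4: the explorer with one walker, the walker ends at the top t.
-/

set_option autoImplicit false

namespace HexObs

namespace PG

open SP Complex Finset ENNReal Filter Topology HexW

/-! ### sums over words -/

/-- sums over words with increasing weights. -/
lemma tend_sum {P : ℕ → Set (List Bool)} {Q : Set (List Bool)} (h : Inc P Q) {F : ℕ → List Bool → ℝ≥0∞}
    {G : List Bool → ℝ≥0∞} (hF : Monotone F) (hG : ∀ s, G s = ⨆ n, F n s) :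
    Tendsto (fun n => ∑' s : List Bool, (P n).indicator (fun s => wE s * F n s) s) atTop
      (𝓝 (∑' s : List Bool, Q.indicator (fun s => wE s * G s) s)) := by
  have hm : Monotone (fun (n : ℕ) (s : List Bool) => wE s * F n s) := by
    intro n m hnm s
    exact mul_le_mul_right (hF hnm s) _
  have e : ∑' s : List Bool, Q.indicator (fun s => wE s * G s) s =
      ⨆ n, ∑' s : List Bool, (P n).indicator (fun s => wE s * F n s) s := by
    rw [← tsum_iSup_mono _ (h.ind_mono _ hm)]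
    apply tsum_congr
    intro s
    rw [← h.ind _ hm s]
    congr 1
    funext s
    rw [hG, ENNReal.mul_iSup]
  rw [e]
  apply tendsto_atTop_iSup
  intro n m hnm
  exact ENNReal.tsum_le_tsum (fun s => h.ind_mono _ hm hnm s)

lemma sum_fam {Ω : Finset Pt} {v d : Pt} {D : Set (List Bool)} (hD : InArr Ω v d D) (F : List Bool → ℝ≥0∞) :
    ∑' s : List Bool, D.indicator (fun s => wE s * F s) s = ∑ s ∈ fam Ω v d D, wE s * F s := by
  rw [tsum_eq_sum (s := fam Ω v d D)]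
  · apply Finset.sum_congr rfl
    intro s hs
    rw [Set.indicator_of_mem (mem_fam.1 hs).2]
  · intro s hs
    rw [Set.indicator_of_notMem (fun h => hs (mem_fam.2 ⟨hD s h, h⟩))]

lemma sum_toReal {Ω : Finset Pt} {v d : Pt} {D : Set (List Bool)} (hD : InArr Ω v d D) (F : List Bool → ℝ≥0∞)
    (hF : ∀ s, F s ≠ ∞) :
    (∑' s : List Bool, D.indicator (fun s => wE s * F s) s).toReal =
      ∑ s ∈ fam Ω v d D, xc ^ s.length * (F s).toReal := by
  rw [sum_fam hD, ENNReal.toReal_sum]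
  · apply Finset.sum_congr rfl
    intro s _
    rw [ENNReal.toReal_mul, wE_toReal]
  · intro s _
    exact ENNReal.mul_ne_top (wE_ne_top s) (hF _)

/-- the limit of finite sums. -/
lemma tend_real {T N : ℕ} {v d p e : Pt} {P : ℕ → Set (List Bool)} {Q : Set (List Bool)} (h : Inc P Q)
    (hP : ∀ n, InArr (tz T (n + N)) v d (P n))
    (R : ℕ → List Bool → Set (List Bool)) {S : List Bool → Set (List Bool)} (hR : ∀ s, Inc (fun n => R n s) (S s))
    (hRa : ∀ n s, InArr (tz T (n + N)) p e (R n s))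
    (hfin : ∑' s : List Bool, Q.indicator (fun s => wE s * gf (S s)) s ≠ ∞) :
    Tendsto (fun n => ∑ s ∈ fam (tz T (n + N)) v d (P n), xc ^ s.length * gr (tz T (n + N)) p e (R n s)) atTop
      (𝓝 (∑' s : List Bool, Q.indicator (fun s => wE s * gf (S s)) s).toReal) := by
  have h1 := (ENNReal.tendsto_toReal hfin).comp (tend_sum h (F := fun n s => gf (R n s)) (G := fun s => gf (S s))
    (fun n m hnm s => (hR s).gf_mono hnm) (fun s => (hR s).gf_eq))
  refine h1.congr (fun n => ?_)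
  show (∑' s : List Bool, (P n).indicator (fun s => wE s * gf (R n s)) s).toReal = _
  rw [sum_toReal (hP n) _ (fun s => gf_ne_top (hRa n s))]
  apply Finset.sum_congr rfl
  intro s _
  rw [gf_toReal (hRa n s)]

lemma tend_gr {T N : ℕ} {v d : Pt} {P : ℕ → Set (List Bool)} {Q : Set (List Bool)} (h : Inc P Q)
    (hP : ∀ n, InArr (tz T (n + N)) v d (P n)) (hfin : gf Q ≠ ∞) :
    Tendsto (fun n => gr (tz T (n + N)) v d (P n)) atTop (𝓝 (gf Q).toReal) := by
  have h0 := tendsto_atTop_iSup h.gf_mono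
  rw [← h.gf_eq] at h0
  have h1 := (ENNReal.tendsto_toReal hfin).comp h0
  exact h1.congr (fun n => gf_toReal (hP n))

/-! ### the families -/

lemma tz_coe (T n : ℕ) : ((tz T n : Finset Pt) : Set Pt) = trap oo up (T + 1) n := by
  unfold tz
  exact trapF_coe _ _ _

lemma brT_arr (T : ℕ) (Ω : Finset Pt) (k t : ℤ) : InArr Ω (ft k) up (BrT T (Ω : Set Pt) k t) :=
  fun _ h => brA_arr _ _ _ _ h.1

lemma inc_BrT {T N : ℕ} {k : ℤ} (hk : |k| < N) (t : ℤ) :
    Inc (fun n => BrT T (trap oo up (T + 1) (n + N)) k t) (BrT T (St (T + 1)) k t) :=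
  (inc_BrA hk ∅).inter {s | tip (ft k) up s = tq T t}

lemma saw_trap2 {v0 v d0 d : Pt} {T : ℕ} {X : Set Pt} {t : List Bool} (h : Saw (strip v0 d0 T \ X) v d t) :
    ∃ L, Saw (trap v0 d0 T L \ X) v d t := by
  have key : ∀ n, n ≤ t.length → ∃ L : ℕ, ∀ i, 1 ≤ i → i ≤ n → ip (vx v d t i - v0) (rotL d0) < 3 * L ∧
      ip (vx v d t i - v0) (rotR d0) < 3 * L := by
    intro n
    induction n with
    | zero => exact fun _ => ⟨0, fun i h1 h2 => by omega⟩
    | succ n ih =>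
      intro hn
      obtain ⟨L, hL⟩ := ih (by omega)
      refine ⟨max L (max (ip (vx v d t (n + 1) - v0) (rotL d0)).toNat
        (ip (vx v d t (n + 1) - v0) (rotR d0)).toNat + 1), ?_⟩
      intro i h1 h2
      rcases Nat.lt_or_ge n i with h3 | h3
      · have : i = n + 1 := by omega
        rw [this]
        push_cast
        constructor <;> omega
      · have := hL i h1 h3
        push_cast
        constructor <;> omega
  obtain ⟨L, hL⟩ := key t.length le_rfl
  exact ⟨L, ⟨fun i h1 h2 => ⟨⟨(h.mem i h1 h2).1, (hL i h1 h2).1, (hL i h1 h2).2⟩, (h.mem i h1 h2).2⟩, h.inj⟩⟩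

/-- walks from any point in the strip. -/
lemma inc_saw {T N : ℕ} (v d : Pt) (X : Set Pt) (R : List Bool → Prop) :
    Inc (fun n => {u | Saw (trap oo up (T + 1) (n + N) \ X) v d u ∧ R u})
      {u | Saw (St (T + 1) \ X) v d u ∧ R u} := by
  constructor
  · rintro n m hnm t ⟨h1, h2⟩
    exact ⟨h1.mono (Set.sdiff_subset_sdiff_left (trap_mono oo up (T + 1) (by omega))), h2⟩
  · intro t
    constructor
    · rintro ⟨h1, h2⟩
      obtain ⟨L, hL⟩ := saw_trap2 h1
      exact ⟨L, hL.mono (Set.sdiff_subset_sdiff_left (trap_mono oo up (T + 1) (by omega))), h2⟩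
    · rintro ⟨n, h1, h2⟩
      exact ⟨h1.mono (Set.sdiff_subset_sdiff_left (trap_sub oo up (T + 1) _)), h2⟩

lemma tr_form (T : ℕ) (Ω Y : Set Pt) (t : ℤ) : TR T Ω Y t = {u | Saw (Ω \ (OO ∪ Y)) (tq T t) (-up) u ∧
    ∃ b, t < b ∧ tip (tq T t) (-up) u = tq T b ∧ dx (-up) u u.length = up} := by
  ext u
  constructor
  · rintro ⟨b, h1, h2, h3, h4⟩
    exact ⟨h2, b, h1, h3, h4⟩
  · rintro ⟨h2, b, h1, h3, h4⟩
    exact ⟨b, h1, h2, h3, h4⟩

lemma tl_form (T : ℕ) (Ω Y : Set Pt) (t : ℤ) : TL T Ω Y t = {u | Saw (Ω \ (OO ∪ Y)) (tq T t) (-up) u ∧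
    ∃ b, b < t ∧ tip (tq T t) (-up) u = tq T b ∧ dx (-up) u u.length = up} := by
  ext u
  constructor
  · rintro ⟨b, h1, h2, h3, h4⟩
    exact ⟨h2, b, h1, h3, h4⟩
  · rintro ⟨h2, b, h1, h3, h4⟩
    exact ⟨b, h1, h2, h3, h4⟩

lemma inc_TR {T N : ℕ} (Y : Set Pt) (t : ℤ) :
    Inc (fun n => TR T (trap oo up (T + 1) (n + N)) Y t) (TR T (St (T + 1)) Y t) := by
  simp only [tr_form]
  exact inc_saw _ _ _ _

lemma inc_TL {T N : ℕ} (Y : Set Pt) (t : ℤ) :
    Inc (fun n => TL T (trap oo up (T + 1) (n + N)) Y t) (TL T (St (T + 1)) Y t) := by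
  simp only [tl_form]
  exact inc_saw _ _ _ _

lemma inc_WA {T N : ℕ} : Inc (fun n => WA (trap oo up (T + 1) (n + N))) (WA (St (T + 1))) := inc_Ld ∅

lemma tr_arr (T : ℕ) (Ω : Finset Pt) (Y : Set Pt) (t : ℤ) : InArr Ω (tq T t) (-up) (TR T (Ω : Set Pt) Y t) := by
  rintro u ⟨b, _, h, _⟩
  exact saw_arr h

lemma tl_arr (T : ℕ) (Ω : Finset Pt) (Y : Set Pt) (t : ℤ) : InArr Ω (tq T t) (-up) (TL T (Ω : Set Pt) Y t) := by
  rintro u ⟨b, _, h, _⟩
  exact saw_arr h

lemma wa_arr (Ω : Finset Pt) : InArr Ω (ft 0) up (WA (Ω : Set Pt)) := fun _ h => saw_arr h.1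

lemma lt_arr (T : ℕ) (Ω : Finset Pt) (t : ℤ) : InArr Ω (tq T t) (-up) (LT T (Ω : Set Pt) t) :=
  fun _ h => ⟨fun i h1 h2 => h.1.mem i h1 h2, h.1.inj⟩

lemma ta_sub {T : ℕ} {Ω Y : Set Pt} {t b : ℤ} : TA T Ω Y t b ⊆ TA T Ω ∅ t b := by
  rintro u ⟨h1, h2⟩
  refine ⟨h1.mono ?_, h2⟩
  rw [Set.union_empty]
  exact Set.sdiff_subset_sdiff_right Set.subset_union_left

lemma gf_TA (T : ℕ) (t b : ℤ) : gf (TA T (St (T + 1)) ∅ t b) = aT' T t b := by
  unfold TA aT' Om
  rw [Set.union_empty]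

lemma ta_disj {T : ℕ} {Ω Y : Set Pt} {t a b : ℤ} {u : List Bool} (h1 : u ∈ TA T Ω Y t a) (h2 : u ∈ TA T Ω Y t b) :
    a = b := ImTop.tq_inj (h1.2.1.symm.trans h2.2.1)

lemma gf_TR (T : ℕ) (Y : Set Pt) (t : ℤ) :
    gf (TR T (St (T + 1)) Y t) = ∑' b : ℤ, if t < b then gf (TA T (St (T + 1)) Y t b) else 0 := by
  have h1 : TR T (St (T + 1)) Y t = ⋃ b : ℤ, {u | t < b ∧ u ∈ TA T (St (T + 1)) Y t b} := by
    ext u
    rw [Set.mem_iUnion]
    rfl
  rw [h1, K1.gf_iUnion _ (fun i j u hi hj => ta_disj hi.2 hj.2)]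
  apply tsum_congr
  intro b
  by_cases h : t < b
  · rw [if_pos h]
    congr 1
    ext u
    exact ⟨fun h => h.2, fun h' => ⟨h, h'⟩⟩
  · rw [if_neg h]
    have h2 : {u | t < b ∧ u ∈ TA T (St (T + 1)) Y t b} = (∅ : Set (List Bool)) := by
      ext u
      exact ⟨fun h' => absurd h'.1 h, fun h' => absurd h' (Set.notMem_empty u)⟩
    rw [h2]
    unfold gf
    simp

lemma gf_TL (T : ℕ) (Y : Set Pt) (t : ℤ) :
    gf (TL T (St (T + 1)) Y t) = ∑' b : ℤ, if b < t then gf (TA T (St (T + 1)) Y t b) else 0 := by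
  have h1 : TL T (St (T + 1)) Y t = ⋃ b : ℤ, {u | b < t ∧ u ∈ TA T (St (T + 1)) Y t b} := by
    ext u
    rw [Set.mem_iUnion]
    rfl
  rw [h1, K1.gf_iUnion _ (fun i j u hi hj => ta_disj hi.2 hj.2)]
  apply tsum_congr
  intro b
  by_cases h : b < t
  · rw [if_pos h]
    congr 1
    ext u
    exact ⟨fun h => h.2, fun h' => ⟨h, h'⟩⟩
  · rw [if_neg h]
    have h2 : {u | b < t ∧ u ∈ TA T (St (T + 1)) Y t b} = (∅ : Set (List Bool)) := by
      ext u
      exact ⟨fun h' => absurd h'.1 h, fun h' => absurd h' (Set.notMem_empty u)⟩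
    rw [h2]
    unfold gf
    simp

/-- sums over the right ends. -/
lemma dt_right (T : ℕ) (t : ℤ) : (∑' b : ℤ, if t < b then DT T t b else 0) =
    ∑' w : List Bool, (WA (St (T + 1))).indicator
      (fun w => wE w * gf (TR T (St (T + 1)) (vis (ft 0) up w) t)) w := by
  have h1 : ∀ b : ℤ, (if t < b then DT T t b else 0) = ∑' w : List Bool, (WA (St (T + 1))).indicator
      (fun w => wE w * (if t < b then gf (TA T (St (T + 1)) (vis (ft 0) up w) t b) else 0)) w := by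
    intro b
    by_cases h : t < b
    · rw [if_pos h]
      unfold DT
      simp only [if_pos h]
    · rw [if_neg h]
      simp only [if_neg h, mul_zero]
      simp
  simp_rw [h1]
  rw [ENNReal.tsum_comm]
  apply tsum_congr
  intro w
  by_cases hw : w ∈ WA (St (T + 1))
  · simp only [Set.indicator_of_mem hw]
    rw [ENNReal.tsum_mul_left, gf_TR]
  · simp only [Set.indicator_of_notMem hw]
    exact tsum_zero

lemma dt_left (T : ℕ) (t : ℤ) : (∑' b : ℤ, if b < t then DT T t b else 0) =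
    ∑' w : List Bool, (WA (St (T + 1))).indicator
      (fun w => wE w * gf (TL T (St (T + 1)) (vis (ft 0) up w) t)) w := by
  have h1 : ∀ b : ℤ, (if b < t then DT T t b else 0) = ∑' w : List Bool, (WA (St (T + 1))).indicator
      (fun w => wE w * (if b < t then gf (TA T (St (T + 1)) (vis (ft 0) up w) t b) else 0)) w := by
    intro b
    by_cases h : b < t
    · rw [if_pos h]
      unfold DT
      simp only [if_pos h]
    · rw [if_neg h]
      simp only [if_neg h, mul_zero]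
      simp
  simp_rw [h1]
  rw [ENNReal.tsum_comm]
  apply tsum_congr
  intro w
  by_cases hw : w ∈ WA (St (T + 1))
  · simp only [Set.indicator_of_mem hw]
    rw [ENNReal.tsum_mul_left, gf_TL]
  · simp only [Set.indicator_of_notMem hw]
    exact tsum_zero

/-! ### finiteness -/

theorem WW_ne_top (T : ℕ) : WW T ≠ ∞ := by
  have hA : AT (T + 1) ≠ ∞ := AT_ne_top (Nat.le_add_left 1 T)
  refine ne_top_of_le_ne_top (ENNReal.mul_ne_top ENNReal.ofReal_ne_top hA)
    ((HexObs.gf_mono ?_).trans (ld_le (T := T) (k := 0) ∅))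
  intro u hu
  exact ⟨1, le_rfl, by norm_num, hu⟩

lemma gg_sum (T : ℕ) : ∑' k : ℕ, GG (T + 1) (k + 1) ≤ AT (T + 1) := by
  rw [arcs_total (by omega), two_mul]
  exact le_self_add

lemma sum_right (t : ℤ) (h : ℤ → ℝ≥0∞) : (∑' b : ℤ, if t < b then h b else 0) = ∑' k : ℕ, h (t + 1 + k) := by
  have hinj : Function.Injective (fun j : ℕ => t + 1 + (j : ℤ)) := by
    intro a b h
    simp only at h
    omega
  rw [← hinj.tsum_eq]
  · apply tsum_congr
    intro j
    rw [if_pos (by omega)]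
  · intro b hb
    rw [Function.mem_support] at hb
    have hbm : t < b := by
      by_contra h
      exact hb (if_neg h)
    exact ⟨(b - t - 1).toNat, by simp only; omega⟩

lemma sum_left (t : ℤ) (h : ℤ → ℝ≥0∞) : (∑' b : ℤ, if b < t then h b else 0) = ∑' k : ℕ, h (t - 1 - k) := by
  have hinj : Function.Injective (fun j : ℕ => t - 1 - (j : ℤ)) := by
    intro a b h
    simp only at h
    omega
  rw [← hinj.tsum_eq]
  · apply tsum_congr
    intro j
    rw [if_pos (by omega)]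
  · intro b hb
    rw [Function.mem_support] at hb
    have hbm : b < t := by
      by_contra h
      exact hb (if_neg h)
    exact ⟨(t - b - 1).toNat, by simp only; omega⟩

lemma tr_le (T : ℕ) (t : ℤ) (Y : Set Pt) : gf (TR T (St (T + 1)) Y t) ≤ AT (T + 1) := by
  rw [gf_TR]
  refine le_trans ?_ (gg_sum T)
  rw [sum_right]
  apply ENNReal.tsum_le_tsum
  intro k
  refine ((HexObs.gf_mono ta_sub).trans (le_of_eq (gf_TA T t _))).trans ((aT'_le T t _).trans (le_of_eq ?_))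
  congr 1
  omega

lemma tl_le (T : ℕ) (t : ℤ) (Y : Set Pt) : gf (TL T (St (T + 1)) Y t) ≤ AT (T + 1) := by
  rw [gf_TL]
  refine le_trans ?_ (gg_sum T)
  rw [sum_left]
  apply ENNReal.tsum_le_tsum
  intro k
  refine ((HexObs.gf_mono ta_sub).trans (le_of_eq (gf_TA T t _))).trans ((aT'_le T t _).trans (le_of_eq ?_))
  congr 1
  omega

lemma ind_le (Q : Set (List Bool)) (F : List Bool → ℝ≥0∞) {c : ℝ≥0∞} (h : ∀ s, F s ≤ c) :
    ∑' s : List Bool, Q.indicator (fun s => wE s * F s) s ≤ gf Q * c := by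
  rw [K1.gf_indicator, ← ENNReal.tsum_mul_right]
  apply ENNReal.tsum_le_tsum
  intro s
  by_cases hs : s ∈ Q
  · rw [Set.indicator_of_mem hs, Set.indicator_of_mem hs]
    exact mul_le_mul_right (h s) _
  · rw [Set.indicator_of_notMem hs]
    exact zero_le

theorem dr_ne_top (T : ℕ) (t : ℤ) : (∑' b : ℤ, if t < b then DT T t b else 0) ≠ ∞ := by
  rw [dt_right]
  exact ne_top_of_le_ne_top (ENNReal.mul_ne_top (WW_ne_top T) (AT_ne_top (Nat.le_add_left 1 T)))
    (ind_le _ _ (fun s => tr_le T t _))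

theorem dl_ne_top (T : ℕ) (t : ℤ) : (∑' b : ℤ, if b < t then DT T t b else 0) ≠ ∞ := by
  rw [dt_left]
  exact ne_top_of_le_ne_top (ENNReal.mul_ne_top (WW_ne_top T) (AT_ne_top (Nat.le_add_left 1 T)))
    (ind_le _ _ (fun s => tl_le T t _))

lemma brT_sub {T : ℕ} {Ω : Set Pt} {k t : ℤ} : BrT T Ω k t ⊆ BrA Ω ∅ k := fun _ h => h.1

theorem RT_ne_top (T : ℕ) (t : ℤ) : RT T t ≠ ∞ := by
  have hA : AT (T + 1) ≠ ∞ := AT_ne_top (Nat.le_add_left 1 T)
  have hb : gf (BrT T (St (T + 1)) 0 t) ≤ 1 := (HexObs.gf_mono brT_sub).trans (brA_le T 0 ∅)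
  refine ne_top_of_le_ne_top (ENNReal.mul_ne_top (ne_top_of_le_ne_top ENNReal.one_ne_top hb)
    (ENNReal.mul_ne_top (ENNReal.ofReal_ne_top (r := (xc ^ 2)⁻¹)) hA)) (ind_le _ _ (fun s => ?_))
  refine (HexObs.gf_mono ?_).trans (ld_le (T := T) (k := 1) (vis (ft 0) up s))
  rintro u ⟨j, h1, h2⟩
  exact ⟨j, by omega, by omega, h2⟩

theorem PT_ne_top (T : ℕ) (t : ℤ) : PT T t ≠ ∞ := by
  have hb : gf (BrT T (St (T + 1)) 0 t) ≤ 1 := (HexObs.gf_mono brT_sub).trans (brA_le T 0 ∅)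
  exact ne_top_of_le_ne_top (ENNReal.mul_ne_top (ne_top_of_le_ne_top ENNReal.one_ne_top hb) ENNReal.one_ne_top)
    (ind_le _ _ (fun s => brA_le T 1 _))

theorem ZT_ne_top (T : ℕ) (t : ℤ) : ZT T 0 t ≠ ∞ :=
  ne_top_of_le_ne_top ENNReal.one_ne_top ((HexObs.gf_mono brT_sub).trans (brA_le T 0 ∅))

/-! ### the finite inequality -/

lemma fin_top {T n : ℕ} (hT : 1 ≤ T) {t : ℤ} (hn : |t| + T + 4 < n) :
    |∑ s ∈ fam (tz T n) (ft 0) up (BrT T (tz T n : Set Pt) 0 t),
        xc ^ s.length * gr (tz T n) (ft 1) up (LdR (tz T n : Set Pt) (vis (ft 0) up s) 1) +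
      sn 1 * ∑ s ∈ fam (tz T n) (ft 0) up (BrT T (tz T n : Set Pt) 0 t),
        xc ^ s.length * gr (tz T n) (ft 1) up (BrA (tz T n : Set Pt) (vis (ft 0) up s) 1) -
      xc ^ 2 * sn 1 * gr (tz T n) (ft 0) up (BrT T (tz T n : Set Pt) 0 t) -
      xc ^ 2 * sn 3 * (∑ w ∈ fam (tz T n) (ft 0) up (WA (tz T n : Set Pt)),
        xc ^ w.length * gr (tz T n) (tq T t) (-up) (TL T (tz T n : Set Pt) (vis (ft 0) up w) t) -
        ∑ w ∈ fam (tz T n) (ft 0) up (WA (tz T n : Set Pt)),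
        xc ^ w.length * gr (tz T n) (tq T t) (-up) (TR T (tz T n : Set Pt) (vis (ft 0) up w) t))| ≤
    ∑ s ∈ fam (tz T n) (ft 0) up (BrT T (tz T n : Set Pt) 0 t),
        xc ^ s.length * gr (tz T n) (ft 1) up (LtA (tz T n : Set Pt) (vis (ft 0) up s) 1) +
      xc ^ 2 * (gr (tz T n) (ft 0) up (WA (tz T n : Set Pt)) * gr (tz T n) (tq T t) (-up) (LT T (tz T n : Set Pt) t)) := by
  have hn1 : 1 < n := by
    have := abs_nonneg t
    omega
  have hx := xc_pos
  have h1 : ∀ s ∈ fam (tz T n) (ft 0) up (BrT T (tz T n : Set Pt) 0 t),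
      |xc ^ s.length * (sn (-1) * gr (tz T n) (ft 1) up (BrA (tz T n : Set Pt) (vis (ft 0) up s) 1) +
      sn (-1 - 3) * gr (tz T n) (ft 1) up (LdR (tz T n : Set Pt) (vis (ft 0) up s) 1) +
      ∑ u ∈ hitA (tz T n) ∅ (vis (ft 0) up s) 1, xc ^ u.length * sn (-1 + wind u) - xc ^ 2 * sn (-1))| ≤
      xc ^ s.length * gr (tz T n) (ft 1) up (LtA (tz T n : Set Pt) (vis (ft 0) up s) 1) := by
    intro s hs
    rw [abs_mul, abs_of_nonneg (pow_nonneg hx.le _)]
    exact mul_le_mul_of_nonneg_left (pair_one hn1 ((mem_fam.1 hs).2.1) (-1)) (pow_nonneg hx.le _)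
  have h2 := (Finset.abs_sum_le_sum_abs _ _).trans (Finset.sum_le_sum h1)
  have hj := junc hT hn (fun w => sn w)
  have h3 : ∀ w ∈ fam (tz T n) (ft 0) up (WA (tz T n : Set Pt)),
      |xc ^ w.length * (∑ u ∈ fam (tz T n) (tq T t) (-up) (HT T (tz T n : Set Pt) (vis (ft 0) up w) t),
        xc ^ u.length * sn (wind u) +
      sn 3 * gr (tz T n) (tq T t) (-up) (TR T (tz T n : Set Pt) (vis (ft 0) up w) t) -
      sn 3 * gr (tz T n) (tq T t) (-up) (TL T (tz T n : Set Pt) (vis (ft 0) up w) t))| ≤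
      xc ^ w.length * gr (tz T n) (tq T t) (-up) (LT T (tz T n : Set Pt) t) := by
    intro w hw
    rw [abs_mul, abs_of_nonneg (pow_nonneg hx.le _)]
    exact mul_le_mul_of_nonneg_left (top_fin hT hn (mem_fam.1 hw).2) (pow_nonneg hx.le _)
  have h4 := (Finset.abs_sum_le_sum_abs _ _).trans (Finset.sum_le_sum h3)
  have e1 : ∑ s ∈ fam (tz T n) (ft 0) up (BrT T (tz T n : Set Pt) 0 t),
      xc ^ s.length * (sn (-1) * gr (tz T n) (ft 1) up (BrA (tz T n : Set Pt) (vis (ft 0) up s) 1) +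
      sn (-1 - 3) * gr (tz T n) (ft 1) up (LdR (tz T n : Set Pt) (vis (ft 0) up s) 1) +
      ∑ u ∈ hitA (tz T n) ∅ (vis (ft 0) up s) 1, xc ^ u.length * sn (-1 + wind u) - xc ^ 2 * sn (-1)) =
      -(∑ s ∈ fam (tz T n) (ft 0) up (BrT T (tz T n : Set Pt) 0 t),
        xc ^ s.length * gr (tz T n) (ft 1) up (LdR (tz T n : Set Pt) (vis (ft 0) up s) 1)) -
      sn 1 * (∑ s ∈ fam (tz T n) (ft 0) up (BrT T (tz T n : Set Pt) 0 t),
        xc ^ s.length * gr (tz T n) (ft 1) up (BrA (tz T n : Set Pt) (vis (ft 0) up s) 1)) +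
      (∑ s ∈ fam (tz T n) (ft 0) up (BrT T (tz T n : Set Pt) 0 t),
      ∑ u ∈ hitA (tz T n) ∅ (vis (ft 0) up s) 1, xc ^ (s.length + u.length) * sn ((wind u - 1 : ℤ) : ℝ)) +
      xc ^ 2 * sn 1 * gr (tz T n) (ft 0) up (BrT T (tz T n : Set Pt) 0 t) := by
    unfold gr
    rw [Finset.mul_sum, Finset.mul_sum, ← Finset.sum_neg_distrib, ← Finset.sum_sub_distrib,
      ← Finset.sum_add_distrib, ← Finset.sum_add_distrib]
    apply Finset.sum_congr rfl
    intro s _
    rw [show (-1 - 3 : ℝ) = -4 by norm_num, sn_neg, sn_neg, sn_four]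
    have e : ∑ u ∈ hitA (tz T n) ∅ (vis (ft 0) up s) 1, xc ^ (s.length + u.length) * sn ((wind u - 1 : ℤ) : ℝ) =
        xc ^ s.length * ∑ u ∈ hitA (tz T n) ∅ (vis (ft 0) up s) 1, xc ^ u.length * sn (-1 + wind u) := by
      rw [Finset.mul_sum]
      apply Finset.sum_congr rfl
      intro u _
      rw [pow_add]
      push_cast
      rw [show (wind u : ℝ) - 1 = -1 + wind u by ring]
      ring
    rw [e]
    ring
  have e2 : ∑ w ∈ fam (tz T n) (ft 0) up (WA (tz T n : Set Pt)),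
      xc ^ w.length * (∑ u ∈ fam (tz T n) (tq T t) (-up) (HT T (tz T n : Set Pt) (vis (ft 0) up w) t),
        xc ^ u.length * sn (wind u) +
      sn 3 * gr (tz T n) (tq T t) (-up) (TR T (tz T n : Set Pt) (vis (ft 0) up w) t) -
      sn 3 * gr (tz T n) (tq T t) (-up) (TL T (tz T n : Set Pt) (vis (ft 0) up w) t)) =
      (∑ w ∈ fam (tz T n) (ft 0) up (WA (tz T n : Set Pt)),
      ∑ u ∈ fam (tz T n) (tq T t) (-up) (HT T (tz T n : Set Pt) (vis (ft 0) up w) t),
        xc ^ (w.length + u.length) * sn (wind u)) +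
      sn 3 * (∑ w ∈ fam (tz T n) (ft 0) up (WA (tz T n : Set Pt)),
        xc ^ w.length * gr (tz T n) (tq T t) (-up) (TR T (tz T n : Set Pt) (vis (ft 0) up w) t)) -
      sn 3 * (∑ w ∈ fam (tz T n) (ft 0) up (WA (tz T n : Set Pt)),
        xc ^ w.length * gr (tz T n) (tq T t) (-up) (TL T (tz T n : Set Pt) (vis (ft 0) up w) t)) := by
    rw [Finset.mul_sum, Finset.mul_sum, ← Finset.sum_add_distrib, ← Finset.sum_sub_distrib]
    apply Finset.sum_congr rfl
    intro w _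
    have e : ∑ u ∈ fam (tz T n) (tq T t) (-up) (HT T (tz T n : Set Pt) (vis (ft 0) up w) t),
        xc ^ (w.length + u.length) * sn (wind u) = xc ^ w.length *
        ∑ u ∈ fam (tz T n) (tq T t) (-up) (HT T (tz T n : Set Pt) (vis (ft 0) up w) t), xc ^ u.length * sn (wind u) := by
      rw [Finset.mul_sum]
      apply Finset.sum_congr rfl
      intro u _
      rw [pow_add]
      ring
    rw [e]
    ring
  rw [e1, hj] at h2
  rw [e2, ← Finset.sum_mul] at h4
  have hx2 : 0 < xc ^ 2 := by positivity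
  have h5 := mul_le_mul_of_nonneg_left h4 hx2.le
  rw [← abs_of_pos hx2, ← abs_mul, abs_of_pos hx2] at h5
  have e3 : gr (tz T n) (ft 0) up (WA (tz T n : Set Pt)) = ∑ w ∈ fam (tz T n) (ft 0) up (WA (tz T n : Set Pt)),
    xc ^ w.length := rfl
  rw [← e3] at h5
  generalize (∑ s ∈ fam (tz T n) (ft 0) up (BrT T (tz T n : Set Pt) 0 t),
        xc ^ s.length * gr (tz T n) (ft 1) up (LdR (tz T n : Set Pt) (vis (ft 0) up s) 1)) = A at *
  generalize (∑ s ∈ fam (tz T n) (ft 0) up (BrT T (tz T n : Set Pt) 0 t),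
        xc ^ s.length * gr (tz T n) (ft 1) up (BrA (tz T n : Set Pt) (vis (ft 0) up s) 1)) = B at *
  generalize gr (tz T n) (ft 0) up (BrT T (tz T n : Set Pt) 0 t) = C at *
  generalize (∑ w ∈ fam (tz T n) (ft 0) up (WA (tz T n : Set Pt)),
        xc ^ w.length * gr (tz T n) (tq T t) (-up) (TL T (tz T n : Set Pt) (vis (ft 0) up w) t)) = L at *
  generalize (∑ w ∈ fam (tz T n) (ft 0) up (WA (tz T n : Set Pt)),
        xc ^ w.length * gr (tz T n) (tq T t) (-up) (TR T (tz T n : Set Pt) (vis (ft 0) up w) t)) = R at *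
  generalize (∑ w ∈ fam (tz T n) (ft 0) up (WA (tz T n : Set Pt)),
      ∑ u ∈ fam (tz T n) (tq T t) (-up) (HT T (tz T n : Set Pt) (vis (ft 0) up w) t),
        xc ^ (w.length + u.length) * sn (wind u)) = H at *
  have e4 : A + sn 1 * B - xc ^ 2 * sn 1 * C - xc ^ 2 * sn 3 * (L - R) =
      -(-A - sn 1 * B + xc ^ 2 * H + xc ^ 2 * sn 1 * C) + xc ^ 2 * (H + sn 3 * R - sn 3 * L) := by ring
  rw [e4]
  refine (abs_add_le _ _).trans ?_
  rw [abs_neg]
  exact add_le_add h2 h5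

/-! ### the limit -/

lemma err_brT {T N : ℕ} (hN : |(1 : ℤ)| < N) (h0 : |(0 : ℤ)| < N) (t : ℤ) :
    Tendsto (fun n => ∑ s ∈ fam (tz T (n + N)) (ft 0) up (BrT T (tz T (n + N) : Set Pt) 0 t),
        xc ^ s.length * gr (tz T (n + N)) (ft 1) up (LtA (tz T (n + N) : Set Pt) (vis (ft 0) up s) 1)) atTop (𝓝 0) := by
  refine tendsto_of_tendsto_of_tendsto_of_le_of_le tendsto_const_nhds (tend_err (T := T) (N := N) (a := 0) (k := 1) h0 hN)
    (fun n => Finset.sum_nonneg (fun s _ => mul_nonneg (pow_nonneg xc_pos.le _) (gr_nonneg _ _ _ _))) (fun n => ?_)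
  show _ ≤ obA (tz T (n + N)) 0 (fun Y => gr (tz T (n + N)) (ft 1) up (LtA (tz T (n + N) : Set Pt) Y 1)) ∅
  unfold obA
  have e : ∀ s : List Bool, (∅ : Set Pt) ∪ vis (ft 0) up s = vis (ft 0) up s := fun s => Set.empty_union _
  simp only [e]
  apply Finset.sum_le_sum_of_subset_of_nonneg
  · intro s hs
    rw [mem_fam] at hs ⊢
    exact ⟨hs.1, hs.2.1⟩
  · intro s _ _
    exact mul_nonneg (pow_nonneg xc_pos.le _) (gr_nonneg _ _ _ _)

theorem e_top {T : ℕ} (hT : 1 ≤ T) (t : ℤ) :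
    RT T t + ENNReal.ofReal (sn 1) * PT T t +
      ENNReal.ofReal (xc ^ 2 * sn 3) * (∑' b : ℤ, if t < b then DT T t b else 0) =
    ENNReal.ofReal (xc ^ 2 * sn 1) * ZT T 0 t +
      ENNReal.ofReal (xc ^ 2 * sn 3) * (∑' b : ℤ, if b < t then DT T t b else 0) := by
  have hx := xc_pos
  have s1 := sn1_pos
  have s3 := sn3_pos
  set N : ℕ := t.natAbs + T + 5 with hN
  have ht : |t| + T + 4 < N := by
    rw [hN]
    push_cast
    have : |t| = (t.natAbs : ℤ) := Int.abs_eq_natAbs t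
    omega
  have ht' : ∀ n : ℕ, |t| + T + 4 < ((n + N : ℕ) : ℤ) := by
    intro n
    push_cast
    have : (0 : ℤ) ≤ n := Int.natCast_nonneg n
    linarith
  have h0 : |(0 : ℤ)| < N := by
    rw [abs_zero]
    omega
  have h1 : |(1 : ℤ)| < N := by
    rw [abs_one]
    omega
  have lA := tend_real (T := T) (N := N) (inc_BrT (T := T) h0 t) (v := ft 0) (d := up) (p := ft 1) (e := up)
    (fun n => by rw [← tz_coe]; exact brT_arr T _ 0 t)
    (fun n s => LdR (trap oo up (T + 1) (n + N)) (vis (ft 0) up s) 1) (fun s => inc_LdR _)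
    (fun n s => by rw [← tz_coe]; exact ldR_arr _ _ 1) (RT_ne_top T t)
  have lB := tend_real (T := T) (N := N) (inc_BrT (T := T) h0 t) (v := ft 0) (d := up) (p := ft 1) (e := up)
    (fun n => by rw [← tz_coe]; exact brT_arr T _ 0 t)
    (fun n s => BrA (trap oo up (T + 1) (n + N)) (vis (ft 0) up s) 1) (fun s => inc_BrA h1 _)
    (fun n s => by rw [← tz_coe]; exact brA_arr _ _ 1) (PT_ne_top T t)
  have lC := tend_gr (T := T) (N := N) (inc_BrT (T := T) h0 t) (v := ft 0) (d := up)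
    (fun n => by rw [← tz_coe]; exact brT_arr T _ 0 t) (ZT_ne_top T t)
  have fL : ∑' s : List Bool, (WA (St (T + 1))).indicator
      (fun w => wE w * gf (TL T (St (T + 1)) (vis (ft 0) up w) t)) s ≠ ∞ := by
    rw [← dt_left]
    exact dl_ne_top T t
  have fR : ∑' s : List Bool, (WA (St (T + 1))).indicator
      (fun w => wE w * gf (TR T (St (T + 1)) (vis (ft 0) up w) t)) s ≠ ∞ := by
    rw [← dt_right]
    exact dr_ne_top T t
  have lL := tend_real (T := T) (N := N) (inc_WA (T := T) (N := N)) (v := ft 0) (d := up) (p := tq T t) (e := -up)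
    (fun n => by rw [← tz_coe]; exact wa_arr _)
    (fun n s => TL T (trap oo up (T + 1) (n + N)) (vis (ft 0) up s) t) (fun s => inc_TL _ t)
    (fun n s => by rw [← tz_coe]; exact tl_arr T _ _ t) fL
  have lR := tend_real (T := T) (N := N) (inc_WA (T := T) (N := N)) (v := ft 0) (d := up) (p := tq T t) (e := -up)
    (fun n => by rw [← tz_coe]; exact wa_arr _)
    (fun n s => TR T (trap oo up (T + 1) (n + N)) (vis (ft 0) up s) t) (fun s => inc_TR _ t)
    (fun n s => by rw [← tz_coe]; exact tr_arr T _ _ t) fR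
  have lW := tend_gr (T := T) (N := N) (inc_WA (T := T) (N := N)) (v := ft 0) (d := up)
    (fun n => by rw [← tz_coe]; exact wa_arr _) (WW_ne_top T)
  have lT : Tendsto (fun n => gr (tz T (n + N)) (tq T t) (-up) (LT T (trap oo up (T + 1) (n + N)) t)) atTop (𝓝 0) := by
    have h2 := (ENNReal.tendsto_toReal ENNReal.zero_ne_top).comp (lt_tendsto hT ht)
    rw [ENNReal.toReal_zero] at h2
    refine h2.congr (fun n => ?_)
    show (gf (LT T (trap oo up (T + 1) (n + N)) t)).toReal = _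
    rw [← tz_coe]
    exact gf_toReal (lt_arr T _ t)
  have lE := (err_brT (T := T) h1 h0 t).add ((lW.mul lT).const_mul (xc ^ 2))
  rw [mul_zero, mul_zero, add_zero] at lE
  have hl := ((lA.add (lB.const_mul (sn 1))).sub (lC.const_mul (xc ^ 2 * sn 1))).sub
    ((lL.sub lR).const_mul (xc ^ 2 * sn 3))
  have hlim := le_of_tendsto_of_tendsto' hl.abs lE (fun n => by
    have h := fin_top (T := T) (n := n + N) hT (ht' n)
    rw [tz_coe] at h ⊢
    exact h)
  have h00 := abs_nonpos_iff.1 hlim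
  rw [← dt_left, ← dt_right] at h00
  have h01 : (RT T t).toReal + sn 1 * (PT T t).toReal - xc ^ 2 * sn 1 * (ZT T 0 t).toReal -
      xc ^ 2 * sn 3 * ((∑' b : ℤ, if b < t then DT T t b else 0).toReal -
        (∑' b : ℤ, if t < b then DT T t b else 0).toReal) = 0 := h00
  have f1 : RT T t + ENNReal.ofReal (sn 1) * PT T t ≠ ∞ :=
    ENNReal.add_ne_top.2 ⟨RT_ne_top T t, ENNReal.mul_ne_top ENNReal.ofReal_ne_top (PT_ne_top T t)⟩
  have f2 : ENNReal.ofReal (xc ^ 2 * sn 3) * (∑' b : ℤ, if t < b then DT T t b else 0) ≠ ∞ :=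
    ENNReal.mul_ne_top ENNReal.ofReal_ne_top (dr_ne_top T t)
  have f3 : ENNReal.ofReal (xc ^ 2 * sn 3) * (∑' b : ℤ, if b < t then DT T t b else 0) ≠ ∞ :=
    ENNReal.mul_ne_top ENNReal.ofReal_ne_top (dl_ne_top T t)
  have f4 : ENNReal.ofReal (xc ^ 2 * sn 1) * ZT T 0 t ≠ ∞ :=
    ENNReal.mul_ne_top ENNReal.ofReal_ne_top (ZT_ne_top T t)
  have f5 : ENNReal.ofReal (sn 1) * PT T t ≠ ∞ := ENNReal.mul_ne_top ENNReal.ofReal_ne_top (PT_ne_top T t)
  rw [← ENNReal.toReal_eq_toReal_iff' (ENNReal.add_ne_top.2 ⟨f1, f2⟩) (ENNReal.add_ne_top.2 ⟨f4, f3⟩),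
    ENNReal.toReal_add f1 f2, ENNReal.toReal_add f4 f3, ENNReal.toReal_add (RT_ne_top T t) f5,
    ENNReal.toReal_mul, ENNReal.toReal_mul, ENNReal.toReal_mul, ENNReal.toReal_mul,
    ENNReal.toReal_ofReal s1.le, ENNReal.toReal_ofReal (by positivity), ENNReal.toReal_ofReal (by positivity)]
  linarith

end PG

end HexObs
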