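import Pool.Agent.HexPG.Defs
import Pool.Agent.HexStep.Words
import Pool.Agent.HexStep.Rec
import Pool.Agent.HexStep.Far
import Pool.Agent.HexStep.Free

/-!
PG, M6: walks from the vertical edge, cut at the largest place of the first row that is visited.
-/

set_option autoImplicit false

namespace HexObs

namespace PG

open SP Complex Finset ENNReal Filter Topology

namespace FA

/-! translations -/

/-- the translation by j feet. -/
def shp (j : ℤ) : Pt := (2 * j, -j)

lemma lv_shp (v : Pt) (j : ℤ) : lv (v + shp j) = lv v := by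
  unfold lv shp
  simp only [Prod.fst_add, Prod.snd_add]
  ring

lemma nn_shp (v : Pt) (j : ℤ) : nn (v + shp j) = nn v + 3 * j := by
  unfold nn shp
  simp only [Prod.fst_add, Prod.snd_add]
  ring

lemma St_shp {T : ℕ} {v : Pt} {j : ℤ} : v + shp j ∈ St T ↔ v ∈ St T := by
  rw [mem_St', mem_St', lv_shp]

lemma OO_shp {v : Pt} {j : ℤ} (hj : j ≤ 0) (h : v + shp j ∈ OO) : v ∈ OO := by
  have h1 : lv (v + shp j) ≤ 3 ∧ -1 ≤ nn (v + shp j) := h
  rw [lv_shp, nn_shp] at h1
  have h2 : lv v ≤ 3 ∧ -1 ≤ nn v := ⟨h1.1, by omega⟩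
  exact h2

lemma ue_shp (k j : ℤ) : ue k + shp j = ue (k + j) := by
  unfold ue shp
  rw [Prod.mk_add_mk]
  congr 1 <;> ring

lemma le_shp (k j : ℤ) : le k + shp j = le (k + j) := by
  unfold le shp
  rw [Prod.mk_add_mk]
  congr 1 <;> ring

lemma ft_shp (k j : ℤ) : ft k + shp j = ft (k + j) := by
  rw [ft_eq, ft_eq]
  unfold shp
  rw [Prod.mk_add_mk]
  congr 1 <;> ring

lemma shp_shp (v : Pt) (j : ℤ) : v + shp j + shp (-j) = v := by
  unfold shp
  ext
  · simp only [Prod.fst_add]
    ring
  · simp only [Prod.snd_add]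
    ring

/-! the first row -/

lemma ue_St (T : ℕ) (k : ℤ) : ue k ∈ St (T + 1) := by
  rw [mem_St', lv_ue]
  refine ⟨by norm_num, by norm_num, ?_⟩
  push_cast
  omega

lemma le_St (T : ℕ) (k : ℤ) : le k ∈ St (T + 1) := by
  rw [mem_St', lv_le]
  refine ⟨by norm_num, by norm_num, ?_⟩
  push_cast
  omega

lemma lv_ft (k : ℤ) : lv (ft k) = 0 := by
  rw [ft_eq]
  unfold lv
  simp only
  ring

lemma ft_St (T : ℕ) (k : ℤ) : ft k ∉ St T := by
  rw [mem_St', lv_ft]
  omega

lemma le_up_St {T : ℕ} (hT : 1 ≤ T) (k : ℤ) : le k + up ∈ St (T + 1) := by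
  rw [mem_St']
  unfold lv le up
  simp only [Prod.fst_add, Prod.snd_add]
  push_cast
  omega

lemma ue_ne_le (a b : ℤ) : ue a ≠ le b := by
  intro h
  have := congrArg lv h
  rw [lv_ue, lv_le] at this
  omega

lemma ue_inj {a b : ℤ} (h : ue a = ue b) : a = b := by
  have := congrArg Prod.fst h
  simp only [ue] at this
  omega

lemma le_inj' {a b : ℤ} (h : le a = le b) : a = b := by
  have := congrArg Prod.fst h
  simp only [le] at this
  omega

lemma le_up_ne_le (a b : ℤ) : le a + up ≠ le b := by
  intro h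
  have := congrArg lv h
  rw [lv_le] at this
  unfold lv le up at this
  simp only [Prod.fst_add, Prod.snd_add] at this
  omega

lemma le_up_ne_ue (a b : ℤ) : le a + up ≠ ue b := by
  intro h
  have := congrArg lv h
  rw [lv_ue] at this
  unfold lv le up at this
  simp only [Prod.fst_add, Prod.snd_add] at this
  omega

lemma oo_cases {T : ℕ} {v : Pt} (hv : v ∈ St T) (h : v ∈ OO) : ∃ k, (v = ue k ∧ 0 ≤ k) ∨ (v = le k ∧ 1 ≤ k) := by
  obtain ⟨k, h1 | h1⟩ := row_one hv h.1
  · refine ⟨k, Or.inl ⟨h1, ?_⟩⟩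
    rw [h1] at h
    exact ue_mem_OO.1 h
  · refine ⟨k, Or.inr ⟨h1, ?_⟩⟩
    rw [h1] at h
    exact le_mem_OO.1 h

/-- levels of the vertices of the walks from the feet. -/
lemma hex_lv {k : ℤ} {t : List Bool} {i : ℕ} (h : 0 < lv (vx (ft k) up t i)) : lv (vx (ft k) up t i) % 3 ≠ 1 := by
  obtain ⟨N, hN⟩ : ∃ N : ℕ, lv (vx (ft k) up t i) < 3 * N + 2 := ⟨(lv (vx (ft k) up t i)).toNat, by omega⟩
  have h1 : vx (ft k) up t i ∈ St N := Far.mem_St2.2 ⟨HexW.hex_foot oo up k t i, h, hN⟩
  exact (mem_St'.1 h1).1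

/-- the last vertex of a bridge is in the top row. -/
lemma last_lv {T : ℕ} {X : Set Pt} {k : ℤ} {t : List Bool} (h : t ∈ Br (St (T + 1)) X (ft k) up)
    (hl : 1 ≤ t.length) : 3 * ((T : ℤ) + 1) ≤ lv (vx (ft k) up t t.length) := by
  obtain ⟨hs, ht, hd⟩ := h
  have h1 := (hs.mem _ hl le_rfl).1
  rw [mem_St'] at h1
  have h2 : tip (ft k) up t = vx (ft k) up t t.length + up := by
    rw [tip_eq, hd]
  have h3 : lv (tip (ft k) up t) = lv (vx (ft k) up t t.length) + 2 := by
    rw [h2]
    unfold lv up
    simp only [Prod.fst_add, Prod.snd_add]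
    ring
  have h4 : lv (tip (ft k) up t) % 3 ≠ 1 := hex_lv (i := t.length + 1) (by
    have : vx (ft k) up t (t.length + 1) = tip (ft k) up t := rfl
    rw [this]
    omega)
  rw [mem_St'] at ht
  push_cast at ht h1
  omega

/-! concatenation -/

lemma vx_app (v d : Pt) (a b : List Bool) (i : ℕ) :
    vx v d (a ++ b) (a.length + i) = vx (vx v d a a.length) (dx d a a.length) b i := by
  unfold vx dx
  rw [vs_shift]
  have e1 : (fun k => tf (a ++ b) (a.length + k)) = tf b := by
    funext k
    exact tf_append_right k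
  have e2 : vs v d (tf (a ++ b)) a.length = vs v d (tf a) a.length :=
    vs_congr _ (fun k hk => tf_append_left (by omega))
  have e3 : ds d (tf (a ++ b)) a.length = ds d (tf a) a.length :=
    ds_congr _ (fun k hk => tf_append_left hk)
  rw [e1, e2, e3]

lemma dx_app (d : Pt) (a b : List Bool) (i : ℕ) :
    dx d (a ++ b) (a.length + i) = dx (dx d a a.length) b i := by
  unfold dx
  rw [ds_shift]
  have e1 : (fun k => tf (a ++ b) (a.length + k)) = tf b := by
    funext k
    exact tf_append_right k
  have e3 : ds d (tf (a ++ b)) a.length = ds d (tf a) a.length :=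
    ds_congr _ (fun k hk => tf_append_left hk)
  rw [e1, e3]

/-- the vertices after two more turns. -/
lemma vx_two (v d : Pt) (a : List Bool) (x y : Bool) (c : List Bool) (n : ℕ) :
    vx v d (a ++ (x :: y :: c)) (a.length + 2 + n) =
      vx (tip v d a + turn x (dx d a a.length)) (turn y (turn x (dx d a a.length))) c n := by
  have e : a.length + 2 + n = a.length + ((n + 1) + 1) := by ring
  rw [e, vx_app, Rec.vx_cons, Rec.vx_cons]
  rfl

lemma dx_two (d : Pt) (a : List Bool) (x y : Bool) (c : List Bool) (n : ℕ) :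
    dx d (a ++ (x :: y :: c)) (a.length + 2 + n) = dx (turn y (turn x (dx d a a.length))) c n := by
  have e : a.length + 2 + n = a.length + ((n + 1) + 1) := by ring
  rw [e, dx_app, Rec.dx_cons, Rec.dx_cons]

lemma vx_one' (v d : Pt) (a b : List Bool) : vx v d (a ++ b) (a.length + 1) = tip v d a :=
  vx_append le_rfl

/-! windings -/

lemma ex_tz {T : ℕ} {X : Set Pt} {k : ℤ} {t : List Bool} (hs : Saw (St (T + 1) \ X) (ft k) up t)
    (ht : tip (ft k) up t ∉ St (T + 1)) : ∃ n : ℕ, |k| < n ∧ t ∈ exits (tz T n) (ft k) up := by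
  obtain ⟨L, hL⟩ := HexW.saw_trap' (v0 := oo) hs
  refine ⟨L + k.natAbs + 1, ?_, ?_⟩
  · push_cast
    omega
  · apply mem_exits.2
    have h1 : Saw (trap oo up (T + 1) (L + k.natAbs + 1)) (ft k) up t :=
      hL.mono (Set.sdiff_subset.trans (trap_mono oo up (T + 1) (by omega)))
    constructor
    · apply saw_coe.1
      unfold tz
      rw [trapF_coe]
      exact h1
    · intro h
      exact ht (mem_tz.1 h).1

/-- the winding of the bridges. -/
lemma wind_br {T : ℕ} {X : Set Pt} {k : ℤ} {t : List Bool} (h : t ∈ Br (St (T + 1)) X (ft k) up) : wind t = 0 := by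
  obtain ⟨hs, ht, hd⟩ := h
  obtain ⟨n, hn, hex⟩ := ex_tz hs ht
  have hg := tz_good (T := T) hn
  obtain ⟨⟨a1, a2, a3, a4, a5⟩, -⟩ := dirs_distinct up hg.dir
  rcases hg.wind hex with ⟨_, h⟩ | ⟨h, _⟩ | ⟨h, _⟩ | ⟨h, _⟩ | ⟨h, _⟩ | ⟨h, _⟩
  · exact h
  · exact absurd (h.symm.trans hd) a1
  · exact absurd (h.symm.trans hd) a2
  · exact absurd (h.symm.trans hd) a3
  · exact absurd (h.symm.trans hd) a4
  · exact absurd (h.symm.trans hd) a5

/-- the winding of the words that leave downwards. -/
lemma wind_dn {T : ℕ} {X : Set Pt} {k j : ℤ} {t : List Bool} (h : t ∈ Dn (St (T + 1)) X (ft k) up)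
    (hj : tip (ft k) up t = ft j) : (j < k ∧ wind t = 3) ∨ (k < j ∧ wind t = -3) := by
  obtain ⟨hs, ht, hd⟩ := h
  obtain ⟨n, hn, hex⟩ := ex_tz hs ht
  have hg := tz_good (T := T) hn
  have hcr : cross up (tip (ft k) up t - ft k) = 2 * (k - j) := by
    rw [hj, ft_eq, ft_eq]
    simp only [cross, up, Prod.fst_sub, Prod.snd_sub]
    ring
  rcases hg.bottom hex hd with ⟨h1, h2⟩ | ⟨h1, h2⟩
  · left
    rw [hcr] at h1
    exact ⟨by omega, h2⟩
  · right
    rw [hcr] at h1
    exact ⟨by omega, h2⟩

/-! the glued word -/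

/-- the glued word. -/
def gl (w c : List Bool) : List Bool := [true, false] ++ (rev w ++ (false :: false :: c))

lemma gl_eq (w c : List Bool) : gl w c = ([true, false] ++ rev w) ++ (false :: false :: c) := by
  unfold gl
  rw [List.append_assoc]

lemma gl_len (w c : List Bool) : (gl w c).length = w.length + 4 + c.length := by
  unfold gl
  simp only [List.length_append, List.length_cons, List.length_nil, rev_length]
  omega

lemma pre_len2 (w : List Bool) : ([true, false] ++ rev w).length = w.length + 2 := by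
  rw [List.length_append, rev_length]
  simp only [List.length_cons, List.length_nil]
  omega

/-- the vertices of the glued word. -/
structure Dic (w c : List Bool) (j : ℤ) : Prop where
  d1 : ∀ i, 1 ≤ i → i ≤ w.length →
    vx (ft 1) up (gl w c) (2 + i) = vx (ft 1) up ([true, false] ++ w) (2 + (w.length + 1 - i)) + shp j
  d2 : vx (ft 1) up (gl w c) (w.length + 3) = le (j + 1)
  d3 : ∀ n, vx (ft 1) up (gl w c) (w.length + 4 + n) = vx (ft 0) up (true :: c) (1 + n) + shp j
  d4 : ∀ n, dx up (gl w c) (w.length + 4 + n) = dx up (true :: c) (1 + n)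

lemma dic {w c : List Bool} {j : ℤ} (h1 : tip (ft 1) up ([true, false] ++ w) = le (1 - j))
    (h2 : dx up ([true, false] ++ w) ([true, false] ++ w).length = -up) : Dic w c j := by
  have hl : ([true, false] ++ w).length = 2 + w.length := by
    rw [List.length_append]
    rfl
  have ht : tip oo up w + shp j = oo := by
    unfold tip at h1
    rw [hl, add_assoc, Far.pre_vx] at h1
    have e : le (1 - j) + shp j = le 1 := by
      rw [le_shp]
      congr 1
      ring
    rw [← h1] at e
    have e2 : le 1 + (vx oo up w (w.length + 1) + shp j) = le 1 + oo := by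
      rw [← add_assoc, e]
      rfl
    exact add_left_cancel e2
  have hd : dx up w w.length = -up := by
    rw [hl, Far.pre_dx] at h2
    exact h2
  have keyv : ∀ i, i ≤ w.length + 1 → vx oo up (rev w) i = vx oo up w (w.length + 1 - i) + shp j := by
    intro i hi
    have h3 := vx_rev oo up w i hi
    rw [hd, neg_neg] at h3
    rw [← h3, ← HexW.vx_trans, ht]
  have keyd : ∀ i, i ≤ w.length → dx up (rev w) i = -(dx up w (w.length - i)) := by
    intro i hi
    have := dx_rev up w i hi
    rwa [hd, neg_neg] at this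
  have htip : tip (ft 1) up ([true, false] ++ rev w) = le (j + 1) := by
    unfold tip
    have e : ([true, false] ++ rev w).length + 1 = 2 + (w.length + 1) := by
      rw [pre_len2]
      ring
    rw [e, Far.pre_vx, keyv _ le_rfl, Nat.sub_self]
    have e1 : vx oo up w 0 = 0 := rfl
    rw [e1, zero_add, le_shp]
    congr 1
    ring
  have hdir : dx up ([true, false] ++ rev w) ([true, false] ++ rev w).length = -up := by
    have e : ([true, false] ++ rev w).length = 2 + w.length := by
      rw [pre_len2]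
      ring
    rw [e, Far.pre_dx, keyd _ le_rfl, Nat.sub_self]
    rfl
  have e4 : ∀ n, w.length + 4 + n = ([true, false] ++ rev w).length + 2 + n := by
    intro n
    rw [pre_len2]
  have t1 : turn false (-up) = (-1, 0) := by decide
  have t2 : turn false ((-1, 0) : Pt) = (-1, 1) := by decide
  refine ⟨fun i h3 h4 => ?_, ?_, fun n => ?_, fun n => ?_⟩
  · unfold gl
    rw [Far.pre_vx, Far.pre_vx, vx_append (by rw [rev_length]; omega), keyv i (by omega), add_assoc]
  · rw [gl_eq]
    have e : w.length + 3 = ([true, false] ++ rev w).length + 1 := by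
      rw [pre_len2]
    rw [e, vx_one', htip]
  · rw [gl_eq, e4, vx_two, htip, hdir, t1, t2]
    have e5 : (1 : ℕ) + n = n + 1 := by ring
    have e6 : ft 0 + up = ue 0 := by
      rw [ft_eq]
      decide
    have e7 : turn true up = (-1, 1) := by decide
    rw [e5, Rec.vx_cons, e6, e7, ← HexW.vx_trans, ue_shp]
    have e8 : le (j + 1) + (-1, 0) = ue (0 + j) := by
      unfold le ue
      rw [Prod.mk_add_mk]
      congr 1 <;> ring
    rw [e8]
  · rw [gl_eq, e4, dx_two, hdir, t1, t2]
    have e5 : (1 : ℕ) + n = n + 1 := by ring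
    have e7 : turn true up = (-1, 1) := by decide
    rw [e5, Rec.dx_cons, e7]

lemma ix1 {i : ℕ} (h : 1 ≤ i) : i = 1 ∨ i = 2 ∨ ∃ n, i = 2 + n ∧ 1 ≤ n := by
  rcases (by omega : i = 1 ∨ i = 2 ∨ 2 < i) with h | h | h
  · exact Or.inl h
  · exact Or.inr (Or.inl h)
  · exact Or.inr (Or.inr ⟨i - 2, by omega, by omega⟩)

lemma ix2 {i : ℕ} (h : 1 < i) : i = 2 ∨ ∃ n, i = 2 + n ∧ 1 ≤ n := by
  rcases ix1 h.le with h | h | h
  · omega
  · exact Or.inl h
  · exact Or.inr h

lemma ix0 (i : ℕ) : i = 0 ∨ i = 1 ∨ i = 2 ∨ ∃ n, i = 2 + n ∧ 1 ≤ n := by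
  rcases Nat.eq_zero_or_pos i with h | h
  · exact Or.inl h
  · exact Or.inr (ix1 h)

/-- j is the largest place of the first row. -/
def Mx (s : List Bool) (j : ℤ) : Prop := ∀ i, 2 < i → i ≤ s.length → ∀ k : ℤ,
  (vx (ft 1) up s i = ue k → k ≤ j) ∧ (vx (ft 1) up s i = le k → k ≤ j + 1)

lemma pre0 : SP.pre 0 = [true] := by
  unfold SP.pre
  rw [if_pos rfl]

lemma pre1 : SP.pre 1 = [true, false] := by
  unfold SP.pre
  rw [if_neg (by norm_num)]

/-- the end of the glued word. -/
lemma split_a {T : ℕ} {w c : List Bool} {j : ℤ} (hD : Dic w c j) (hs : gl w c ∈ BrA (St (T + 1)) ∅ 1)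
    (hM : Mx (gl w c) j) : true :: c ∈ BrA (St (T + 1)) ∅ 0 := by
  obtain ⟨⟨hs, htip, hup⟩, hA⟩ := hs
  have hlen := gl_len w c
  have hl : (true :: c).length = 1 + c.length := by
    rw [List.length_cons]
    ring
  have hm : ∀ n, n ≤ c.length → vx (ft 0) up (true :: c) (1 + n) ∈ St (T + 1) := by
    intro n hn
    rw [← St_shp (j := j), ← hD.d3]
    exact (hs.mem _ (by omega) (by omega)).1
  refine ⟨⟨⟨?_, ?_⟩, ?_, ?_⟩, ?_, ?_⟩
  · intro i hi1 hi2
    obtain ⟨n, rfl⟩ : ∃ n, i = 1 + n := ⟨i - 1, by omega⟩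
    exact ⟨hm n (by omega), fun h => h⟩
  · intro i k hik hk he
    obtain ⟨n, rfl⟩ : ∃ n, k = 1 + n := ⟨k - 1, by omega⟩
    rcases Nat.eq_zero_or_pos i with h0 | h0
    · subst h0
      have h3 := hm n (by omega)
      rw [← he] at h3
      exact ft_St _ _ h3
    · obtain ⟨m, rfl⟩ : ∃ m, i = 1 + m := ⟨i - 1, by omega⟩
      apply hs.inj (w.length + 4 + m) (w.length + 4 + n) (by omega) (by omega)
      rw [hD.d3, hD.d3, he]
  · intro h
    apply htip
    unfold tip
    have e : (gl w c).length + 1 = w.length + 4 + (c.length + 1) := by omega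
    rw [e, hD.d3, St_shp]
    unfold tip at h
    have e2 : (true :: c).length + 1 = 1 + (c.length + 1) := by omega
    rw [e2] at h
    exact h
  · have e : (gl w c).length = w.length + 4 + c.length := hlen
    rw [e, hD.d4] at hup
    rw [hl]
    exact hup
  · rw [pre0]
    exact ⟨c, rfl⟩
  · intro i hi1 hi2 hO
    rw [pre0] at hi1
    have hi1' : 1 < i := hi1
    obtain ⟨n, rfl⟩ : ∃ n, i = 1 + n := ⟨i - 1, by omega⟩
    obtain ⟨k, ⟨h1, h2⟩ | ⟨h1, h2⟩⟩ := oo_cases (hm n (by omega)) hO
    · have h3 := hD.d3 n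
      rw [h1, ue_shp] at h3
      have h4 := (hM _ (by omega) (by omega) _).1 h3
      have h5 : k = 0 := by omega
      have h6 := hD.d3 0
      have e6 : vx (ft 0) up (true :: c) (1 + 0) = ue 0 := by
        show ft 0 + up = ue 0
        rw [ft_eq]
        decide
      rw [e6, ue_shp] at h6
      rw [h5] at h3
      exact hs.inj _ _ (by omega) (by omega) (h6.trans h3.symm)
    · have h3 := hD.d3 n
      rw [h1, le_shp] at h3
      have h4 := (hM _ (by omega) (by omega) _).2 h3
      have h5 : k + j = j + 1 := by omega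
      rw [h5] at h3
      exact hs.inj _ _ (by omega) (by omega) (hD.d2.trans h3.symm)

/-- the beginning of the glued word, reversed. -/
lemma split_b {T : ℕ} {w c : List Bool} {j : ℤ} (h1 : tip (ft 1) up ([true, false] ++ w) = le (1 - j))
    (h2 : dx up ([true, false] ++ w) ([true, false] ++ w).length = -up) (hs : gl w c ∈ BrA (St (T + 1)) ∅ 1)
    (hM : Mx (gl w c) j) :
    [true, false] ++ w ∈ Ld (St (T + 1)) (∅ ∪ vis (ft 0) up (true :: c)) 1 (1 - j) := by
  have hD := dic (c := c) h1 h2
  have hA0 := split_a hD hs hM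
  obtain ⟨⟨hs, htip, hup⟩, hA⟩ := hs
  have hlen := gl_len w c
  have hl : (true :: c).length = 1 + c.length := by
    rw [List.length_cons]
    ring
  have hlu : ([true, false] ++ w).length = 2 + w.length := by
    rw [List.length_append]
    rfl
  -- the vertices
  have u0 : vx (ft 1) up ([true, false] ++ w) 0 = ft 1 := rfl
  have u1 : vx (ft 1) up ([true, false] ++ w) 1 = ue 1 := Far.pre_one 1 w
  have u2 : vx (ft 1) up ([true, false] ++ w) 2 = le 1 := by
    have := Far.pre_vx 1 w 0
    rw [add_zero] at this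
    rw [this]
    exact add_zero (le 1)
  have key : ∀ i, 1 ≤ i → i ≤ w.length → vx (ft 1) up ([true, false] ++ w) (2 + i) + shp j =
      vx (ft 1) up (gl w c) (2 + (w.length + 1 - i)) := by
    intro i hi1 hi2
    rw [hD.d1 _ (by omega) (by omega)]
    congr 2
    omega
  have hOo : ∀ i, 1 ≤ i → i ≤ w.length → vx (ft 1) up ([true, false] ++ w) (2 + i) ∉ OO := by
    intro i hi1 hi2 hO
    have hk := key i hi1 hi2
    have hm : vx (ft 1) up ([true, false] ++ w) (2 + i) ∈ St (T + 1) := by
      rw [← St_shp (j := j), hk]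
      exact (hs.mem _ (by omega) (by omega)).1
    obtain ⟨k, ⟨h3, h4⟩ | ⟨h3, h4⟩⟩ := oo_cases hm hO
    · rw [h3, ue_shp] at hk
      have h5 := (hM _ (by omega) (by omega) _).1 hk.symm
      have h6 : k = 0 := by omega
      have h7 := hD.d3 0
      have e6 : vx (ft 0) up (true :: c) (1 + 0) = ue 0 := by
        show ft 0 + up = ue 0
        rw [ft_eq]
        decide
      rw [e6, ue_shp] at h7
      rw [h6] at hk
      exact hs.inj _ _ (by omega) (by omega) (hk.symm.trans h7.symm)
    · rw [h3, le_shp] at hk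
      have h5 := (hM _ (by omega) (by omega) _).2 hk.symm
      have h6 : k + j = j + 1 := by omega
      rw [h6] at hk
      exact hs.inj _ _ (by omega) (by omega) (hk.symm.trans hD.d2.symm)
  have hvO : ∀ v, v ∈ vis (ft 0) up (true :: c) → v ∈ OO → v = ue 0 := by
    intro v hv hO
    rcases adm_OO hA0.2 hv hO with h | ⟨h, _⟩
    · exact h
    · exact absurd rfl h
  refine ⟨⟨?_, ?_⟩, ⟨?_, ?_⟩, h1, h2⟩
  · intro i hi1 hi2
    rcases ix1 hi1 with rfl | rfl | ⟨n, rfl, hn1⟩
    · rw [u1]
      refine ⟨ue_St T 1, ?_⟩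
      rintro (h | h)
      · exact h
      · have := ue_inj (hvO _ h (ue_mem_OO.2 (by norm_num)))
        omega
    · rw [u2]
      refine ⟨le_St T 1, ?_⟩
      rintro (h | h)
      · exact h
      · exact ue_ne_le _ _ (hvO _ h (le_mem_OO.2 le_rfl)).symm
    · have hk := key n hn1 (by omega)
      refine ⟨?_, ?_⟩
      · rw [← St_shp (j := j), hk]
        exact (hs.mem _ (by omega) (by omega)).1
      · rintro (h | ⟨m, hm1, hm2, hm3⟩)
        · exact h
        · obtain ⟨m', rfl⟩ : ∃ m', m = 1 + m' := ⟨m - 1, by omega⟩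
          have h3 := hD.d3 m'
          rw [hm3, hk] at h3
          exact hs.inj _ _ (by omega) (by omega) h3.symm
  · intro i k hik hk he
    have hmk : ∀ k, 1 ≤ k → k ≤ 2 + w.length → vx (ft 1) up ([true, false] ++ w) k ∈ St (T + 1) := by
      intro k hk1 hk2
      rcases ix1 hk1 with rfl | rfl | ⟨n, rfl, hn1⟩
      · rw [u1]
        exact ue_St T 1
      · rw [u2]
        exact le_St T 1
      · rw [← St_shp (j := j), key n hn1 (by omega)]
        exact (hs.mem _ (by omega) (by omega)).1
    rcases ix0 i with rfl | rfl | rfl | ⟨n, rfl, hn1⟩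
    · have h3 := hmk k (by omega) (by omega)
      rw [← he, u0] at h3
      exact ft_St _ _ h3
    · rw [u1] at he
      rcases ix2 hik with rfl | ⟨n, rfl, hn1⟩
      · rw [u2] at he
        exact ue_ne_le _ _ he
      · apply hOo n hn1 (by omega)
        rw [← he]
        exact ue_mem_OO.2 (by norm_num)
    · rw [u2] at he
      obtain ⟨n, rfl, hn1⟩ : ∃ n, k = 2 + n ∧ 1 ≤ n := ⟨k - 2, by omega, by omega⟩
      apply hOo n hn1 (by omega)
      rw [← he]
      exact le_mem_OO.2 le_rfl
    · obtain ⟨m, rfl, hm1⟩ : ∃ m, k = 2 + m ∧ 1 ≤ m := ⟨k - 2, by omega, by omega⟩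
      have k1 := key n hn1 (by omega)
      have k2 := key m hm1 (by omega)
      rw [he, k2] at k1
      exact hs.inj _ _ (by omega) (by omega) k1
  · rw [pre1]
    exact ⟨w, rfl⟩
  · intro i hi1 hi2
    rw [pre1] at hi1
    have hi1' : 2 < i := hi1
    obtain ⟨n, rfl⟩ : ∃ n, i = 2 + n := ⟨i - 2, by omega⟩
    exact hOo n (by omega) (by omega)

/-- gluing. -/
lemma glue {T : ℕ} {w c : List Bool} {j : ℤ} (hj : j ≤ -1) (hc : true :: c ∈ BrA (St (T + 1)) ∅ 0)
    (hu : [true, false] ++ w ∈ Ld (St (T + 1)) (∅ ∪ vis (ft 0) up (true :: c)) 1 (1 - j)) :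
    gl w c ∈ BrA (St (T + 1)) ∅ 1 ∧ Mx (gl w c) j := by
  obtain ⟨us, uA, ut, ud⟩ := hu
  have hD := dic (c := c) ut ud
  obtain ⟨⟨cs, ct, cd⟩, cA⟩ := hc
  have hlen := gl_len w c
  have hl : (true :: c).length = 1 + c.length := by
    rw [List.length_cons]
    ring
  have hlu : ([true, false] ++ w).length = 2 + w.length := by
    rw [List.length_append]
    rfl
  have u2 : vx (ft 1) up ([true, false] ++ w) 2 = le 1 := by
    have := Far.pre_vx 1 w 0
    rw [add_zero] at this
    rw [this]
    exact add_zero (le 1)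
  have v0 : vx (ft 1) up (gl w c) 0 = ft 1 := rfl
  have v1 : vx (ft 1) up (gl w c) 1 = ue 1 := Far.pre_one 1 _
  have v2 : vx (ft 1) up (gl w c) 2 = le 1 := by
    have := Far.pre_vx 1 (rev w ++ (false :: false :: c)) 0
    rw [add_zero] at this
    unfold gl
    rw [this]
    exact add_zero (le 1)
  have c1 : vx (ft 0) up (true :: c) (1 + 0) = ue 0 := by
    show ft 0 + up = ue 0
    rw [ft_eq]
    decide
  -- kinds of indices
  have kinds : ∀ i, 2 < i → i ≤ (gl w c).length → (∃ n, i = 2 + n ∧ 1 ≤ n ∧ n ≤ w.length) ∨ i = w.length + 3 ∨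
      i = w.length + 4 + 0 ∨ ∃ n, i = w.length + 4 + n ∧ 1 ≤ n ∧ n ≤ c.length := by
    intro i h1 h2
    rcases Nat.lt_or_ge (w.length + 2) i with h3 | h3
    · rcases (by omega : i = w.length + 3 ∨ i = w.length + 4 + 0 ∨ w.length + 4 < i) with h4 | h4 | h4
      · exact Or.inr (Or.inl h4)
      · exact Or.inr (Or.inr (Or.inl h4))
      · exact Or.inr (Or.inr (Or.inr ⟨i - (w.length + 4), by omega, by omega, by omega⟩))
    · exact Or.inl ⟨i - 2, by omega, by omega, by omega⟩
  -- the out condition for the parts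
  have uo : ∀ n, 1 ≤ n → n ≤ w.length → vx (ft 1) up ([true, false] ++ w) (2 + n) ∉ OO := by
    intro n h1 h2
    apply uA.out
    · rw [pre1]
      show 2 < 2 + n
      omega
    · omega
  have co : ∀ n, 1 ≤ n → n ≤ c.length → vx (ft 0) up (true :: c) (1 + n) ∉ OO := by
    intro n h1 h2
    apply cA.out
    · rw [pre0]
      show 1 < 1 + n
      omega
    · omega
  have um : ∀ n, 1 ≤ n → n ≤ w.length → vx (ft 1) up ([true, false] ++ w) (2 + n) ∈ St (T + 1) ∧
      vx (ft 1) up ([true, false] ++ w) (2 + n) ∉ vis (ft 0) up (true :: c) := by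
    intro n h1 h2
    have := us.mem (2 + n) (by omega) (by omega)
    exact ⟨this.1, fun h => this.2 (Or.inr h)⟩
  have cm : ∀ n, n ≤ c.length → vx (ft 0) up (true :: c) (1 + n) ∈ St (T + 1) :=
    fun n h => (cs.mem (1 + n) (by omega) (by omega)).1
  have hout : ∀ i, 2 < i → i ≤ (gl w c).length → vx (ft 1) up (gl w c) i ∉ OO := by
    intro i h1 h2 hO
    rcases kinds i h1 h2 with ⟨n, rfl, h3, h4⟩ | rfl | rfl | ⟨n, rfl, h3, h4⟩
    · rw [hD.d1 n h3 h4] at hO
      have e : 2 + (w.length + 1 - n) = 2 + (w.length + 1 - n) := rfl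
      exact uo (w.length + 1 - n) (by omega) (by omega) (OO_shp (by omega) hO)
    · rw [hD.d2, le_mem_OO] at hO
      omega
    · rw [hD.d3, c1, ue_shp, ue_mem_OO] at hO
      omega
    · rw [hD.d3] at hO
      exact co n h3 h4 (OO_shp (by omega) hO)
  have hmem : ∀ i, 2 < i → i ≤ (gl w c).length → vx (ft 1) up (gl w c) i ∈ St (T + 1) := by
    intro i h1 h2
    rcases kinds i h1 h2 with ⟨n, rfl, h3, h4⟩ | rfl | rfl | ⟨n, rfl, h3, h4⟩
    · rw [hD.d1 n h3 h4, St_shp]
      exact (um (w.length + 1 - n) (by omega) (by omega)).1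
    · rw [hD.d2]
      exact le_St T _
    · rw [hD.d3, St_shp]
      exact cm 0 (by omega)
    · rw [hD.d3, St_shp]
      exact cm n h4
  refine ⟨⟨⟨⟨?_, ?_⟩, ?_, ?_⟩, ?_, ?_⟩, ?_⟩
  · intro i h1 h2
    rcases (by omega : i = 1 ∨ i = 2 ∨ 2 < i) with rfl | rfl | h3
    · rw [v1]
      exact ⟨ue_St T 1, fun h => h⟩
    · rw [v2]
      exact ⟨le_St T 1, fun h => h⟩
    · exact ⟨hmem i h3 h2, fun h => h⟩
  · intro i k hik hk he
    rcases (by omega : i = 0 ∨ i = 1 ∨ i = 2 ∨ 2 < i) with rfl | rfl | rfl | hi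
    · rw [v0] at he
      rcases (by omega : k = 1 ∨ k = 2 ∨ 2 < k) with rfl | rfl | h3
      · rw [v1] at he
        have := congrArg lv he
        rw [lv_ft, lv_ue] at this
        omega
      · rw [v2] at he
        have := congrArg lv he
        rw [lv_ft, lv_le] at this
        omega
      · have := hmem k h3 hk
        rw [← he] at this
        exact ft_St _ _ this
    · rw [v1] at he
      rcases (by omega : k = 2 ∨ 2 < k) with rfl | h3
      · rw [v2] at he
        exact ue_ne_le _ _ he
      · apply hout k h3 hk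
        rw [← he]
        exact ue_mem_OO.2 (by norm_num)
    · rw [v2] at he
      apply hout k hik hk
      rw [← he]
      exact le_mem_OO.2 le_rfl
    · rcases kinds i hi (by omega) with ⟨n, rfl, h3, h4⟩ | rfl | rfl | ⟨n, rfl, h3, h4⟩
      · rw [hD.d1 n h3 h4] at he
        rcases kinds k (by omega) hk with ⟨m, rfl, h5, h6⟩ | rfl | rfl | ⟨m, rfl, h5, h6⟩
        · rw [hD.d1 m h5 h6] at he
          exact us.inj _ _ (by omega) (by omega) (add_right_cancel he).symm
        · rw [hD.d2] at he
          have e : le (j + 1) = vx (ft 1) up ([true, false] ++ w) 2 + shp j := by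
            rw [u2, le_shp]
            congr 1
            ring
          rw [e] at he
          exact us.inj 2 _ (by omega) (by omega) (add_right_cancel he).symm
        · rw [hD.d3] at he
          apply (um (w.length + 1 - n) (by omega) (by omega)).2
          exact ⟨1 + 0, by omega, by omega, (add_right_cancel he).symm⟩
        · rw [hD.d3] at he
          apply (um (w.length + 1 - n) (by omega) (by omega)).2
          exact ⟨1 + m, by omega, by omega, (add_right_cancel he).symm⟩
      · rw [hD.d2] at he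
        rcases kinds k (by omega) hk with ⟨m, rfl, h5, h6⟩ | rfl | rfl | ⟨m, rfl, h5, h6⟩
        · omega
        · omega
        · rw [hD.d3, c1, ue_shp] at he
          exact ue_ne_le _ _ he.symm
        · rw [hD.d3] at he
          have e : le (j + 1) = le 1 + shp j := by
            rw [le_shp]
            congr 1
            ring
          rw [e] at he
          apply co m h5 h6
          rw [← add_right_cancel he]
          exact le_mem_OO.2 le_rfl
      · rcases kinds k (by omega) hk with ⟨m, rfl, h5, h6⟩ | rfl | rfl | ⟨m, rfl, h5, h6⟩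
        · omega
        · omega
        · omega
        · rw [hD.d3, hD.d3] at he
          exact cs.inj _ _ (by omega) (by omega) (add_right_cancel he)
      · rcases kinds k (by omega) hk with ⟨m, rfl, h5, h6⟩ | rfl | rfl | ⟨m, rfl, h5, h6⟩
        · omega
        · omega
        · omega
        · rw [hD.d3, hD.d3] at he
          exact cs.inj _ _ (by omega) (by omega) (add_right_cancel he)
  · intro h
    apply ct
    unfold tip at h ⊢
    have e : (gl w c).length + 1 = w.length + 4 + (c.length + 1) := by omega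
    rw [e, hD.d3, St_shp] at h
    have e2 : (true :: c).length + 1 = 1 + (c.length + 1) := by omega
    rw [e2]
    exact h
  · rw [hlen, hD.d4]
    rw [hl] at cd
    exact cd
  · rw [pre1]
    exact ⟨_, rfl⟩
  · intro i h1 h2
    rw [pre1] at h1
    exact hout i h1 h2
  · intro i h1 h2 k
    rcases kinds i h1 h2 with ⟨n, rfl, h3, h4⟩ | rfl | rfl | ⟨n, rfl, h3, h4⟩
    · have ho := uo (w.length + 1 - n) (by omega) (by omega)
      rw [hD.d1 n h3 h4]
      constructor
      · intro h
        have h5 : vx (ft 1) up ([true, false] ++ w) (2 + (w.length + 1 - n)) = ue (k - j) := by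
          apply add_right_cancel (b := shp j)
          rw [h, ue_shp]
          congr 1
          ring
        rw [h5, ue_mem_OO] at ho
        omega
      · intro h
        have h5 : vx (ft 1) up ([true, false] ++ w) (2 + (w.length + 1 - n)) = le (k - j) := by
          apply add_right_cancel (b := shp j)
          rw [h, le_shp]
          congr 1
          ring
        rw [h5, le_mem_OO] at ho
        omega
    · rw [hD.d2]
      exact ⟨fun h => absurd h.symm (ue_ne_le _ _), fun h => (le_inj' h).symm.le⟩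
    · rw [hD.d3, c1, ue_shp]
      exact ⟨fun h => by have := ue_inj h; omega, fun h => absurd h (ue_ne_le _ _)⟩
    · have ho := co n h3 h4
      rw [hD.d3]
      constructor
      · intro h
        have h5 : vx (ft 0) up (true :: c) (1 + n) = ue (k - j) := by
          apply add_right_cancel (b := shp j)
          rw [h, ue_shp]
          congr 1
          ring
        rw [h5, ue_mem_OO] at ho
        omega
      · intro h
        have h5 : vx (ft 0) up (true :: c) (1 + n) = le (k - j) := by
          apply add_right_cancel (b := shp j)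
          rw [h, le_shp]
          congr 1
          ring
        rw [h5, le_mem_OO] at ho
        omega

/-- the reversed word. -/
lemma rev_tip {w : List Bool} {J : ℤ} (h1 : tip (ft 1) up ([true, false] ++ w) = le J)
    (h2 : dx up ([true, false] ++ w) ([true, false] ++ w).length = -up) :
    tip (ft 1) up ([true, false] ++ rev w) = le (2 - J) ∧
      dx up ([true, false] ++ rev w) ([true, false] ++ rev w).length = -up := by
  have hl : ([true, false] ++ w).length = 2 + w.length := by
    rw [List.length_append]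
    rfl
  have ht : tip oo up w + shp (1 - J) = oo := by
    unfold tip at h1
    rw [hl, add_assoc, Far.pre_vx] at h1
    have e : le J + shp (1 - J) = le 1 := by
      rw [le_shp]
      congr 1
      ring
    rw [← h1] at e
    have e2 : le 1 + (vx oo up w (w.length + 1) + shp (1 - J)) = le 1 + oo := by
      rw [← add_assoc, e]
      rfl
    exact add_left_cancel e2
  have hd : dx up w w.length = -up := by
    rw [hl, Far.pre_dx] at h2
    exact h2
  have keyv : ∀ i, i ≤ w.length + 1 → vx oo up (rev w) i = vx oo up w (w.length + 1 - i) + shp (1 - J) := by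
    intro i hi
    have h3 := vx_rev oo up w i hi
    rw [hd, neg_neg] at h3
    rw [← h3, ← HexW.vx_trans, ht]
  have keyd : ∀ i, i ≤ w.length → dx up (rev w) i = -(dx up w (w.length - i)) := by
    intro i hi
    have := dx_rev up w i hi
    rwa [hd, neg_neg] at this
  constructor
  · unfold tip
    have e : ([true, false] ++ rev w).length + 1 = 2 + (w.length + 1) := by
      rw [pre_len2]
      ring
    rw [e, Far.pre_vx, keyv _ le_rfl, Nat.sub_self]
    have e1 : vx oo up w 0 = 0 := rfl
    rw [e1, zero_add, le_shp]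
    congr 1
    ring
  · have e : ([true, false] ++ rev w).length = 2 + w.length := by
      rw [pre_len2]
      ring
    rw [e, Far.pre_dx, keyd _ le_rfl, Nat.sub_self]
    rfl

lemma neg_dirs : ∀ d ∈ dirs, -d ∈ dirs := by decide

/-- two letters in the middle. -/
lemma cut_two {s : List Bool} {m : ℕ} (hm : m + 2 ≤ s.length) :
    s = s.take m ++ (tf s m :: tf s (m + 1) :: s.drop (m + 2)) := by
  have h1 : tf s m = s[m] := by
    unfold tf
    rw [List.getD_eq_getElem _ _ (by omega)]
  have h2 : tf s (m + 1) = s[m + 1] := by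
    unfold tf
    rw [List.getD_eq_getElem _ _ (by omega)]
  rw [h1, h2, List.getElem_cons_drop, List.getElem_cons_drop, List.take_append_drop]

/-- no passage of the first row to the right. -/
lemma no_right {T : ℕ} {s : List Bool} (hs : s ∈ BrA (St (T + 1)) ∅ 1) {j : ℤ} (hj : j ≤ -1) (hM : Mx s j) {m : ℕ}
    (hm : 1 ≤ m) (hms : m + 3 ≤ s.length) (v0 : vx (ft 1) up s m = le j) (v1 : vx (ft 1) up s (m + 1) = ue j)
    (v2 : vx (ft 1) up s (m + 2) = le (j + 1)) (v3 : vx (ft 1) up s (m + 3) = le (j + 1) + up) : False := by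
  obtain ⟨⟨hsw, htip, hup⟩, hA⟩ := id hs
  have d0 : dx up s m = (1, -1) := by
    have h := vx_succ (ft 1) up s m
    rw [v0, v1] at h
    have h2 : dx up s m = ue j - le j := by
      rw [h]
      abel
    rw [h2]
    unfold ue le
    rw [Prod.mk_sub_mk]
    congr 1 <;> ring
  have d1 : dx up s (m + 1) = (1, 0) := by
    have h := vx_succ (ft 1) up s (m + 1)
    rw [v1, v2] at h
    have h2 : dx up s (m + 1) = le (j + 1) - ue j := by
      rw [h]
      abel
    rw [h2]
    unfold ue le
    rw [Prod.mk_sub_mk]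
    congr 1 <;> ring
  have d2 : dx up s (m + 2) = up := by
    have h := vx_succ (ft 1) up s (m + 2)
    rw [v2, v3] at h
    exact (add_left_cancel h).symm
  have t0 : tf s m = true := by
    have h := dx_succ up s m
    rw [d0, d1] at h
    rcases Bool.eq_false_or_eq_true (tf s m) with hb | hb
    · exact hb
    · rw [hb] at h
      exact absurd h (by decide)
  have t1 : tf s (m + 1) = true := by
    have h := dx_succ up s (m + 1)
    rw [d1, d2] at h
    rcases Bool.eq_false_or_eq_true (tf s (m + 1)) with hb | hb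
    · exact hb
    · rw [hb] at h
      exact absurd h (by decide)
  have hcut := cut_two (s := s) (m := m) (by omega)
  rw [t0, t1] at hcut
  obtain ⟨a, ha⟩ : ∃ a, a = s.take m := ⟨_, rfl⟩
  obtain ⟨c, hc⟩ : ∃ c, c = s.drop (m + 2) := ⟨_, rfl⟩
  rw [← ha, ← hc] at hcut
  have hal : a.length = m := by
    rw [ha, List.length_take]
    omega
  have hsl : s.length = m + 2 + c.length := by
    rw [hcut, List.length_append, hal, List.length_cons, List.length_cons]
    ring
  have hav : ∀ i, i ≤ m + 1 → vx (ft 1) up a i = vx (ft 1) up s i := by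
    intro i hi
    rw [hcut, vx_append (by omega)]
  have had : dx up a a.length = (1, -1) := by
    have h : dx up s m = dx up a m := by
      rw [hcut, dx_append (by omega)]
    rw [hal, ← h, d0]
  have hat : tip (ft 1) up a = ue j := by
    unfold tip
    rw [hal, hav _ le_rfl, v1]
  -- the walk down to the foot j
  have hdn : a ++ [false] ∈ Dn (St (T + 1)) ∅ (ft 1) up := by
    refine ⟨⟨?_, ?_⟩, ?_, ?_⟩
    · intro i h1 h2
      rw [List.length_append, hal] at h2
      have h2' : i ≤ m + 1 := h2
      rw [vx_append (by omega), hav i h2']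
      exact hsw.mem i h1 (by omega)
    · intro i k hik hk
      rw [List.length_append, hal] at hk
      have hk' : k ≤ m + 1 := hk
      rw [vx_append (by omega), vx_append (by omega), hav i (by omega), hav k hk']
      exact hsw.inj i k hik (by omega)
    · rw [tip_append_one, hat, had]
      have e : ue j + turn false (1, -1) = ft j := by
        rw [ft_eq]
        have e1 : turn false ((1, -1) : Pt) = (0, -1) := by decide
        rw [e1]
        unfold ue
        rw [Prod.mk_add_mk]
        congr 1 <;> ring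
      rw [e]
      exact ft_St _ _
    · rw [dx_append_one, had]
      decide
  have hdt : tip (ft 1) up (a ++ [false]) = ft j := by
    rw [tip_append_one, hat, had, ft_eq]
    have e1 : turn false ((1, -1) : Pt) = (0, -1) := by decide
    rw [e1]
    unfold ue
    rw [Prod.mk_add_mk]
    congr 1 <;> ring
  have w1 : wind a = 4 := by
    rcases wind_dn hdn hdt with ⟨_, h⟩ | ⟨h, _⟩
    · rw [wind_append] at h
      have e : wind [false] = -1 := by decide
      omega
    · omega
  have w2 := wind_br hs.1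
  have e2 : a ++ (true :: true :: c) = a ++ [true, true] ++ c := by simp
  rw [hcut, e2, wind_append, wind_append] at w2
  have e3 : wind [true, true] = 2 := by decide
  -- the second part
  have key : ∀ n, vx (ft (j + 1)) up ([true, false] ++ c) (2 + n) = vx (ft 1) up s (m + 2 + n) := by
    intro n
    have h := vx_two (ft 1) up a true true c n
    rw [← hcut, hat, had, hal] at h
    have e4 : ue j + turn true (1, -1) = le (j + 1) := by
      have e5 : turn true ((1, -1) : Pt) = (1, 0) := by decide
      rw [e5]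
      unfold ue le
      rw [Prod.mk_add_mk]
      congr 1 <;> ring
    have e6 : turn true (turn true ((1, -1) : Pt)) = up := by decide
    rw [e4, e6] at h
    rw [h, Far.pre_vx, add_comm, ← HexW.vx_trans]
    congr 1
    exact zero_add (le (j + 1))
  have hlc : ([true, false] ++ c).length = 2 + c.length := by
    rw [List.length_append]
    rfl
  have hbr : [true, false] ++ c ∈ Br (St (T + 1)) ∅ (ft (j + 1)) up := by
    refine ⟨⟨?_, ?_⟩, ?_, ?_⟩
    · intro i h1 h2
      rcases Nat.lt_or_ge i 2 with h3 | h3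
      · have h4 : i = 1 := by omega
        subst h4
        rw [Far.pre_one]
        exact ⟨ue_St T _, fun h => h⟩
      · obtain ⟨n, rfl⟩ : ∃ n, i = 2 + n := ⟨i - 2, by omega⟩
        rw [key]
        exact hsw.mem _ (by omega) (by omega)
    · intro i k hik hk he
      have hmk : ∀ k, 1 ≤ k → k ≤ 2 + c.length → vx (ft (j + 1)) up ([true, false] ++ c) k ∈ St (T + 1) := by
        intro k h1 h2
        rcases Nat.lt_or_ge k 2 with h3 | h3
        · have h4 : k = 1 := by omega
          subst h4
          rw [Far.pre_one]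
          exact ue_St T _
        · obtain ⟨n, rfl⟩ : ∃ n, k = 2 + n := ⟨k - 2, by omega⟩
          rw [key]
          exact (hsw.mem _ (by omega) (by omega)).1
      rcases (by omega : i = 0 ∨ i = 1 ∨ 2 ≤ i) with rfl | rfl | h3
      · have h4 := hmk k (by omega) (by omega)
        rw [← he] at h4
        exact ft_St _ _ h4
      · obtain ⟨n, rfl⟩ : ∃ n, k = 2 + n := ⟨k - 2, by omega⟩
        rw [Far.pre_one, key] at he
        have := (hM (m + 2 + n) (by omega) (by omega) (j + 1)).1 he.symm
        omega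
      · obtain ⟨n, rfl⟩ : ∃ n, i = 2 + n := ⟨i - 2, by omega⟩
        obtain ⟨n', rfl⟩ : ∃ n', k = 2 + n' := ⟨k - 2, by omega⟩
        rw [key, key] at he
        exact hsw.inj _ _ (by omega) (by omega) he
    · unfold tip
      rw [hlc, add_assoc, key]
      have e : m + 2 + (c.length + 1) = s.length + 1 := by omega
      rw [e]
      exact htip
    · rw [hlc, Far.pre_dx]
      have h := dx_two up a true true c c.length
      rw [← hcut, had, hal] at h
      have e6 : turn true (turn true ((1, -1) : Pt)) = up := by decide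
      rw [e6, ← hsl, hup] at h
      exact h.symm
  have w3 := wind_br hbr
  rw [wind_append] at w3
  have e7 : wind [true, false] = 0 := by decide
  omega

/-- the decomposition. -/
lemma decomp {T : ℕ} (hT : 1 ≤ T) {s : List Bool} (hs : s ∈ BrA (St (T + 1)) ∅ 1)
    (hx : ∃ i, 2 < i ∧ i ≤ s.length ∧ lv (vx (ft 1) up s i) ≤ 3) :
    ∃ (w c : List Bool) (j : ℤ), j ≤ -1 ∧ s = gl w c ∧ tip (ft 1) up ([true, false] ++ w) = le (1 - j) ∧
      dx up ([true, false] ++ w) ([true, false] ++ w).length = -up ∧ Mx s j := by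
  obtain ⟨⟨hsw, htip, hup⟩, hA⟩ := id hs
  obtain ⟨v1, v2, -⟩ := adm_vx hA
  have hout : ∀ i, 2 < i → i ≤ s.length → vx (ft 1) up s i ∉ OO := by
    intro i h1 h2
    apply hA.out i _ h2
    rw [pre1]
    exact h1
  have hmem : ∀ i, 1 ≤ i → i ≤ s.length → vx (ft 1) up s i ∈ St (T + 1) := fun i h1 h2 => (hsw.mem i h1 h2).1
  have hlast : ∀ i, 2 < i → i ≤ s.length → lv (vx (ft 1) up s i) ≤ 3 → i < s.length := by
    intro i h1 h2 h3
    rcases Nat.lt_or_ge i s.length with h4 | h4
    · exact h4
    · have h5 : i = s.length := by omega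
      have h6 := last_lv hs.1 (by omega)
      rw [← h5] at h6
      omega
  -- neighbours
  have nbp_ue : ∀ i k, 1 ≤ i → i + 1 ≤ s.length → vx (ft 1) up s (i + 1) = ue k →
      vx (ft 1) up s i = le k ∨ vx (ft 1) up s i = le (k + 1) := by
    intro i k h1 h2 h3
    exact nbr_ue (hmem i h1 (by omega)) (dx up s i) (dx_mem upd s i) (by rw [← h3, vx_succ])
  have nbs_ue : ∀ i k, 1 ≤ i → i + 1 ≤ s.length → vx (ft 1) up s i = ue k →
      vx (ft 1) up s (i + 1) = le k ∨ vx (ft 1) up s (i + 1) = le (k + 1) := by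
    intro i k h1 h2 h3
    refine nbr_ue (hmem (i + 1) (by omega) h2) (-dx up s i) (neg_dirs _ (dx_mem upd s i)) ?_
    rw [← h3, vx_succ]
    abel
  have nbp_le : ∀ i k, 1 ≤ i → i + 1 ≤ s.length → vx (ft 1) up s (i + 1) = le k →
      vx (ft 1) up s i = le k + up ∨ vx (ft 1) up s i = ue (k - 1) ∨ vx (ft 1) up s i = ue k := by
    intro i k h1 h2 h3
    exact nbr_le (hmem i h1 (by omega)) (dx up s i) (dx_mem upd s i) (by rw [← h3, vx_succ])
  have nbs_le : ∀ i k, 1 ≤ i → i + 1 ≤ s.length → vx (ft 1) up s i = le k →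
      vx (ft 1) up s (i + 1) = le k + up ∨ vx (ft 1) up s (i + 1) = ue (k - 1) ∨ vx (ft 1) up s (i + 1) = ue k := by
    intro i k h1 h2 h3
    refine nbr_le (hmem (i + 1) (by omega) h2) (-dx up s i) (neg_dirs _ (dx_mem upd s i)) ?_
    rw [← h3, vx_succ]
    abel
  -- the largest place
  obtain ⟨j, ⟨i0, hi0, hi0s, hi0v⟩, hmax⟩ : ∃ j : ℤ, (∃ i, 2 < i ∧ i ≤ s.length ∧
      (vx (ft 1) up s i = ue j ∨ vx (ft 1) up s i = le (j + 1))) ∧ ∀ k : ℤ, (∃ i, 2 < i ∧ i ≤ s.length ∧
      (vx (ft 1) up s i = ue k ∨ vx (ft 1) up s i = le (k + 1))) → k ≤ j := by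
    apply Int.exists_greatest_of_bdd
    · refine ⟨-1, ?_⟩
      rintro z ⟨i, h1, h2, h3 | h3⟩
      · have h4 := hout i h1 h2
        rw [h3, ue_mem_OO] at h4
        omega
      · have h4 := hout i h1 h2
        rw [h3, le_mem_OO] at h4
        omega
    · obtain ⟨i, h1, h2, h3⟩ := hx
      obtain ⟨k, h4 | h4⟩ := row_one (hmem i (by omega) h2) h3
      · exact ⟨k, i, h1, h2, Or.inl h4⟩
      · exact ⟨k - 1, i, h1, h2, Or.inr (by rw [h4]; congr 1; ring)⟩
  have hM : Mx s j := by
    intro i h1 h2 k
    refine ⟨fun h => hmax k ⟨i, h1, h2, Or.inl h⟩, fun h => ?_⟩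
    have := hmax (k - 1) ⟨i, h1, h2, Or.inr (by rw [h]; congr 1; ring)⟩
    omega
  have hj : j ≤ -1 := by
    have h4 := hout i0 hi0 hi0s
    rcases hi0v with h | h
    · rw [h, ue_mem_OO] at h4
      omega
    · rw [h, le_mem_OO] at h4
      omega
  have hnu : ∀ i, 2 ≤ i → i ≤ s.length → vx (ft 1) up s i ≠ ue (j + 1) := by
    intro i h1 h2 h3
    rcases Nat.lt_or_ge 2 i with h4 | h4
    · have := (hM i h4 h2 (j + 1)).1 h3
      omega
    · have h5 : i = 2 := by omega
      rw [h5, v2] at h3
      exact ue_ne_le _ _ h3.symm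
  -- the vertex ue j
  obtain ⟨i, hi, his, hiv⟩ : ∃ i, 2 < i ∧ i < s.length ∧ vx (ft 1) up s i = ue j := by
    rcases hi0v with h | h
    · exact ⟨i0, hi0, hlast i0 hi0 hi0s (by rw [h, lv_ue]; norm_num), h⟩
    · have h1 := hlast i0 hi0 hi0s (by rw [h, lv_le])
      obtain ⟨p, rfl⟩ : ∃ p, i0 = p + 1 := ⟨i0 - 1, by omega⟩
      have e : j + 1 - 1 = j := by ring
      have h2 := nbp_le p (j + 1) (by omega) (by omega) h
      have h3 := nbs_le (p + 1) (j + 1) (by omega) (by omega) h
      rw [e] at h2 h3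
      rcases h2 with h2 | h2 | h2
      · rcases h3 with h3 | h3 | h3
        · exact absurd (h2.trans h3.symm) (hsw.inj p (p + 1 + 1) (by omega) (by omega))
        · exact ⟨p + 1 + 1, by omega, hlast _ (by omega) (by omega) (by rw [h3, lv_ue]; norm_num), h3⟩
        · exact absurd h3 (hnu _ (by omega) (by omega))
      · refine ⟨p, ?_, by omega, h2⟩
        rcases Nat.lt_or_ge 2 p with h4 | h4
        · exact h4
        · have h5 : p = 2 := by omega
          rw [h5, v2] at h2
          exact absurd h2.symm (ue_ne_le _ _)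
      · exact absurd h2 (hnu _ (by omega) (by omega))
  obtain ⟨p, rfl⟩ : ∃ p, i = p + 1 := ⟨i - 1, by omega⟩
  have hp := nbp_ue p j (by omega) (by omega) hiv
  have hq := nbs_ue (p + 1) j (by omega) (by omega) hiv
  have hp2 : 2 < p := by
    rcases Nat.lt_or_ge 2 p with h4 | h4
    · exact h4
    · have h5 : p = 2 := by omega
      rw [h5, v2] at hp
      rcases hp with h | h
      · have := le_inj' h
        omega
      · have := le_inj' h
        omega
  rcases hp with hp | hp
  · -- from the left: impossible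
    exfalso
    rcases hq with hq | hq
    · exact hsw.inj p (p + 1 + 1) (by omega) (by omega) (hp.trans hq.symm)
    · have h1 := hlast (p + 1 + 1) (by omega) (by omega) (by rw [hq, lv_le])
      have h3 := nbs_le (p + 1 + 1) (j + 1) (by omega) (by omega) hq
      have e : j + 1 - 1 = j := by ring
      rw [e] at h3
      rcases h3 with h3 | h3 | h3
      · exact no_right hs hj hM (m := p) (by omega) (by omega) hp hiv hq h3
      · exact hsw.inj (p + 1) (p + 1 + 1 + 1) (by omega) (by omega) (hiv.trans h3.symm)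
      · exact hnu _ (by omega) (by omega) h3
  · rcases hq with hq | hq
    swap
    · exact absurd (hp.trans hq.symm) (hsw.inj p (p + 1 + 1) (by omega) (by omega))
    obtain ⟨m, rfl⟩ : ∃ m, p = m + 1 := ⟨p - 1, by omega⟩
    have h2 := nbp_le m (j + 1) (by omega) (by omega) hp
    have e : j + 1 - 1 = j := by ring
    rw [e] at h2
    have hm : vx (ft 1) up s m = le (j + 1) + up := by
      rcases h2 with h2 | h2 | h2
      · exact h2
      · exact absurd (h2.trans hiv.symm) (hsw.inj m (m + 1 + 1) (by omega) (by omega))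
      · exact absurd h2 (hnu _ (by omega) (by omega))
    have d0 : dx up s m = -up := by
      have h := vx_succ (ft 1) up s m
      rw [hm, hp] at h
      have h3 : le (j + 1) + (up + dx up s m) = le (j + 1) + 0 := by
        rw [← add_assoc, ← h, add_zero]
      exact eq_neg_of_add_eq_zero_right (add_left_cancel h3)
    have d1 : dx up s (m + 1) = (-1, 0) := by
      have h := vx_succ (ft 1) up s (m + 1)
      rw [hp, hiv] at h
      have h2 : dx up s (m + 1) = ue j - le (j + 1) := by
        rw [h]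
        abel
      rw [h2]
      unfold ue le
      rw [Prod.mk_sub_mk]
      congr 1 <;> ring
    have d2 : dx up s (m + 2) = (-1, 1) := by
      have h := vx_succ (ft 1) up s (m + 2)
      have e1 : m + 2 + 1 = m + 1 + 1 + 1 := rfl
      have e2 : m + 2 = m + 1 + 1 := rfl
      rw [e1, hq, e2, hiv] at h
      have h2 : dx up s (m + 2) = le j - ue j := by
        rw [h, e2]
        abel
      rw [h2]
      unfold ue le
      rw [Prod.mk_sub_mk]
      congr 1 <;> ring
    have t0 : tf s m = false := by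
      have h := dx_succ up s m
      rw [d0, d1] at h
      rcases Bool.eq_false_or_eq_true (tf s m) with hb | hb
      · rw [hb] at h
        exact absurd h (by decide)
      · exact hb
    have t1 : tf s (m + 1) = false := by
      have h := dx_succ up s (m + 1)
      rw [d1, d2] at h
      rcases Bool.eq_false_or_eq_true (tf s (m + 1)) with hb | hb
      · rw [hb] at h
        exact absurd h (by decide)
      · exact hb
    have hcut := cut_two (s := s) (m := m) (by omega)
    rw [t0, t1] at hcut
    obtain ⟨a, ha⟩ : ∃ a, a = s.take m := ⟨_, rfl⟩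
    obtain ⟨c, hc⟩ : ∃ c, c = s.drop (m + 2) := ⟨_, rfl⟩
    rw [← ha, ← hc] at hcut
    have hal : a.length = m := by
      rw [ha, List.length_take]
      omega
    obtain ⟨a1, ha1⟩ : ∃ a1, a = [true, false] ++ a1 := by
      have h3 := hA.pre
      rw [pre1] at h3
      obtain ⟨r, hr⟩ := h3
      obtain ⟨q, hq'⟩ : ∃ q, m = q + 2 := ⟨m - 2, by omega⟩
      refine ⟨r.take q, ?_⟩
      rw [ha, ← hr, hq']
      rfl
    have had : dx up a a.length = -up := by
      have h : dx up s m = dx up a m := by
        rw [hcut, dx_append (by omega)]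
      rw [hal, ← h, d0]
    have hat : tip (ft 1) up a = le (j + 1) := by
      have h : vx (ft 1) up s (m + 1) = vx (ft 1) up a (m + 1) := by
        rw [hcut, vx_append (by omega)]
      unfold tip
      rw [hal, ← h, hp]
    rw [ha1] at had hat
    obtain ⟨r1, r2⟩ := rev_tip hat had
    have e5 : 2 - (j + 1) = 1 - j := by ring
    rw [e5] at r1
    refine ⟨rev a1, c, j, hj, ?_, r1, r2, hM⟩
    unfold gl
    rw [rev_rev, hcut, ha1, List.append_assoc]

/-! generating functions -/

lemma gf_image {P : Set (List Bool)} (f : List Bool → List Bool) (hf : Set.InjOn f P) (c : ℝ≥0∞)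
    (hw : ∀ t ∈ P, wE (f t) = c * wE t) : gf (f '' P) = c * gf P := by
  unfold gf
  rw [← (Equiv.Set.imageOfInjOn f P hf).tsum_eq, ← ENNReal.tsum_mul_left]
  apply tsum_congr
  intro t
  exact hw t t.2

lemma le_add_St {T : ℕ} {v : Pt} (hv : 0 < lv v) : le 1 + v ∈ St (T + 1) ↔ v ∈ St T := by
  have e : lv (le 1 + v) = 3 + lv v := by
    rw [Far.lv_add, lv_le]
  rw [mem_St', mem_St', e]
  push_cast
  omega

/-- the walks that do not come back to the first row. -/
def PA (T : ℕ) : Set (List Bool) :=
  {s | s ∈ BrA (St (T + 1)) ∅ 1 ∧ ∀ i, 2 < i → i ≤ s.length → 3 < lv (vx (ft 1) up s i)}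

/-- the other ones. -/
def PB (T : ℕ) : Set (List Bool) :=
  {s | s ∈ BrA (St (T + 1)) ∅ 1 ∧ ∃ i, 2 < i ∧ i ≤ s.length ∧ lv (vx (ft 1) up s i) ≤ 3}

lemma lv_tip {T : ℕ} {a : List Bool} (hs : Saw (St T) oo up a) (hd : dx up a a.length = up) :
    0 < lv (tip oo up a) := by
  have h2 : tip oo up a = vx oo up a a.length + up := by
    rw [tip_eq, hd]
  have h3 : 0 ≤ lv (vx oo up a a.length) := by
    rcases Nat.eq_zero_or_pos a.length with h | h
    · rw [h]
      have e : vx oo up a 0 = 0 := rfl
      rw [e]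
      exact le_of_eq rfl
    · have := hs.mem _ h le_rfl
      rw [mem_St'] at this
      omega
  rw [h2, Far.lv_add]
  have e : lv up = 2 := by decide
  omega

lemma PA_eq (T : ℕ) : PA T = (fun a => [true, false] ++ a) '' (out (St T) oo up up) := by
  have hl : ∀ a : List Bool, ([true, false] ++ a).length = 2 + a.length := by
    intro a
    rw [List.length_append]
    rfl
  ext t
  constructor
  · rintro ⟨⟨⟨hs, htip, hup⟩, hA⟩, hlv⟩
    obtain ⟨a, ha⟩ := hA.pre
    rw [pre1] at ha
    subst ha
    have hm : ∀ i, 1 ≤ i → i ≤ a.length → vx oo up a i ∈ St T := by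
      intro i h1 h2
      have h3 := (hs.mem (2 + i) (by omega) (by rw [hl]; omega)).1
      have h4 := hlv (2 + i) (by omega) (by rw [hl]; omega)
      rw [Far.pre_vx] at h3 h4
      rw [Far.lv_add, lv_le] at h4
      exact (le_add_St (by omega)).1 h3
    have hsa : Saw (St T) oo up a := by
      refine ⟨hm, fun i k hik hk he => ?_⟩
      apply hs.inj (2 + i) (2 + k) (by omega) (by rw [hl]; omega)
      rw [Far.pre_vx, Far.pre_vx, he]
    have hda : dx up a a.length = up := by
      rw [hl, Far.pre_dx] at hup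
      exact hup
    refine ⟨a, ⟨hsa, ?_, hda⟩, rfl⟩
    intro h
    apply htip
    unfold tip at h ⊢
    rw [hl, add_assoc, Far.pre_vx]
    exact (le_add_St (lv_tip hsa hda)).2 h
  · rintro ⟨a, ⟨hs, htip, hup⟩, rfl⟩
    show [true, false] ++ a ∈ PA T
    have hlv : ∀ i, 1 ≤ i → i ≤ a.length → 0 < lv (vx oo up a i) := by
      intro i h1 h2
      have := hs.mem i h1 h2
      rw [mem_St'] at this
      exact this.2.1
    have hm : ∀ i, 1 ≤ i → i ≤ a.length → vx (ft 1) up ([true, false] ++ a) (2 + i) ∈ St (T + 1) := by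
      intro i h1 h2
      rw [Far.pre_vx]
      exact (le_add_St (hlv i h1 h2)).2 (hs.mem i h1 h2)
    have hl3 : ∀ i, 2 < i → i ≤ ([true, false] ++ a).length → 3 < lv (vx (ft 1) up ([true, false] ++ a) i) := by
      intro i h1 h2
      rw [hl] at h2
      obtain ⟨n, rfl⟩ : ∃ n, i = 2 + n := ⟨i - 2, by omega⟩
      rw [Far.pre_vx, Far.lv_add, lv_le]
      have := hlv n (by omega) (by omega)
      omega
    have u1 : vx (ft 1) up ([true, false] ++ a) 1 = ue 1 := Far.pre_one 1 a
    have u2 : vx (ft 1) up ([true, false] ++ a) 2 = le 1 := by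
      have := Far.pre_vx 1 a 0
      rw [add_zero] at this
      rw [this]
      exact add_zero (le 1)
    have hm' : ∀ k, 1 ≤ k → k ≤ 2 + a.length → vx (ft 1) up ([true, false] ++ a) k ∈ St (T + 1) := by
      intro k hk1 hk2
      rcases ix1 hk1 with rfl | rfl | ⟨n, rfl, hn1⟩
      · rw [u1]
        exact ue_St T 1
      · rw [u2]
        exact le_St T 1
      · exact hm n hn1 (by omega)
    refine ⟨⟨⟨⟨?_, ?_⟩, ?_, ?_⟩, ?_, ?_⟩, hl3⟩
    · intro i h1 h2
      rw [hl] at h2
      exact ⟨hm' i h1 h2, fun h => h⟩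
    · intro i k hik hk he
      rcases ix0 i with rfl | rfl | rfl | ⟨n, rfl, hn1⟩
      · have h3 := hm' k (by omega) (by rw [hl] at hk; omega)
        rw [← he] at h3
        exact ft_St _ _ h3
      · rw [u1] at he
        rcases ix2 hik with rfl | ⟨n, rfl, hn1⟩
        · rw [u2] at he
          exact ue_ne_le _ _ he
        · have h3 := hl3 (2 + n) (by omega) hk
          rw [← he, lv_ue] at h3
          omega
      · rw [u2] at he
        have h3 := hl3 k hik hk
        rw [← he, lv_le] at h3
        omega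
      · obtain ⟨m, rfl⟩ : ∃ m, k = 2 + m := ⟨k - 2, by omega⟩
        rw [Far.pre_vx, Far.pre_vx] at he
        rw [hl] at hk
        exact hs.inj n m (by omega) (by omega) (add_left_cancel he)
    · intro h
      apply htip
      unfold tip at h ⊢
      rw [hl, add_assoc, Far.pre_vx] at h
      exact (le_add_St (lv_tip hs hup)).1 h
    · rw [hl, Far.pre_dx]
      exact hup
    · rw [pre1]
      exact ⟨a, rfl⟩
    · intro i h1 h2 hO
      rw [pre1] at h1
      have h3 := hl3 i h1 h2
      have h4 := hO.1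
      omega

lemma gf_PA (T : ℕ) : gf (PA T) = ENNReal.ofReal (xc ^ 2) * BT T := by
  rw [PA_eq]
  exact gf_image _ (fun a _ b _ h => List.append_cancel_left h) _ (fun t _ => Far.wE_pre t)

/-- the pairs. -/
def PP2 (T : ℕ) : Set (List Bool × List Bool) :=
  {p | p.1 ∈ BrA (St (T + 1)) ∅ 0 ∧ p.2 ∈ LdR (St (T + 1)) (∅ ∪ vis (ft 0) up p.1) 1}

lemma RR_pairs (T : ℕ) : RR T = ∑' p : PP2 T, wE (p : List Bool × List Bool).1 * wE (p : List Bool × List Bool).2 := by
  have h1 : RR T = ∑' (s : List Bool) (u : List Bool), (PP2 T).indicator (fun p => wE p.1 * wE p.2) (s, u) := by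
    unfold RR overA
    apply tsum_congr
    intro s
    by_cases hs : s ∈ BrA (St (T + 1)) ∅ 0
    · rw [Set.indicator_of_mem hs]
      show wE s * gf (LdR (St (T + 1)) (∅ ∪ vis (ft 0) up s) 1) = _
      rw [HexW.gf_indicator, ← ENNReal.tsum_mul_left]
      apply tsum_congr
      intro u
      by_cases hu : u ∈ LdR (St (T + 1)) (∅ ∪ vis (ft 0) up s) 1
      · have h2 : (s, u) ∈ PP2 T := ⟨hs, hu⟩
        rw [Set.indicator_of_mem hu, Set.indicator_of_mem h2]
      · have h2 : (s, u) ∉ PP2 T := fun h => hu h.2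
        rw [Set.indicator_of_notMem hu, Set.indicator_of_notMem h2, mul_zero]
    · rw [Set.indicator_of_notMem hs]
      symm
      rw [ENNReal.tsum_eq_zero]
      intro u
      have h2 : (s, u) ∉ PP2 T := fun h => hs h.1
      rw [Set.indicator_of_notMem h2]
  rw [h1, ← ENNReal.tsum_prod (f := fun s u => (PP2 T).indicator (fun p => wE p.1 * wE p.2) (s, u))]
  exact (tsum_subtype (PP2 T) (fun p => wE p.1 * wE p.2)).symm

/-- gluing, as a map. -/
def GG2 (p : List Bool × List Bool) : List Bool := gl (p.2.drop 2) (p.1.drop 1)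

lemma form {T : ℕ} {p : List Bool × List Bool} (hp : p ∈ PP2 T) : ∃ (w c : List Bool) (j : ℤ), j ≤ -1 ∧
    p = (true :: c, [true, false] ++ w) ∧ true :: c ∈ BrA (St (T + 1)) ∅ 0 ∧
    [true, false] ++ w ∈ Ld (St (T + 1)) (∅ ∪ vis (ft 0) up (true :: c)) 1 (1 - j) := by
  obtain ⟨s, u⟩ := p
  obtain ⟨h1, J, hJ, h2⟩ := hp
  obtain ⟨c, hc⟩ := h1.2.pre
  obtain ⟨w, hw⟩ := h2.2.1.pre
  rw [pre0] at hc
  rw [pre1] at hw
  have hc' : true :: c = s := hc
  subst hc'
  have hw' : [true, false] ++ w = u := hw
  subst hw'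
  refine ⟨w, c, 1 - J, by omega, rfl, h1, ?_⟩
  have e : 1 - (1 - J) = J := by ring
  rw [e]
  exact h2

lemma GG2_form (w c : List Bool) : GG2 (true :: c, [true, false] ++ w) = gl w c := rfl

lemma bij {T : ℕ} (hT : 1 ≤ T) : Set.BijOn GG2 (PP2 T) (PB T) := by
  have hue : ∀ (w c : List Bool) (j : ℤ), Dic w c j → vx (ft 1) up (gl w c) (w.length + 4) = ue j := by
    intro w c j hD
    have h := hD.d3 0
    have e6 : vx (ft 0) up (true :: c) (1 + 0) = ue 0 := by
      show ft 0 + up = ue 0
      rw [ft_eq]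
      decide
    rw [e6, ue_shp, zero_add] at h
    exact h
  refine ⟨?_, ?_, ?_⟩
  · intro p hp
    obtain ⟨w, c, j, hj, rfl, h1, h2⟩ := form hp
    obtain ⟨g1, g2⟩ := glue hj h1 h2
    have hD := dic (c := c) h2.2.2.1 h2.2.2.2
    rw [GG2_form]
    refine ⟨g1, w.length + 3, by omega, ?_, ?_⟩
    · rw [gl_len]
      omega
    · rw [hD.d2, lv_le]
  · intro p hp q hq he
    obtain ⟨w, c, j, hj, rfl, h1, h2⟩ := form hp
    obtain ⟨w', c', j', hj', rfl, h1', h2'⟩ := form hq
    obtain ⟨g1, g2⟩ := glue hj h1 h2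
    obtain ⟨g1', g2'⟩ := glue hj' h1' h2'
    have hD := dic (c := c) h2.2.2.1 h2.2.2.2
    have hD' := dic (c := c') h2'.2.2.1 h2'.2.2.2
    rw [GG2_form, GG2_form] at he
    have l1 := gl_len w c
    have l2 := gl_len w' c'
    have u1 := hue w c j hD
    have u2 := hue w' c' j' hD'
    have j1 : j' ≤ j := by
      apply (g2 (w'.length + 4) (by omega) (by rw [he]; omega) j').1
      rw [he]
      exact u2
    have j2 : j ≤ j' := by
      apply (g2' (w.length + 4) (by omega) (by rw [← he]; omega) j).1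
      rw [← he]
      exact u1
    have j3 : j = j' := le_antisymm j2 j1
    subst j3
    have hw : w.length = w'.length := by
      rw [← he] at u2
      rcases lt_trichotomy w.length w'.length with h | h | h
      · exact absurd (u1.trans u2.symm) (g1.1.1.inj _ _ (by omega) (by rw [he]; omega))
      · exact h
      · exact absurd (u2.trans u1.symm) (g1.1.1.inj _ _ (by omega) (by omega))
    unfold gl at he
    have he2 := List.append_cancel_left he
    obtain ⟨e1, e2⟩ := List.append_inj he2 (by rw [rev_length, rev_length, hw])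
    have e3 : w = w' := by
      have := congrArg rev e1
      rwa [rev_rev, rev_rev] at this
    have e4 : c = c' := by
      simpa using e2
    rw [e3, e4]
  · intro s hs
    obtain ⟨w, c, j, hj, rfl, h1, h2, h3⟩ := decomp hT hs.1 hs.2
    have hD := dic (c := c) h1 h2
    refine ⟨(true :: c, [true, false] ++ w), ⟨split_a hD hs.1 h3, 1 - j, by omega, split_b h1 h2 hs.1 h3⟩, rfl⟩

lemma gf_PB {T : ℕ} (hT : 1 ≤ T) : gf (PB T) = ENNReal.ofReal xc * RR T := by
  rw [RR_pairs]
  unfold gf
  rw [← ((bij hT).equiv GG2).tsum_eq, ← ENNReal.tsum_mul_left]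
  apply tsum_congr
  rintro ⟨p, hp⟩
  obtain ⟨w, c, j, hj, rfl, h1, h2⟩ := form hp
  show wE (GG2 (true :: c, [true, false] ++ w)) = ENNReal.ofReal xc * (wE (true :: c) * wE ([true, false] ++ w))
  rw [GG2_form]
  unfold wE
  rw [← ENNReal.ofReal_mul (pow_nonneg xc_pos.le _), ← ENNReal.ofReal_mul xc_pos.le, gl_len, ← pow_add, ← pow_succ']
  congr 2
  simp only [List.length_append, List.length_cons, List.length_nil]
  omega

end FA

open FA

/-- M6: walks from the vertical edge. -/
theorem four_a {T : ℕ} (hT : 1 ≤ T) : ZZ T = ENNReal.ofReal (xc ^ 2) * BT T + ENNReal.ofReal xc * RR T := by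
  have h1 : BrA (St (T + 1)) ∅ 1 = PA T ∪ PB T := by
    ext s
    constructor
    · intro h
      by_cases hx : ∃ i, 2 < i ∧ i ≤ s.length ∧ lv (vx (ft 1) up s i) ≤ 3
      · exact Or.inr ⟨h, hx⟩
      · left
        refine ⟨h, fun i h1 h2 => ?_⟩
        by_contra h3
        exact hx ⟨i, h1, h2, by omega⟩
    · rintro (h | h)
      · exact h.1
      · exact h.1
  have h2 : Disjoint (PA T) (PB T) := by
    rw [Set.disjoint_left]
    rintro s ⟨_, ha⟩ ⟨_, i, h3, h4, h5⟩
    have := ha i h3 h4
    omega
  unfold ZZ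
  rw [h1, gf_union h2, gf_PA, gf_PB hT]

end PG

end HexObs
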