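import Pool.Agent.HexPG.Defs

/-!
PG, M7: the bridges of the strip of T + 1 rows in terms of the walks of the step domain.
-/

set_option autoImplicit false

namespace HexObs

namespace PG

open SP Complex Finset ENNReal Filter Topology

/-! ### coordinates -/

private lemma m7_vx_cons (v d : Pt) (b : Bool) (t : List Bool) (i : ℕ) :
    vx v d (b :: t) (i + 1) = vx (v + d) (turn b d) t i := by
  have h := (vx_split v d [] b t i).1
  have e : ([] : List Bool) ++ ([b] ++ t) = b :: t := rfl
  rw [e] at h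
  have e2 : ([] : List Bool).length + 1 + i = i + 1 := by
    rw [List.length_nil]
    omega
  rw [e2] at h
  exact h

private lemma m7_dx_cons (d : Pt) (b : Bool) (t : List Bool) (i : ℕ) :
    dx d (b :: t) (i + 1) = dx (turn b d) t i := by
  have h := (vx_split oo d [] b t i).2
  have e : ([] : List Bool) ++ ([b] ++ t) = b :: t := rfl
  rw [e] at h
  have e2 : ([] : List Bool).length + 1 + i = i + 1 := by
    rw [List.length_nil]
    omega
  rw [e2] at h
  exact h

private lemma m7_ft_notMem {T : ℕ} (k : ℤ) : ft k ∉ St T := by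
  rw [mem_St', ft_eq]
  unfold lv
  simp only
  omega

private lemma m7_ft_ne {T : ℕ} {k : ℤ} {v : Pt} (hv : v ∈ St T) : ft k ≠ v :=
  fun h => m7_ft_notMem k (by rw [h]; exact hv)

private lemma m7_ue_mem (T : ℕ) (k : ℤ) : ue k ∈ St (T + 1) := by
  rw [mem_St', lv_ue]
  refine ⟨by norm_num, by norm_num, ?_⟩
  push_cast
  linarith

private lemma m7_le_mem (T : ℕ) (k : ℤ) : le k ∈ St (T + 1) := by
  rw [mem_St', lv_le]
  refine ⟨by norm_num, by norm_num, ?_⟩
  push_cast
  linarith

private lemma m7_ue_inj {j k : ℤ} (h : ue j = ue k) : j = k := by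
  have h1 := congrArg Prod.snd h
  unfold ue at h1
  simp only at h1
  omega

private lemma m7_ue_le {j k : ℤ} : ue j ≠ le k := by
  intro h
  have h1 := congrArg lv h
  rw [lv_ue, lv_le] at h1
  omega

/-- the translation by j feet. -/
private def sh (j : ℤ) : Pt := (2 * j, -j)

private lemma m7_ft_sh (k j : ℤ) : ft (k + j) = ft k + sh j := by
  rw [ft_eq, ft_eq]
  unfold sh
  rw [Prod.mk_add_mk]
  congr 1 <;> ring

private lemma m7_ue_sh (k j : ℤ) : ue (k + j) = ue k + sh j := by
  unfold sh ue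
  rw [Prod.mk_add_mk]
  congr 1 <;> ring

private lemma m7_le_sh (k j : ℤ) : le (k + j) = le k + sh j := by
  unfold sh le
  rw [Prod.mk_add_mk]
  congr 1 <;> ring

private lemma m7_lv_sh (v : Pt) (j : ℤ) : lv (v + sh j) = lv v := by
  unfold lv sh
  simp only [Prod.fst_add, Prod.snd_add]
  ring

private lemma m7_mem_sh {T : ℕ} {v : Pt} {j : ℤ} : v + sh j ∈ St T ↔ v ∈ St T := by
  rw [mem_St', mem_St', m7_lv_sh]

private lemma m7_vx_sh (k j : ℤ) (t : List Bool) (i : ℕ) : vx (ft (k + j)) up t i = vx (ft k) up t i + sh j := by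
  rw [m7_ft_sh, HexW.vx_trans]

/-! ### windings in the infinite strip -/

private lemma m7_fin {T : ℕ} {X : Set Pt} {k : ℤ} {t : List Bool} (h : Saw (St (T + 1) \ X) (ft k) up t) :
    ∃ n : ℕ, |k| < n ∧ Saw ((tz T n : Set Pt) \ X) (ft k) up t := by
  obtain ⟨L, hL⟩ := HexW.saw_trap' (v0 := oo) h
  refine ⟨L + k.natAbs + 1, by push_cast; omega, ?_⟩
  unfold tz
  rw [trapF_coe]
  exact hL.mono (Set.sdiff_subset_sdiff_left (trap_mono oo up (T + 1) (by omega)))

private lemma m7_tz_sub (T n : ℕ) : (tz T n : Set Pt) ⊆ St (T + 1) := fun _ hv => (mem_tz.1 (Finset.mem_coe.1 hv)).1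

private lemma m7_br {T : ℕ} {X : Set Pt} {k : ℤ} {t : List Bool} (h : t ∈ Br (St (T + 1)) X (ft k) up) :
    wind t = 0 := by
  obtain ⟨h1, h2, h3⟩ := h
  obtain ⟨n, hn, h4⟩ := m7_fin h1
  exact br_wind (tz_good hn) (s := t) (X := X) ⟨h4, fun h5 => h2 (m7_tz_sub T n h5), h3⟩

private lemma m7_dn {T : ℕ} {X : Set Pt} {k m : ℤ} {t : List Bool} (h : t ∈ Dn (St (T + 1)) X (ft k) up)
    (ht : tip (ft k) up t = ft m) (hkm : k < m) : wind t = -3 := by
  obtain ⟨h1, h2, h3⟩ := h
  obtain ⟨n, hn, h4⟩ := m7_fin h1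
  have hex : t ∈ exits (tz T n) (ft k) up := mem_exits.2 ⟨saw_arr h4, fun h5 => h2 (m7_tz_sub T n h5)⟩
  rcases (tz_good hn).bottom hex h3 with ⟨h5, h6⟩ | ⟨h5, h6⟩
  · exfalso
    rw [ht, ft_eq, ft_eq] at h5
    unfold cross up at h5
    simp only [Prod.mk_sub_mk] at h5
    omega
  · exact h6

private lemma m7_dn_adm {T : ℕ} {Y : Set Pt} {u : List Bool} (hu : u ∈ Dn (St (T + 1)) Y (ft 0) up)
    (hA : Adm 0 u) : ∃ j < 0, tip (ft 0) up u = ft j := by
  obtain ⟨h1, h2, h3⟩ := hu
  obtain ⟨n, hn, h4⟩ := m7_fin h1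
  exact dn_adm (tz_good hn) (Y := Y) ⟨h4, fun h5 => h2 (m7_tz_sub T n h5), h3⟩ hA

/-! ### gluing -/

/-- the glued walk. -/
private def Phi (p : List Bool × List Bool) : List Bool := rev p.2.tail ++ (true :: true :: p.1.drop 2)

private structure Gl (s u : List Bool) (j : ℤ) : Prop where
  j1 : 1 ≤ j
  sl : 2 ≤ s.length
  ul : 1 ≤ u.length
  len : (Phi (s, u)).length + 1 = u.length + s.length
  lo : ∀ i, i ≤ u.length → vx (ft 0) up (Phi (s, u)) i = vx (ft 0) up u (u.length + 1 - i) + sh j
  hi : ∀ k, vx (ft 0) up (Phi (s, u)) (u.length + 1 + k) = vx (ft 1) up s (2 + k) + sh j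
  dd : dx up (Phi (s, u)) (Phi (s, u)).length = dx up s s.length

private lemma m7_form1 {s : List Bool} (h : Adm 1 s) : ∃ c, s = true :: false :: c := by
  obtain ⟨c, hc⟩ := h.pre
  exact ⟨c, hc.symm⟩

private lemma m7_form0 {s : List Bool} (h : Adm 0 s) : ∃ c, s = true :: c := by
  obtain ⟨c, hc⟩ := h.pre
  exact ⟨c, hc.symm⟩

private lemma m7_vx2 (c : List Bool) (k : ℕ) : vx (ft 1) up (true :: false :: c) (2 + k) = vx (le 1) up c k := by
  have e : 2 + k = k + 1 + 1 := by omega
  rw [e, m7_vx_cons, m7_vx_cons, ft_eq]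
  have e1 : ((2 * 1, -1) : Pt) + up + turn true up = le 1 := by decide
  have e2 : turn false (turn true up) = up := by decide
  rw [e1, e2]

private lemma m7_glue {T : ℕ} {Y : Set Pt} {s u : List Bool} (hs : Adm 1 s) (hu : u ∈ Dn (St (T + 1)) Y (ft 0) up)
    (hA : Adm 0 u) : ∃ j, Gl s u j ∧ tip (ft 0) up u = ft (-j) := by
  obtain ⟨m, hm, ht⟩ := m7_dn_adm hu hA
  obtain ⟨c, rfl⟩ := m7_form1 hs
  obtain ⟨w, rfl⟩ := m7_form0 hA
  have hd := hu.2.2
  have e0 : ft 0 + up = ue 0 := by
    rw [ft_eq]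
    decide
  have e1 : turn true up = (-1, 1) := by decide
  have hu1 : ∀ i, vx (ft 0) up (true :: w) (i + 1) = vx (ue 0) (-1, 1) w i := by
    intro i
    rw [m7_vx_cons, e0, e1]
  have htip : tip (ue 0) (-1, 1) w = ft m := by
    rw [← ht]
    exact (hu1 (w.length + 1)).symm
  have hdw : dx (-1, 1) w w.length = -up := by
    rw [← e1, ← m7_dx_cons]
    exact hd
  have keyv : ∀ i, i ≤ w.length + 1 → vx (ft 0) up (rev w) i = vx (ue 0) (-1, 1) w (w.length + 1 - i) + sh (-m) := by
    intro i hi
    have h1 := vx_rev (ue 0) (-1, 1) w i hi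
    rw [htip, hdw, neg_neg] at h1
    rw [← h1, ← m7_vx_sh]
    congr 2
    ring
  have keyd : dx up (rev w) w.length = (1, -1) := by
    have h1 := dx_rev (-1, 1) w w.length le_rfl
    rw [hdw, neg_neg, Nat.sub_self] at h1
    rw [h1]
    show -((-1, 1) : Pt) = (1, -1)
    decide
  have hlr : (rev w).length = w.length := rev_length w
  have hPhi : Phi (true :: false :: c, true :: w) = rev w ++ ([true] ++ (true :: c)) := rfl
  have hul : (true :: w).length = w.length + 1 := rfl
  have hsl : (true :: false :: c).length = c.length + 2 := rfl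
  have hPl : (Phi (true :: false :: c, true :: w)).length = w.length + c.length + 2 := by
    rw [hPhi, List.length_append, hlr]
    show w.length + (c.length + 2) = _
    omega
  have htr : tip (ft 0) up (rev w) = ue (-m) := by
    unfold tip
    rw [hlr, keyv _ le_rfl, Nat.sub_self]
    show ue 0 + sh (-m) = _
    rw [← m7_ue_sh, zero_add]
  have e2 : turn true (1, -1) = (1, 0) := by decide
  have e3 : turn true (1, 0) = up := by decide
  have e4 : ue (-m) + (1, 0) = le 1 + sh (-m) := by
    unfold ue le sh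
    rw [Prod.mk_add_mk, Prod.mk_add_mk]
    congr 1 <;> ring
  have hsplit := fun k => vx_split (ft 0) up (rev w) true (true :: c) (k + 1)
  refine ⟨-m, ⟨by omega, by rw [hsl]; omega, by rw [hul]; omega, ?_, ?_, ?_, ?_⟩, by rw [neg_neg]; exact ht⟩
  · rw [hPl, hul, hsl]
    omega
  · intro i hi
    rw [hul] at hi ⊢
    have e5 : w.length + 1 + 1 - i = w.length + 1 - i + 1 := by omega
    rw [e5, hu1, hPhi, vx_append (by rw [hlr]; exact hi), keyv i hi]
  · intro k
    have e5 : (true :: w).length + 1 + k = (rev w).length + 1 + (k + 1) := by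
      rw [hul, hlr]
      omega
    rw [e5, hPhi, (hsplit k).1, htr, hlr, keyd, e2, m7_vx2]
    show vx (ue (-m)) (1, 0) (true :: c) (k + 1) = _
    rw [m7_vx_cons, e3, e4, HexW.vx_trans]
  · rw [hPl]
    have e5 : w.length + c.length + 2 = (rev w).length + 1 + (c.length + 1) := by
      rw [hlr]
      omega
    rw [e5, hPhi, (hsplit c.length).2, hlr, keyd, e2]
    show dx (1, 0) (true :: c) (c.length + 1) = _
    rw [m7_dx_cons, e3, hsl]
    have e6 : c.length + 2 = c.length + 1 + 1 := rfl
    rw [e6, m7_dx_cons, m7_dx_cons]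
    rfl

/-- the bridges that visit the vertex above a foot on the right of the start. -/
private def G3 (T : ℕ) : Set (List Bool) :=
  {g | g ∈ Br (St (T + 1)) ∅ (ft 0) up ∧ ∃ j : ℤ, 1 ≤ j ∧ ∃ i, 1 ≤ i ∧ i ≤ g.length ∧ vx (ft 0) up g i = ue j}

/-- the pairs. -/
private def SS (T : ℕ) : Set (List Bool × List Bool) :=
  {p | p.1 ∈ BrA (St (T + 1)) ∅ 1 ∧ p.2 ∈ DnA (St (T + 1)) (vis (ft 1) up p.1)}

private lemma m7_one (k : ℤ) (t : List Bool) : vx (ft k) up t 1 = ue k := by
  show ft k + up = ue k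
  rw [ft_eq]
  unfold up ue
  rw [Prod.mk_add_mk]
  congr 1 <;> ring

private lemma m7_Phi_mem {T : ℕ} {s u : List Bool} (hs : s ∈ BrA (St (T + 1)) ∅ 1)
    (hu : u ∈ DnA (St (T + 1)) (vis (ft 1) up s)) : Phi (s, u) ∈ G3 T := by
  obtain ⟨j, hg, ht⟩ := m7_glue hs.2 hu.1 hu.2
  obtain ⟨j1, sl, ul, len, lo, hi, dd⟩ := hg
  obtain ⟨⟨hs1, hs2, hs3⟩, hsA⟩ := hs
  obtain ⟨⟨hu1, hu2, hu3⟩, huA⟩ := hu
  set g := Phi (s, u) with hgdef
  have hmem : ∀ i, 1 ≤ i → i ≤ g.length → vx (ft 0) up g i ∈ St (T + 1) := by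
    intro i h1 h2
    rcases Nat.lt_or_ge u.length i with h3 | h3
    · obtain ⟨k, rfl⟩ := Nat.exists_eq_add_of_le (show u.length + 1 ≤ i by omega)
      rw [hi, m7_mem_sh]
      exact (hs1.mem _ (by omega) (by omega)).1
    · rw [lo i h3, m7_mem_sh]
      exact (hu1.mem _ (by omega) (by omega)).1
  refine ⟨⟨⟨fun i h1 h2 => ⟨hmem i h1 h2, fun h => h⟩, ?_⟩, ?_, ?_⟩, j, j1, u.length, ul, by omega, ?_⟩
  · intro i k hik hk
    rcases Nat.eq_zero_or_pos i with rfl | hi0
    · show ft 0 ≠ _
      exact m7_ft_ne (hmem k (by omega) hk)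
    · rcases Nat.lt_or_ge u.length k with h3 | h3
      · obtain ⟨k', rfl⟩ := Nat.exists_eq_add_of_le (show u.length + 1 ≤ k by omega)
        rw [hi]
        rcases Nat.lt_or_ge u.length i with h4 | h4
        · obtain ⟨i', rfl⟩ := Nat.exists_eq_add_of_le (show u.length + 1 ≤ i by omega)
          rw [hi]
          intro h
          exact hs1.inj (2 + i') (2 + k') (by omega) (by omega) (add_right_cancel h)
        · rw [lo i h4]
          intro h
          have h5 := (hu1.mem (u.length + 1 - i) (by omega) (by omega)).2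
          apply h5
          exact ⟨2 + k', by omega, by omega, (add_right_cancel h).symm⟩
      · rw [lo i (by omega), lo k h3]
        intro h
        exact hu1.inj (u.length + 1 - k) (u.length + 1 - i) (by omega) (by omega) (add_right_cancel h).symm
  · unfold tip
    have e : g.length + 1 = u.length + 1 + (s.length - 1) := by omega
    rw [e, hi, m7_mem_sh]
    have e2 : 2 + (s.length - 1) = s.length + 1 := by omega
    rw [e2]
    exact hs2
  · rw [dd]
    exact hs3
  · have e : u.length + 1 - u.length = 1 := by omega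
    rw [lo _ le_rfl, e, m7_one, ← m7_ue_sh, zero_add]

private lemma m7_only {T : ℕ} {s u : List Bool} (hs : s ∈ BrA (St (T + 1)) ∅ 1)
    (hu : u ∈ DnA (St (T + 1)) (vis (ft 1) up s)) {j m : ℤ} (hg : Gl s u j) (hm : j ≤ m) {i : ℕ} (h1 : 1 ≤ i)
    (h2 : i ≤ (Phi (s, u)).length) (he : vx (ft 0) up (Phi (s, u)) i = ue m) : m = j ∧ i = u.length := by
  obtain ⟨j1, sl, ul, len, lo, hi, dd⟩ := hg
  have hmj : ue m = ue (m - j) + sh j := by
    rw [← m7_ue_sh, sub_add_cancel]
  rcases Nat.lt_or_ge u.length i with h3 | h3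
  · exfalso
    obtain ⟨k, rfl⟩ := Nat.exists_eq_add_of_le (show u.length + 1 ≤ i by omega)
    rw [hi, hmj] at he
    have he' := add_right_cancel he
    rcases Nat.eq_zero_or_pos k with rfl | hk
    · have h4 := (adm_vx hs.2).2.1
      rw [add_zero, h4] at he'
      exact m7_ue_le he'.symm
    · have h4 := hs.2.out (2 + k) (by
        show 2 < 2 + k
        omega) (by omega)
      rw [he'] at h4
      exact h4 (ue_mem_OO.2 (by omega))
  · rw [lo i h3, hmj] at he
    have he' := add_right_cancel he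
    rcases Nat.lt_or_ge i u.length with h5 | h5
    · exfalso
      have h4 := hu.2.out (u.length + 1 - i) (by
        show 1 < u.length + 1 - i
        omega) (by omega)
      rw [he'] at h4
      exact h4 (ue_mem_OO.2 (by omega))
    · have h6 : i = u.length := by omega
      refine ⟨?_, h6⟩
      subst h6
      have e : u.length + 1 - u.length = 1 := by omega
      rw [e, m7_one] at he'
      have := m7_ue_inj he'
      omega

private lemma m7_at {s u : List Bool} {j : ℤ} (hg : Gl s u j) : vx (ft 0) up (Phi (s, u)) u.length = ue j := by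
  have e : u.length + 1 - u.length = 1 := by omega
  rw [hg.lo _ le_rfl, e, m7_one, ← m7_ue_sh, zero_add]

private lemma m7_len_eq {T : ℕ} {s u s' u' : List Bool} (hs : s ∈ BrA (St (T + 1)) ∅ 1)
    (hu : u ∈ DnA (St (T + 1)) (vis (ft 1) up s)) (hs' : s' ∈ BrA (St (T + 1)) ∅ 1)
    (hu' : u' ∈ DnA (St (T + 1)) (vis (ft 1) up s')) (h : Phi (s, u) = Phi (s', u')) : u.length = u'.length := by
  obtain ⟨j, hg, -⟩ := m7_glue hs.2 hu.1 hu.2
  obtain ⟨j', hg', -⟩ := m7_glue hs'.2 hu'.1 hu'.2
  have b1 := hg.len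
  have b2 := hg.sl
  have b3 := hg.ul
  have b1' := hg'.len
  have b2' := hg'.sl
  have b3' := hg'.ul
  rcases le_total j j' with h1 | h1
  · have h2 := m7_at hg'
    rw [← h] at h2
    rw [← h] at b1'
    exact (m7_only hs hu hg h1 b3' (by omega) h2).2.symm
  · have h2 := m7_at hg
    rw [h] at h2
    rw [h] at b1
    exact (m7_only hs' hu' hg' h1 b3 (by omega) h2).2

private lemma m7_Phi_inj {T : ℕ} {s u s' u' : List Bool} (hs : s ∈ BrA (St (T + 1)) ∅ 1)
    (hu : u ∈ DnA (St (T + 1)) (vis (ft 1) up s)) (hs' : s' ∈ BrA (St (T + 1)) ∅ 1)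
    (hu' : u' ∈ DnA (St (T + 1)) (vis (ft 1) up s')) (h : Phi (s, u) = Phi (s', u')) : s = s' ∧ u = u' := by
  have hl := m7_len_eq hs hu hs' hu' h
  obtain ⟨c, rfl⟩ := m7_form1 hs.2
  obtain ⟨w, rfl⟩ := m7_form0 hu.2
  obtain ⟨c', rfl⟩ := m7_form1 hs'.2
  obtain ⟨w', rfl⟩ := m7_form0 hu'.2
  have h1 : rev w ++ (true :: true :: c) = rev w' ++ (true :: true :: c') := h
  have h2 : (rev w).length = (rev w').length := by
    rw [rev_length, rev_length]
    simpa using hl
  obtain ⟨h3, h4⟩ := List.append_inj h1 h2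
  have h5 := congrArg rev h3
  rw [rev_rev, rev_rev] at h5
  simp only [List.cons.injEq, true_and] at h4
  rw [h4, h5]
  exact ⟨rfl, rfl⟩

private lemma m7_wE {s u : List Bool} {j : ℤ} (hg : Gl s u j) :
    wE (Phi (s, u)) = ENNReal.ofReal xc⁻¹ * (wE s * wE u) := by
  have hx := xc_pos
  unfold wE
  rw [← ENNReal.ofReal_mul (pow_nonneg hx.le _), ← ENNReal.ofReal_mul (inv_nonneg.2 hx.le)]
  congr 1
  rw [← pow_add, add_comm s.length, ← hg.len, pow_succ]
  field_simp

/-! ### cutting -/

private lemma m7_eq_of {T : ℕ} {g : List Bool} (hg : g ∈ Br (St (T + 1)) ∅ (ft 0) up) {p q : ℕ} (hp : p ≤ g.length)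
    (hq : q ≤ g.length) (h : vx (ft 0) up g p = vx (ft 0) up g q) : p = q := by
  rcases lt_trichotomy p q with h1 | h1 | h1
  · exact absurd h (hg.1.inj p q h1 hq)
  · exact h1
  · exact absurd h.symm (hg.1.inj q p h1 hp)

/-- a bridge passes le l together with one of the two neighbours below it. -/
private lemma m7_pass {T : ℕ} {g : List Bool} (hg : g ∈ Br (St (T + 1)) ∅ (ft 0) up) {l : ℤ} {p : ℕ} (h1 : 1 ≤ p)
    (h2 : p ≤ g.length) (hp : vx (ft 0) up g p = le l) : ∃ q, 1 ≤ q ∧ q ≤ g.length ∧ (q + 1 = p ∨ q = p + 1) ∧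
      (vx (ft 0) up g q = ue (l - 1) ∨ vx (ft 0) up g q = ue l) := by
  have hp1 : p ≠ 1 := by
    rintro rfl
    rw [m7_one] at hp
    exact m7_ue_le hp
  obtain ⟨r, rfl⟩ : ∃ r, p = r + 1 := ⟨p - 1, by omega⟩
  have hr := (hg.1.mem r (by omega) (by omega)).1
  have hstep := vx_succ (ft 0) up g r
  rw [hp] at hstep
  rcases nbr_le hr (dx up g r) (dx_mem HexW.up_mem g r) hstep.symm with h3 | h3 | h3
  · have hd : dx up g r = -up := by
      rw [h3, add_assoc] at hstep
      have h4 : up + dx up g r = 0 := by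
        have h5 : le l + 0 = le l + (up + dx up g r) := by
          rw [add_zero]
          exact hstep
        exact (add_left_cancel h5).symm
      exact (neg_eq_of_add_eq_zero_right h4).symm
    have hd2 := dx_succ up g r
    rw [hd] at hd2
    have hlt : r + 1 < g.length := by
      by_contra h4
      have h5 : g.length = r + 1 := by omega
      have h6 := hg.2.2
      rw [h5, hd2] at h6
      revert h6
      cases tf g r <;> decide
    have hs2 := vx_succ (ft 0) up g (r + 1)
    rw [hp, hd2] at hs2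
    refine ⟨r + 1 + 1, by omega, by omega, Or.inr rfl, ?_⟩
    rw [hs2]
    cases tf g r
    · left
      have e : turn false (-up) = (-1, 0) := by decide
      rw [e]
      unfold le ue
      rw [Prod.mk_add_mk]
      congr 1 <;> ring
    · right
      have e : turn true (-up) = (1, -1) := by decide
      rw [e]
      unfold le ue
      rw [Prod.mk_add_mk]
      congr 1 <;> ring
  · exact ⟨r, by omega, by omega, Or.inl rfl, Or.inl h3⟩
  · exact ⟨r, by omega, by omega, Or.inl rfl, Or.inr h3⟩

/-- the direction after ue j. -/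
private lemma m7_no_down {T : ℕ} {g : List Bool} (hg : g ∈ Br (St (T + 1)) ∅ (ft 0) up) {j : ℤ} {i : ℕ}
    (h2 : i ≤ g.length) (hi : vx (ft 0) up g i = ue j) : dx up g i ≠ -up := by
  intro h
  rcases Nat.lt_or_ge i g.length with h3 | h3
  · have h4 := (hg.1.mem (i + 1) (by omega) (by omega)).1
    rw [vx_succ, hi, h] at h4
    have e : ue j + -up = ft j := by
      rw [ft_eq]
      unfold ue up
      rw [Prod.neg_mk, Prod.mk_add_mk]
      congr 1 <;> ring
    rw [e] at h4
    exact m7_ft_notMem j h4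
  · have h4 := hg.2.2
    have h5 : g.length = i := by omega
    rw [h5, h] at h4
    exact up_ne_neg h4.symm

/-- the walk cannot pass ue j from the right to the left. -/
private lemma m7_windings {T : ℕ} {g : List Bool} (hg : g ∈ Br (St (T + 1)) ∅ (ft 0) up) {j : ℤ} (hj : 1 ≤ j) {i : ℕ}
    (h1 : 1 ≤ i) (h2 : i < g.length) (hi : vx (ft 0) up g i = ue j) {r : ℕ} (hr : i = r + 1)
    (hd : dx up g r = (-1, 0)) (hd2 : dx up g i = (-1, 1)) : False := by
  obtain ⟨⟨hm, hinj⟩, htip, hup⟩ := hg
  -- the walk that leaves at the foot j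
  have hlt : (g.take r).length = r := by
    rw [List.length_take]
    omega
  have hgc : ∀ n, g = g.take n ++ g.drop n := fun n => (List.take_append_drop n g).symm
  have hv1 : ∀ p, p ≤ i → vx (ft 0) up (g.take r ++ [true]) p = vx (ft 0) up g p := by
    intro p hp
    rw [vx_append (by rw [hlt]; omega)]
    conv_rhs => rw [hgc r]
    rw [vx_append (by rw [hlt]; omega)]
  have hd1 : dx up (g.take r ++ [true]) r = (-1, 0) := by
    rw [dx_append (by rw [hlt]), ← hd]
    conv_rhs => rw [hgc r]
    rw [dx_append (by rw [hlt])]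
  have htf : tf (g.take r ++ [true]) r = true := by
    have h3 := tf_append_right (t := g.take r) (s := [true]) 0
    rw [hlt, add_zero] at h3
    rw [h3]
    rfl
  have hd1' : dx up (g.take r ++ [true]) i = -up := by
    rw [hr, dx_succ, hd1, htf]
    decide
  have hl1 : (g.take r ++ [true]).length = i := by
    rw [List.length_append, hlt, List.length_singleton, hr]
  have ht1 : tip (ft 0) up (g.take r ++ [true]) = ft j := by
    unfold tip
    rw [hl1, vx_succ, hv1 i le_rfl, hi, hd1', ft_eq]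
    unfold ue up
    rw [Prod.neg_mk, Prod.mk_add_mk]
    congr 1 <;> ring
  have w1 : wind (g.take r ++ [true]) = -3 := by
    refine m7_dn (T := T) (X := ∅) (k := 0) (m := j) ⟨⟨fun p h3 h4 => ?_, fun p q h3 h4 => ?_⟩, ?_, ?_⟩ ht1 (by omega)
    · rw [hl1] at h4
      rw [hv1 p h4]
      exact hm p h3 (by omega)
    · rw [hl1] at h4
      rw [hv1 p (by omega), hv1 q h4]
      exact hinj p q h3 (by omega)
    · rw [ht1]
      exact m7_ft_notMem j
    · rw [hl1]
      exact hd1'
  -- the rest is a bridge from the foot j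
  have hgi : ∀ k, vx (ft j) up (true :: g.drop i) (k + 1) = vx (ft 0) up g (i + k) := by
    intro k
    rw [m7_vx_cons]
    have e1 : ft j + up = ue j := m7_one j []
    have e2 : turn true up = (-1, 1) := by decide
    rw [e1, e2]
    have h3 := vs_shift (ft 0) up (tf g) i k
    have h4 : vs (ft 0) up (tf g) i = ue j := hi
    have h5 : ds up (tf g) i = (-1, 1) := hd2
    rw [h4, h5] at h3
    show vs (ue j) (-1, 1) (tf (g.drop i)) k = vs (ft 0) up (tf g) (i + k)
    rw [h3]
    congr 1
    funext n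
    unfold tf
    simp only [List.getD_eq_getElem?_getD, List.getElem?_drop]
  have hgd : ∀ k, dx up (true :: g.drop i) (k + 1) = dx up g (i + k) := by
    intro k
    rw [m7_dx_cons]
    have e2 : turn true up = (-1, 1) := by decide
    rw [e2]
    have h3 := ds_shift up (tf g) i k
    have h5 : ds up (tf g) i = (-1, 1) := hd2
    rw [h5] at h3
    show ds (-1, 1) (tf (g.drop i)) k = ds up (tf g) (i + k)
    rw [h3]
    congr 1
    funext n
    unfold tf
    simp only [List.getD_eq_getElem?_getD, List.getElem?_drop]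
  have hl2 : (true :: g.drop i).length = g.length - i + 1 := by
    rw [List.length_cons, List.length_drop]
  have w2 : wind (true :: g.drop i) = 0 := by
    refine m7_br (T := T) (X := ∅) (k := j) ⟨⟨fun p h3 h4 => ?_, fun p q h3 h4 => ?_⟩, ?_, ?_⟩
    · rw [hl2] at h4
      obtain ⟨k, rfl⟩ : ∃ k, p = k + 1 := ⟨p - 1, by omega⟩
      rw [hgi]
      exact hm _ (by omega) (by omega)
    · rw [hl2] at h4
      obtain ⟨k, rfl⟩ : ∃ k, q = k + 1 := ⟨q - 1, by omega⟩
      rw [hgi]
      rcases Nat.eq_zero_or_pos p with rfl | hp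
      · show ft j ≠ _
        exact m7_ft_ne (hm _ (by omega) (by omega)).1
      · obtain ⟨k', rfl⟩ : ∃ k', p = k' + 1 := ⟨p - 1, by omega⟩
        rw [hgi]
        exact hinj _ _ (by omega) (by omega)
    · unfold tip
      rw [hl2, hgi]
      have e : i + (g.length - i + 1) = g.length + 1 := by omega
      rw [e]
      exact htip
    · rw [hl2, hgd]
      have e : i + (g.length - i) = g.length := by omega
      rw [e]
      exact hup
  have w0 : wind g = 0 := m7_br (T := T) (X := ∅) (k := 0) ⟨⟨hm, hinj⟩, htip, hup⟩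
  -- the letter number r
  have hb : tf g r = false := by
    have h3 := dx_succ up g r
    rw [← hr, hd2, hd] at h3
    revert h3
    cases tf g r <;> decide
  have hgr : g = g.take r ++ (tf g r :: g.drop i) := by
    have h3 : r < g.length := by omega
    have h4 : g.drop r = g[r] :: g.drop (r + 1) := List.drop_eq_getElem_cons h3
    have h5 : tf g r = g[r] := by
      unfold tf
      rw [List.getD_eq_getElem _ _ h3]
    rw [h5, hr, ← h4]
    exact hgc r
  rw [hgr, hb, wind_append] at w0
  rw [wind_append] at w1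
  have e1 : wind (false :: g.drop i) = -1 + wind (g.drop i) := wind_cons false (g.drop i)
  have e2 : wind (true :: g.drop i) = 1 + wind (g.drop i) := wind_cons true (g.drop i)
  have e3 : wind [true] = 1 := rfl
  rw [e1] at w0
  rw [e2] at w2
  rw [e3] at w1
  omega

/-- the neighbourhood of the last visited vertex above a foot. -/
private lemma m7_shape {T : ℕ} {g : List Bool} (hg : g ∈ Br (St (T + 1)) ∅ (ft 0) up) {j : ℤ} (hj : 1 ≤ j) {i : ℕ}
    (h1 : 1 ≤ i) (h2 : i ≤ g.length) (hi : vx (ft 0) up g i = ue j)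
    (hmax : ∀ (m : ℤ) (p : ℕ), 1 ≤ p → p ≤ g.length → vx (ft 0) up g p = ue m → m ≤ j) :
    ∃ r, i = r + 1 ∧ 1 ≤ r ∧ i < g.length ∧ dx up g r = (1, -1) ∧ tf g r = true ∧ tf g i = true ∧
      vx (ft 0) up g (i + 1) = le (j + 1) ∧ dx up g (i + 1) = up := by
  have hi1 : i ≠ 1 := by
    rintro rfl
    rw [m7_one] at hi
    have := m7_ue_inj hi
    omega
  obtain ⟨r, rfl⟩ : ∃ r, i = r + 1 := ⟨i - 1, by omega⟩
  have hr := (hg.1.mem r (by omega) (by omega)).1
  have hstep := vx_succ (ft 0) up g r
  rw [hi] at hstep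
  have hds := dx_succ up g r
  have hnd := m7_no_down hg h2 hi
  have hup := hg.2.2
  rcases nbr_ue hr (dx up g r) (dx_mem HexW.up_mem g r) hstep.symm with h3 | h3
  · -- from le j
    have hd : dx up g r = (1, -1) := by
      rw [h3] at hstep
      have e : ue j = le j + (1, -1) := by
        unfold ue le
        rw [Prod.mk_add_mk]
        congr 1 <;> ring
      rw [e] at hstep
      exact (add_left_cancel hstep).symm
    rw [hd] at hds
    have hb : tf g r = true := by
      rw [hds] at hnd
      by_contra hb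
      rw [Bool.not_eq_true] at hb
      rw [hb] at hnd
      exact hnd (by decide)
    rw [hb] at hds
    have hds' : dx up g (r + 1) = (1, 0) := hds
    have hlt : r + 1 < g.length := by
      by_contra h4
      have h5 : g.length = r + 1 := by omega
      rw [h5, hds'] at hup
      exact absurd hup (by decide)
    have hle : vx (ft 0) up g (r + 1 + 1) = le (j + 1) := by
      rw [vx_succ, hi, hds']
      unfold ue le
      rw [Prod.mk_add_mk]
      congr 1 <;> ring
    have hds2 := dx_succ up g (r + 1)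
    rw [hds'] at hds2
    have hb2 : tf g (r + 1) = true := by
      by_contra hb2
      rw [Bool.not_eq_true] at hb2
      rw [hb2] at hds2
      have hds3 : dx up g (r + 1 + 1) = (1, -1) := hds2
      rcases Nat.lt_or_ge (r + 1 + 1) g.length with h4 | h4
      · have h5 := hmax (j + 1) (r + 1 + 1 + 1) (by omega) (by omega) (by
          rw [vx_succ, hle, hds3]
          unfold ue le
          rw [Prod.mk_add_mk]
          congr 1 <;> ring)
        omega
      · have h5 : g.length = r + 1 + 1 := by omega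
        rw [h5, hds3] at hup
        exact absurd hup (by decide)
    rw [hb2] at hds2
    exact ⟨r, rfl, by omega, hlt, hd, hb, hb2, hle, hds2⟩
  · -- from le (j + 1)
    exfalso
    have hd : dx up g r = (-1, 0) := by
      rw [h3] at hstep
      have e : ue j = le (j + 1) + (-1, 0) := by
        unfold ue le
        rw [Prod.mk_add_mk]
        congr 1 <;> ring
      rw [e] at hstep
      exact (add_left_cancel hstep).symm
    rw [hd] at hds
    have hb : tf g r = false := by
      rw [hds] at hnd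
      by_contra hb
      rw [Bool.not_eq_false] at hb
      rw [hb] at hnd
      exact hnd (by decide)
    rw [hb] at hds
    have hds' : dx up g (r + 1) = (-1, 1) := hds
    have hlt : r + 1 < g.length := by
      by_contra h4
      have h5 : g.length = r + 1 := by omega
      rw [h5, hds'] at hup
      exact absurd hup (by decide)
    exact m7_windings hg hj (by omega) hlt hi rfl hd hds'

/-- the visits of the first row on the right of ue j. -/
private lemma m7_visits {T : ℕ} {g : List Bool} (hg : g ∈ Br (St (T + 1)) ∅ (ft 0) up) {j : ℤ} {i : ℕ}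
    (hi1 : i < g.length) (hi : vx (ft 0) up g i = ue j) (hi' : vx (ft 0) up g (i + 1) = le (j + 1))
    (hmax : ∀ (m : ℤ) (p : ℕ), 1 ≤ p → p ≤ g.length → vx (ft 0) up g p = ue m → m ≤ j) {p : ℕ} (h1 : 1 ≤ p)
    (h2 : p ≤ g.length) {v : Pt} (hv : vx (ft 0) up g p = v + sh j) (hO : v ∈ OO) : p = i ∨ p = i + 1 := by
  have hm := (hg.1.mem p h1 h2).1
  rw [hv, m7_mem_sh] at hm
  obtain ⟨k, rfl | rfl⟩ := row_one hm hO.1
  · left
    rw [← m7_ue_sh] at hv
    have h3 := hmax _ p h1 h2 hv
    have h4 := ue_mem_OO.1 hO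
    have h5 : k = 0 := by omega
    rw [h5, zero_add, ← hi] at hv
    exact m7_eq_of hg h2 (by omega) hv
  · rw [← m7_le_sh] at hv
    have h4 := le_mem_OO.1 hO
    rcases (show k = 1 ∨ 2 ≤ k by omega) with h5 | h5
    · right
      rw [h5, add_comm, ← hi'] at hv
      exact m7_eq_of hg h2 (by omega) hv
    · exfalso
      obtain ⟨q, h6, h7, -, h8 | h8⟩ := m7_pass hg h1 h2 hv
      · have := hmax _ q h6 h7 h8
        omega
      · have := hmax _ q h6 h7 h8
        omega

private lemma m7_cut {T : ℕ} {g : List Bool} (hg : g ∈ Br (St (T + 1)) ∅ (ft 0) up) {j : ℤ} (hj : 1 ≤ j) {i : ℕ}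
    (h1 : 1 ≤ i) (h2 : i ≤ g.length) (hi : vx (ft 0) up g i = ue j)
    (hmax : ∀ (m : ℤ) (p : ℕ), 1 ≤ p → p ≤ g.length → vx (ft 0) up g p = ue m → m ≤ j) :
    ∃ p ∈ SS T, Phi p = g := by
  obtain ⟨r, rfl, hr, hlt, hd, hb, hb2, hle, hd2⟩ := m7_shape hg hj h1 h2 hi hmax
  have hvis := fun {p : ℕ} (h3 : 1 ≤ p) (h4 : p ≤ g.length) {v : Pt} => m7_visits (v := v) hg hlt hi hle hmax h3 h4
  have heq := fun {p q : ℕ} (hp : p ≤ g.length) (hq : q ≤ g.length) => m7_eq_of hg hp hq
  obtain ⟨⟨hm, hinj⟩, htip, hup⟩ := hg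
  have hlt' : (g.take r).length = r := by
    rw [List.length_take]
    omega
  have hgc : g = g.take r ++ g.drop r := (List.take_append_drop r g).symm
  have htfg : ∀ (n : ℕ) (h : n < g.length), tf g n = g[n] := by
    intro n h
    unfold tf
    rw [List.getD_eq_getElem _ _ h]
  have hgr : g = g.take r ++ (true :: true :: g.drop (r + 2)) := by
    have h4 : g.drop r = g[r] :: g.drop (r + 1) := List.drop_eq_getElem_cons (by omega)
    have h5 : g.drop (r + 1) = g[r + 1] :: g.drop (r + 1 + 1) := List.drop_eq_getElem_cons (by omega)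
    rw [h5, ← htfg r (by omega), ← htfg (r + 1) (by omega), hb, hb2] at h4
    have e : r + 1 + 1 = r + 2 := rfl
    rw [e] at h4
    rw [← h4]
    exact hgc
  -- the first walk
  have F1 : ∀ k, vx (ft 0) up g (r + 2 + k) = vx (ft 1) up (true :: false :: g.drop (r + 2)) (2 + k) + sh j := by
    intro k
    rw [m7_vx2, ← HexW.vx_trans, ← m7_le_sh, add_comm 1 j]
    have h3 := vs_shift (ft 0) up (tf g) (r + 2) k
    have h4 : vs (ft 0) up (tf g) (r + 2) = le (j + 1) := hle
    have h5 : ds up (tf g) (r + 2) = up := hd2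
    rw [h4, h5] at h3
    show vs (ft 0) up (tf g) (r + 2 + k) = vs (le (j + 1)) up (tf (g.drop (r + 2))) k
    rw [h3]
    congr 1
    funext n
    unfold tf
    simp only [List.getD_eq_getElem?_getD, List.getElem?_drop]
  have D1 : dx up (true :: false :: g.drop (r + 2)) (g.drop (r + 2)).length.succ.succ = dx up g g.length := by
    rw [m7_dx_cons, m7_dx_cons]
    have e : turn false (turn true up) = up := by decide
    rw [e]
    have h3 := ds_shift up (tf g) (r + 2) (g.drop (r + 2)).length
    have h5 : ds up (tf g) (r + 2) = up := hd2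
    rw [h5] at h3
    have e2 : g.length = r + 2 + (g.drop (r + 2)).length := by
      rw [List.length_drop]
      omega
    rw [e2]
    show ds up (tf (g.drop (r + 2))) (g.drop (r + 2)).length = ds up (tf g) (r + 2 + (g.drop (r + 2)).length)
    rw [h3]
    congr 1
    funext n
    unfold tf
    simp only [List.getD_eq_getElem?_getD, List.getElem?_drop]
  -- the second walk
  have hta : tip (ft 0) up (g.take r) = ue j := by
    unfold tip
    rw [hlt', ← hi]
    conv_rhs => rw [hgc]
    rw [vx_append (by rw [hlt'])]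
  have hda : dx up (g.take r) r = (1, -1) := by
    rw [← hd]
    conv_rhs => rw [hgc]
    rw [dx_append (by rw [hlt'])]
  have F2 : ∀ k, k ≤ r + 1 → vx (ft 0) up g (r + 1 - k) = vx (ft 0) up (true :: rev (g.take r)) (k + 1) + sh j := by
    intro k hk
    have h3 := vx_rev (ft 0) up (g.take r) k (by rw [hlt']; exact hk)
    rw [hta, hlt', hda] at h3
    have e0 : ft 0 + up = ue 0 := m7_one 0 []
    have e1 : turn true up = -(1, -1) := by decide
    rw [m7_vx_cons, e0, e1, ← HexW.vx_trans, ← m7_ue_sh, zero_add, h3]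
    conv_lhs => rw [hgc]
    rw [vx_append (by rw [hlt']; omega)]
  have D2 : dx up (true :: rev (g.take r)) (r + 1) = -up := by
    rw [m7_dx_cons]
    have h3 := dx_rev up (g.take r) r (by rw [hlt'])
    rw [hlt', hda, Nat.sub_self] at h3
    have e1 : turn true up = -(1, -1) := by decide
    rw [e1, h3]
    rfl
  obtain ⟨s, hs⟩ : ∃ s, s = true :: false :: g.drop (r + 2) := ⟨_, rfl⟩
  obtain ⟨u, hu⟩ : ∃ u, u = true :: rev (g.take r) := ⟨_, rfl⟩
  have hsl : s.length + r = g.length := by
    rw [hs, List.length_cons, List.length_cons, List.length_drop]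
    omega
  have hul : u.length = r + 1 := by
    rw [hu, List.length_cons, rev_length, hlt']
  have hsd : dx up s s.length = up := by
    rw [hs]
    exact D1.trans hup
  rw [← hs] at F1
  rw [← hu] at F2 D2
  -- vertices of s
  have s1 : vx (ft 1) up s 1 = ue 1 := m7_one 1 s
  have hsm : ∀ k, 1 ≤ k → k ≤ s.length → vx (ft 1) up s k ∈ St (T + 1) := by
    intro k h3 h4
    rcases Nat.lt_or_ge k 2 with h5 | h5
    · have h6 : k = 1 := by omega
      rw [h6, s1]
      exact m7_ue_mem T 1
    · obtain ⟨k', rfl⟩ := Nat.exists_eq_add_of_le h5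
      have h6 := (hm (r + 2 + k') (by omega) (by omega)).1
      rw [F1, m7_mem_sh] at h6
      exact h6
  have hue1 : ∀ k, k + (r + 2) ≤ g.length → vx (ft 1) up s (2 + k) ≠ ue 1 := by
    intro k h3 h4
    have h5 := F1 k
    rw [h4, ← m7_ue_sh] at h5
    have := hmax _ _ (by omega) (by omega) h5
    omega
  have hsB : s ∈ BrA (St (T + 1)) ∅ 1 := by
    refine ⟨⟨⟨fun k h3 h4 => ⟨hsm k h3 h4, fun h => h⟩, ?_⟩, ?_, hsd⟩, ?_, ?_⟩
    · intro k l hkl hl
      rcases Nat.eq_zero_or_pos k with rfl | hk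
      · show ft 1 ≠ _
        exact m7_ft_ne (hsm l (by omega) hl)
      · obtain ⟨l', rfl⟩ := Nat.exists_eq_add_of_le (show 2 ≤ l by omega)
        rcases Nat.lt_or_ge k 2 with h5 | h5
        · have h6 : k = 1 := by omega
          rw [h6, s1]
          exact (hue1 l' (by omega)).symm
        · obtain ⟨k', rfl⟩ := Nat.exists_eq_add_of_le h5
          intro h
          have h6 : vx (ft 0) up g (r + 2 + k') = vx (ft 0) up g (r + 2 + l') := by
            rw [F1, F1, h]
          have := heq (by omega) (by omega) h6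
          omega
    · unfold tip
      have e : s.length + 1 = 2 + (s.length - 1) := by omega
      rw [e]
      have h6 := F1 (s.length - 1)
      have e2 : r + 2 + (s.length - 1) = g.length + 1 := by omega
      rw [e2] at h6
      intro h
      rw [← m7_mem_sh (j := j), ← h6] at h
      exact htip h
    · rw [hs]
      exact ⟨g.drop (r + 2), rfl⟩
    · intro k h3 h4 h5
      have h3' : 2 < k := h3
      obtain ⟨k', rfl⟩ := Nat.exists_eq_add_of_le (show 2 ≤ k by omega)
      rcases hvis (by omega) (by omega) (F1 k') h5 with h6 | h6 <;> omega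
  have hum : ∀ k, 1 ≤ k → k ≤ u.length → vx (ft 0) up u k ∈ St (T + 1) := by
    intro k h3 h4
    obtain ⟨k', rfl⟩ : ∃ k', k = k' + 1 := ⟨k - 1, by omega⟩
    have h6 := (hm (r + 1 - k') (by omega) (by omega)).1
    rw [F2 k' (by omega), m7_mem_sh] at h6
    exact h6
  have huD : u ∈ DnA (St (T + 1)) (vis (ft 1) up s) := by
    refine ⟨⟨⟨fun k h3 h4 => ⟨hum k h3 h4, ?_⟩, ?_⟩, ?_, ?_⟩, ?_, ?_⟩
    · rintro ⟨l, h5, h6, h7⟩
      obtain ⟨k', rfl⟩ : ∃ k', k = k' + 1 := ⟨k - 1, by omega⟩
      have h8 := F2 k' (by omega)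
      rw [← h7] at h8
      rcases Nat.lt_or_ge l 2 with h9 | h9
      · have h10 : l = 1 := by omega
        rw [h10, s1, ← m7_ue_sh] at h8
        have := hmax _ _ (by omega) (by omega) h8
        omega
      · obtain ⟨l', rfl⟩ := Nat.exists_eq_add_of_le h9
        rw [← F1] at h8
        have := heq (by omega) (by omega) h8
        omega
    · intro k l hkl hl
      rcases Nat.eq_zero_or_pos k with rfl | hk
      · show ft 0 ≠ _
        exact m7_ft_ne (hum l (by omega) hl)
      · obtain ⟨k', rfl⟩ : ∃ k', k = k' + 1 := ⟨k - 1, by omega⟩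
        obtain ⟨l', rfl⟩ : ∃ l', l = l' + 1 := ⟨l - 1, by omega⟩
        intro h
        have h6 : vx (ft 0) up g (r + 1 - k') = vx (ft 0) up g (r + 1 - l') := by
          rw [F2 k' (by omega), F2 l' (by omega), h]
        have := heq (by omega) (by omega) h6
        omega
    · unfold tip
      rw [hul]
      intro h
      have h6 := F2 (r + 1) le_rfl
      rw [Nat.sub_self] at h6
      rw [← m7_mem_sh (j := j), ← h6] at h
      exact m7_ft_notMem 0 h
    · rw [hul]
      exact D2
    · rw [hu]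
      exact ⟨rev (g.take r), rfl⟩
    · intro k h3 h4 h5
      have h3' : 1 < k := h3
      obtain ⟨k', rfl⟩ : ∃ k', k = k' + 1 := ⟨k - 1, by omega⟩
      rcases hvis (by omega) (by omega) (F2 k' (by omega)) h5 with h6 | h6 <;> omega
  refine ⟨(s, u), ⟨hsB, huD⟩, ?_⟩
  rw [hs, hu]
  show rev (rev (g.take r)) ++ (true :: true :: g.drop (r + 2)) = g
  rw [rev_rev]
  exact hgr.symm

private lemma m7_Phi_surj {T : ℕ} {g : List Bool} (hg : g ∈ G3 T) : ∃ p ∈ SS T, Phi p = g := by
  obtain ⟨hB, j0, hj0, i0, h1, h2, h3⟩ := hg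
  have hbd : ∃ b : ℤ, ∀ z : ℤ, (∃ i, 1 ≤ i ∧ i ≤ g.length ∧ vx (ft 0) up g i = ue z) → z ≤ b := by
    refine ⟨g.length + 1, ?_⟩
    rintro z ⟨i, h4, h5, h6⟩
    have h7 := KU.nn_bd g i
    have e : (oo : Pt) = ft 0 := by
      rw [ft_eq]
      rfl
    rw [e, h6] at h7
    have h8 := (abs_le.1 h7).2
    have h9 : nn (ue z) = 3 * z - 1 := by
      unfold nn ue
      simp only
      ring
    rw [h9] at h8
    have h10 : (i : ℤ) ≤ g.length := by exact_mod_cast h5
    omega
  obtain ⟨j, ⟨i, h4, h5, h6⟩, h7⟩ := Int.exists_greatest_of_bdd hbd ⟨j0, i0, h1, h2, h3⟩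
  have hj : j0 ≤ j := h7 j0 ⟨i0, h1, h2, h3⟩
  exact m7_cut hB (by omega) h4 h5 h6 (fun m p h8 h9 h10 => h7 m ⟨p, h8, h9, h10⟩)

/-! ### the other bridges -/

/-- the bridges that start to the right and then go up. -/
private def G2 (T : ℕ) : Set (List Bool) :=
  {g | ∃ c, g = false :: true :: c ∧ true :: false :: c ∈ BrA (St (T + 1)) ∅ 1}

private lemma m7_vx2' (c : List Bool) (k : ℕ) :
    vx (ft 0) up (false :: true :: c) (2 + k) = vx (ft 1) up (true :: false :: c) (2 + k) := by
  rw [m7_vx2]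
  have e : 2 + k = k + 1 + 1 := by omega
  rw [e, m7_vx_cons, m7_vx_cons, ft_eq]
  have e1 : ((2 * 0, -0) : Pt) + up + turn false up = le 1 := by decide
  have e2 : turn true (turn false up) = up := by decide
  rw [e1, e2]

private lemma m7_dx2' (c : List Bool) :
    dx up (false :: true :: c) (false :: true :: c).length =
      dx up (true :: false :: c) (true :: false :: c).length := by
  show dx up (false :: true :: c) (c.length + 1 + 1) = dx up (true :: false :: c) (c.length + 1 + 1)
  rw [m7_dx_cons, m7_dx_cons, m7_dx_cons, m7_dx_cons]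
  have e : turn true (turn false up) = turn false (turn true up) := by decide
  rw [e]

private lemma m7_A_G3 {T : ℕ} {g : List Bool} (hg : g ∈ BrA (St (T + 1)) ∅ 0) : g ∉ G3 T := by
  rintro ⟨-, j, hj, i, h1, h2, h3⟩
  rcases Nat.lt_or_ge 1 i with h4 | h4
  · have h5 := hg.2.out i h4 h2
    rw [h3] at h5
    exact h5 (ue_mem_OO.2 (by omega))
  · have h5 : i = 1 := by omega
    rw [h5, m7_one] at h3
    have := m7_ue_inj h3
    omega

private lemma m7_G2_sub {T : ℕ} {g : List Bool} (hg : g ∈ G2 T) : g ∈ Br (St (T + 1)) ∅ (ft 0) up ∧ g ∉ G3 T := by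
  obtain ⟨c, rfl, ⟨hm, htip, hup⟩, hA⟩ := hg
  have hl : (false :: true :: c).length = c.length + 2 := rfl
  have hl' : (true :: false :: c).length = c.length + 2 := rfl
  have hv2 : ∀ k, vx (ft 1) up (true :: false :: c) (2 + k) ≠ ue 0 ∨ c.length < k := by
    intro k
    rcases Nat.lt_or_ge c.length k with h | h
    · exact Or.inr h
    · left
      intro h1
      rcases Nat.eq_zero_or_pos k with rfl | hk
      · have h2 : vx (ft 1) up (true :: false :: c) 2 = le 1 := m7_vx2 c 0
        rw [add_zero, h2] at h1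
        exact m7_ue_le h1.symm
      · have h2 := hA.out (2 + k) (by
          show 2 < 2 + k
          omega) (by omega)
        rw [h1] at h2
        exact h2 (ue_mem_OO.2 le_rfl)
  have hmem : ∀ i, 1 ≤ i → i ≤ (false :: true :: c).length → vx (ft 0) up (false :: true :: c) i ∈ St (T + 1) := by
    intro i h1 h2
    rcases Nat.lt_or_ge i 2 with h3 | h3
    · have h4 : i = 1 := by omega
      rw [h4, m7_one]
      exact m7_ue_mem T 0
    · obtain ⟨k, rfl⟩ := Nat.exists_eq_add_of_le h3
      rw [m7_vx2']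
      exact (hm.mem _ (by omega) (by omega)).1
  refine ⟨⟨⟨fun i h1 h2 => ⟨hmem i h1 h2, fun h => h⟩, ?_⟩, ?_, ?_⟩, ?_⟩
  · intro i k hik hk
    rcases Nat.eq_zero_or_pos i with rfl | hi
    · show ft 0 ≠ _
      exact m7_ft_ne (hmem k (by omega) hk)
    · obtain ⟨k', rfl⟩ := Nat.exists_eq_add_of_le (show 2 ≤ k by omega)
      rw [m7_vx2']
      rcases Nat.lt_or_ge i 2 with h3 | h3
      · have h4 : i = 1 := by omega
        rw [h4, m7_one]
        rcases hv2 k' with h5 | h5
        · exact h5.symm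
        · omega
      · obtain ⟨i', rfl⟩ := Nat.exists_eq_add_of_le h3
        rw [m7_vx2']
        exact hm.inj _ _ (by omega) (by omega)
  · unfold tip at htip ⊢
    have e : (false :: true :: c).length + 1 = 2 + (c.length + 1) := by omega
    have e' : (true :: false :: c).length + 1 = 2 + (c.length + 1) := by omega
    rw [e'] at htip
    rw [e, m7_vx2']
    exact htip
  · rw [m7_dx2']
    exact hup
  · rintro ⟨-, j, hj, i, h1, h2, h3⟩
    rcases Nat.lt_or_ge i 2 with h4 | h4
    · have h5 : i = 1 := by omega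
      rw [h5, m7_one] at h3
      have := m7_ue_inj h3
      omega
    · obtain ⟨k, rfl⟩ := Nat.exists_eq_add_of_le h4
      rw [m7_vx2'] at h3
      rcases Nat.eq_zero_or_pos k with rfl | hk
      · have h5 : vx (ft 1) up (true :: false :: c) 2 = le 1 := m7_vx2 c 0
        rw [add_zero, h5] at h3
        exact m7_ue_le h3.symm
      · have h5 := hA.out (2 + k) (by
          show 2 < 2 + k
          omega) (by omega)
        rw [h3] at h5
        exact h5 (ue_mem_OO.2 (by omega))

private lemma m7_rest {T : ℕ} {g : List Bool} (hg : g ∈ Br (St (T + 1)) ∅ (ft 0) up) (hn : g ∉ G3 T) :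
    g ∈ BrA (St (T + 1)) ∅ 0 ∪ G2 T := by
  have hno : ∀ (m : ℤ) (p : ℕ), 1 ≤ m → 1 ≤ p → p ≤ g.length → vx (ft 0) up g p ≠ ue m :=
    fun m p h0 h1 h2 h3 => hn ⟨hg, m, h0, p, h1, h2, h3⟩
  have hOO : ∀ p, 2 ≤ p → p ≤ g.length → vx (ft 0) up g p ∈ OO → p = 2 ∧ vx (ft 0) up g p = le 1 := by
    intro p h1 h2 h3
    have hm := (hg.1.mem p (by omega) h2).1
    obtain ⟨k, h4 | h4⟩ := row_one hm h3.1
    · exfalso
      rw [h4] at h3
      have h5 := ue_mem_OO.1 h3
      rcases (show k = 0 ∨ 1 ≤ k by omega) with h6 | h6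
      · rw [h6, ← m7_one 0 g] at h4
        have := m7_eq_of hg h2 (by omega) h4
        omega
      · exact hno k p h6 (by omega) h2 h4
    · rw [h4] at h3
      have h5 := le_mem_OO.1 h3
      obtain ⟨q, h6, h7, h8, h9⟩ := m7_pass hg (by omega) h2 h4
      rcases (show k = 1 ∨ 2 ≤ k by omega) with h10 | h10
      · subst h10
        rcases h9 with h9 | h9
        · have e : (1 : ℤ) - 1 = 0 := by norm_num
          rw [e, ← m7_one 0 g] at h9
          have := m7_eq_of hg h7 (by omega) h9
          exact ⟨by omega, h4⟩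
        · exact absurd h9 (hno _ q le_rfl h6 h7)
      · rcases h9 with h9 | h9
        · exact absurd h9 (hno _ q (by omega) h6 h7)
        · exact absurd h9 (hno _ q (by omega) h6 h7)
  have hup := hg.2.2
  match g, hg, hn, hno, hOO, hup with
  | [], hg, _, _, _, _ =>
    exfalso
    apply hg.2.1
    have e : tip (ft 0) up [] = ue 0 := m7_one 0 []
    rw [e]
    exact m7_ue_mem T 0
  | true :: c, hg, _, _, hOO, _ =>
    left
    refine ⟨hg, ⟨c, rfl⟩, ?_⟩
    intro i h1 h2 h3
    obtain ⟨h4, h5⟩ := hOO i h1 h2 h3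
    rw [h4] at h5
    have h6 : vx (ft 0) up (true :: c) 2 = le 0 := by
      show ft 0 + up + turn true up = le 0
      rw [ft_eq]
      decide
    rw [h6] at h5
    exact absurd (le_inj h5) (by norm_num)
  | [false], _, _, _, _, hup => exact absurd hup (by decide)
  | false :: false :: c, hg, _, hno, _, hup =>
    exfalso
    rcases Nat.eq_zero_or_pos c.length with hc | hc
    · rw [List.length_eq_zero_iff.1 hc] at hup
      exact absurd hup (by decide)
    · apply hno 1 3 le_rfl (by omega) (by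
        rw [List.length_cons, List.length_cons]
        omega)
      show ft 0 + up + turn false up + turn false (turn false up) = ue 1
      rw [ft_eq]
      decide
  | false :: true :: c, hg, _, hno, hOO, hup =>
    right
    refine ⟨c, rfl, ?_⟩
    have hl : (false :: true :: c).length = c.length + 2 := rfl
    have hl' : (true :: false :: c).length = c.length + 2 := rfl
    have hmem : ∀ i, 1 ≤ i → i ≤ (true :: false :: c).length → vx (ft 1) up (true :: false :: c) i ∈ St (T + 1) := by
      intro i h1 h2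
      rcases Nat.lt_or_ge i 2 with h3 | h3
      · have h4 : i = 1 := by omega
        rw [h4, m7_one]
        exact m7_ue_mem T 1
      · obtain ⟨k, rfl⟩ := Nat.exists_eq_add_of_le h3
        rw [← m7_vx2']
        exact (hg.1.mem _ (by omega) (by omega)).1
    refine ⟨⟨⟨fun i h1 h2 => ⟨hmem i h1 h2, fun h => h⟩, ?_⟩, ?_, ?_⟩, ⟨c, rfl⟩, ?_⟩
    · intro i k hik hk
      rcases Nat.eq_zero_or_pos i with rfl | hi
      · show ft 1 ≠ _
        exact m7_ft_ne (hmem k (by omega) hk)
      · obtain ⟨k', rfl⟩ := Nat.exists_eq_add_of_le (show 2 ≤ k by omega)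
        rw [← m7_vx2']
        rcases Nat.lt_or_ge i 2 with h3 | h3
        · have h4 : i = 1 := by omega
          rw [h4, m7_one]
          exact (hno 1 _ le_rfl (by omega) (by omega)).symm
        · obtain ⟨i', rfl⟩ := Nat.exists_eq_add_of_le h3
          rw [← m7_vx2']
          exact hg.1.inj _ _ (by omega) (by omega)
    · have htip := hg.2.1
      unfold tip at htip ⊢
      have e : (false :: true :: c).length + 1 = 2 + (c.length + 1) := by omega
      have e' : (true :: false :: c).length + 1 = 2 + (c.length + 1) := by omega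
      rw [e']
      rw [e, m7_vx2'] at htip
      exact htip
    · rw [← m7_dx2']
      exact hup
    · intro i h1 h2 h3
      have h1' : 2 < i := h1
      obtain ⟨k, rfl⟩ := Nat.exists_eq_add_of_le (show 2 ≤ i by omega)
      rw [← m7_vx2'] at h3
      have := (hOO _ (by omega) (by omega) h3).1
      omega

/-! ### the sums -/

private lemma m7_gf_G2 (T : ℕ) : gf (G2 T) = ZZ T := by
  unfold ZZ
  apply le_antisymm
  · have h := gf_le_of_inj (P := G2 T) (Q := BrA (St (T + 1)) ∅ 1) (fun g => true :: false :: g.drop 2) (by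
      rintro g ⟨c, rfl, hc⟩
      exact hc) (by
      rintro g ⟨c, rfl, -⟩ g' ⟨c', rfl, -⟩ h
      have h1 : (true :: false :: c : List Bool) = true :: false :: c' := h
      simp only [List.cons.injEq, true_and] at h1
      rw [h1]) 1 (by
      rintro g ⟨c, rfl, -⟩
      rw [one_mul]
      exact le_rfl)
    rwa [one_mul] at h
  · have h := gf_le_of_inj (Q := G2 T) (P := BrA (St (T + 1)) ∅ 1) (fun g => false :: true :: g.drop 2) (by
      intro s hs
      obtain ⟨c, rfl⟩ := m7_form1 hs.2
      exact ⟨c, rfl, hs⟩) (by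
      intro s hs s' hs' h
      obtain ⟨c, rfl⟩ := m7_form1 hs.2
      obtain ⟨c', rfl⟩ := m7_form1 hs'.2
      have h1 : (false :: true :: c : List Bool) = false :: true :: c' := h
      simp only [List.cons.injEq, true_and] at h1
      rw [h1]) 1 (by
      intro s hs
      obtain ⟨c, rfl⟩ := m7_form1 hs.2
      rw [one_mul]
      exact le_rfl)
    rwa [one_mul] at h

private lemma m7_LL (T : ℕ) : LL T = ∑' p : SS T, wE p.1.1 * wE p.1.2 := by
  rw [tsum_subtype (SS T) (fun p => wE p.1 * wE p.2), ENNReal.tsum_prod']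
  unfold LL overA
  apply tsum_congr
  intro s
  by_cases hs : s ∈ BrA (St (T + 1)) ∅ 1
  · rw [Set.indicator_of_mem hs, Set.empty_union]
    show wE s * gf (DnA (St (T + 1)) (vis (ft 1) up s)) = _
    rw [K1.gf_indicator, ← ENNReal.tsum_mul_left]
    apply tsum_congr
    intro u
    by_cases hu : u ∈ DnA (St (T + 1)) (vis (ft 1) up s)
    · have h : (s, u) ∈ SS T := ⟨hs, hu⟩
      rw [Set.indicator_of_mem hu, Set.indicator_of_mem h]
    · have h : (s, u) ∉ SS T := fun h => hu h.2
      rw [Set.indicator_of_notMem hu, Set.indicator_of_notMem h, mul_zero]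
  · rw [Set.indicator_of_notMem hs]
    symm
    rw [ENNReal.tsum_eq_zero]
    intro u
    exact Set.indicator_of_notMem (fun h => hs h.1) _

private lemma m7_gf_G3 (T : ℕ) : gf (G3 T) = ENNReal.ofReal xc⁻¹ * LL T := by
  rw [m7_LL, ← ENNReal.tsum_mul_left]
  unfold gf
  have hmem : ∀ p : SS T, Phi p.1 ∈ G3 T := fun p => m7_Phi_mem p.2.1 p.2.2
  have hbij : Function.Bijective (fun p : SS T => (⟨Phi p.1, hmem p⟩ : G3 T)) := by
    constructor
    · intro p q hpq
      have h1 : Phi p.1 = Phi q.1 := congrArg Subtype.val hpq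
      obtain ⟨h2, h3⟩ := m7_Phi_inj p.2.1 p.2.2 q.2.1 q.2.2 h1
      exact Subtype.ext (Prod.ext h2 h3)
    · rintro ⟨g, hg⟩
      obtain ⟨p, hp, rfl⟩ := m7_Phi_surj hg
      exact ⟨⟨p, hp⟩, rfl⟩
  rw [← (Equiv.ofBijective _ hbij).tsum_eq (fun g : G3 T => wE g)]
  apply tsum_congr
  intro p
  obtain ⟨j, hg, -⟩ := m7_glue p.2.1.2 p.2.2.1 p.2.2.2
  exact m7_wE hg

private lemma m7_BT (T : ℕ) : BT (T + 1) = gf (Br (St (T + 1)) ∅ (ft 0) up) := by
  unfold BT
  congr 1
  unfold out Br
  rw [Set.sdiff_empty, ft_eq]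
  rfl

/-- M7: the bridges of the strip of T + 1 rows. -/
theorem four_b {T : ℕ} (hT : 1 ≤ T) : BT (T + 1) = XX T + ZZ T + ENNReal.ofReal xc⁻¹ * LL T := by
  have _ := hT
  have h1 : Br (St (T + 1)) ∅ (ft 0) up = (BrA (St (T + 1)) ∅ 0 ∪ G2 T) ∪ G3 T := by
    ext g
    constructor
    · intro hg
      by_cases h : g ∈ G3 T
      · exact Or.inr h
      · exact Or.inl (m7_rest hg h)
    · rintro ((hg | hg) | hg)
      · exact hg.1
      · exact (m7_G2_sub hg).1
      · exact hg.1
  have d1 : Disjoint (BrA (St (T + 1)) ∅ 0) (G2 T) := by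
    rw [Set.disjoint_left]
    rintro g hg ⟨c, rfl, -⟩
    obtain ⟨c', hc'⟩ := m7_form0 hg.2
    exact absurd (List.cons.inj hc').1 (by decide)
  have d2 : Disjoint (BrA (St (T + 1)) ∅ 0 ∪ G2 T) (G3 T) := by
    rw [Set.disjoint_left]
    rintro g (hg | hg)
    · exact m7_A_G3 hg
    · exact (m7_G2_sub hg).2
  rw [m7_BT, h1, gf_union d2, gf_union d1, m7_gf_G2, m7_gf_G3]
  rfl

end PG

end HexObs
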