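import Pool.Agent.HexPG.Inc

/-!
PG, M1: explorer and one walker; the linear relations of the pairs.
-/

set_option autoImplicit false

namespace HexObs

namespace PG

open SP Complex Finset ENNReal Filter Topology HexW

lemma pr_ue {T n : ℕ} {k : ℤ} (h0 : 0 ≤ k) (hk : k < n) : ue k ∈ tz T n := by
  rw [mem_tz, mem_St']
  unfold ue lv
  push_cast
  omega

lemma pr_le {T n : ℕ} {k : ℤ} (h0 : 0 ≤ k) (hk : k < n) (hn : 1 < n) : le k ∈ tz T n := by
  rw [mem_tz, mem_St']
  unfold le lv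
  push_cast
  omega

/-- the walker 0 visits le 0. -/
lemma pr_vis {T n : ℕ} (hn : 1 < n) {X : Set Pt} {s : List Bool} (hs : s ∈ BrA (tz T n : Set Pt) X 0) :
    le 0 ∈ vis (ft 0) up s := by
  obtain ⟨⟨h1, h2, h3⟩, h4⟩ := hs
  have h5 := (adm_vx h4).2.1
  have h6 : 1 ≤ s.length := by
    have h7 := h4.pre.length_le
    unfold SP.pre at h7
    rw [if_pos rfl] at h7
    exact h7
  refine ⟨2, by norm_num, ?_, h5⟩
  by_contra h7
  have h8 : s.length = 1 := by omega
  apply h2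
  unfold tip
  rw [h8]
  rw [show vx (ft 0) up s (1 + 1) = le 0 from h5]
  exact pr_le le_rfl (by omega) hn

/-- the sum over all stops with one walker. -/
lemma one_walker {T n : ℕ} {k a : ℤ} (hn : 1 < n) (hk : 0 ≤ k) (hk' : k < n) (hka : k ≠ a)
    {s : List Bool} (hs : s ∈ BrA (tz T n : Set Pt) ∅ a) (m : ℝ) :
    ∑ u ∈ freeA (tz T n) (vis (ft a) up s) k, xc ^ u.length * sn (m + wind u) +
      ∑ u ∈ hitA (tz T n) ∅ (vis (ft a) up s) k, xc ^ u.length * sn (m + wind u) = pw k m := by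
  have hg : GoodDom (tz T n) (ft k) up := tz_good (by rw [abs_of_nonneg hk]; exact hk')
  obtain ⟨w1, w2⟩ := walker_pre4 hk hka hs
  have h1 := sum_end hk hg (pr_ue hk hk') (pr_le hk hk' hn) (Z := ∅ ∪ vis (ft a) up s)
    (by rw [Set.empty_union]; exact w1) (by rw [Set.empty_union]; exact w2) m
  have h2 := sum_endA (tz T n) (X := ∅) (Y := vis (ft a) up s) (Set.empty_disjoint _)
    (Set.empty_subset _) (vis_sub hs.1) k (fun u => xc ^ u.length * sn (m + wind u))
  rw [h1] at h2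
  have h3 : hitA (tz T n) (vis (ft a) up s) ∅ k = ∅ := by
    ext u
    rw [SP.mem_hitA]
    constructor
    · rintro ⟨_, _, h, _⟩
      exact absurd h (Set.notMem_empty _)
    · intro h
      exact absurd h (Finset.notMem_empty _)
  rw [h3, Finset.sum_empty, add_zero, Set.empty_union] at h2
  rw [h2]

lemma dnA_free {Ω : Finset Pt} {Y : Set Pt} : ∀ u ∈ DnA (Ω : Set Pt) Y,
    Saw ((Ω : Set Pt) \ Y) (ft 0) up u ∧ Adm 0 u ∧ (tip (ft 0) up u ∉ (Ω : Set Pt) ∨ tip (ft 0) up u ∈ OO) :=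
  fun _ h => ⟨h.1.1, h.2, Or.inl h.1.2.1⟩

lemma ldR_free {Ω : Finset Pt} {Y : Set Pt} : ∀ u ∈ LdR (Ω : Set Pt) Y 1,
    Saw ((Ω : Set Pt) \ Y) (ft 1) up u ∧ Adm 1 u ∧ (tip (ft 1) up u ∉ (Ω : Set Pt) ∨ tip (ft 1) up u ∈ OO) := by
  rintro u ⟨j, hj, h⟩
  exact ld_free (by omega) u h

/-- three indicators. -/
lemma three_ind {A B C : Prop} [Decidable A] [Decidable B] [Decidable C] {x p q r : ℝ} (hx : 0 ≤ x) (hr : |r| ≤ 1)
    (h : (A ∧ ¬ B ∧ r = p) ∨ (B ∧ ¬ A ∧ r = q) ∨ (C ∧ ¬ A ∧ ¬ B)) :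
    |x * r - p * (x * (if A then 1 else 0)) - q * (x * (if B then 1 else 0))| ≤ x * (if C then 1 else 0) := by
  rcases h with ⟨h1, h2, h3⟩ | ⟨h1, h2, h3⟩ | ⟨h1, h2, h3⟩
  · rw [if_pos h1, if_neg h2, h3]
    have : x * p - p * (x * 1) - q * (x * 0) = 0 := by ring
    rw [this, abs_zero]
    split_ifs
    · linarith
    · simp
  · rw [if_neg h2, if_pos h1, h3]
    have : x * q - p * (x * 0) - q * (x * 1) = 0 := by ring
    rw [this, abs_zero]
    split_ifs
    · linarith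
    · simp
  · rw [if_neg h2, if_neg h3, if_pos h1]
    have : x * r - p * (x * 0) - q * (x * 0) = x * r := by ring
    rw [this, abs_mul, abs_of_nonneg hx]
    nlinarith

lemma abs_sn (m : ℝ) : |sn m| ≤ 1 := Real.abs_sin_le_one _

theorem pair_one {T n : ℕ} (hn : 1 < n) {s : List Bool} (hs : s ∈ BrA (tz T n : Set Pt) ∅ 0) (m : ℝ) :
    |sn m * gr (tz T n) (ft 1) up (BrA (tz T n : Set Pt) (vis (ft 0) up s) 1) +
      sn (m - 3) * gr (tz T n) (ft 1) up (LdR (tz T n : Set Pt) (vis (ft 0) up s) 1) +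
      ∑ u ∈ hitA (tz T n) ∅ (vis (ft 0) up s) 1, xc ^ u.length * sn (m + wind u) - xc ^ 2 * sn m| ≤
      gr (tz T n) (ft 1) up (LtA (tz T n : Set Pt) (vis (ft 0) up s) 1) := by
  classical
  have h1 := one_walker (k := 1) (a := 0) hn (by norm_num) (by exact_mod_cast hn) (by norm_num) hs m
  have hw : pw 1 m = xc ^ 2 * sn m := by
    unfold pw
    rw [if_neg (by norm_num)]
  rw [hw] at h1
  set Y := vis (ft 0) up s with hY
  have hle : le 0 ∈ Y := pr_vis hn hs
  have key : |∑ u ∈ freeA (tz T n) Y 1, xc ^ u.length * sn (m + wind u) -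
      sn m * gr (tz T n) (ft 1) up (BrA (tz T n : Set Pt) Y 1) -
      sn (m - 3) * gr (tz T n) (ft 1) up (LdR (tz T n : Set Pt) Y 1)| ≤
      gr (tz T n) (ft 1) up (LtA (tz T n : Set Pt) Y 1) := by
    rw [gr_free brA_free, gr_free ldR_free, gr_free ltA_free, Finset.mul_sum, Finset.mul_sum,
      ← Finset.sum_sub_distrib, ← Finset.sum_sub_distrib]
    refine (Finset.abs_sum_le_sum_abs _ _).trans (Finset.sum_le_sum ?_)
    intro u hu
    have hx := pow_nonneg xc_pos.le u.length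
    have h := land_wind (k := 1) (by norm_num) (by exact_mod_cast hn) (Or.inr hle) hu
    have hg : GoodDom (tz T n) (ft 1) up := tz_good (by rw [abs_one]; exact_mod_cast hn)
    have hg0 : GoodDom (tz T n) (ft 0) up := tz_good (by rw [abs_zero]; exact_mod_cast (by omega : 0 < n))
    have hA := (mem_freeA.1 hu).2.1
    apply three_ind hx (abs_sn _)
    rcases h with ⟨hB, hw'⟩ | ⟨hD, _⟩ | ⟨hL, _⟩ | ⟨j, hj1, hj2, hL, ⟨hj, hw'⟩ | ⟨hj, hw'⟩⟩
    · left
      refine ⟨hB, ?_, ?_⟩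
      · rintro ⟨j, _, hj⟩
        exact up_ne_neg (hB.1.2.2.symm.trans hj.2.2.2)
      · rw [hw']
        push_cast
        rw [add_zero]
    · exfalso
      obtain ⟨j, hj, ht⟩ := dn_adm hg hD hA
      have key := far_land hg hg0 (by rw [ft, ft, t3_cl_foot, t3_cl_foot]) (t3_ip_foot _ _ _ _)
        (fun h => by have := ft_inj h; omega) hs.1 (subset_refl _) hD
      rw [ht, ft_eq, ft_eq, ft_eq] at key
      unfold cross up at key
      simp only [Prod.mk_sub_mk] at key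
      omega
    · right
      right
      refine ⟨hL, fun h => hL.2.2.2.1 h.1.2.2, ?_⟩
      rintro ⟨j, _, hj⟩
      exact hL.2.2.2.2 hj.2.2.2
    · right
      left
      refine ⟨⟨j, hj, hL⟩, fun h => up_ne_neg (h.1.2.2.symm.trans hL.2.2.2), ?_⟩
      rw [hw']
      congr 1
      push_cast
      ring
    · omega
  have e : sn m * gr (tz T n) (ft 1) up (BrA (tz T n : Set Pt) Y 1) +
      sn (m - 3) * gr (tz T n) (ft 1) up (LdR (tz T n : Set Pt) Y 1) +
      ∑ u ∈ hitA (tz T n) ∅ Y 1, xc ^ u.length * sn (m + wind u) - xc ^ 2 * sn m =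
      -(∑ u ∈ freeA (tz T n) Y 1, xc ^ u.length * sn (m + wind u) -
      sn m * gr (tz T n) (ft 1) up (BrA (tz T n : Set Pt) Y 1) -
      sn (m - 3) * gr (tz T n) (ft 1) up (LdR (tz T n : Set Pt) Y 1)) := by
    rw [← h1]
    ring
  rw [e, abs_neg]
  exact key

theorem pair_zero {T n : ℕ} (hn : 1 < n) {s : List Bool} (hs : s ∈ BrA (tz T n : Set Pt) ∅ 1) (m : ℝ) :
    |sn m * gr (tz T n) (ft 0) up (BrA (tz T n : Set Pt) (vis (ft 1) up s) 0) +
      sn (m + 3) * gr (tz T n) (ft 0) up (DnA (tz T n : Set Pt) (vis (ft 1) up s)) +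
      ∑ u ∈ hitA (tz T n) ∅ (vis (ft 1) up s) 0, xc ^ u.length * sn (m + wind u) - xc * sn (m + 1)| ≤
      gr (tz T n) (ft 0) up (LtA (tz T n : Set Pt) (vis (ft 1) up s) 0) := by
  classical
  have h1 := one_walker (k := 0) (a := 1) hn le_rfl (by exact_mod_cast (by omega : 0 < n)) (by norm_num) hs m
  have hw : pw 0 m = xc * sn (m + 1) := by
    unfold pw
    rw [if_pos rfl]
  rw [hw] at h1
  set Y := vis (ft 1) up s with hY
  have key : |∑ u ∈ freeA (tz T n) Y 0, xc ^ u.length * sn (m + wind u) -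
      sn m * gr (tz T n) (ft 0) up (BrA (tz T n : Set Pt) Y 0) -
      sn (m + 3) * gr (tz T n) (ft 0) up (DnA (tz T n : Set Pt) Y)| ≤
      gr (tz T n) (ft 0) up (LtA (tz T n : Set Pt) Y 0) := by
    rw [gr_free brA_free, gr_free dnA_free, gr_free ltA_free, Finset.mul_sum, Finset.mul_sum,
      ← Finset.sum_sub_distrib, ← Finset.sum_sub_distrib]
    refine (Finset.abs_sum_le_sum_abs _ _).trans (Finset.sum_le_sum ?_)
    intro u hu
    have hx := pow_nonneg xc_pos.le u.length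
    have h := land_wind (k := 0) le_rfl (by exact_mod_cast (by omega : 0 < n)) (Or.inl rfl) hu
    have hg : GoodDom (tz T n) (ft 0) up := tz_good (by rw [abs_zero]; exact_mod_cast (by omega : 0 < n))
    have hA := (mem_freeA.1 hu).2.1
    apply three_ind hx (abs_sn _)
    rcases h with ⟨hB, hw'⟩ | ⟨hD, h | h⟩ | ⟨hL, _⟩ | ⟨j, hj1, _, hL, _⟩
    · left
      refine ⟨hB, fun h => up_ne_neg (hB.1.2.2.symm.trans h.1.2.2), ?_⟩
      rw [hw']
      push_cast
      rw [add_zero]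
    · right
      left
      refine ⟨⟨hD, hA⟩, fun h => up_ne_neg (h.1.2.2.symm.trans hD.2.2), ?_⟩
      rw [h.2]
      push_cast
      rfl
    · exfalso
      obtain ⟨j, hj, ht⟩ := dn_adm hg hD hA
      have hc := h.1
      rw [ht, ft_eq, ft_eq] at hc
      unfold cross up at hc
      simp only [Prod.mk_sub_mk] at hc
      omega
    · right
      right
      exact ⟨hL, fun h => hL.2.2.2.1 h.1.2.2, fun h => hL.2.2.2.2 h.1.2.2⟩
    · exfalso
      have := far_landA (a := 1) (by norm_num) (by exact_mod_cast hn) le_rfl (by exact_mod_cast (by omega : 0 < n))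
        (by norm_num) hj1 hs (subset_refl _) hL
      obtain ⟨h5, h6⟩ := this
      omega
  have e : sn m * gr (tz T n) (ft 0) up (BrA (tz T n : Set Pt) Y 0) +
      sn (m + 3) * gr (tz T n) (ft 0) up (DnA (tz T n : Set Pt) Y) +
      ∑ u ∈ hitA (tz T n) ∅ Y 0, xc ^ u.length * sn (m + wind u) - xc * sn (m + 1) =
      -(∑ u ∈ freeA (tz T n) Y 0, xc ^ u.length * sn (m + wind u) -
      sn m * gr (tz T n) (ft 0) up (BrA (tz T n : Set Pt) Y 0) -
      sn (m + 3) * gr (tz T n) (ft 0) up (DnA (tz T n : Set Pt) Y)) := by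
    rw [← h1]
    ring
  rw [e, abs_neg]
  exact key

end PG

end HexObs
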