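import Pool.Agent.HexPG.Pair

/-!
PG, M1 (second part): the two linear relations between the pair sums.
-/

set_option autoImplicit false

namespace HexObs

namespace PG

open SP Complex Finset ENNReal Filter Topology HexW

lemma dnA_arr (Ω : Finset Pt) (Z : Set Pt) : InArr Ω (ft 0) up (DnA (Ω : Set Pt) Z) :=
  fun _ h => saw_arr h.1.1

/-- summation over the walker. -/
lemma obA_abs (Ω : Finset Pt) (a : ℤ) (A B E : Set Pt → ℝ) (H : List Bool → ℝ) (p q c : ℝ)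
    (h : ∀ s ∈ BrA (Ω : Set Pt) ∅ a, |p * A (vis (ft a) up s) + q * B (vis (ft a) up s) + H s - c| ≤
      E (vis (ft a) up s)) :
    |p * obA Ω a A ∅ + q * obA Ω a B ∅ + ∑ s ∈ fam Ω (ft a) up (BrA (Ω : Set Pt) ∅ a), xc ^ s.length * H s -
      c * gr Ω (ft a) up (BrA (Ω : Set Pt) ∅ a)| ≤ obA Ω a E ∅ := by
  have e : p * obA Ω a A ∅ + q * obA Ω a B ∅ +
      ∑ s ∈ fam Ω (ft a) up (BrA (Ω : Set Pt) ∅ a), xc ^ s.length * H s -
      c * gr Ω (ft a) up (BrA (Ω : Set Pt) ∅ a) =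
      ∑ s ∈ fam Ω (ft a) up (BrA (Ω : Set Pt) ∅ a), xc ^ s.length *
        (p * A (vis (ft a) up s) + q * B (vis (ft a) up s) + H s - c) := by
    unfold obA gr
    rw [Finset.mul_sum, Finset.mul_sum, Finset.mul_sum, ← Finset.sum_add_distrib, ← Finset.sum_add_distrib,
      ← Finset.sum_sub_distrib]
    apply Finset.sum_congr rfl
    intro s _
    simp only [Set.empty_union]
    ring
  rw [e]
  refine (Finset.abs_sum_le_sum_abs _ _).trans ?_
  unfold obA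
  apply Finset.sum_le_sum
  intro s hs
  rw [mem_brAF] at hs
  rw [abs_mul, abs_of_nonneg (pow_nonneg xc_pos.le _), Set.empty_union]
  exact mul_le_mul_of_nonneg_left (h s hs) (pow_nonneg xc_pos.le _)

lemma zhA_form (Ω : Finset Pt) (p q : ℤ) (f : ℤ → ℝ) : ZhA Ω ∅ p q f =
    ∑ s ∈ fam Ω (ft q) up (BrA (Ω : Set Pt) ∅ q), xc ^ s.length *
      ∑ u ∈ hitA Ω ∅ (vis (ft q) up s) p, xc ^ u.length * f (wind u) := by
  unfold ZhA
  apply Finset.sum_congr rfl
  intro s _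
  rw [Finset.mul_sum]
  apply Finset.sum_congr rfl
  intro u _
  rw [pow_add]
  ring

/-- elimination of the hits. -/
lemma fin_elim {T n : ℕ} (hn : 1 < n) (m : ℝ) :
    |(sn m - sn (m + 2)) * obA (tz T n) 0 (fun Y => gr (tz T n) (ft 1) up (BrA (tz T n : Set Pt) Y 1)) ∅ +
      sn (m - 3) * obA (tz T n) 0 (fun Y => gr (tz T n) (ft 1) up (LdR (tz T n : Set Pt) Y 1)) ∅ -
      sn (m + 5) * obA (tz T n) 1 (fun Y => gr (tz T n) (ft 0) up (DnA (tz T n : Set Pt) Y)) ∅ -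
      xc ^ 2 * sn m * gr (tz T n) (ft 0) up (BrA (tz T n : Set Pt) ∅ 0) +
      xc * sn (m + 3) * gr (tz T n) (ft 1) up (BrA (tz T n : Set Pt) ∅ 1)| ≤
    obA (tz T n) 0 (fun Y => gr (tz T n) (ft 1) up (LtA (tz T n : Set Pt) Y 1)) ∅ +
      obA (tz T n) 1 (fun Y => gr (tz T n) (ft 0) up (LtA (tz T n : Set Pt) Y 0)) ∅ := by
  have g0 : GoodDom (tz T n) (ft 0) up := tz_good (by rw [abs_zero]; exact_mod_cast (by omega : 0 < n))
  have g1 : GoodDom (tz T n) (ft 1) up := tz_good (by rw [abs_one]; exact_mod_cast hn)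
  have h1 := obA_abs (tz T n) 0 (fun Y => gr (tz T n) (ft 1) up (BrA (tz T n : Set Pt) Y 1))
    (fun Y => gr (tz T n) (ft 1) up (LdR (tz T n : Set Pt) Y 1))
    (fun Y => gr (tz T n) (ft 1) up (LtA (tz T n : Set Pt) Y 1))
    (fun s => ∑ u ∈ hitA (tz T n) ∅ (vis (ft 0) up s) 1, xc ^ u.length * sn (m + wind u)) (sn m) (sn (m - 3))
    (xc ^ 2 * sn m) (fun s hs => pair_one hn hs m)
  have h0 := obA_abs (tz T n) 1 (fun Y => gr (tz T n) (ft 0) up (BrA (tz T n : Set Pt) Y 0))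
    (fun Y => gr (tz T n) (ft 0) up (DnA (tz T n : Set Pt) Y))
    (fun Y => gr (tz T n) (ft 0) up (LtA (tz T n : Set Pt) Y 0))
    (fun s => ∑ u ∈ hitA (tz T n) ∅ (vis (ft 1) up s) 0, xc ^ u.length * sn (m + 2 + wind u)) (sn (m + 2))
    (sn (m + 2 + 3)) (xc * sn (m + 2 + 1)) (fun s hs => pair_zero hn hs (m + 2))
  have hz := zhA_form (tz T n) 1 0 (fun w => sn (m + w))
  have hz0 := zhA_form (tz T n) 0 1 (fun w => sn (m + 2 + w))
  have hsw := swap_sumA (X := ∅) (p := 0) (q := 1) le_rfl (by norm_num) g0 g1 (fun w => sn (m + w))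
  have hfun : (fun w : ℤ => sn (m + ((w + 2 : ℤ) : ℝ))) = fun w : ℤ => sn (m + 2 + w) := by
    funext w
    congr 1
    push_cast
    ring
  rw [hfun] at hsw
  rw [hz, hz0] at hsw
  have hP := obA_gr (tz T n) 0 1 ∅
  rw [← hP] at h0
  rw [show m + 2 + 3 = m + 5 by ring, show m + 2 + 1 = m + 3 by ring] at h0
  rw [hsw] at h1
  set P := obA (tz T n) 0 (fun Y => gr (tz T n) (ft 1) up (BrA (tz T n : Set Pt) Y 1)) ∅
  set R := obA (tz T n) 0 (fun Y => gr (tz T n) (ft 1) up (LdR (tz T n : Set Pt) Y 1)) ∅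
  set L := obA (tz T n) 1 (fun Y => gr (tz T n) (ft 0) up (DnA (tz T n : Set Pt) Y)) ∅
  set Z0 := gr (tz T n) (ft 0) up (BrA (tz T n : Set Pt) ∅ 0)
  set Z1 := gr (tz T n) (ft 1) up (BrA (tz T n : Set Pt) ∅ 1)
  set J := ∑ s ∈ fam (tz T n) (ft 1) up (BrA (tz T n : Set Pt) ∅ 1), xc ^ s.length *
      ∑ u ∈ hitA (tz T n) ∅ (vis (ft 1) up s) 0, xc ^ u.length * sn (m + 2 + wind u)
  have e : (sn m - sn (m + 2)) * P + sn (m - 3) * R - sn (m + 5) * L - xc ^ 2 * sn m * Z0 + xc * sn (m + 3) * Z1 =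
      (sn m * P + sn (m - 3) * R + J - xc ^ 2 * sn m * Z0) -
      (sn (m + 2) * P + sn (m + 5) * L + J - xc * sn (m + 3) * Z1) := by ring
  rw [e]
  exact (abs_sub _ _).trans (add_le_add h1 h0)

/-- the limit form: convergence of the sums over a walker. -/
lemma tend_over {T N : ℕ} {a : ℤ} (ha : |a| < N) {p : Pt} {P : ℕ → Set Pt → Set (List Bool)}
    {Q : Set Pt → Set (List Bool)} (hP : ∀ X, Inc (fun n => P n X) (Q X))
    (hfin : overA (St (T + 1)) a (fun Y => gf (Q Y)) ∅ ≠ ∞)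
    (harr : ∀ n Z, InArr (tz T (n + N)) p up (P n Z)) :
    Tendsto (fun n => obA (tz T (n + N)) a (fun Y => gr (tz T (n + N)) p up (P n Y)) ∅) atTop
      (𝓝 (overA (St (T + 1)) a (fun Y => gf (Q Y)) ∅).toReal) := by
  have h1 := (ENNReal.tendsto_toReal hfin).comp
    ((up_overA (fun X => inc_BrA (T := T) ha X) (up_gf hP)).tendsto ∅)
  refine h1.congr (fun n => ?_)
  have e : ((tz T (n + N) : Finset Pt) : Set Pt) = trap oo up (T + 1) (n + N) := by
    unfold tz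
    exact trapF_coe _ _ _
  show (overA (trap oo up (T + 1) (n + N)) a (fun Y => gf (P n Y)) ∅).toReal = _
  rw [← e, overA_toReal _ _ _ (fun Y => gf_ne_top (harr n Y))]
  congr 1
  funext Y
  exact gf_toReal (harr n Y)

lemma tend_err {T N : ℕ} {a k : ℤ} (ha : |a| < N) (hk : |k| < N) :
    Tendsto (fun n => obA (tz T (n + N)) a
      (fun Y => gr (tz T (n + N)) (ft k) up (LtA (tz T (n + N) : Set Pt) Y k)) ∅) atTop (𝓝 0) := by
  have h1 := (ENNReal.tendsto_toReal ENNReal.zero_ne_top).comp (err1 (T := T) ha hk)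
  rw [ENNReal.toReal_zero] at h1
  refine h1.congr (fun n => ?_)
  have e : ((tz T (n + N) : Finset Pt) : Set Pt) = trap oo up (T + 1) (n + N) := by
    unfold tz
    exact trapF_coe _ _ _
  show (overA (trap oo up (T + 1) (n + N)) a (fun Y => gf (LtA (trap oo up (T + 1) (n + N)) Y k)) ∅).toReal = _
  rw [← e, overA_toReal _ _ _ (fun Y => gf_ne_top (ltA_arr _ Y k))]
  congr 1
  funext Y
  exact gf_toReal (ltA_arr _ Y k)

lemma tend_br {T N : ℕ} {a : ℤ} (ha : |a| < N) :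
    Tendsto (fun n => gr (tz T (n + N)) (ft a) up (BrA (tz T (n + N) : Set Pt) ∅ a)) atTop
      (𝓝 (gf (BrA (St (T + 1)) ∅ a)).toReal) := by
  have hfin : gf (BrA (St (T + 1)) ∅ a) ≠ ∞ := ne_top_of_le_ne_top ENNReal.one_ne_top (brA_le T a ∅)
  have h0 := tendsto_atTop_iSup (inc_BrA (T := T) ha ∅).gf_mono
  rw [← (inc_BrA (T := T) ha ∅).gf_eq] at h0
  have h1 := (ENNReal.tendsto_toReal hfin).comp h0
  refine h1.congr (fun n => ?_)
  have e : ((tz T (n + N) : Finset Pt) : Set Pt) = trap oo up (T + 1) (n + N) := by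
    unfold tz
    exact trapF_coe _ _ _
  show (gf (BrA (trap oo up (T + 1) (n + N)) ∅ a)).toReal = _
  rw [← e]
  exact gf_toReal (brA_arr _ ∅ a)

theorem RR_ne_top (T : ℕ) : RR T ≠ ∞ := by
  have hA : AT (T + 1) ≠ ∞ := AT_ne_top (Nat.le_add_left 1 T)
  have hc : ENNReal.ofReal ((xc ^ 2)⁻¹) * AT (T + 1) * 1 ≠ ∞ :=
    ENNReal.mul_ne_top (ENNReal.mul_ne_top ENNReal.ofReal_ne_top hA) ENNReal.one_ne_top
  refine ne_top_of_le_ne_top hc (overA_le (fun Y => ?_) (brA_le T 0 ∅))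
  refine (HexObs.gf_mono ?_).trans (ld_le (T := T) (k := 1) Y)
  rintro u ⟨j, h1, h2⟩
  exact ⟨j, by omega, by omega, h2⟩

theorem LL_ne_top (T : ℕ) : LL T ≠ ∞ := by
  have hA : AT (T + 1) ≠ ∞ := AT_ne_top (Nat.le_add_left 1 T)
  exact ne_top_of_le_ne_top (ENNReal.mul_ne_top hA ENNReal.one_ne_top) (overA_le (fun Y => dnA_le Y) (brA_le T 1 ∅))

theorem ZZ_ne_top (T : ℕ) : ZZ T ≠ ∞ := ne_top_of_le_ne_top ENNReal.one_ne_top (brA_le T 1 ∅)

/-- elimination of the hits, infinite domain. -/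
lemma lim_elim (T : ℕ) (m : ℝ) :
    (sn m - sn (m + 2)) * (PP T 0 1).toReal + sn (m - 3) * (RR T).toReal - sn (m + 5) * (LL T).toReal -
      xc ^ 2 * sn m * (XX T).toReal + xc * sn (m + 3) * (ZZ T).toReal = 0 := by
  have k0 : |(0 : ℤ)| < ((2 : ℕ) : ℤ) := by norm_num
  have k1 : |(1 : ℤ)| < ((2 : ℕ) : ℤ) := by norm_num
  have e : ∀ n : ℕ, ((tz T (n + 2) : Finset Pt) : Set Pt) = trap oo up (T + 1) (n + 2) := by
    intro n
    unfold tz
    exact trapF_coe _ _ _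
  have lP := tend_over (T := T) (N := 2) (a := 0) (p := ft 1) k0
    (P := fun n Y => BrA (tz T (n + 2) : Set Pt) Y 1) (Q := fun Y => BrA (St (T + 1)) Y 1)
    (fun X => by simp only [e]; exact inc_BrA k1 X) (PP_ne_top T 0 1) (fun n Z => brA_arr _ Z 1)
  have lR := tend_over (T := T) (N := 2) (a := 0) (p := ft 1) k0
    (P := fun n Y => LdR (tz T (n + 2) : Set Pt) Y 1) (Q := fun Y => LdR (St (T + 1)) Y 1)
    (fun X => by simp only [e]; exact inc_LdR X) (RR_ne_top T) (fun n Z => ldR_arr _ Z 1)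
  have lL := tend_over (T := T) (N := 2) (a := 1) (p := ft 0) k1
    (P := fun n Y => DnA (tz T (n + 2) : Set Pt) Y) (Q := fun Y => DnA (St (T + 1)) Y)
    (fun X => by simp only [e]; exact inc_DnA (by norm_num) X) (LL_ne_top T) (fun n Z => dnA_arr _ Z)
  have lX := tend_br (T := T) (N := 2) (a := 0) k0
  have lZ := tend_br (T := T) (N := 2) (a := 1) k1
  have lE := (tend_err (T := T) (N := 2) (a := 0) (k := 1) k0 k1).add
    (tend_err (T := T) (N := 2) (a := 1) (k := 0) k1 k0)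
  rw [add_zero] at lE
  have hl := ((((lP.const_mul (sn m - sn (m + 2))).add (lR.const_mul (sn (m - 3)))).sub
    (lL.const_mul (sn (m + 5)))).sub (lX.const_mul (xc ^ 2 * sn m))).add (lZ.const_mul (xc * sn (m + 3)))
  have hlim := le_of_tendsto_of_tendsto' hl.abs lE (fun n => fin_elim (T := T) (n := n + 2) (by omega) m)
  have h0 := abs_nonpos_iff.1 hlim
  exact h0

lemma sn6 : sn 6 = 1 / Real.sqrt 2 := by
  obtain ⟨s4, s2, s8, s5⟩ := sin_vals
  unfold sn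
  rw [← s2, show (6 : ℝ) * (Real.pi / 8) = Real.pi - 2 * (Real.pi / 8) by ring, Real.sin_pi_sub]

lemma sn2 : sn 2 = 1 / Real.sqrt 2 := by
  obtain ⟨s4, s2, s8, s5⟩ := sin_vals
  unfold sn
  rw [← s2]

lemma sn_neg (m : ℝ) : sn (-m) = -sn m := by
  unfold sn
  rw [neg_mul, Real.sin_neg]

lemma sn_zero : sn 0 = 0 := by
  unfold sn
  rw [zero_mul, Real.sin_zero]

lemma sn1_pos : 0 < sn 1 := by
  unfold sn
  exact Real.sin_pos_of_pos_of_lt_pi (by positivity) (by linarith [Real.pi_pos])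

lemma sn3_pos : 0 < sn 3 := by
  unfold sn
  exact Real.sin_pos_of_pos_of_lt_pi (by positivity) (by linarith [Real.pi_pos])

theorem ZZ_eq {T : ℕ} (_hT : 1 ≤ T) : ZZ T = ENNReal.ofReal (Real.sqrt 2 * xc * sn 3) * XX T := by
  have h := lim_elim T 3
  rw [show (3 : ℝ) + 2 = 5 by norm_num, show (3 : ℝ) - 3 = 0 by norm_num, show (3 : ℝ) + 5 = 8 by norm_num,
    show (3 : ℝ) + 3 = 6 by norm_num, sn_five, sn_eight, sn_zero, sn6] at h
  have hs : 0 < Real.sqrt 2 := by positivity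
  have h2 : Real.sqrt 2 * Real.sqrt 2 = 2 := Real.mul_self_sqrt (by norm_num)
  have hx := xc_pos
  have h3 : (ZZ T).toReal = Real.sqrt 2 * xc * sn 3 * (XX T).toReal := by
    have h4 : xc * (1 / Real.sqrt 2) * (ZZ T).toReal = xc ^ 2 * sn 3 * (XX T).toReal := by linarith
    field_simp at h4
    nlinarith [h4]
  rw [← ENNReal.toReal_eq_toReal_iff' (ZZ_ne_top T) (ENNReal.mul_ne_top ENNReal.ofReal_ne_top (XX_ne_top T)),
    ENNReal.toReal_mul, ENNReal.toReal_ofReal (by have := sn3_pos; positivity)]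
  exact h3

theorem RL_eq {T : ℕ} (hT : 1 ≤ T) : RR T + LL T + ENNReal.ofReal (2 * sn 1) * PP T 0 1 =
    ENNReal.ofReal (xc ^ 2 * (sn 1 + sn 3)) * XX T := by
  have h := lim_elim T (-1)
  have s1 := sn1_pos
  have s3 := sn3_pos
  rw [show (-1 : ℝ) + 2 = 1 by norm_num, show (-1 : ℝ) - 3 = -4 by norm_num, show (-1 : ℝ) + 5 = 4 by norm_num,
    show (-1 : ℝ) + 3 = 2 by norm_num, sn_neg, sn_neg, sn_four, sn2] at h
  have hZ := congrArg ENNReal.toReal (ZZ_eq hT)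
  have hs : 0 < Real.sqrt 2 := by positivity
  have hx := xc_pos
  rw [ENNReal.toReal_mul, ENNReal.toReal_ofReal (by positivity)] at hZ
  rw [hZ] at h
  have h5 : xc * (1 / Real.sqrt 2) * (Real.sqrt 2 * xc * sn 3 * (XX T).toReal) = xc ^ 2 * sn 3 * (XX T).toReal := by
    field_simp
  rw [h5] at h
  have hPt : ENNReal.ofReal (2 * sn 1) * PP T 0 1 ≠ ∞ := ENNReal.mul_ne_top ENNReal.ofReal_ne_top (PP_ne_top T 0 1)
  have hRL : RR T + LL T ≠ ∞ := ENNReal.add_ne_top.2 ⟨RR_ne_top T, LL_ne_top T⟩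
  rw [← ENNReal.toReal_eq_toReal_iff' (ENNReal.add_ne_top.2 ⟨hRL, hPt⟩)
    (ENNReal.mul_ne_top ENNReal.ofReal_ne_top (XX_ne_top T)),
    ENNReal.toReal_add hRL hPt, ENNReal.toReal_add (RR_ne_top T) (LL_ne_top T),
    ENNReal.toReal_mul, ENNReal.toReal_mul, ENNReal.toReal_ofReal (by positivity), ENNReal.toReal_ofReal (by positivity)]
  linarith

end PG

end HexObs
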