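import Pool.Agent.HexPG.SumT
import Pool.Agent.HexPG.FourA
import Pool.Agent.HexPG.FourB

/-!
PG, M8: the exact identity.
-/

set_option autoImplicit false

namespace HexObs

namespace PG

open SP Complex Finset ENNReal Filter Topology HexW

lemma s3_cos : sn 3 = Real.cos (Real.pi / 8) := by
  unfold sn
  rw [show (3 : ℝ) * (Real.pi / 8) = Real.pi / 2 - Real.pi / 8 by ring, Real.sin_pi_div_two_sub]

lemma s3_sq : sn 3 ^ 2 = (2 + Real.sqrt 2) / 4 := by
  rw [s3_cos, Real.cos_sq, show 2 * (Real.pi / 8) = Real.pi / 4 by ring, Real.cos_pi_div_four]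
  ring

lemma xc_s3 : xc * (2 * sn 3) = 1 := by
  have h : Real.cos (Real.pi / 8) ≠ 0 :=
    (Real.cos_pos_of_mem_Ioo ⟨by linarith [Real.pi_pos], by linarith [Real.pi_pos]⟩).ne'
  rw [s3_cos]
  unfold xc
  field_simp

theorem BT_ne_top {T : ℕ} (hT : 1 ≤ T) : BT T ≠ ∞ := ne_top_of_le_ne_top ENNReal.one_ne_top (BT_le_one hT)

/-- the five relations in real numbers. -/
lemma five {T : ℕ} (hT : 1 ≤ T) :
    (ZZ T).toReal = Real.sqrt 2 * xc * sn 3 * (XX T).toReal ∧
    (RR T).toReal + (LL T).toReal + 2 * sn 1 * (PP T 0 1).toReal = xc ^ 2 * (sn 1 + sn 3) * (XX T).toReal ∧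
    (RR T).toReal + sn 1 * (PP T 0 1).toReal =
      xc ^ 2 * sn 1 * (XX T).toReal + xc * sn 1 * ((WW T).toReal * (XX T).toReal) ∧
    (ZZ T).toReal = xc ^ 2 * (BT T).toReal + xc * (RR T).toReal ∧
    (BT (T + 1)).toReal = (XX T).toReal + (ZZ T).toReal + xc⁻¹ * (LL T).toReal := by
  have hx := xc_pos
  have s1 := sn1_pos
  have s3 := sn3_pos
  have hs : 0 < Real.sqrt 2 := by positivity
  have tP := PP_ne_top T 0 1
  have tX := XX_ne_top T
  have tR := RR_ne_top T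
  have tL := LL_ne_top T
  have tW := WW_ne_top T
  have tB := BT_ne_top hT
  have tZ := ZZ_ne_top T
  refine ⟨?_, ?_, ?_, ?_, ?_⟩
  · have h := congrArg ENNReal.toReal (ZZ_eq hT)
    rw [ENNReal.toReal_mul, ENNReal.toReal_ofReal (by positivity)] at h
    exact h
  · have h := congrArg ENNReal.toReal (RL_eq hT)
    rw [ENNReal.toReal_add (ENNReal.add_ne_top.2 ⟨tR, tL⟩) (ENNReal.mul_ne_top ENNReal.ofReal_ne_top tP),
      ENNReal.toReal_add tR tL, ENNReal.toReal_mul, ENNReal.toReal_mul, ENNReal.toReal_ofReal (by positivity),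
      ENNReal.toReal_ofReal (by positivity)] at h
    exact h
  · have h := congrArg ENNReal.toReal (R_eq hT)
    rw [ENNReal.toReal_add tR (ENNReal.mul_ne_top ENNReal.ofReal_ne_top tP),
      ENNReal.toReal_add (ENNReal.mul_ne_top ENNReal.ofReal_ne_top tX)
        (ENNReal.mul_ne_top ENNReal.ofReal_ne_top (ENNReal.mul_ne_top tW tX)),
      ENNReal.toReal_mul, ENNReal.toReal_mul, ENNReal.toReal_mul, ENNReal.toReal_mul,
      ENNReal.toReal_ofReal (by positivity), ENNReal.toReal_ofReal (by positivity),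
      ENNReal.toReal_ofReal (by positivity)] at h
    exact h
  · have h := congrArg ENNReal.toReal (four_a hT)
    rw [ENNReal.toReal_add (ENNReal.mul_ne_top ENNReal.ofReal_ne_top tB)
      (ENNReal.mul_ne_top ENNReal.ofReal_ne_top tR), ENNReal.toReal_mul, ENNReal.toReal_mul,
      ENNReal.toReal_ofReal (by positivity), ENNReal.toReal_ofReal hx.le] at h
    exact h
  · have h := congrArg ENNReal.toReal (four_b hT)
    rw [ENNReal.toReal_add (ENNReal.add_ne_top.2 ⟨tX, tZ⟩) (ENNReal.mul_ne_top ENNReal.ofReal_ne_top tL),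
      ENNReal.toReal_add tX tZ, ENNReal.toReal_mul, ENNReal.toReal_ofReal (by positivity)] at h
    exact h

/-- THE EXACT IDENTITY. -/
theorem star {T : ℕ} (hT : 1 ≤ T) :
    (BT T).toReal + (BT (T + 1)).toReal =
      (XX T).toReal * (3 + Real.sqrt 2 - 2 * sn 1 * (WW T).toReal) := by
  obtain ⟨h1, h2, h3, h4, h5⟩ := five hT
  have hx := xc_pos
  have hc := xc_s3
  have hq := s3_sq
  have h1s := s1_eq
  have s3 := sn3_pos
  have hs : Real.sqrt 2 * Real.sqrt 2 = 2 := Real.mul_self_sqrt (by norm_num)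
  have hxi : xc⁻¹ = 2 * sn 3 := by
    field_simp
    linarith
  rw [hxi] at h5
  have h6 : (BT T).toReal = (2 * sn 3) ^ 2 * (ZZ T).toReal - 2 * sn 3 * (RR T).toReal := by
    rw [h4]
    have e : (2 * sn 3) ^ 2 * (xc ^ 2 * (BT T).toReal + xc * (RR T).toReal) =
        (xc * (2 * sn 3)) ^ 2 * (BT T).toReal + (xc * (2 * sn 3)) * (2 * sn 3) * (RR T).toReal := by ring
    rw [e, hc]
    ring
  have h7 : (LL T).toReal = (RR T).toReal + xc ^ 2 * (sn 3 - sn 1) * (XX T).toReal -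
      2 * (xc * sn 1 * ((WW T).toReal * (XX T).toReal)) := by linarith
  rw [h5, h6, h7, h1]
  generalize (XX T).toReal = X
  generalize (WW T).toReal = W
  generalize (RR T).toReal = R
  have e1 : (2 * sn 3) ^ 2 * (Real.sqrt 2 * xc * sn 3 * X) = (2 * sn 3 ^ 2) * Real.sqrt 2 * (xc * (2 * sn 3)) * X := by ring
  have e2 : 2 * sn 3 * (R + xc ^ 2 * (sn 3 - sn 1) * X - 2 * (xc * sn 1 * (W * X))) =
      2 * sn 3 * R + (xc * (2 * sn 3)) * xc * (sn 3 - sn 1) * X - 2 * (xc * (2 * sn 3)) * (sn 1 * (W * X)) := by ring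
  have e3 : Real.sqrt 2 * xc * sn 3 * X = Real.sqrt 2 * (xc * (2 * sn 3)) * X / 2 := by ring
  have e4 : xc * (sn 3 - sn 1) = (xc * (2 * sn 3)) * (2 - Real.sqrt 2) / 2 := by
    rw [← h1s]
    ring
  rw [e1, e2, e3, hc]
  have e5 : 1 * xc * (sn 3 - sn 1) * X = (2 - Real.sqrt 2) / 2 * X := by
    rw [one_mul, e4, hc]
    ring
  rw [e5, hq]
  linear_combination (X / 2) * hs

/-- the exact step. -/
theorem step_eq {T : ℕ} (hT : 1 ≤ T) :
    (BT T).toReal - (BT (T + 1)).toReal = Real.sqrt 2 * (PP T 0 1).toReal := by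
  obtain ⟨h1, h2, h3, h4, h5⟩ := five hT
  have hx := xc_pos
  have hc := xc_s3
  have hq := s3_sq
  have h1s := s1_eq
  have s3 := sn3_pos
  have hs : Real.sqrt 2 * Real.sqrt 2 = 2 := Real.mul_self_sqrt (by norm_num)
  have hxi : xc⁻¹ = 2 * sn 3 := by
    field_simp
    linarith
  rw [hxi] at h5
  have h6 : (BT T).toReal = (2 * sn 3) ^ 2 * (ZZ T).toReal - 2 * sn 3 * (RR T).toReal := by
    rw [h4]
    have e : (2 * sn 3) ^ 2 * (xc ^ 2 * (BT T).toReal + xc * (RR T).toReal) =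
        (xc * (2 * sn 3)) ^ 2 * (BT T).toReal + (xc * (2 * sn 3)) * (2 * sn 3) * (RR T).toReal := by ring
    rw [e, hc]
    ring
  have h7 : (LL T).toReal = xc ^ 2 * (sn 1 + sn 3) * (XX T).toReal - (RR T).toReal -
      2 * sn 1 * (PP T 0 1).toReal := by linarith
  rw [h5, h6, h7, h1]
  generalize (XX T).toReal = X
  generalize (PP T 0 1).toReal = P
  generalize (RR T).toReal = R
  have e1 : (2 * sn 3) ^ 2 * (Real.sqrt 2 * xc * sn 3 * X) = (2 * sn 3 ^ 2) * Real.sqrt 2 * (xc * (2 * sn 3)) * X := by ring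
  have e2 : 2 * sn 3 * (xc ^ 2 * (sn 1 + sn 3) * X - R - 2 * sn 1 * P) =
      (xc * (2 * sn 3)) * (xc * (sn 1 + sn 3)) * X - 2 * sn 3 * R - 4 * sn 3 * sn 1 * P := by ring
  have e3 : Real.sqrt 2 * xc * sn 3 * X = Real.sqrt 2 * (xc * (2 * sn 3)) * X / 2 := by ring
  have e4 : xc * (sn 1 + sn 3) = (xc * (2 * sn 3)) * Real.sqrt 2 / 2 := by
    rw [← h1s]
    ring
  have e6 : 4 * sn 3 * sn 1 = Real.sqrt 2 := by
    rw [← h1s]
    have : 4 * sn 3 * (sn 3 * (Real.sqrt 2 - 1)) = 4 * sn 3 ^ 2 * (Real.sqrt 2 - 1) := by ring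
    rw [this, hq]
    linear_combination hs
  rw [e1, e2, e3, e4, e6, hc, hq]
  linear_combination (X / 2) * hs

end PG

end HexObs
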