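import Pool.Agent.HexPG.Etop
import Pool.Agent.HexStep.XBound

/-!
PG, M5: summation over the tops.
-/

set_option autoImplicit false

namespace HexObs

namespace PG

open SP Complex Finset ENNReal Filter Topology HexW

/-! ### the abstract summation -/

lemma win_le {f g : ℤ → ℝ≥0∞} {d : ℤ → ℤ → ℝ≥0∞} {c : ℝ≥0∞} (hc : c ≠ ∞) (hs : ∀ t b, t ≠ b → d t b = d b t)
    (hf : ∀ t b, t ≠ b → d t b ≠ ∞)
    (h : ∀ t, f t + c * (∑' b : ℤ, if t < b then d t b else 0) = g t + c * (∑' b : ℤ, if b < t then d t b else 0))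
    (m1 m2 : ℤ) :
    ∑ z ∈ Finset.Ioc m1 m2, f z + c * ∑ z ∈ Finset.Ioc m1 m2, (∑' b : ℤ, if m2 < b then d z b else 0) =
    ∑ z ∈ Finset.Ioc m1 m2, g z + c * ∑ z ∈ Finset.Ioc m1 m2, (∑' b : ℤ, if b ≤ m1 then d z b else 0) := by
  set I := Finset.Ioc m1 m2 with hI
  have hmem : ∀ z, z ∈ I ↔ m1 < z ∧ z ≤ m2 := by
    intro z
    rw [hI, Finset.mem_Ioc]
  set P : ℝ≥0∞ := ∑ z ∈ I, ∑ b ∈ I, (if z < b then d z b else 0) with hP
  have hPQ : ∑ z ∈ I, ∑ b ∈ I, (if b < z then d z b else 0) = P := by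
    rw [hP, Finset.sum_comm]
    apply Finset.sum_congr rfl
    intro z _
    apply Finset.sum_congr rfl
    intro b _
    by_cases hzb : z < b
    · rw [if_pos hzb, if_pos hzb, hs b z (by omega)]
    · rw [if_neg hzb, if_neg hzb]
  have hPtop : P ≠ ∞ := by
    rw [hP]
    apply ENNReal.sum_ne_top.2
    intro z _
    apply ENNReal.sum_ne_top.2
    intro b _
    split_ifs with h
    · exact hf z b (by omega)
    · exact ENNReal.zero_ne_top
  have h1 : ∀ z ∈ I, (∑' b : ℤ, if z < b then d z b else 0) =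
      ∑ b ∈ I, (if z < b then d z b else 0) + ∑' b : ℤ, (if m2 < b then d z b else 0) := by
    intro z hz
    rw [hmem] at hz
    have e1 : ∑ b ∈ I, (if z < b then d z b else 0) = ∑' b : ℤ, (if z < b ∧ b ≤ m2 then d z b else 0) := by
      rw [tsum_eq_sum (s := I)]
      · apply Finset.sum_congr rfl
        intro b hb
        rw [hmem] at hb
        by_cases h : z < b
        · rw [if_pos h, if_pos ⟨h, hb.2⟩]
        · rw [if_neg h, if_neg (fun h' => h h'.1)]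
      · intro b hb
        rw [hmem] at hb
        apply if_neg
        rintro ⟨h, h'⟩
        exact hb ⟨by omega, h'⟩
    rw [e1, ← ENNReal.tsum_add]
    apply tsum_congr
    intro b
    by_cases h : z < b
    · by_cases h' : b ≤ m2
      · rw [if_pos h, if_pos ⟨h, h'⟩, if_neg (by omega), add_zero]
      · rw [if_pos h, if_neg (fun h2 => h' h2.2), if_pos (by omega), zero_add]
    · rw [if_neg h, if_neg (fun h2 => h h2.1), if_neg (by omega), add_zero]
  have h2 : ∀ z ∈ I, (∑' b : ℤ, if b < z then d z b else 0) =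
      ∑ b ∈ I, (if b < z then d z b else 0) + ∑' b : ℤ, (if b ≤ m1 then d z b else 0) := by
    intro z hz
    rw [hmem] at hz
    have e1 : ∑ b ∈ I, (if b < z then d z b else 0) = ∑' b : ℤ, (if b < z ∧ m1 < b then d z b else 0) := by
      rw [tsum_eq_sum (s := I)]
      · apply Finset.sum_congr rfl
        intro b hb
        rw [hmem] at hb
        by_cases h : b < z
        · rw [if_pos h, if_pos ⟨h, hb.1⟩]
        · rw [if_neg h, if_neg (fun h' => h h'.1)]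
      · intro b hb
        rw [hmem] at hb
        apply if_neg
        rintro ⟨h, h'⟩
        exact hb ⟨h', by omega⟩
    rw [e1, ← ENNReal.tsum_add]
    apply tsum_congr
    intro b
    by_cases h : b < z
    · by_cases h' : m1 < b
      · rw [if_pos h, if_pos ⟨h, h'⟩, if_neg (by omega), add_zero]
      · rw [if_pos h, if_neg (fun h2 => h' h2.2), if_pos (by omega), zero_add]
    · rw [if_neg h, if_neg (fun h2 => h h2.1), if_neg (by omega), add_zero]
  have h3 : ∑ z ∈ I, (f z + c * (∑' b : ℤ, if z < b then d z b else 0)) =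
      ∑ z ∈ I, (g z + c * (∑' b : ℤ, if b < z then d z b else 0)) := Finset.sum_congr rfl (fun z _ => h z)
  rw [Finset.sum_add_distrib, Finset.sum_add_distrib, ← Finset.mul_sum, ← Finset.mul_sum, Finset.sum_congr rfl h1,
    Finset.sum_congr rfl h2, Finset.sum_add_distrib, Finset.sum_add_distrib, hPQ, ← hP, mul_add, mul_add] at h3
  have hcP : c * P ≠ ∞ := ENNReal.mul_ne_top hc hPtop
  have h4 : c * P + (∑ z ∈ I, f z + c * ∑ z ∈ I, (∑' b : ℤ, if m2 < b then d z b else 0)) =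
      c * P + (∑ z ∈ I, g z + c * ∑ z ∈ I, (∑' b : ℤ, if b ≤ m1 then d z b else 0)) := by
    rw [add_left_comm, h3, add_left_comm]
  exact (ENNReal.add_right_inj hcP).1 h4

/-- the sums over all tops agree. -/
lemma win_eq {f g : ℤ → ℝ≥0∞} {d : ℤ → ℤ → ℝ≥0∞} {c : ℝ≥0∞} (hc : c ≠ ∞) (hs : ∀ t b, t ≠ b → d t b = d b t)
    (hf : ∀ t b, t ≠ b → d t b ≠ ∞)
    (h : ∀ t, f t + c * (∑' b : ℤ, if t < b then d t b else 0) = g t + c * (∑' b : ℤ, if b < t then d t b else 0))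
    (hR : ∀ ε : ℝ≥0∞, 0 < ε → ∃ M : ℕ, ∀ m : ℕ, M ≤ m → ∑' i : ℕ, ∑' j : ℕ, d ((m : ℤ) - i) (m + 1 + j) ≤ ε)
    (hL : ∀ ε : ℝ≥0∞, 0 < ε → ∃ M : ℕ, ∀ m : ℕ, M ≤ m →
      ∑' i : ℕ, ∑' j : ℕ, d (-(m : ℤ) + 1 + i) (-(m : ℤ) - j) ≤ ε) :
    ∑' t, f t = ∑' t, g t := by
  have key : ∀ {f g : ℤ → ℝ≥0∞} {L : ℕ → ℝ≥0∞}, (∀ m : ℕ, ∑ z ∈ Finset.Ioc (-(m : ℤ)) m, f z ≤
      ∑ z ∈ Finset.Ioc (-(m : ℤ)) m, g z + c * L m) →
      (∀ ε : ℝ≥0∞, 0 < ε → ∃ M : ℕ, ∀ m : ℕ, M ≤ m → L m ≤ ε) → ∑' t, f t ≤ ∑' t, g t := by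
    intro f g L h1 h2
    apply ENNReal.le_of_forall_pos_le_add
    intro ε hε _
    have hcε : 0 < (ε : ℝ≥0∞) / (c + 1) :=
      ENNReal.div_pos (by exact_mod_cast hε.ne') (ENNReal.add_ne_top.2 ⟨hc, ENNReal.one_ne_top⟩)
    obtain ⟨M, hM⟩ := h2 _ hcε
    rw [ENNReal.tsum_eq_iSup_sum]
    apply iSup_le
    intro s
    obtain ⟨K, hK⟩ : ∃ K : ℕ, ∀ z ∈ s, -(K : ℤ) < z ∧ z ≤ K := by
      refine ⟨s.sup (fun z => z.natAbs) + 1, fun z hz => ?_⟩
      have := Finset.le_sup (f := fun z : ℤ => z.natAbs) hz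
      push_cast
      omega
    set m := max M K with hm
    have e1 : s ⊆ Finset.Ioc (-(m : ℤ)) m := by
      intro z hz
      have := hK z hz
      have h3 : K ≤ m := le_max_right _ _
      have h4 : (K : ℤ) ≤ m := by exact_mod_cast h3
      rw [Finset.mem_Ioc]
      omega
    refine (Finset.sum_le_sum_of_subset e1).trans ((h1 m).trans (add_le_add (ENNReal.sum_le_tsum _) ?_))
    refine (mul_le_mul_right (hM m (le_max_left _ _)) c).trans ?_
    calc c * ((ε : ℝ≥0∞) / (c + 1)) ≤ (c + 1) * ((ε : ℝ≥0∞) / (c + 1)) := mul_le_mul_left le_self_add _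
      _ ≤ ε := ENNReal.mul_div_le
  apply le_antisymm
  · refine key (L := fun m : ℕ => ∑' i : ℕ, ∑' j : ℕ, d (-(m : ℤ) + 1 + i) (-(m : ℤ) - j)) (fun m => ?_) hL
    have h1 := win_le hc hs hf h (-(m : ℤ)) m
    refine (le_self_add.trans (le_of_eq h1)).trans (add_le_add le_rfl (mul_le_mul_right ?_ _))
    exact KU.reL (fun z hz => (Finset.mem_Ioc.1 hz).1) d
  · refine key (L := fun m : ℕ => ∑' i : ℕ, ∑' j : ℕ, d ((m : ℤ) - i) (m + 1 + j)) (fun m => ?_) hR
    have h1 := win_le hc hs hf h (-(m : ℤ)) m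
    refine (le_self_add.trans (le_of_eq h1.symm)).trans (add_le_add le_rfl (mul_le_mul_right ?_ _))
    exact KU.reR (fun z hz => (Finset.mem_Ioc.1 hz).2) d

/-! ### the arcs that meet w -/

/-- top arcs from t to b that meet Y. -/
def TM (T : ℕ) (Y : Set Pt) (t b : ℤ) : Set (List Bool) :=
  {u | u ∈ TA T (St (T + 1)) ∅ t b ∧ u ∉ TA T (St (T + 1)) Y t b}

/-- arc from the slanted edge to the vertical edge and a top arc from t to b that meets it. -/
noncomputable def DM (T : ℕ) (t b : ℤ) : ℝ≥0∞ :=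
  ∑' w : List Bool, (WA (St (T + 1))).indicator (fun w => wE w * gf (TM T (vis (ft 0) up w) t b)) w

lemma gf_split {A B : Set (List Bool)} (h : B ⊆ A) : gf A = gf B + gf {u | u ∈ A ∧ u ∉ B} := by
  rw [K1.gf_indicator, K1.gf_indicator, K1.gf_indicator, ← ENNReal.tsum_add]
  apply tsum_congr
  intro u
  by_cases hB : u ∈ B
  · rw [Set.indicator_of_mem (h hB), Set.indicator_of_mem hB,
      Set.indicator_of_notMem (fun h' : u ∈ {u | u ∈ A ∧ u ∉ B} => h'.2 hB), add_zero]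
  · by_cases hA : u ∈ A
    · rw [Set.indicator_of_mem hA, Set.indicator_of_notMem hB,
        Set.indicator_of_mem (show u ∈ {u | u ∈ A ∧ u ∉ B} from ⟨hA, hB⟩), zero_add]
    · rw [Set.indicator_of_notMem hA, Set.indicator_of_notMem hB,
        Set.indicator_of_notMem (fun h' : u ∈ {u | u ∈ A ∧ u ∉ B} => hA h'.1), zero_add]

lemma aT_split (T : ℕ) (Y : Set Pt) (t b : ℤ) :
    aT' T t b = gf (TA T (St (T + 1)) Y t b) + gf (TM T Y t b) := by
  rw [← gf_TA]
  exact gf_split ta_sub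

lemma wa_split (T : ℕ) (t b : ℤ) : WW T * aT' T t b = DT T t b + DM T t b := by
  unfold WW DT DM
  rw [K1.gf_indicator, ← ENNReal.tsum_mul_right, ← ENNReal.tsum_add]
  apply tsum_congr
  intro w
  by_cases hw : w ∈ WA (St (T + 1))
  · rw [Set.indicator_of_mem hw, Set.indicator_of_mem hw, Set.indicator_of_mem hw, ← mul_add, ← aT_split]
  · rw [Set.indicator_of_notMem hw, Set.indicator_of_notMem hw, Set.indicator_of_notMem hw, zero_mul, zero_add]

lemma ta_symm (T : ℕ) (Y : Set Pt) (z b : ℤ) :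
    gf (TA T (St (T + 1)) Y z b) = gf (TA T (St (T + 1)) Y b z) := by
  have h0 : ∀ b, tq T b ∉ St (T + 1) \ (OO ∪ Y) := fun b h => KU.tq_notMem T b h.1
  have h1 : ∀ z b : ℤ, TA T (St (T + 1)) Y z b = outAt (St (T + 1) \ (OO ∪ Y)) (tq T z) (-up) (tq T b) up := by
    intro z b
    ext t
    constructor
    · rintro ⟨h1, h2, h3⟩
      exact ⟨⟨h1, by rw [h2]; exact h0 b, h3⟩, h2⟩
    · rintro ⟨⟨h1, -, h3⟩, h2⟩
      exact ⟨h1, h2, h3⟩
  rw [h1, h1]
  exact gf_rev (h0 z) (h0 b)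

lemma tm_symm (T : ℕ) (Y : Set Pt) {z b : ℤ} (h : z ≠ b) : gf (TM T Y z b) = gf (TM T Y b z) := by
  have h1 := aT_split T Y z b
  have h2 := aT_split T Y b z
  rw [aT'_symm, h2, ta_symm T Y z b] at h1
  have h3 : gf (TA T (St (T + 1)) Y b z) ≠ ∞ :=
    ne_top_of_le_ne_top (KU.aT'_top (T := T) h.symm) (h2 ▸ le_self_add)
  exact ((ENNReal.add_right_inj h3).1 h1).symm

lemma dm_symm (T : ℕ) {z b : ℤ} (h : z ≠ b) : DM T z b = DM T b z := by
  unfold DM
  apply tsum_congr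
  intro w
  congr 1
  funext w
  rw [tm_symm T _ h]

lemma dm_top (T : ℕ) {z b : ℤ} (h : z ≠ b) : DM T z b ≠ ∞ := by
  refine ne_top_of_le_ne_top (ENNReal.mul_ne_top (WW_ne_top T) (KU.aT'_top (T := T) h)) ?_
  rw [wa_split]
  exact le_add_self

/-! ### the tails -/

/-- words that meet w. -/
def MT (T : ℕ) (z b : ℤ) (w : List Bool) : Set (List Bool) :=
  {u | u ∈ KU.AA T (z - b) ∧ ∃ l, 1 ≤ l ∧ l ≤ u.length ∧ tq T z - vx oo up u l ∈ vis (ft 0) up w}

lemma tm_sub {T : ℕ} {z b : ℤ} {w : List Bool} : TM T (vis (ft 0) up w) z b ⊆ MT T z b w := by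
  rintro u ⟨⟨h1, h2, h3⟩, h4⟩
  have hv : ∀ i, vx (tq T z) (-up) u i = tq T z - vx oo up u i := fun i => vx_turned _ _ _
  refine ⟨KU.mem_AA.2 ⟨h1.mono Set.sdiff_subset, h2, h3⟩, ?_⟩
  by_contra hcon
  push Not at hcon
  apply h4
  refine ⟨⟨fun i hi hl => ?_, h1.inj⟩, h2, h3⟩
  have h5 := h1.mem i hi hl
  refine ⟨h5.1, ?_⟩
  rintro (h6 | h6)
  · exact h5.2 (Or.inl h6)
  · rw [hv] at h6
    exact hcon i hi hl h6

lemma dm_le (T : ℕ) (z b : ℤ) : DM T z b ≤ ∑' w : List Bool, ∑' u : List Bool,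
    {a : List Bool × List Bool | a.2 ∈ MT T z b a.1}.indicator
      (fun a => (WA (St (T + 1))).indicator wE a.1 * (KU.AA T (z - b)).indicator wE a.2) (w, u) := by
  unfold DM
  apply ENNReal.tsum_le_tsum
  intro w
  by_cases hw : w ∈ WA (St (T + 1))
  · rw [Set.indicator_of_mem hw, K1.gf_indicator, ← ENNReal.tsum_mul_left]
    apply ENNReal.tsum_le_tsum
    intro u
    by_cases hu : u ∈ TM T (vis (ft 0) up w) z b
    · have h1 : ((w, u) : List Bool × List Bool) ∈ {a : List Bool × List Bool | a.2 ∈ MT T z b a.1} := tm_sub hu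
      rw [Set.indicator_of_mem hu, Set.indicator_of_mem h1]
      show wE w * wE u ≤ (WA (St (T + 1))).indicator wE w * (KU.AA T (z - b)).indicator wE u
      rw [Set.indicator_of_mem hw, Set.indicator_of_mem (tm_sub hu).1]
    · rw [Set.indicator_of_notMem hu, mul_zero]
      exact zero_le
  · rw [Set.indicator_of_notMem hw]
    exact zero_le

lemma total2 (T : ℕ) (s : ℤ) (hs : s = 1 ∨ s = -1) :
    ∑' a : ℕ × ℕ × List Bool × List Bool, (WA (St (T + 1))).indicator wE a.2.2.1 *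
      (KU.AA T (s * (a.1 + a.2.1 + 1))).indicator wE a.2.2.2 = WW T * KT (T + 1) := by
  rw [← KU.total T s hs, ← ENNReal.tsum_mul_left,
    ENNReal.tsum_prod' (f := fun a : ℕ × ℕ × List Bool × List Bool => (WA (St (T + 1))).indicator wE a.2.2.1 *
      (KU.AA T (s * (a.1 + a.2.1 + 1))).indicator wE a.2.2.2),
    ENNReal.tsum_prod' (f := fun a : ℕ × ℕ × List Bool => WW T * (KU.AA T (s * (a.1 + a.2.1 + 1))).indicator wE a.2.2)]
  apply tsum_congr
  intro i
  rw [ENNReal.tsum_prod' (f := fun a : ℕ × List Bool × List Bool => (WA (St (T + 1))).indicator wE a.2.1 *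
      (KU.AA T (s * ((i : ℤ) + a.1 + 1))).indicator wE a.2.2),
    ENNReal.tsum_prod' (f := fun a : ℕ × List Bool => WW T * (KU.AA T (s * ((i : ℤ) + a.1 + 1))).indicator wE a.2)]
  apply tsum_congr
  intro j
  rw [ENNReal.tsum_prod' (f := fun a : List Bool × List Bool => (WA (St (T + 1))).indicator wE a.1 *
      (KU.AA T (s * ((i : ℤ) + j + 1))).indicator wE a.2)]
  show ∑' (w : List Bool) (u : List Bool), (WA (St (T + 1))).indicator wE w *
      (KU.AA T (s * ((i : ℤ) + j + 1))).indicator wE u =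
    ∑' u : List Bool, WW T * (KU.AA T (s * ((i : ℤ) + j + 1))).indicator wE u
  have e : WW T = ∑' w : List Bool, (WA (St (T + 1))).indicator wE w := by
    unfold WW
    exact K1.gf_indicator _
  rw [ENNReal.tsum_mul_left, e, ← ENNReal.tsum_mul_right]
  apply tsum_congr
  intro w
  rw [ENNReal.tsum_mul_left]

lemma ft0 : ft 0 = oo := by
  unfold ft foot
  rw [zero_smul, add_zero]

lemma nn_vis {w : List Bool} {p : Pt} (h : p ∈ vis (ft 0) up w) : |nn p| ≤ 2 * w.length := by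
  obtain ⟨i, _, h2, h3⟩ := h
  rw [← h3, ft0]
  refine (KU.nn_bd w i).trans ?_
  have : (i : ℤ) ≤ w.length := by exact_mod_cast h2
  linarith

lemma dm_tail {T : ℕ} (s : ℤ) (hs : s = 1 ∨ s = -1) (zf bf : ℕ → ℕ → ℤ)
    (hzb : ∀ m i j, zf m i - bf m j = s * ((i : ℤ) + j + 1))
    (hB : ∀ a : ℕ × ℕ × List Bool × List Bool, ∃ M, ∀ m, M ≤ m → a.2.2.2 ∉ MT T (zf m a.1) (bf m a.2.1) a.2.2.1)
    {ε : ℝ≥0∞} (hε : 0 < ε) :
    ∃ M : ℕ, ∀ m : ℕ, M ≤ m → ∑' i : ℕ, ∑' j : ℕ, DM T (zf m i) (bf m j) ≤ ε := by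
  have hK : WW T * KT (T + 1) ≠ ∞ := ENNReal.mul_ne_top (WW_ne_top T) (two (T := T + 1) (by omega)).1
  rw [← total2 T s hs] at hK
  obtain ⟨M, hM⟩ := KU.tannery hK (B := fun m => {a : ℕ × ℕ × List Bool × List Bool |
    a.2.2.2 ∈ MT T (zf m a.1) (bf m a.2.1) a.2.2.1}) hB hε
  refine ⟨M, fun m hm => le_trans ?_ (hM m hm)⟩
  rw [ENNReal.tsum_prod']
  apply ENNReal.tsum_le_tsum
  intro i
  rw [ENNReal.tsum_prod']
  apply ENNReal.tsum_le_tsum
  intro j
  rw [ENNReal.tsum_prod']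
  refine (dm_le T _ _).trans ?_
  apply ENNReal.tsum_le_tsum
  intro w
  apply ENNReal.tsum_le_tsum
  intro u
  rw [hzb]
  by_cases hu : u ∈ MT T (zf m i) (bf m j) w
  · have h1 : ((w, u) : List Bool × List Bool) ∈
        {a : List Bool × List Bool | a.2 ∈ MT T (zf m i) (bf m j) a.1} := hu
    have h2 : ((i, j, w, u) : ℕ × ℕ × List Bool × List Bool) ∈ {a : ℕ × ℕ × List Bool × List Bool |
      a.2.2.2 ∈ MT T (zf m a.1) (bf m a.2.1) a.2.2.1} := hu
    rw [Set.indicator_of_mem h1, Set.indicator_of_mem h2]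
  · have h1 : ((w, u) : List Bool × List Bool) ∉
        {a : List Bool × List Bool | a.2 ∈ MT T (zf m i) (bf m j) a.1} := hu
    rw [Set.indicator_of_notMem h1]
    exact zero_le

lemma dm_tailR (T : ℕ) {ε : ℝ≥0∞} (hε : 0 < ε) :
    ∃ M : ℕ, ∀ m : ℕ, M ≤ m → ∑' i : ℕ, ∑' j : ℕ, DM T ((m : ℤ) - i) (m + 1 + j) ≤ ε := by
  refine dm_tail (T := T) (-1) (Or.inr rfl) (fun m i => (m : ℤ) - i) (fun m j => (m : ℤ) + 1 + j)
    (fun m i j => by ring) ?_ hε
  rintro ⟨i, j, w, u⟩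
  refine ⟨i + T + 2 + u.length + w.length, fun m hm ha => ?_⟩
  obtain ⟨-, l, h1, h2, h4⟩ := ha
  simp only at h1 h2 h4
  have h3 := abs_le.1 (nn_vis h4)
  rw [KU.nn_sub] at h3
  have h5 := abs_le.1 (KU.nn_bd u l)
  have h6 : (l : ℤ) ≤ u.length := by exact_mod_cast h2
  have h7 : ((i + T + 2 + u.length + w.length : ℕ) : ℤ) ≤ m := by exact_mod_cast hm
  push_cast at h7
  have h8 : (0 : ℤ) ≤ w.length := Int.natCast_nonneg _
  have h9 : (0 : ℤ) ≤ u.length := Int.natCast_nonneg _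
  linarith [h5.2, h3.2]

lemma dm_tailL (T : ℕ) {ε : ℝ≥0∞} (hε : 0 < ε) :
    ∃ M : ℕ, ∀ m : ℕ, M ≤ m → ∑' i : ℕ, ∑' j : ℕ, DM T (-(m : ℤ) + 1 + i) (-(m : ℤ) - j) ≤ ε := by
  refine dm_tail (T := T) 1 (Or.inl rfl) (fun m i => -(m : ℤ) + 1 + i) (fun m j => -(m : ℤ) - j)
    (fun m i j => by ring) ?_ hε
  rintro ⟨i, j, w, u⟩
  refine ⟨i + 2 + u.length + w.length, fun m hm ha => ?_⟩
  obtain ⟨-, l, h1, h2, h4⟩ := ha
  simp only at h1 h2 h4
  have h3 := abs_le.1 (nn_vis h4)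
  rw [KU.nn_sub] at h3
  have h5 := abs_le.1 (KU.nn_bd u l)
  have h6 : (l : ℤ) ≤ u.length := by exact_mod_cast h2
  have h7 : ((i + 2 + u.length + w.length : ℕ) : ℤ) ≤ m := by exact_mod_cast hm
  push_cast at h7
  have h8 : (0 : ℤ) ≤ w.length := Int.natCast_nonneg _
  have h9 : (0 : ℤ) ≤ u.length := Int.natCast_nonneg _
  have h10 : (0 : ℤ) ≤ T := Int.natCast_nonneg _
  linarith [h5.1, h3.1]

/-! ### partition by the top -/

private lemma m5_IsHex {v : Pt} (h : IsHex oo up v) : (v.1 - v.2) % 3 ≠ 1 := by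
  have h1 : cl oo = 0 := by decide
  have h2 : cl up = -1 := by decide
  unfold IsHex at h
  rw [h1, h2] at h
  intro h3
  have h4 : cl v = 1 := by
    unfold cl
    have : (v.1 - v.2) = 3 * ((v.1 - v.2) / 3) + 1 := by omega
    rw [this]
    push_cast
    have h5 : (3 : ZMod 3) = 0 := by decide
    rw [h5]
    ring
  rw [h4] at h
  revert h
  decide

private lemma m5_ip (v : Pt) : ip (v - oo) up = lv v := by
  unfold ip up oo lv
  simp only [Prod.fst_sub, Prod.snd_sub]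
  ring

/-- the end of a bridge is above a top. -/
lemma br_top {T : ℕ} {t : List Bool} (h : t ∈ Br (St (T + 1)) ∅ (ft 0) up) (h1 : 1 ≤ t.length) :
    ∃ z : ℤ, tip (ft 0) up t = tq T z := by
  rw [ft0] at h ⊢
  obtain ⟨hs, ht, hd⟩ := h
  have hv := (hs.mem t.length h1 le_rfl).1
  have hx : IsHex oo up (tip oo up t) := vx_hex oo up t (t.length + 1)
  have htv : tip oo up t = vx oo up t t.length + up := by
    have h8 : tip oo up t = vx oo up t t.length + dx up t t.length := rfl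
    rw [h8, hd]
  obtain ⟨w, hw⟩ : ∃ w, w = vx oo up t t.length := ⟨_, rfl⟩
  rw [← hw] at hv htv
  obtain ⟨hv1, hv2, hv3⟩ := hv
  have h3 := m5_IsHex hx
  have h4 := m5_IsHex hv1
  have h5 : ¬ (0 < lv (tip oo up t) ∧ lv (tip oo up t) < 3 * ((T + 1 : ℕ) : ℤ) + 2) := by
    intro h6
    apply ht
    refine ⟨hx, ?_, ?_⟩
    · rw [m5_ip]
      exact h6.1
    · rw [m5_ip]
      exact h6.2
  rw [m5_ip] at hv2 hv3
  rw [htv] at h3 h5 ⊢
  obtain ⟨a, b⟩ := w
  unfold lv up at *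
  simp only [Prod.mk_add_mk] at *
  refine ⟨2 * T + 3 - (b + 1), ?_⟩
  unfold tq
  ext
  · push_cast at *
    omega
  · push_cast at *
    omega

lemma brA_top {T : ℕ} {s : List Bool} (h : s ∈ BrA (St (T + 1)) ∅ 0) : ∃ z : ℤ, tip (ft 0) up s = tq T z := by
  apply br_top h.1
  have h7 := h.2.pre.length_le
  unfold SP.pre at h7
  rw [if_pos rfl] at h7
  exact h7

lemma part (T : ℕ) (G : List Bool → ℝ≥0∞) :
    ∑' t : ℤ, ∑' s : List Bool, (BrT T (St (T + 1)) 0 t).indicator G s =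
      ∑' s : List Bool, (BrA (St (T + 1)) ∅ 0).indicator G s := by
  rw [ENNReal.tsum_comm]
  apply tsum_congr
  intro s
  by_cases hs : s ∈ BrA (St (T + 1)) ∅ 0
  · obtain ⟨z, hz⟩ := brA_top hs
    rw [tsum_eq_single z]
    · rw [Set.indicator_of_mem hs, Set.indicator_of_mem (show s ∈ BrT T (St (T + 1)) 0 z from ⟨hs, hz⟩)]
    · intro z' hz'
      apply Set.indicator_of_notMem
      rintro ⟨_, h⟩
      exact hz' (ImTop.tq_inj (h.symm.trans hz))
  · rw [Set.indicator_of_notMem hs, ENNReal.tsum_eq_zero]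
    intro t
    exact Set.indicator_of_notMem (fun h => hs h.1) _

lemma sum_RT (T : ℕ) : ∑' t : ℤ, RT T t = RR T := by
  unfold RT RR ovT overA
  rw [part]
  apply tsum_congr
  intro s
  simp only [Set.empty_union]

lemma sum_PT (T : ℕ) : ∑' t : ℤ, PT T t = PP T 0 1 := by
  unfold PT PP P2A ovT overA
  rw [part]
  apply tsum_congr
  intro s
  simp only [Set.empty_union]

lemma sum_ZT (T : ℕ) : ∑' t : ℤ, ZT T 0 t = XX T := by
  unfold ZT XX
  rw [K1.gf_indicator, ← part]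
  apply tsum_congr
  intro t
  exact K1.gf_indicator _

lemma s1_eq : sn 3 * (Real.sqrt 2 - 1) = sn 1 := by
  have h := ImTop.tan_eq
  unfold sn
  rw [one_mul]
  exact h

theorem xT_sum (T : ℕ) : ENNReal.ofReal xc * ∑' z : ℤ, xT T z = XX T :=
  le_antisymm (xc_sum_le T) (XX_le T)

lemma sqrt2_ge : 0 ≤ Real.sqrt 2 - 1 := by
  have : 1 ≤ Real.sqrt 2 := by
    rw [Real.le_sqrt (by norm_num) (by norm_num)]
    norm_num
  linarith

/-- the contour identity from the top t in the step domain. -/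
theorem k_top {T : ℕ} (hT : 1 ≤ T) (t : ℤ) :
    ENNReal.ofReal (sn 1) * xT T t + ENNReal.ofReal (sn 3) * (∑' b : ℤ, if t < b then aT' T t b else 0) =
      ENNReal.ofReal (sn 3) * (∑' b : ℤ, if b < t then aT' T t b else 0) := by
  have h := le_antisymm (im_top hT t) (im_top_ge hT t)
  rw [← h, mul_add, ← mul_assoc, ← ENNReal.ofReal_mul sn3_pos.le, s1_eq]

/-- the difference of the two contour identities. -/
lemma diff_top {T : ℕ} (hT : 1 ≤ T) (t : ℤ) :
    (ENNReal.ofReal (xc ^ 2 * sn 1) * (WW T * xT T t) + ENNReal.ofReal (xc ^ 2 * sn 1) * ZT T 0 t) +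
      ENNReal.ofReal (xc ^ 2 * sn 3) * (∑' b : ℤ, if t < b then DM T t b else 0) =
    (RT T t + ENNReal.ofReal (sn 1) * PT T t) +
      ENNReal.ofReal (xc ^ 2 * sn 3) * (∑' b : ℤ, if b < t then DM T t b else 0) := by
  have hx2 : 0 ≤ xc ^ 2 := pow_nonneg xc_pos.le _
  have h1 := congrArg (fun a => ENNReal.ofReal (xc ^ 2) * (WW T * a)) (k_top hT t)
  have e1 : ENNReal.ofReal (xc ^ 2 * sn 1) = ENNReal.ofReal (xc ^ 2) * ENNReal.ofReal (sn 1) :=
    ENNReal.ofReal_mul hx2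
  have e3 : ENNReal.ofReal (xc ^ 2 * sn 3) = ENNReal.ofReal (xc ^ 2) * ENNReal.ofReal (sn 3) :=
    ENNReal.ofReal_mul hx2
  have w1 : WW T * (∑' b : ℤ, if t < b then aT' T t b else 0) =
      (∑' b : ℤ, if t < b then DT T t b else 0) + (∑' b : ℤ, if t < b then DM T t b else 0) := by
    rw [← ENNReal.tsum_mul_left, ← ENNReal.tsum_add]
    apply tsum_congr
    intro b
    split_ifs
    · exact wa_split T t b
    · rw [mul_zero, zero_add]
  have w2 : WW T * (∑' b : ℤ, if b < t then aT' T t b else 0) =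
      (∑' b : ℤ, if b < t then DT T t b else 0) + (∑' b : ℤ, if b < t then DM T t b else 0) := by
    rw [← ENNReal.tsum_mul_left, ← ENNReal.tsum_add]
    apply tsum_congr
    intro b
    split_ifs
    · exact wa_split T t b
    · rw [mul_zero, zero_add]
  have h2 : ENNReal.ofReal (xc ^ 2 * sn 1) * (WW T * xT T t) + ENNReal.ofReal (xc ^ 2 * sn 3) *
      ((∑' b : ℤ, if t < b then DT T t b else 0) + (∑' b : ℤ, if t < b then DM T t b else 0)) =
      ENNReal.ofReal (xc ^ 2 * sn 3) *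
      ((∑' b : ℤ, if b < t then DT T t b else 0) + (∑' b : ℤ, if b < t then DM T t b else 0)) := by
    rw [← w1, ← w2, e1, e3]
    calc _ = ENNReal.ofReal (xc ^ 2) * (WW T * (ENNReal.ofReal (sn 1) * xT T t +
          ENNReal.ofReal (sn 3) * (∑' b : ℤ, if t < b then aT' T t b else 0))) := by ring
      _ = ENNReal.ofReal (xc ^ 2) * (WW T * (ENNReal.ofReal (sn 3) *
          (∑' b : ℤ, if b < t then aT' T t b else 0))) := h1
      _ = _ := by ring
  have h3 := e_top hT t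
  have f1 := dr_ne_top T t
  have f2 := dl_ne_top T t
  generalize (∑' b : ℤ, if t < b then DT T t b else 0) = DR at *
  generalize (∑' b : ℤ, if b < t then DT T t b else 0) = DL at *
  generalize (∑' b : ℤ, if t < b then DM T t b else 0) = MR at *
  generalize (∑' b : ℤ, if b < t then DM T t b else 0) = ML at *
  have f3 : ENNReal.ofReal (xc ^ 2 * sn 3) * (DR + DL) ≠ ∞ :=
    ENNReal.mul_ne_top ENNReal.ofReal_ne_top (ENNReal.add_ne_top.2 ⟨f1, f2⟩)
  apply (ENNReal.add_right_inj f3).1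
  calc ENNReal.ofReal (xc ^ 2 * sn 3) * (DR + DL) + (ENNReal.ofReal (xc ^ 2 * sn 1) * (WW T * xT T t) +
        ENNReal.ofReal (xc ^ 2 * sn 1) * ZT T 0 t + ENNReal.ofReal (xc ^ 2 * sn 3) * MR) =
      (ENNReal.ofReal (xc ^ 2 * sn 1) * (WW T * xT T t) + ENNReal.ofReal (xc ^ 2 * sn 3) * (DR + MR)) +
      (ENNReal.ofReal (xc ^ 2 * sn 1) * ZT T 0 t + ENNReal.ofReal (xc ^ 2 * sn 3) * DL) := by ring
    _ = ENNReal.ofReal (xc ^ 2 * sn 3) * (DL + ML) +
      (RT T t + ENNReal.ofReal (sn 1) * PT T t + ENNReal.ofReal (xc ^ 2 * sn 3) * DR) := by rw [h2, h3]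
    _ = _ := by ring

theorem R_eq {T : ℕ} (hT : 1 ≤ T) : RR T + ENNReal.ofReal (sn 1) * PP T 0 1 =
    ENNReal.ofReal (xc ^ 2 * sn 1) * XX T + ENNReal.ofReal (xc * sn 1) * (WW T * XX T) := by
  have h := win_eq (c := ENNReal.ofReal (xc ^ 2 * sn 3)) ENNReal.ofReal_ne_top (fun t b htb => dm_symm T htb)
    (fun t b htb => dm_top T htb) (fun t => diff_top hT t) (fun ε hε => dm_tailR T hε) (fun ε hε => dm_tailL T hε)
  rw [ENNReal.tsum_add, ENNReal.tsum_add, ENNReal.tsum_mul_left, ENNReal.tsum_mul_left, ENNReal.tsum_mul_left,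
    ENNReal.tsum_mul_left, sum_RT, sum_PT, sum_ZT] at h
  rw [← h, add_comm]
  congr 1
  rw [← xT_sum]
  have e : ENNReal.ofReal (xc ^ 2 * sn 1) = ENNReal.ofReal (xc * sn 1) * ENNReal.ofReal xc := by
    rw [← ENNReal.ofReal_mul (mul_nonneg xc_pos.le sn1_pos.le)]
    congr 1
    ring
  rw [e]
  ring

end PG

end HexObs
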